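import Pool.Agent.Work.MP_eef58c_lc.TG.FLocA

set_option autoImplicit false

/-!
# MP_eef58c_lc, TG, module FLoc (M): locality

`F_loc_formula`: split `range L` into `range l`, `{l}`, `Ico (l+1) L`. For `l' > l` and `t ∈ T`: `t.1 ≤ l < l'`, so `w0 l' u t = 1` and `P l' T = 1` (`P_eq_one`), so the
product `∏ i ∈ range l', P i T` is `Π * P l T` with `Π = ∏ i ∈ range l, P i T` (also for `l' = L`). Hence
`F T = A + (card (E l) - Π * ∑ u ∈ E l, ∏ w0) + (∑ l' ∈ Ico (l+1) L, card (E l') + h) (1 - Π * P l T)` and the last bracket is `t (l+1)`; `t l = card (E l) + t (l+1)`,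
`phase_id`.
`F_local`: if `l ≥ L` everything in `F` agrees. If `l < L` use the formula for `D` and `D'`: `t`, `δ` agree (equal cards), `w2` agree, and the terms of the phases `< l` agree (`a i`, `E i`
agree for `i < l`).
-/

namespace Pool.Agent.Work.MP_eef58c_lc.TG

open Finset

variable {U K : Type} [Fintype U] [DecidableEq U] [DecidableEq K]

theorem F_loc_formula {D : FD U K} (hD : D.OK) {l : ℕ} (hl : l < D.L) (T : Finset (ℕ × U × K))
    (hT : ∀ t ∈ T, t.1 = l → t.2.2 = D.a l → t.2.1 ∈ D.E l) (hT' : ∀ t ∈ T, t.1 ≤ l) :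
    D.F T = ∑ l' ∈ range l, ∑ u ∈ D.E l', (1 - (∏ t ∈ T, D.w0 l' u t) * ∏ i ∈ range l', D.P i T) +
      D.t l - (∏ i ∈ range l, D.P i T) * ∑ u, D.t l / Fintype.card U * ∏ t ∈ T, D.w2 l u t := by
  have hw : ∀ l', l < l' → ∀ u, ∏ t ∈ T, D.w0 l' u t = 1 := by
    intro l' hl' u
    refine Finset.prod_eq_one fun t ht => ?_
    have h1 := hT' t ht
    have h2 : ¬(t.1 = l' ∧ t.2.1 = u) := fun h => by omega
    simp only [FD.w0, if_neg h2]
  have hP1 : ∀ l', l < l' → l' < D.L → D.P l' T = 1 := by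
    intro l' hl' hl''
    refine P_eq_one hD hl'' fun t ht h => ?_
    have h1 := hT' t ht
    omega
  have hpr : ∀ l', l + 1 ≤ l' → l' ≤ D.L → ∏ i ∈ range l', D.P i T =
      (∏ i ∈ range l, D.P i T) * D.P l T := by
    intro l' h1
    induction l', h1 using Nat.le_induction with
    | base =>
      intro _
      rw [Finset.prod_range_succ]
    | succ m hm ih =>
      intro hmL
      rw [Finset.prod_range_succ, ih (by omega), hP1 m (by omega) (by omega), mul_one]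
  have hsplit : ∀ f : ℕ → ℝ, ∑ l' ∈ range D.L, f l' =
      ∑ l' ∈ range l, f l' + (f l + ∑ l' ∈ Ico (l + 1) D.L, f l') := by
    intro f
    rw [← Finset.sum_eq_sum_Ico_succ_bot hl, Finset.range_eq_Ico, Finset.range_eq_Ico,
      Finset.sum_Ico_consecutive f (Nat.zero_le l) hl.le]
  have hlate : ∀ l' ∈ Ico (l + 1) D.L,
      ∑ u ∈ D.E l', (1 - (∏ t ∈ T, D.w0 l' u t) * ∏ i ∈ range l', D.P i T) =
      ((D.E l').card : ℝ) * (1 - (∏ i ∈ range l, D.P i T) * D.P l T) := by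
    intro l' hl'
    rw [Finset.mem_Ico] at hl'
    rw [hpr l' hl'.1 hl'.2.le]
    rw [Finset.sum_congr rfl (g := fun _ => 1 - (∏ i ∈ range l, D.P i T) * D.P l T)]
    · rw [Finset.sum_const, nsmul_eq_mul]
    · intro u _
      rw [hw l' (by omega) u, one_mul]
  have hmid : ∑ u ∈ D.E l, (1 - (∏ t ∈ T, D.w0 l u t) * ∏ i ∈ range l, D.P i T) =
      ((D.E l).card : ℝ) - (∏ i ∈ range l, D.P i T) * ∑ u ∈ D.E l, ∏ t ∈ T, D.w0 l u t := by
    rw [Finset.sum_sub_distrib, Finset.sum_const, nsmul_eq_mul, mul_one, ← Finset.sum_mul,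
      mul_comm]
  have hid := phase_id hD T hT
  have ht1 : D.t (l + 1) = D.h + ∑ i ∈ Ico (l + 1) D.L, ((D.E i).card : ℝ) := rfl
  have hts := t_succ (D := D) hl
  unfold FD.F
  rw [hsplit, Finset.sum_congr rfl hlate, ← Finset.sum_mul, hmid, hpr D.L (by omega) le_rfl, ← hid]
  have hsum : ∑ i ∈ Ico (l + 1) D.L, ((D.E i).card : ℝ) = D.t (l + 1) - D.h := by rw [ht1]; ring
  rw [hsum, hts]
  ring

omit [Fintype U] [DecidableEq U] [DecidableEq K] in
private theorem t_congr {D D' : FD U K} (hL : D.L = D'.L) (hh : D.h = D'.h)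
    (hc : ∀ i, (D.E i).card = (D'.E i).card) (l : ℕ) : D.t l = D'.t l := by
  unfold FD.t
  rw [hL, hh]
  congr 1
  exact Finset.sum_congr rfl fun i _ => by rw [hc i]

private theorem w0_congr {D D' : FD U K} (hL : D.L = D'.L) (hh : D.h = D'.h)
    (hc : ∀ i, (D.E i).card = (D'.E i).card) {l : ℕ} (ha : D.a l = D'.a l) (u : U)
    (t : ℕ × U × K) : D.w0 l u t = D'.w0 l u t := by
  unfold FD.w0 FD.δ
  rw [t_congr hL hh hc l, ha]

private theorem P_congr {D D' : FD U K} (hL : D.L = D'.L) (hh : D.h = D'.h)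
    (hc : ∀ i, (D.E i).card = (D'.E i).card) {l : ℕ} (ha : D.a l = D'.a l) (hE : D.E l = D'.E l)
    (T : Finset (ℕ × U × K)) : D.P l T = D'.P l T := by
  unfold FD.P FD.π FD.w1 FD.δ
  rw [t_congr hL hh hc l, t_congr hL hh hc (l + 1), ha, hE]

theorem F_local {D D' : FD U K} (hD : D.OK) (hL : D.L = D'.L) (hh : D.h = D'.h) {l : ℕ}
    (ha : ∀ i < l, D.a i = D'.a i) (hE : ∀ i < l, D.E i = D'.E i) (hc : ∀ i, (D.E i).card = (D'.E i).card)
    (T : Finset (ℕ × U × K)) (hT' : ∀ t ∈ T, t.1 ≤ l)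
    (hT : ∀ t ∈ T, t.1 = l → t.2.2 = D.a l → t.2.1 ∈ D.E l)
    (hT2 : ∀ t ∈ T, t.1 = l → t.2.2 = D'.a l → t.2.1 ∈ D'.E l) : D.F T = D'.F T := by
  have hD' : D'.OK := ⟨hD.pos, by rw [← hh]; exact hD.le⟩
  have hP : ∀ i < l, D.P i T = D'.P i T := fun i hi => P_congr hL hh hc (ha i hi) (hE i hi) T
  have hA : ∀ l' ≤ l, ∑ i ∈ range l', ∑ u ∈ D.E i, (1 - (∏ t ∈ T, D.w0 i u t) *
      ∏ j ∈ range i, D.P j T) = ∑ i ∈ range l', ∑ u ∈ D'.E i, (1 - (∏ t ∈ T, D'.w0 i u t) *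
      ∏ j ∈ range i, D'.P j T) := by
    intro l' hl'
    refine Finset.sum_congr rfl fun i hi => ?_
    have hi' : i < l := lt_of_lt_of_le (Finset.mem_range.1 hi) hl'
    rw [hE i hi']
    refine Finset.sum_congr rfl fun u _ => ?_
    rw [Finset.prod_congr rfl fun t _ => w0_congr hL hh hc (ha i hi') u t,
      Finset.prod_congr rfl fun j hj => hP j (lt_trans (Finset.mem_range.1 hj) hi')]
  have hPr : ∀ l' ≤ l, ∏ i ∈ range l', D.P i T = ∏ i ∈ range l', D'.P i T := by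
    intro l' hl'
    exact Finset.prod_congr rfl fun j hj => hP j (lt_of_lt_of_le (Finset.mem_range.1 hj) hl')
  rcases Nat.lt_or_ge l D.L with hl | hl
  · rw [F_loc_formula hD hl T hT hT', F_loc_formula hD' (by rw [← hL]; exact hl) T hT2 hT',
      hA l le_rfl, hPr l le_rfl, t_congr hL hh hc l]
    congr 2
    refine Finset.sum_congr rfl fun u _ => ?_
    congr 1
    refine Finset.prod_congr rfl fun t _ => ?_
    unfold FD.w2 FD.δ
    rw [t_congr hL hh hc l]
  · unfold FD.F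
    rw [hA D.L hl, hPr D.L hl, hh, hL]

end Pool.Agent.Work.MP_eef58c_lc.TG
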