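import Pool.Agent.Work.MP_eef58c_lc.TG.FDefs

set_option autoImplicit false

/-!
# MP_eef58c_lc, TG, module SmA (S-M): nonnegative antitone supermodular functions

`sm_prod_w`: `∏ t ∈ T, w t`, `0 ≤ w ≤ 1`: antitone by `Finset.prod_le_prod_of_subset_of_le_one'`-type lemmas or `prod_sdiff`; supermodular: with `x = ∏ S \ T`, `y = ∏ T \ S`,
`z = ∏ S ∩ T`: `z x + z y ≤ z x y + z` because `z (1 - x) (1 - y) ≥ 0` (compare `g_submod` in Work/MP_eef58c_lc/G1).
`sm_mul`: values `a = f (S ∪ T) ≤ b = f S, c = f T ≤ d = f (S ∩ T)`, `a + d ≥ b + c`, the same with primes; then `d d' ≥ (b + c - a)(b' + c' - a')` and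
`(b + c - a)(b' + c' - a') + a a' - b b' - c c' = (b - a)(c' - a') + (c - a)(b' - a') ≥ 0`.
`sm_sum`: nonnegative combinations. `sm_prod`: induction over the finset.
-/

namespace Pool.Agent.Work.MP_eef58c_lc.TG

open Finset

variable {α : Type} [DecidableEq α]

theorem sm_const {c : ℝ} (hc : 0 ≤ c) : Sm (fun _ : Finset α => c) :=
  ⟨fun _ => hc, fun _ _ _ => le_rfl, fun _ _ => le_rfl⟩

theorem sm_prod_w {w : α → ℝ} (h0 : ∀ t, 0 ≤ w t) (h1 : ∀ t, w t ≤ 1) : Sm (fun T : Finset α => ∏ t ∈ T, w t) := by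
  have hnn : ∀ T : Finset α, 0 ≤ ∏ t ∈ T, w t := fun T => Finset.prod_nonneg fun t _ => h0 t
  have hanti : Antitone (fun T : Finset α => ∏ t ∈ T, w t) := by
    intro S T hST
    have hST' : S ⊆ T := hST
    show ∏ t ∈ T, w t ≤ ∏ t ∈ S, w t
    rw [← Finset.prod_sdiff hST']
    have hle : ∏ t ∈ T \ S, w t ≤ 1 := Finset.prod_le_one (fun t _ => h0 t) fun t _ => h1 t
    exact mul_le_of_le_one_left (hnn S) hle
  refine ⟨hnn, hanti, ?_⟩
  intro S T
  have e := Finset.prod_union_inter (s₁ := S) (s₂ := T) (f := w)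
  have hb : ∏ t ∈ S, w t ≤ ∏ t ∈ S ∩ T, w t := hanti (show S ∩ T ≤ S from Finset.inter_subset_left)
  have hc : ∏ t ∈ T, w t ≤ ∏ t ∈ S ∩ T, w t := hanti (show S ∩ T ≤ T from Finset.inter_subset_right)
  have ha : 0 ≤ ∏ t ∈ S ∪ T, w t := hnn _
  have hb0 : 0 ≤ ∏ t ∈ S, w t := hnn _
  have hc0 : 0 ≤ ∏ t ∈ T, w t := hnn _
  have hd : 0 ≤ ∏ t ∈ S ∩ T, w t := hnn _
  show ∏ t ∈ S, w t + ∏ t ∈ T, w t ≤ ∏ t ∈ S ∪ T, w t + ∏ t ∈ S ∩ T, w t
  generalize ∏ t ∈ S ∪ T, w t = a at *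
  generalize ∏ t ∈ S ∩ T, w t = d at *
  generalize ∏ t ∈ S, w t = b at *
  generalize ∏ t ∈ T, w t = c at *
  rcases hd.lt_or_eq with hd | hd
  · have h : 0 ≤ d * (a + d - b - c) := by
      have : d * (a + d - b - c) = (d - b) * (d - c) := by nlinarith
      rw [this]
      exact mul_nonneg (by linarith) (by linarith)
    have := nonneg_of_mul_nonneg_right h hd
    linarith
  · linarith

private theorem sm_mul_aux {a b c d a' b' c' d' : ℝ} (ha : 0 ≤ a) (hab : a ≤ b) (hac : a ≤ c)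
    (hd : b + c ≤ a + d) (ha' : 0 ≤ a') (hab' : a' ≤ b') (hac' : a' ≤ c') (hd' : b' + c' ≤ a' + d') :
    b * b' + c * c' ≤ a * a' + d * d' := by
  have h1 : (b + c - a) * (b' + c' - a') ≤ d * d' :=
    mul_le_mul (by linarith) (by linarith) (by linarith) (by linarith)
  have h2 : 0 ≤ (b - a) * (c' - a') := mul_nonneg (by linarith) (by linarith)
  have h3 : 0 ≤ (c - a) * (b' - a') := mul_nonneg (by linarith) (by linarith)
  have h4 : (b + c - a) * (b' + c' - a') + a * a' - b * b' - c * c' =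
    (b - a) * (c' - a') + (c - a) * (b' - a') := by ring
  linarith

theorem sm_mul {f g : Finset α → ℝ} (hf : Sm f) (hg : Sm g) : Sm (fun T => f T * g T) := by
  refine ⟨fun T => mul_nonneg (hf.nn T) (hg.nn T), ?_, ?_⟩
  · intro S T hST
    exact mul_le_mul (hf.anti hST) (hg.anti hST) (hg.nn T) (hf.nn S)
  · intro S T
    exact sm_mul_aux (hf.nn (S ∪ T)) (hf.anti (show S ≤ S ∪ T from Finset.subset_union_left))
      (hf.anti (show T ≤ S ∪ T from Finset.subset_union_right)) (hf.sup S T)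
      (hg.nn (S ∪ T)) (hg.anti (show S ≤ S ∪ T from Finset.subset_union_left))
      (hg.anti (show T ≤ S ∪ T from Finset.subset_union_right)) (hg.sup S T)

theorem sm_sum {ι : Type} (s : Finset ι) (c : ι → ℝ) (f : ι → Finset α → ℝ) (hc : ∀ i ∈ s, 0 ≤ c i)
    (hf : ∀ i ∈ s, Sm (f i)) : Sm (fun T => ∑ i ∈ s, c i * f i T) := by
  refine ⟨fun T => Finset.sum_nonneg fun i hi => mul_nonneg (hc i hi) ((hf i hi).nn T), ?_, ?_⟩
  · intro S T hST
    exact Finset.sum_le_sum fun i hi => mul_le_mul_of_nonneg_left ((hf i hi).anti hST) (hc i hi)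
  · intro S T
    show ∑ i ∈ s, c i * f i S + ∑ i ∈ s, c i * f i T ≤
      ∑ i ∈ s, c i * f i (S ∪ T) + ∑ i ∈ s, c i * f i (S ∩ T)
    rw [← Finset.sum_add_distrib, ← Finset.sum_add_distrib]
    refine Finset.sum_le_sum fun i hi => ?_
    rw [← mul_add, ← mul_add]
    exact mul_le_mul_of_nonneg_left ((hf i hi).sup S T) (hc i hi)

theorem sm_prod {ι : Type} (s : Finset ι) (f : ι → Finset α → ℝ) (hf : ∀ i ∈ s, Sm (f i)) :
    Sm (fun T => ∏ i ∈ s, f i T) := by
  classical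
  induction s using Finset.induction_on with
  | empty =>
    simp only [Finset.prod_empty]
    exact sm_const zero_le_one
  | insert i s hi ih =>
    simp only [Finset.prod_insert hi]
    exact sm_mul (hf i (Finset.mem_insert_self i s))
      (ih fun j hj => hf j (Finset.mem_insert_of_mem hj))

end Pool.Agent.Work.MP_eef58c_lc.TG
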