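import Pool.Agent.Work.MP_eef58c_lc.TG.FBas
import Pool.Agent.Work.MP_eef58c_lc.TG.SmA

set_option autoImplicit false

/-!
# MP_eef58c_lc, TG, module FSub (S-M): the function is monotone and submodular, value of the special slots

`P l` is `Sm` (`sm_sum`, `sm_prod_w`, `π_nonneg`, `w1_mem`), so `(∏ w0) * ∏ P i` is `Sm` (`sm_mul`, `sm_prod`), and `F` is a constant minus a nonnegative combination of such
functions. `F_empty`: all products are `1` (`P_eq_one`). `F_special`: for `u ∈ E l` the factor of the slot `(l, u, a l)` is `0`, and `P l T = 1` by `P_eq_one`.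
-/

namespace Pool.Agent.Work.MP_eef58c_lc.TG

open Finset

variable {U K : Type} [Fintype U] [DecidableEq U] [DecidableEq K] {D : FD U K}

private theorem sm_P (hD : D.OK) (l : ℕ) : Sm (D.P l) := by
  have h1 : D.P l = fun T => ∑ u ∈ (Finset.univ : Finset U), D.π l u * ∏ t ∈ T, D.w1 l u t := rfl
  rw [h1]
  exact sm_sum _ _ _ (fun u _ => π_nonneg hD l u) fun u _ =>
    sm_prod_w (fun t => (w1_mem hD l u t).1) fun t => (w1_mem hD l u t).2

private theorem sm_Q (hD : D.OK) (l : ℕ) (u : U) :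
    Sm (fun T => (∏ t ∈ T, D.w0 l u t) * ∏ i ∈ range l, D.P i T) :=
  sm_mul (sm_prod_w (fun t => (w0_mem hD l u t).1) fun t => (w0_mem hD l u t).2)
    (sm_prod _ (fun i => D.P i) fun i _ => sm_P hD i)

private theorem sm_R (hD : D.OK) : Sm (fun T => ∏ i ∈ range D.L, D.P i T) :=
  sm_prod _ (fun i => D.P i) fun i _ => sm_P hD i

private theorem h_nonneg (hD : D.OK) : 0 ≤ D.h :=
  le_trans (Nat.cast_nonneg _) hD.le

theorem F_empty (hD : D.OK) : D.F ∅ = 0 := by
  have hP : ∀ i < D.L, D.P i ∅ = 1 := fun i hi => P_eq_one hD hi fun t ht => by simp at ht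
  unfold FD.F
  have h1 : ∏ i ∈ range D.L, D.P i ∅ = 1 :=
    Finset.prod_eq_one fun i hi => hP i (Finset.mem_range.1 hi)
  rw [h1, sub_self, mul_zero, add_zero]
  refine Finset.sum_eq_zero fun l hl => Finset.sum_eq_zero fun u _ => ?_
  have h2 : ∏ i ∈ range l, D.P i ∅ = 1 :=
    Finset.prod_eq_one fun i hi => hP i (lt_trans (Finset.mem_range.1 hi) (Finset.mem_range.1 hl))
  rw [h2, Finset.prod_empty, mul_one, sub_self]

theorem F_mono (hD : D.OK) : Monotone D.F := by
  intro S T hST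
  unfold FD.F
  refine add_le_add (Finset.sum_le_sum fun l _ => Finset.sum_le_sum fun u _ => ?_)
    (mul_le_mul_of_nonneg_left ?_ (h_nonneg hD))
  · have h1 := (sm_Q hD l u).anti hST
    linarith
  · have h1 := (sm_R hD).anti hST
    linarith

theorem F_submod (hD : D.OK) (S T : Finset (ℕ × U × K)) : D.F (S ∪ T) + D.F (S ∩ T) ≤ D.F S + D.F T := by
  have key : ∀ S T : Finset (ℕ × U × K), D.F S + D.F T =
      ∑ l ∈ range D.L, ∑ u ∈ D.E l, (2 - ((∏ t ∈ S, D.w0 l u t) * ∏ i ∈ range l, D.P i S +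
        (∏ t ∈ T, D.w0 l u t) * ∏ i ∈ range l, D.P i T)) +
        D.h * (2 - (∏ i ∈ range D.L, D.P i S + ∏ i ∈ range D.L, D.P i T)) := by
    intro S T
    unfold FD.F
    have e1 : ∀ a b c d : ℝ, (a + b) + (c + d) = (a + c) + (b + d) := fun a b c d => by ring
    rw [e1, ← Finset.sum_add_distrib]
    congr 1
    · refine Finset.sum_congr rfl fun l _ => ?_
      rw [← Finset.sum_add_distrib]
      exact Finset.sum_congr rfl fun u _ => by ring
    · ring
  rw [key, key]
  refine add_le_add (Finset.sum_le_sum fun l _ => Finset.sum_le_sum fun u _ => ?_)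
    (mul_le_mul_of_nonneg_left ?_ (h_nonneg hD))
  · have h1 := (sm_Q hD l u).sup S T
    linarith
  · have h1 := (sm_R hD).sup S T
    linarith

theorem F_special (hD : D.OK) {T : Finset (ℕ × U × K)} (h1 : ∀ t ∈ T, t.2.2 = D.a t.1)
    (h2 : ∀ l < D.L, ∀ u ∈ D.E l, (l, u, D.a l) ∈ T) : D.F T = ∑ l ∈ range D.L, ((D.E l).card : ℝ) := by
  have hP : ∀ i < D.L, D.P i T = 1 := fun i hi => P_eq_one hD hi fun t ht h => by rw [h1 t ht, h]
  unfold FD.F
  have h3 : ∏ i ∈ range D.L, D.P i T = 1 :=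
    Finset.prod_eq_one fun i hi => hP i (Finset.mem_range.1 hi)
  rw [h3, sub_self, mul_zero, add_zero]
  refine Finset.sum_congr rfl fun l hl => ?_
  have h4 : ∀ u ∈ D.E l, (1 : ℝ) - (∏ t ∈ T, D.w0 l u t) * ∏ i ∈ range l, D.P i T = 1 := by
    intro u hu
    have h5 : ∏ t ∈ T, D.w0 l u t = 0 := by
      refine Finset.prod_eq_zero (h2 l (Finset.mem_range.1 hl) u hu) ?_
      unfold FD.w0
      simp
    rw [h5, zero_mul, sub_zero]
  rw [Finset.sum_congr rfl h4, Finset.sum_const, nsmul_eq_mul, mul_one]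

end Pool.Agent.Work.MP_eef58c_lc.TG
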