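import Pool.Agent.Work.MP_eef58c_lc.TG.EInj

set_option autoImplicit false

/-!
# MP_eef58c_lc, TG, module Slot (S-M): slots of a set of edges

`mem_slots`: definition and `edg_lt`. `slots_inter`: the edge of a slot is unique. `slots_loc`: if all edges in `X` are edges of slots of phases `≤ l` for `a` then the
slots of `X` for `a` and for `a'` (equal below `l`) agree: a slot of `X` for `a` has phase `≤ l` by `edg_inj`, `edg_loc`. For the other inclusion: a slot of `X`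
for `a'` with edge `e ∈ X`; `e` is the edge of a slot `t₀` of phase `≤ l` for `a`, so also for `a'` (`edg_loc`, symmetric), `edg_inj` for `a'`. `bs_loc`: the same proof.
`bs_card_le`: `bs` is the image of the slots with `a`-edge: the number of the base slots is at most the number of edges:
the map `t ↦ e` (choose the edge) is injective by `edg_inj`.
-/

namespace Pool.Agent.Work.MP_eef58c_lc.TG

open Finset

variable {K : Type} [Fintype K] [DecidableEq K]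

private theorem slot_raw (S : Str K) {n : ℕ} (ι : ℕ → S.V → Bool → Fin n) (a : ℕ → K)
    (β : ℕ → S.V → K → Bool) (X : Finset (Sym2 (Fin n))) (t : ℕ × (S.V × Bool) × K) :
    t ∈ S.slots ι a β X ↔ t.1 < S.L ∧ ∃ e ∈ X, S.edg ι a β t.1 t.2.1.1 t.2.1.2 t.2.2 = some e := by
  unfold Str.slots
  rw [Finset.mem_filter, Finset.mem_product, Finset.mem_range]
  constructor
  · rintro ⟨⟨h1, _⟩, h2⟩
    exact ⟨h1, h2⟩
  · rintro ⟨h1, h2⟩
    exact ⟨⟨h1, Finset.mem_univ _⟩, h2⟩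

private theorem bs_raw (S : Str K) {n : ℕ} (ι : ℕ → S.V → Bool → Fin n) (a : ℕ → K)
    (β : ℕ → S.V → K → Bool) (X : Finset (Sym2 (Fin n))) (t : Fin S.L × S.V × K) :
    t ∈ S.bs ι a β X ↔ ∃ i, ∃ e ∈ X, S.edg ι a β t.1 t.2.1 i t.2.2 = some e := by
  unfold Str.bs
  rw [Finset.mem_filter]
  exact ⟨fun h => h.2, fun h => ⟨Finset.mem_univ _, h⟩⟩

theorem mem_slots {S : Str K} (hS : S.OK) {n : ℕ} (ι : ℕ → S.V → Bool → Fin n) (a : ℕ → K)
    (β : ℕ → S.V → K → Bool) (X : Finset (Sym2 (Fin n))) (t : ℕ × (S.V × Bool) × K) :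
    t ∈ S.slots ι a β X ↔ ∃ e ∈ X, S.edg ι a β t.1 t.2.1.1 t.2.1.2 t.2.2 = some e := by
  rw [slot_raw]
  constructor
  · rintro ⟨_, h2⟩
    exact h2
  · rintro ⟨e, he, h2⟩
    exact ⟨edg_lt hS h2, e, he, h2⟩

theorem slots_empty (S : Str K) {n : ℕ} (ι : ℕ → S.V → Bool → Fin n) (a : ℕ → K)
    (β : ℕ → S.V → K → Bool) : S.slots ι a β ∅ = ∅ := by
  ext t
  rw [slot_raw]
  constructor
  · rintro ⟨_, e, he, _⟩
    exact absurd he (Finset.notMem_empty e)
  · intro h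
    exact absurd h (Finset.notMem_empty t)

theorem slots_mono (S : Str K) {n : ℕ} (ι : ℕ → S.V → Bool → Fin n) (a : ℕ → K)
    (β : ℕ → S.V → K → Bool) : Monotone (S.slots ι a β) := by
  intro X Y hXY t ht
  rw [slot_raw] at ht ⊢
  obtain ⟨h1, e, he, h2⟩ := ht
  exact ⟨h1, e, hXY he, h2⟩

theorem slots_union (S : Str K) {n : ℕ} (ι : ℕ → S.V → Bool → Fin n) (a : ℕ → K)
    (β : ℕ → S.V → K → Bool) (X Y : Finset (Sym2 (Fin n))) :
    S.slots ι a β (X ∪ Y) = S.slots ι a β X ∪ S.slots ι a β Y := by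
  ext t
  rw [Finset.mem_union, slot_raw, slot_raw, slot_raw]
  constructor
  · rintro ⟨h1, e, he, h2⟩
    rcases Finset.mem_union.1 he with he | he
    · exact Or.inl ⟨h1, e, he, h2⟩
    · exact Or.inr ⟨h1, e, he, h2⟩
  · rintro (⟨h1, e, he, h2⟩ | ⟨h1, e, he, h2⟩)
    · exact ⟨h1, e, Finset.mem_union_left _ he, h2⟩
    · exact ⟨h1, e, Finset.mem_union_right _ he, h2⟩

theorem slots_inter (S : Str K) {n : ℕ} (ι : ℕ → S.V → Bool → Fin n) (a : ℕ → K)
    (β : ℕ → S.V → K → Bool) (X Y : Finset (Sym2 (Fin n))) :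
    S.slots ι a β (X ∩ Y) = S.slots ι a β X ∩ S.slots ι a β Y := by
  ext t
  rw [Finset.mem_inter, slot_raw, slot_raw, slot_raw]
  constructor
  · rintro ⟨h1, e, he, h2⟩
    exact ⟨⟨h1, e, (Finset.mem_inter.1 he).1, h2⟩, ⟨h1, e, (Finset.mem_inter.1 he).2, h2⟩⟩
  · rintro ⟨⟨h1, e, he, h2⟩, ⟨_, e', he', h2'⟩⟩
    have hee : e = e' := Option.some.inj (h2.symm.trans h2')
    subst hee
    exact ⟨h1, e, Finset.mem_inter.2 ⟨he, he'⟩, h2⟩

theorem slots_loc {S : Str K} (hS : S.OK) {n : ℕ} {ι : ℕ → S.V → Bool → Fin n} (hι : S.Emb ι) {a a' : ℕ → K}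
    (β : ℕ → S.V → K → Bool) {l : ℕ} (h : ∀ i < l, a i = a' i) (X : Finset (Sym2 (Fin n)))
    (hX : ∀ e ∈ X, ∃ l' g i c, l' ≤ l ∧ S.edg ι a β l' g i c = some e) :
    S.slots ι a β X = S.slots ι a' β X ∧ ∀ t ∈ S.slots ι a β X, t.1 ≤ l := by
  have key : ∀ t ∈ S.slots ι a β X, t.1 ≤ l := by
    intro t ht
    rw [slot_raw] at ht
    obtain ⟨_, e, he, h2⟩ := ht
    obtain ⟨l', g, i, c, hl, h3⟩ := hX e he
    have h4 := (edg_inj hS hι h2 h3).1
    omega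
  refine ⟨?_, key⟩
  ext t
  constructor
  · intro ht
    have hk := key t ht
    rw [slot_raw] at ht ⊢
    obtain ⟨h1, e, he, h2⟩ := ht
    refine ⟨h1, e, he, ?_⟩
    rw [← edg_loc hS ι β (fun i hi => h i (lt_of_lt_of_le hi hk)) t.2.1.1 t.2.1.2 t.2.2]
    exact h2
  · intro ht
    rw [slot_raw] at ht ⊢
    obtain ⟨h1, e, he, h2⟩ := ht
    obtain ⟨l', g, i, c, hl, h3⟩ := hX e he
    rw [edg_loc hS ι β (fun i hi => h i (lt_of_lt_of_le hi hl)) g i c] at h3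
    have h4 := (edg_inj hS hι h2 h3).1
    refine ⟨h1, e, he, ?_⟩
    rw [edg_loc hS ι β (fun i hi => h i (lt_of_lt_of_le hi (le_trans (le_of_eq h4) hl))) t.2.1.1 t.2.1.2 t.2.2]
    exact h2

theorem bs_card_le {S : Str K} (hS : S.OK) {n : ℕ} {ι : ℕ → S.V → Bool → Fin n} (hι : S.Emb ι) (a : ℕ → K)
    (β : ℕ → S.V → K → Bool) (X : Finset (Sym2 (Fin n))) : (S.bs ι a β X).card ≤ X.card := by
  classical
  refine Finset.card_le_card_of_forall_subsingleton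
    (fun t e => ∃ i, S.edg ι a β (t.1 : ℕ) t.2.1 i t.2.2 = some e) ?_ ?_
  · intro t ht
    rw [bs_raw] at ht
    obtain ⟨i, e, he, h2⟩ := ht
    exact ⟨e, he, i, h2⟩
  · intro e _ t ht t' ht'
    obtain ⟨_, i, h2⟩ := ht
    obtain ⟨_, i', h2'⟩ := ht'
    obtain ⟨q1, q2, _, q4, _⟩ := edg_inj hS hι h2 h2'
    exact Prod.ext (Fin.ext q1) (Prod.ext q2 q4)

theorem slots_card_eq {S : Str K} (hS : S.OK) {n : ℕ} {ι : ℕ → S.V → Bool → Fin n} (hι : S.Emb ι) (a : ℕ → K)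
    (β : ℕ → S.V → K → Bool) (X : Finset (Sym2 (Fin n)))
    (hX : ∀ e ∈ X, ∃ l g i c, S.edg ι a β l g i c = some e) : (S.slots ι a β X).card = X.card := by
  classical
  refine le_antisymm ?_ ?_
  · refine Finset.card_le_card_of_forall_subsingleton
      (fun t e => S.edg ι a β t.1 t.2.1.1 t.2.1.2 t.2.2 = some e) ?_ ?_
    · intro t ht
      rw [slot_raw] at ht
      exact ht.2
    · intro e _ t ht t' ht'
      obtain ⟨q1, q2, q3, q4, _⟩ := edg_inj hS hι ht.2 ht'.2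
      exact Prod.ext q1 (Prod.ext (Prod.ext q2 q3) q4)
  · refine Finset.card_le_card_of_forall_subsingleton
      (fun e t => S.edg ι a β t.1 t.2.1.1 t.2.1.2 t.2.2 = some e) ?_ ?_
    · intro e he
      obtain ⟨l, g, i, c, h3⟩ := hX e he
      refine ⟨(l, (g, i), c), ?_, h3⟩
      rw [slot_raw]
      exact ⟨edg_lt hS h3, e, he, h3⟩
    · intro t _ e he e' he'
      exact Option.some.inj (he.2.symm.trans he'.2)

theorem bs_loc {S : Str K} (hS : S.OK) {n : ℕ} {ι : ℕ → S.V → Bool → Fin n} (hι : S.Emb ι) {a a' : ℕ → K}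
    (β : ℕ → S.V → K → Bool) {l : ℕ} (h : ∀ i < l, a i = a' i) (X : Finset (Sym2 (Fin n)))
    (hX : ∀ e ∈ X, ∃ l' g i c, l' ≤ l ∧ S.edg ι a β l' g i c = some e) :
    S.bs ι a β X = S.bs ι a' β X := by
  ext t
  constructor
  · intro ht
    rw [bs_raw] at ht ⊢
    obtain ⟨i, e, he, h2⟩ := ht
    obtain ⟨l', g, i', c, hl, h3⟩ := hX e he
    have h4 := (edg_inj hS hι h2 h3).1
    refine ⟨i, e, he, ?_⟩
    rw [← edg_loc hS ι β (fun j hj => h j (lt_of_lt_of_le hj (le_trans (le_of_eq h4) hl))) t.2.1 i t.2.2]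
    exact h2
  · intro ht
    rw [bs_raw] at ht ⊢
    obtain ⟨i, e, he, h2⟩ := ht
    obtain ⟨l', g, i', c, hl, h3⟩ := hX e he
    rw [edg_loc hS ι β (fun j hj => h j (lt_of_lt_of_le hj hl)) g i' c] at h3
    have h4 := (edg_inj hS hι h2 h3).1
    refine ⟨i, e, he, ?_⟩
    rw [edg_loc hS ι β (fun j hj => h j (lt_of_lt_of_le hj (le_trans (le_of_eq h4) hl))) t.2.1 i t.2.2]
    exact h2

theorem bs_mono (S : Str K) {n : ℕ} (ι : ℕ → S.V → Bool → Fin n) (a : ℕ → K)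
    (β : ℕ → S.V → K → Bool) : Monotone (S.bs ι a β) := by
  intro X Y hXY t ht
  rw [bs_raw] at ht ⊢
  obtain ⟨i, e, he, h2⟩ := ht
  exact ⟨i, e, hXY he, h2⟩

end Pool.Agent.Work.MP_eef58c_lc.TG
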