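import Pool.Agent.Work.MP_eef58c_lc.TG.EInj

set_option autoImplicit false

/-!
# MP_eef58c_lc, TG, module StrmA (M): the stream

`mem_strm`: `List.mem_flatMap`, `List.mem_filterMap`, `List.mem_range`, `Finset.mem_toList`. `strm_split`: `List.range L = List.range j ++ r` with all elements of `r`
in `[j, L)` (`List.range_add` or `List.range_eq_range'`). `strm_loc`: `edg_loc` for all phases `l < j` (they need `a i = a' i` for `i < l`, and `l ≤ j - 1`).
`nodup_strm`: `List.nodup_flatMap`: each phase is nodup (`List.Nodup.filterMap` with injectivity from `edg_inj`, `Finset.nodup_toList`), different phases are disjoint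
(`edg_inj`; `List.nodup_range`). `bip_strm`: `X` = the set of the `ι q g i` with `q < p` and `sd g = true`; an edge joins `g` with `h`,
`sd h = !sd g`; use `hι` to see that the other end is not in `X`.
-/

namespace Pool.Agent.Work.MP_eef58c_lc.TG

open Finset

variable {K : Type} [Fintype K]

theorem mem_strm (S : Str K) {n : ℕ} (ι : ℕ → S.V → Bool → Fin n) (a : ℕ → K) (β : ℕ → S.V → K → Bool)
    (j : ℕ) (e : Sym2 (Fin n)) :
    e ∈ S.strm ι a β j ↔ ∃ l g i c, l < j ∧ S.edg ι a β l g i c = some e := by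
  unfold Str.strm Str.ph
  simp only [List.mem_flatMap, List.mem_range, List.mem_filterMap, Finset.mem_toList,
    Finset.mem_univ, true_and]
  constructor
  · rintro ⟨l, hl, ⟨g, i, c⟩, h⟩
    exact ⟨l, g, i, c, hl, h⟩
  · rintro ⟨l, g, i, c, hl, h⟩
    exact ⟨l, hl, ⟨g, i, c⟩, h⟩

theorem strm_split (S : Str K) {n : ℕ} (ι : ℕ → S.V → Bool → Fin n) (a : ℕ → K) (β : ℕ → S.V → K → Bool)
    {j : ℕ} (hj : j ≤ S.L) : ∃ r : List (Sym2 (Fin n)), S.strm ι a β S.L = S.strm ι a β j ++ r ∧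
      ∀ e ∈ r, ∃ l g i c, j ≤ l ∧ S.edg ι a β l g i c = some e := by
  obtain ⟨m, hm⟩ := Nat.exists_eq_add_of_le hj
  refine ⟨((List.range m).map (j + ·)).flatMap (S.ph ι a β), ?_, ?_⟩
  · unfold Str.strm
    rw [hm, List.range_add, List.flatMap_append]
  · intro e he
    rw [List.mem_flatMap] at he
    obtain ⟨l, hl, he⟩ := he
    rw [List.mem_map] at hl
    obtain ⟨k, -, rfl⟩ := hl
    unfold Str.ph at he
    rw [List.mem_filterMap] at he
    obtain ⟨⟨g, i, c⟩, -, h⟩ := he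
    exact ⟨j + k, g, i, c, Nat.le_add_right j k, h⟩

theorem strm_loc {S : Str K} (hS : S.OK) {n : ℕ} (ι : ℕ → S.V → Bool → Fin n) {a a' : ℕ → K}
    (β : ℕ → S.V → K → Bool) {l : ℕ} (h : ∀ i < l, a i = a' i) :
    S.strm ι a β (l + 1) = S.strm ι a' β (l + 1) := by
  unfold Str.strm
  refine List.flatMap_congr fun k hk => ?_
  rw [List.mem_range] at hk
  unfold Str.ph
  refine List.filterMap_congr fun t _ => ?_
  exact edg_loc hS ι β (fun i hi => h i (by omega)) _ _ _

theorem nodup_strm {S : Str K} (hS : S.OK) {n : ℕ} {ι : ℕ → S.V → Bool → Fin n} (hι : S.Emb ι) (a : ℕ → K)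
    (β : ℕ → S.V → K → Bool) (j : ℕ) : (S.strm ι a β j).Nodup := by
  unfold Str.strm
  rw [List.nodup_flatMap]
  constructor
  · intro l _
    unfold Str.ph
    refine List.Nodup.filterMap ?_ (Finset.nodup_toList _)
    rintro ⟨g, i, c⟩ ⟨g', i', c'⟩ e h h'
    obtain ⟨-, h1, h2, h3, -⟩ := edg_inj hS hι (a := a) (β := β) (β' := β)
      (Option.mem_def.1 h) (Option.mem_def.1 h')
    simp only at h1 h2 h3
    rw [h1, h2, h3]
  · refine List.Pairwise.imp_of_mem ?_ (List.nodup_range (n := j))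
    intro l l' _ _ hne e h h'
    unfold Str.ph at h h'
    rw [List.mem_filterMap] at h h'
    obtain ⟨⟨g, i, c⟩, -, h⟩ := h
    obtain ⟨⟨g', i', c'⟩, -, h'⟩ := h'
    exact hne (edg_inj hS hι (a := a) (β := β) (β' := β) h h').1

theorem bip_strm {S : Str K} (hS : S.OK) {n : ℕ} {ι : ℕ → S.V → Bool → Fin n} (hι : S.Emb ι) (a : ℕ → K)
    (β : ℕ → S.V → K → Bool) (j : ℕ) :
    ∃ X : Finset (Fin n), ∀ e ∈ S.strm ι a β j, ∃ u ∈ X, ∃ v, v ∉ X ∧ e = s(u, v) := by
  classical
  refine ⟨univ.filter fun v => ∃ q g i, q < S.p ∧ S.sd g = true ∧ ι q g i = v, ?_⟩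
  intro e he
  rw [mem_strm] at he
  obtain ⟨l, g, i, c, -, he⟩ := he
  have hl := edg_lt hS he
  have hq := hS.q_lt l hl
  obtain ⟨h, hp, rfl⟩ := (edg_some S ι a β l g i c e).1 he
  have hs := hS.side a l g c h hp
  have key : ∀ (u : S.V) (b : Bool), ι (S.q l) u b ∈ (univ.filter fun v =>
      ∃ q g i, q < S.p ∧ S.sd g = true ∧ ι q g i = v) ↔ S.sd u = true := by
    intro u b
    simp only [Finset.mem_filter, Finset.mem_univ, true_and]
    constructor
    · rintro ⟨q, g', i', hq', hg', hι'⟩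
      obtain ⟨-, h1, -⟩ := hι q (S.q l) g' u i' b hq' hq hι'
      rw [← h1]
      exact hg'
    · intro hu
      exact ⟨S.q l, u, b, hq, hu, rfl⟩
  cases hg : S.sd g with
  | true =>
    refine ⟨_, (key g i).2 hg, _, ?_, rfl⟩
    rw [key, hs, hg]
    simp
  | false =>
    refine ⟨ι (S.q l) h (xor i (β l g c)), ?_, ι (S.q l) g i, ?_, Sym2.eq_swap⟩
    · rw [key, hs, hg]
      rfl
    · rw [key, hg]
      simp

end Pool.Agent.Work.MP_eef58c_lc.TG
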