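import Pool.Agent.Work.MP_eef58c_lc.TG.FAppD
import Pool.Agent.Work.MP_eef58c_lc.TG.StrmA
import Pool.Agent.Work.MP_eef58c_lc.TG.Slot
import Pool.Agent.Work.MP_eef58c_lc.TG.FSub
import Pool.Agent.Work.MP_eef58c_lc.TG.FLoc

set_option autoImplicit false

/-!
# MP_eef58c_lc, TG, module FApp (M): the function of the instance

`fd_ok`: `card (V × Bool) = 2 * card V > 0`. `fd_E_card`: `card_sp` and the two halves. `f_empty`, `f_mono`, `f_submod`: `slots_empty`, `slots_mono`, `slots_union`, `slots_inter` and FSub.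
`f_local`: `X ⊆ (strm a β (l+1)).toFinset`, so its edges are edges of slots of phases `≤ l` (`mem_strm`); `slots_loc`: the slots for `a` and `a'` agree and have phases `≤ l`; `F_local` with
`D = fd h a`, `D' = fd h a'`: `E i` for `i < l`: `par a i = par a' i` (`loc`) and `a i = a' i`; cards by `fd_E_card`; `hT`: a slot with colour `a l` in phase `l` has a partner, so its
group is in `E l` (the definition of `edg`); `hT2`: the same for `a'` (`slots_loc`).
-/

namespace Pool.Agent.Work.MP_eef58c_lc.TG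

open Finset

variable {K : Type} [Fintype K] [DecidableEq K]

theorem fd_ok (S : Str K) (hV : 0 < Fintype.card S.V) {h : ℝ} (hh : 2 * (Fintype.card S.V : ℝ) ≤ h) (a : ℕ → K) :
    (S.fd h a).OK := by
  constructor
  · rw [Fintype.card_prod, Fintype.card_bool]
    omega
  · show ((Fintype.card (S.V × Bool) : ℕ) : ℝ) ≤ h
    rw [Fintype.card_prod, Fintype.card_bool]
    push_cast
    linarith

theorem fd_E_card {S : Str K} (hS : S.OK) (h : ℝ) (a : ℕ → K) (l : ℕ) :
    ((S.fd h a).E l).card = 2 * S.m l := by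
  have h1 : (S.fd h a).E l = (univ.filter fun g : S.V => (S.par a l g (a l)).isSome) ×ˢ (univ : Finset Bool) := by
    ext u
    simp [Str.fd]
  rw [h1, card_product, hS.card_sp, card_univ, Fintype.card_bool, mul_comm]

theorem f_empty (S : Str K) (hV : 0 < Fintype.card S.V) {h : ℝ} (hh : 2 * (Fintype.card S.V : ℝ) ≤ h) {n : ℕ}
    (ι : ℕ → S.V → Bool → Fin n) (a : ℕ → K) (β : ℕ → S.V → K → Bool) : S.f h ι a β ∅ = 0 := by
  unfold Str.f
  rw [slots_empty]
  exact F_empty (fd_ok S hV hh a)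

theorem f_mono (S : Str K) (hV : 0 < Fintype.card S.V) {h : ℝ} (hh : 2 * (Fintype.card S.V : ℝ) ≤ h) {n : ℕ}
    (ι : ℕ → S.V → Bool → Fin n) (a : ℕ → K) (β : ℕ → S.V → K → Bool) : Monotone (S.f h ι a β) := by
  intro X Y hXY
  exact F_mono (fd_ok S hV hh a) (slots_mono S ι a β hXY)

theorem f_submod (S : Str K) (hV : 0 < Fintype.card S.V) {h : ℝ} (hh : 2 * (Fintype.card S.V : ℝ) ≤ h) {n : ℕ}
    (ι : ℕ → S.V → Bool → Fin n) (a : ℕ → K) (β : ℕ → S.V → K → Bool) : Submod (S.f h ι a β) := by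
  intro X Y
  unfold Str.f
  rw [slots_union, slots_inter]
  exact F_submod (fd_ok S hV hh a) _ _

theorem f_local {S : Str K} (hS : S.OK) (hV : 0 < Fintype.card S.V) {h : ℝ}
    (hh : 2 * (Fintype.card S.V : ℝ) ≤ h) {n : ℕ} {ι : ℕ → S.V → Bool → Fin n} (hι : S.Emb ι) {a a' : ℕ → K}
    (β : ℕ → S.V → K → Bool) {l : ℕ} (ha : ∀ i < l, a i = a' i) :
    ∀ X ⊆ (S.strm ι a β (l + 1)).toFinset, S.f h ι a β X = S.f h ι a' β X := by
  intro X hX
  have hX' : ∀ e ∈ X, ∃ l' g i c, l' ≤ l ∧ S.edg ι a β l' g i c = some e := by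
    intro e he
    have h1 := hX he
    rw [List.mem_toFinset, mem_strm] at h1
    obtain ⟨l', g, i, c, h2, h3⟩ := h1
    exact ⟨l', g, i, c, by omega, h3⟩
  obtain ⟨h1, h2⟩ := slots_loc hS hι β ha X hX'
  have key : ∀ (b : ℕ → K) (t : ℕ × (S.V × Bool) × K), t ∈ S.slots ι b β X → t.1 = l → t.2.2 = b l →
      t.2.1 ∈ (S.fd h b).E l := by
    intro b t ht h3 h4
    rw [mem_slots hS] at ht
    obtain ⟨e, -, he⟩ := ht
    rw [edg_some] at he
    obtain ⟨x, hx, -⟩ := he
    rw [h3, h4] at hx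
    simp only [Str.fd, mem_filter, mem_univ, true_and]
    rw [hx]
    rfl
  unfold Str.f
  rw [← h1]
  refine F_local (D := S.fd h a) (D' := S.fd h a') (fd_ok S hV hh a) rfl rfl (l := l) ha ?_ ?_ _ h2 ?_ ?_
  · intro i hi
    have e1 : S.par a i = S.par a' i := hS.loc a a' i fun j hj => ha j (hj.trans hi)
    simp only [Str.fd]
    rw [e1, ha i hi]
  · intro i
    rw [fd_E_card hS, fd_E_card hS]
  · exact fun t ht => key a t ht
  · intro t ht
    rw [h1] at ht
    exact key a' t ht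

end Pool.Agent.Work.MP_eef58c_lc.TG
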