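import Mathlib

set_option autoImplicit false

/-!
# MP_eef58c_lc, TG, module Tel (S-M): a telescoping sum (pure Mathlib)

`τ j = h + (p - 1 - j) M` (real), `X j = ∏ j' ∈ range (j+1), (1 - c / τ j')`. `τ j > 0` for `j < p`. `τ j X j - τ (j+1) X (j+1) = X j (τ j - τ (j+1) + c) = X j (M + c)` for `j + 1 < p`
(`τ (j+1) (1 - c / τ (j+1)) = τ (j+1) - c`). Sum over `j < p - 1`: `(M + c) ∑ j < p-1, X j = τ 0 X 0 - τ (p-1) X (p-1) ≥ (τ 0 - c) - τ (p-1) = (p-1) M - c` (`X (p-1) ≤ 1`,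
`τ (p-1) = h`, `τ 0 X 0 = τ 0 - c`), and `X (p-1) ≥ 0`.
-/

namespace Pool.Agent.Work.MP_eef58c_lc.TG

open Finset

theorem tele {h M c : ℝ} (hh : 0 < h) (hM : 0 < M) (hc : 0 ≤ c) (hch : c ≤ h) {p : ℕ} (hp : 1 ≤ p) :
    (((p : ℝ) - 1) * M - c) / (M + c) ≤
      ∑ j ∈ range p, ∏ j' ∈ range (j + 1), (1 - c / (h + ((p : ℝ) - 1 - j') * M)) := by
  obtain ⟨q, rfl⟩ : ∃ q, p = q + 1 := ⟨p - 1, by omega⟩
  have hq : (((q + 1 : ℕ) : ℝ) - 1) = q := by push_cast; ring
  rw [hq]
  set τ : ℕ → ℝ := fun j => h + ((q : ℝ) - j) * M with hτ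
  set X : ℕ → ℝ := fun j => ∏ j' ∈ range (j + 1), (1 - c / τ j') with hX
  have hτh : ∀ j, j ≤ q → h ≤ τ j := by
    intro j hj
    have h1 : (j : ℝ) ≤ q := by exact_mod_cast hj
    have h2 : 0 ≤ ((q : ℝ) - j) * M := mul_nonneg (by linarith) hM.le
    simp only [hτ]
    linarith
  have hf : ∀ j, j ≤ q → 0 ≤ 1 - c / τ j ∧ 1 - c / τ j ≤ 1 := by
    intro j hj
    have h1 := hτh j hj
    have h2 : 0 < τ j := lt_of_lt_of_le hh h1
    have h3 : c / τ j ≤ 1 := (div_le_one h2).2 (hch.trans h1)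
    have h4 : 0 ≤ c / τ j := div_nonneg hc h2.le
    exact ⟨by linarith, by linarith⟩
  have hX0 : ∀ j, j ≤ q → 0 ≤ X j ∧ X j ≤ 1 := by
    intro j hj
    constructor
    · exact Finset.prod_nonneg fun i hi => (hf i (by have := Finset.mem_range.1 hi; omega)).1
    · exact Finset.prod_le_one (fun i hi => (hf i (by have := Finset.mem_range.1 hi; omega)).1)
        (fun i hi => (hf i (by have := Finset.mem_range.1 hi; omega)).2)
  have hsum : ∀ k, k ≤ q → (M + c) * ∑ j ∈ range k, X j = (τ 0 - c) - τ k * X k := by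
    intro k
    induction k with
    | zero =>
      intro _
      have h2 : 0 < τ 0 := lt_of_lt_of_le hh (hτh 0 (Nat.zero_le _))
      have h3 : X 0 = 1 - c / τ 0 := by
        simp only [hX]
        rw [Finset.prod_range_one]
      rw [Finset.sum_range_zero, mul_zero, h3, mul_sub, mul_one, mul_div_cancel₀ _ h2.ne', sub_self]
    | succ k ih =>
      intro hk
      have h1 := ih (by omega)
      have h2 : 0 < τ (k + 1) := lt_of_lt_of_le hh (hτh (k + 1) hk)
      have h3 : X (k + 1) = X k * (1 - c / τ (k + 1)) := by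
        simp only [hX]
        rw [Finset.prod_range_succ _ (k + 1)]
      have h4 : τ (k + 1) * X (k + 1) = X k * (τ (k + 1) - c) := by
        rw [h3, show τ (k + 1) * (X k * (1 - c / τ (k + 1))) =
          X k * (τ (k + 1) - τ (k + 1) * (c / τ (k + 1))) by ring, mul_div_cancel₀ _ h2.ne']
      have h5 : τ (k + 1) = τ k - M := by
        simp only [hτ]
        push_cast
        ring
      rw [Finset.sum_range_succ, mul_add, h1, h4, h5]
      ring
  have h1 := hsum q le_rfl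
  have h2 := hX0 q le_rfl
  have h3 : τ q = h := by
    simp only [hτ]
    ring
  have h4 : τ 0 = h + q * M := by
    simp only [hτ]
    push_cast
    ring
  have h5 : ∑ j ∈ range (q + 1), ∏ j' ∈ range (j + 1), (1 - c / (h + ((q : ℝ) - j') * M)) =
      ∑ j ∈ range q, X j + X q := Finset.sum_range_succ _ _
  rw [h5, div_le_iff₀ (by linarith)]
  have h6 : h * X q ≤ h := by
    have := mul_le_mul_of_nonneg_left h2.2 hh.le
    linarith
  rw [h3, h4] at h1
  nlinarith [h2.1, mul_nonneg h2.1 (show 0 ≤ M + c by linarith)]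

end Pool.Agent.Work.MP_eef58c_lc.TG
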