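import Pool.Agent.Work.MP_eef58c_lc.TG.FUpB
import Pool.Agent.Work.MP_eef58c_lc.TG.Tel

set_option autoImplicit false

/-!
# MP_eef58c_lc, TG, module FUp (S-M): the upper bound

`F_up1`: `∑ l, card (E l) = p M` (`sum_fiberwise`, `hp`, `hM`), minus `F_up2`, `tele`: `p M - M ((p-1) M - c) / (M + c) = p M c / (M + c) + M`.
The number of the slots which are not special is the sum over the copies `j < p`, `≤ p c` (`hTL`: `t.1 < L`, so `q t.1 < p`).
-/

namespace Pool.Agent.Work.MP_eef58c_lc.TG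

open Finset

variable {U K : Type} [Fintype U] [DecidableEq U] [DecidableEq K] {D : FD U K}

theorem F_upper (hD : D.OK) (T : Finset (ℕ × U × K)) (hTL : ∀ t ∈ T, t.1 < D.L) (q : ℕ → ℕ) (hq : Monotone q)
    {p : ℕ} (hp1 : 1 ≤ p) (hp : ∀ l < D.L, q l < p) {M c : ℝ}
    (hM : ∀ j < p, ∑ l ∈ (range D.L).filter (fun l => q l = j), ((D.E l).card : ℝ) = M)
    (hc : ∀ j, ((T.filter fun t => q t.1 = j ∧ t.2.2 ≠ D.a t.1).card : ℝ) ≤ c) (hc0 : 0 ≤ c) (hch : c ≤ D.h)
    (hM0 : 0 < M) :
    D.F T ≤ p * M * (c / (M + c)) + M + D.h + ((T.filter fun t => t.2.2 = D.a t.1).card : ℝ) +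
      Fintype.card U / D.h * (p * c) := by
  have hU : (0 : ℝ) < Fintype.card U := by exact_mod_cast hD.pos
  have hh : 0 < D.h := lt_of_lt_of_le hU hD.le
  have h1 := F_up1 hD T
  have h2 := F_up2 hD T q hq hp hM hc hc0 hch hM0.le
  have h3 := tele hh hM0 hc0 hch hp1
  have hMc : 0 < M + c := by linarith
  -- the sum of the cards
  have h4 : ∑ l ∈ range D.L, ((D.E l).card : ℝ) = p * M := by
    rw [← Finset.sum_fiberwise_of_maps_to (s := range D.L) (t := range p) (g := q)
      (fun l hl => mem_range.2 (hp l (mem_range.1 hl)))]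
    rw [Finset.sum_congr rfl fun j hj => hM j (mem_range.1 hj)]
    rw [Finset.sum_const, card_range, nsmul_eq_mul]
  have h5 : ∑ l ∈ range D.L, ((D.E l).card : ℝ) * (1 - ∏ i ∈ range l, D.P i T) =
      p * M - ∑ l ∈ range D.L, ((D.E l).card : ℝ) * ∏ i ∈ range l, D.P i T := by
    rw [← h4, ← Finset.sum_sub_distrib]
    exact Finset.sum_congr rfl fun l _ => by ring
  have h6 : M * ((((p : ℝ) - 1) * M - c) / (M + c)) ≤
      ∑ l ∈ range D.L, ((D.E l).card : ℝ) * ∏ i ∈ range l, D.P i T :=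
    (mul_le_mul_of_nonneg_left h3 hM0.le).trans h2
  have h7 : (p : ℝ) * M - M * ((((p : ℝ) - 1) * M - c) / (M + c)) = p * M * (c / (M + c)) + M := by
    field_simp
    ring
  -- the slots which are not special
  have h8 : ((T.filter fun t => t.2.2 ≠ D.a t.1).card : ℝ) ≤ p * c := by
    have h9 : (T.filter fun t => t.2.2 ≠ D.a t.1).card =
        ∑ j ∈ range p, ((T.filter fun t => t.2.2 ≠ D.a t.1).filter fun t => q t.1 = j).card :=
      Finset.card_eq_sum_card_fiberwise fun t ht =>
        mem_coe.2 (mem_range.2 (hp _ (hTL t (mem_filter.1 (mem_coe.1 ht)).1)))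
    rw [h9]
    push_cast
    calc ∑ j ∈ range p, (((T.filter fun t => t.2.2 ≠ D.a t.1).filter fun t => q t.1 = j).card : ℝ)
        ≤ ∑ _j ∈ range p, c := by
          refine Finset.sum_le_sum fun j _ => ?_
          refine le_trans (le_of_eq ?_) (hc j)
          congr 2
          rw [Finset.filter_filter]
          exact Finset.filter_congr fun t _ => and_comm
      _ = p * c := by rw [Finset.sum_const, card_range, nsmul_eq_mul]
  have h10 : (Fintype.card U : ℝ) / D.h * ((T.filter fun t => t.2.2 ≠ D.a t.1).card : ℝ) ≤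
      Fintype.card U / D.h * (p * c) := mul_le_mul_of_nonneg_left h8 (by positivity)
  rw [h5] at h1
  linarith

end Pool.Agent.Work.MP_eef58c_lc.TG
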