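import Pool.Agent.Work.MP_eef58c_lc.TG.MatC
import Pool.Agent.Work.MP_eef58c_lc.TG.FApp
import Pool.Agent.Work.MP_eef58c_lc.TG.FUp

set_option autoImplicit false

/-!
# MP_eef58c_lc, TG, module SuccM (M): success for the submodular function

`h = Λ * (2 * card V)`, `N = card (V × Bool) = 2 * card V`. Let `M ⊆ held` be the matching of `Succeeds`, `M'` from `special_matching`; by `F_special` (`fd_E_card`, `sum_all_m`):
`S.f .. M' = ∑ l < L, 2 m l = 2 p S.M`. `F_upper` for `T = slots M` with `q = S.q`, `2 S.M`, `2 c` (`sum_m`, `mat_cov`; `2 c ≤ h` because `c ≤ S.M ≤ card V`, `Λ ≥ 1`):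
`f M ≤ p (2 S.M) (c / (S.M + c)) + 2 S.M + 2 Λ card V + 2 Z + (1/Λ) (p 2 c)` (`mat_spec`, `bs_mono`). With `2 p S.M ≤ α f M`:
`Z ≥ p S.M / α - p S.M c / (S.M + c) - S.M - Λ card V - p c / Λ`, `c / (S.M + c) ≤ 1 / (1 + ρ)`, `card V ≤ 4 S.M`, `c ≤ S.M`.
-/

namespace Pool.Agent.Work.MP_eef58c_lc.TG

open Finset

variable {K : Type} [Fintype K] [DecidableEq K]

theorem succ_msm {S : Str K} (hS : S.OK) (hV : 0 < Fintype.card S.V) {n s : ℕ} {ι : ℕ → S.V → Bool → Fin n}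
    (hι : S.Emb ι) (A : Alg n s) {α ρ Λ : ℝ} (hα : 0 < α) (hρ : 1 ≤ ρ) (hc : ρ * S.c ≤ S.M) (hp : 1 ≤ S.p)
    (hM : 0 < S.M) (h1 : S.M ≤ Fintype.card S.V) (h2 : Fintype.card S.V ≤ 4 * S.M) (hΛ : 1 ≤ Λ) (a : ℕ → K)
    (β : ℕ → S.V → K → Bool)
    (h : A.Succeeds α (S.strm ι a β S.L) (S.f (Λ * (2 * (Fintype.card S.V : ℝ))) ι a β)) :
    (S.p : ℝ) * S.M * (1 / α - 1 / (1 + ρ) - (1 + 4 * Λ) / S.p - 1 / Λ) ≤
      (((S.bs ι a β (A.held (A.state (S.strm ι a β S.L)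
        (S.f (Λ * (2 * (Fintype.card S.V : ℝ))) ι a β)))).filter fun t => t.2.2 = a t.1).card : ℝ) := by
  obtain ⟨M, hMh, hMm, hbest⟩ := h
  obtain ⟨M', hM's, hM'm, hsl, -⟩ := special_matching hS hι a β
  have e1 := hbest M' hM's hM'm
  have hVr : (0 : ℝ) < Fintype.card S.V := by exact_mod_cast hV
  have hcc : (0 : ℝ) ≤ S.c := Nat.cast_nonneg _
  have hMr : (0 : ℝ) < S.M := by exact_mod_cast hM
  have hpr : (1 : ℝ) ≤ S.p := by exact_mod_cast hp
  have hcM : (S.c : ℝ) ≤ S.M := by nlinarith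
  have hMV : (S.M : ℝ) ≤ Fintype.card S.V := by exact_mod_cast h1
  have hV4 : (Fintype.card S.V : ℝ) ≤ 4 * S.M := by exact_mod_cast h2
  set H : ℝ := Λ * (2 * (Fintype.card S.V : ℝ)) with hH
  have hh : 2 * (Fintype.card S.V : ℝ) ≤ H := by rw [hH]; nlinarith
  have hD := fd_ok S hV hh a
  have e2 : S.f H ι a β M' = 2 * (S.p * S.M) := by
    unfold Str.f
    rw [F_special hD]
    · have h3 : ∀ l ∈ range (S.fd H a).L, (((S.fd H a).E l).card : ℝ) = 2 * (S.m l : ℝ) := by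
        intro l _
        rw [fd_E_card hS]
        push_cast
        rfl
      rw [Finset.sum_congr rfl h3, ← Finset.mul_sum]
      have h4 : (∑ l ∈ range (S.fd H a).L, (S.m l : ℝ)) = S.p * S.M := by
        have := sum_all_m hS
        exact_mod_cast this
      rw [h4]
    · intro t ht
      exact ((hsl t).1 ht).2.1
    · intro l hl u hu
      refine (hsl _).2 ⟨hl, rfl, ?_⟩
      simpa [Str.fd] using hu
  have e3 := F_upper hD (S.slots ι a β M) (fun t ht => by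
      rw [mem_slots hS] at ht
      obtain ⟨e, -, he⟩ := ht
      exact edg_lt hS he) S.q hS.q_mono hp hS.q_lt (M := 2 * (S.M : ℝ)) (c := 2 * (S.c : ℝ))
    (by
      intro j hj
      have h3 : ∀ l ∈ (range (S.fd H a).L).filter (fun l => S.q l = j), (((S.fd H a).E l).card : ℝ) =
          2 * (S.m l : ℝ) := by
        intro l _
        rw [fd_E_card hS]
        push_cast
        rfl
      rw [Finset.sum_congr rfl h3, ← Finset.mul_sum]
      have h4 := hS.sum_m j hj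
      have h5 : (∑ l ∈ (range (S.fd H a).L).filter (fun l => S.q l = j), (S.m l : ℝ)) = S.M := by
        exact_mod_cast h4
      rw [h5])
    (by
      intro j
      exact_mod_cast mat_cov hS hι a β hMm j)
    (by positivity)
    (show 2 * (S.c : ℝ) ≤ H by linarith)
    (by positivity)
  have e4 : (((S.slots ι a β M).filter fun t => t.2.2 = (S.fd H a).a t.1).card : ℝ) ≤
      2 * ((((S.bs ι a β (A.held (A.state (S.strm ι a β S.L) (S.f H ι a β)))).filter
        fun t => t.2.2 = a t.1).card : ℕ) : ℝ) := by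
    have h3 := mat_spec hS ι a β M
    have h4 : ((S.bs ι a β M).filter fun t => t.2.2 = a t.1).card ≤
        ((S.bs ι a β (A.held (A.state (S.strm ι a β S.L) (S.f H ι a β)))).filter
          fun t => t.2.2 = a t.1).card :=
      card_le_card (filter_subset_filter _ (bs_mono S ι a β hMh))
    exact_mod_cast h3.trans (Nat.mul_le_mul_left 2 h4)
  set Z : ℝ := ((((S.bs ι a β (A.held (A.state (S.strm ι a β S.L) (S.f H ι a β)))).filter
        fun t => t.2.2 = a t.1).card : ℕ) : ℝ) with hZ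
  have e5 : ((Fintype.card (S.V × Bool) : ℕ) : ℝ) / (S.fd H a).h = 1 / Λ := by
    show ((Fintype.card (S.V × Bool) : ℕ) : ℝ) / H = 1 / Λ
    rw [Fintype.card_prod, Fintype.card_bool, hH]
    push_cast
    have : Λ ≠ 0 := by positivity
    field_simp
  rw [e5] at e3
  have e6 : S.f H ι a β M = (S.fd H a).F (S.slots ι a β M) := rfl
  rw [← e6] at e3
  have e7 : (S.fd H a).h = H := rfl
  rw [e7] at e3
  rw [e2] at e1
  have hΛ0 : 0 < Λ := by linarith
  have f1 : 2 * (S.c : ℝ) / (2 * (S.M : ℝ) + 2 * S.c) ≤ 1 / (1 + ρ) := by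
    rw [div_le_div_iff₀ (by positivity) (by linarith)]
    nlinarith
  have f2 : (S.p : ℝ) * (2 * S.M) * (2 * (S.c : ℝ) / (2 * (S.M : ℝ) + 2 * S.c)) ≤
      (S.p : ℝ) * (2 * S.M) * (1 / (1 + ρ)) := mul_le_mul_of_nonneg_left f1 (by positivity)
  have f3 : 1 / Λ * ((S.p : ℝ) * (2 * S.c)) ≤ 1 / Λ * ((S.p : ℝ) * (2 * S.M)) := by
    apply mul_le_mul_of_nonneg_left _ (by positivity)
    apply mul_le_mul_of_nonneg_left _ (by positivity)
    linarith
  have f4 : H ≤ 8 * Λ * S.M := by rw [hH]; nlinarith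
  have f5 : 2 * ((S.p : ℝ) * S.M) / α ≤ S.f H ι a β M := by
    rw [div_le_iff₀ hα]
    linarith
  have f6 : (S.p : ℝ) * S.M * (1 / α - 1 / (1 + ρ) - (1 + 4 * Λ) / S.p - 1 / Λ) =
      2 * ((S.p : ℝ) * S.M) / α / 2 - (S.p : ℝ) * (2 * S.M) * (1 / (1 + ρ)) / 2 - (S.M + 4 * Λ * S.M) -
        1 / Λ * ((S.p : ℝ) * (2 * S.M)) / 2 := by
    have : (S.p : ℝ) ≠ 0 := by positivity
    have h3 : (S.p : ℝ) * S.M * ((1 + 4 * Λ) / S.p) = S.M + 4 * Λ * S.M := by
      field_simp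
    linear_combination -h3
  rw [f6]
  linarith

end Pool.Agent.Work.MP_eef58c_lc.TG
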