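import Pool.Agent.Work.MP_eef58c_lc.TG.Asm
import Pool.Agent.Work.MP_eef58c_lc.TG.SuccM

set_option autoImplicit false

/-!
# MP_eef58c_lc, TG, module MainM (S-M): maximum submodular matching

`α' = max α 1 < 2 + 1/√2`; `ρ ≥ 1`, `ρ < 1 + 1/√2`, `α' < 1 + ρ`. Choose a natural number `Λ ≥ 1` with `(1 + 4 Λ) / Λ^2 + 1 / Λ ≤ (1/α' - 1/(1+ρ)) / 2 =: θ` and `p = Λ^2`.
`F K S n ι a β = S.f (Λ * (2 * card V)) ι a β`: `asm` with `f_local` and `succ_msm` (`2 * card V ≤ Λ * (2 * card V)`). `nodup_strm`, `bip_strm`, `f_empty`, `f_mono`, `f_submod`. An algorithm which succeeds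
for `α` succeeds for `α'` (`0 = f ∅ ≤ f M`), and `toOuterMeasure` is monotone.
-/

namespace Pool.Agent.Work.MP_eef58c_lc.TG

open Finset

private theorem mm_h {Λ : ℝ} (hΛ : 1 ≤ Λ) (c : ℕ) : 2 * (c : ℝ) ≤ Λ * (2 * (c : ℝ)) := by
  have h : (0 : ℝ) ≤ 2 * (c : ℝ) := by positivity
  nlinarith

theorem main_msm (α δ C : ℝ) (κ : ℕ) (hα : α < 2 + 1 / √2) (hδ : 0 < δ) : ∃ n₀ : ℕ, ∀ n ≥ n₀, ∀ s : ℕ,
    (s : ℝ) ≤ C * n * Real.log n ^ κ → ∀ μ : PMF (Alg n s),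
      ∃ (l : List (Sym2 (Fin n))) (f : Finset (Sym2 (Fin n)) → ℝ),
        l.Nodup ∧ (∃ X : Finset (Fin n), ∀ e ∈ l, ∃ u ∈ X, ∃ v, v ∉ X ∧ e = s(u, v)) ∧
        f ∅ = 0 ∧ Monotone f ∧ Submod f ∧
        μ.toOuterMeasure {A | A.Succeeds α l f} ≤ ENNReal.ofReal δ := by
  have hc0 : 0 < 1 / √(2 : ℝ) := by positivity
  set c0 : ℝ := 1 / √2 with hc0d
  set α' : ℝ := max α 1 with hα'
  have hα1 : 1 ≤ α' := le_max_right _ _
  have hαα : α ≤ α' := le_max_left _ _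
  have hα2 : α' < 2 + c0 := max_lt hα (by linarith)
  set ρ : ℝ := max 1 ((α' + c0) / 2) with hρd
  have hρ1 : 1 ≤ ρ := le_max_left _ _
  have hρ2 : (α' + c0) / 2 ≤ ρ := le_max_right _ _
  have hρ3 : ρ < 1 + c0 := max_lt (by linarith) (by linarith)
  have hαρ : α' < 1 + ρ := by linarith
  set θ : ℝ := (1 / α' - 1 / (1 + ρ)) / 2 with hθd
  have hθ : 0 < θ := by
    have h1 : 1 / (1 + ρ) < 1 / α' := one_div_lt_one_div_of_lt (by linarith) hαρ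
    rw [hθd]
    linarith
  obtain ⟨Λ, hΛ⟩ : ∃ Λ : ℕ, 6 / θ + 1 ≤ (Λ : ℝ) := exists_nat_ge _
  have hΛ1 : (1 : ℝ) ≤ Λ := by
    have : 0 < 6 / θ := by positivity
    linarith
  have hΛ0 : (0 : ℝ) < Λ := by linarith
  have hΛn : 1 ≤ Λ := by exact_mod_cast hΛ1
  have hΛθ : (1 + 4 * (Λ : ℝ)) / ((Λ ^ 2 : ℕ) : ℝ) + 1 / (Λ : ℝ) ≤ θ := by
    have h1 : (1 + 4 * (Λ : ℝ)) / ((Λ ^ 2 : ℕ) : ℝ) + 1 / (Λ : ℝ) ≤ 6 / Λ := by
      rw [Nat.cast_pow, div_add_div _ _ (by positivity) hΛ0.ne', div_le_div_iff₀ (by positivity) hΛ0]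
      nlinarith [mul_pos hΛ0 hΛ0, mul_pos (mul_pos hΛ0 hΛ0) hΛ0]
    have h2 : 6 / (Λ : ℝ) ≤ θ := by
      rw [div_le_iff₀ hΛ0]
      have h3 : 6 / θ ≤ (Λ : ℝ) := by linarith
      rw [div_le_iff₀ hθ] at h3
      linarith
    exact h1.trans h2
  have key := asm (α := α') (θ := θ) (δ := δ) hρ1 hρ3 (p := Λ ^ 2) (Nat.one_le_pow _ _ hΛn) hθ hδ C κ
    (fun K _ _ S n ι a β => S.f ((Λ : ℝ) * (2 * (Fintype.card S.V : ℝ))) ι a β)
    (fun K _ _ S n ι hS hι hV a a' β l ha X hX =>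
      f_local hS hV (mm_h hΛ1 _) hι β ha X hX)
    (by
      intro K _ _ S n s ι A hS hι hV hp hc hM h1 h2 a β hA
      have hp1 : 1 ≤ S.p := by
        rw [hp]
        exact Nat.one_le_pow _ _ hΛn
      have h3 := succ_msm hS hV hι A (α := α') (ρ := ρ) (Λ := (Λ : ℝ)) (by linarith) hρ1 hc hp1 hM h1 h2 hΛ1
        a β hA
      refine le_trans ?_ h3
      rw [hp, mul_comm θ]
      refine mul_le_mul_of_nonneg_left ?_ (by positivity)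
      have h4 : 1 / α' - 1 / (1 + ρ) = 2 * θ := by
        rw [hθd]
        ring
      rw [h4]
      linarith)
  obtain ⟨n₀, hn₀⟩ := key
  refine ⟨n₀, fun n hn s hs μ => ?_⟩
  obtain ⟨K, _, _, S, ι, a, β, hS, hι, hV, hμ⟩ := hn₀ n hn s hs μ
  have hh := mm_h hΛ1 (Fintype.card S.V)
  refine ⟨S.strm ι a β S.L, S.f ((Λ : ℝ) * (2 * (Fintype.card S.V : ℝ))) ι a β,
    nodup_strm hS hι a β S.L, bip_strm hS hι a β S.L, f_empty S hV hh ι a β, f_mono S hV hh ι a β,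
    f_submod S hV hh ι a β, le_trans (MeasureTheory.OuterMeasure.mono _ ?_) hμ⟩
  rintro A ⟨M, hM, hMm, hMf⟩
  refine ⟨M, hM, hMm, fun M' hM' hm' => (hMf M' hM' hm').trans ?_⟩
  refine mul_le_mul_of_nonneg_right hαα ?_
  have h5 := f_mono S hV hh ι a β (Finset.empty_subset M)
  rwa [f_empty S hV hh ι a β] at h5

end Pool.Agent.Work.MP_eef58c_lc.TG
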