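import Pool.Agent.Work.MP_eef58c_lc.TG.Defs

set_option autoImplicit false

/-!
# MP_eef58c_lc, TG, module DLe (S): the number of special edges

Take any `a`. `D = ∑ j < J, #{g : (par a j g (a j)).isSome}`; the sets are disjoint for different `j` (`sp` with `g = g'`), so the sum is the card of a union, `≤ card V`
(`card_biUnion`).
-/

namespace Pool.Agent.Work.MP_eef58c_lc.TG

open Finset

theorem D_le {K : Type} [Nonempty K] {S : Sch K} (hS : S.OK) : S.D ≤ Fintype.card S.V := by
  classical
  let a : ℕ → K := fun _ => Classical.arbitrary K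
  unfold Sch.D
  have h1 : ∑ j ∈ range S.J, S.m j =
      ∑ j ∈ range S.J, (univ.filter fun g => (S.par a j g (a j)).isSome).card :=
    sum_congr rfl fun j _ => (hS.card_sp a j).symm
  rw [h1, ← card_biUnion]
  · exact card_le_univ _
  · intro j _ j' _ hjj
    rw [Function.onFun, disjoint_left]
    intro g hg hg'
    obtain ⟨h, hh⟩ := Option.isSome_iff_exists.1 (mem_filter.1 hg).2
    obtain ⟨h', hh'⟩ := Option.isSome_iff_exists.1 (mem_filter.1 hg').2
    exact hjj (hS.sp a j j' g g h h' hh hh' (Or.inl rfl)).1

end Pool.Agent.Work.MP_eef58c_lc.TG
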