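import Mathlib

set_option autoImplicit false

/-!
# MP_eef58c_lc, TG, module Num (S-M): the final inequality (pure Mathlib)

`T (s + r) / (k γ) ≤ T (C n x^κ + r) / (x^(κ+1) θ n)` with `x = log n` (replace `C` by `max C 0`), which is `T C / (θ x) + T r / (θ n x^(κ+1)) → 0`. For `n` large `x ≥ 1`.
-/

namespace Pool.Agent.Work.MP_eef58c_lc.TG

theorem num_bound (T r κ : ℕ) (C : ℝ) {θ δ : ℝ} (hθ : 0 < θ) (hδ : 0 < δ) : ∃ n₀ : ℕ, ∀ n ≥ n₀, ∀ s : ℕ,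
    (s : ℝ) ≤ C * n * Real.log n ^ κ → ∀ k γ : ℝ, Real.log n ^ (κ + 1) ≤ k → θ * n ≤ γ →
      (T : ℝ) * (s + r) / (k * γ) ≤ δ := by
  obtain ⟨C', hC'⟩ : ∃ C' : ℝ, C' = max C 0 := ⟨_, rfl⟩
  have hC0 : 0 ≤ C' := by rw [hC']; exact le_max_right _ _
  have hCC : C ≤ C' := by rw [hC']; exact le_max_left _ _
  have hlim : Filter.Tendsto (fun n : ℕ => Real.log (n : ℝ)) Filter.atTop Filter.atTop :=
    Real.tendsto_log_atTop.comp tendsto_natCast_atTop_atTop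
  obtain ⟨n₁, hn₁⟩ := Filter.eventually_atTop.1
    (hlim.eventually_ge_atTop (max 1 ((T : ℝ) * (C' + r) / (θ * δ))))
  refine ⟨max n₁ 1, ?_⟩
  intro n hn s hs k γ hk hγ
  have hn1 : n₁ ≤ n := le_trans (le_max_left _ _) hn
  have hn2 : 1 ≤ n := le_trans (le_max_right _ _) hn
  have hn2' : (1:ℝ) ≤ n := by exact_mod_cast hn2
  have hx := hn₁ n hn1
  generalize Real.log (n : ℝ) = x at *
  have hx1 : 1 ≤ x := le_trans (le_max_left _ _) hx
  have hx2 : (T : ℝ) * (C' + r) / (θ * δ) ≤ x := le_trans (le_max_right _ _) hx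
  have hθδ : 0 < θ * δ := mul_pos hθ hδ
  rw [div_le_iff₀ hθδ] at hx2
  have hx0 : 0 < x := by linarith
  have hxk : 1 ≤ x ^ κ := one_le_pow₀ hx1
  have hxk1 : 0 < x ^ (κ + 1) := by positivity
  have hn0 : (0:ℝ) < n := by linarith
  have hθn : 0 < θ * n := mul_pos hθ hn0
  have hk0 : 0 < k := lt_of_lt_of_le hxk1 hk
  have hγ0 : 0 < γ := lt_of_lt_of_le hθn hγ
  have hnx : 1 ≤ (n:ℝ) * x ^ κ := by nlinarith
  have hr0 : (0:ℝ) ≤ r := by positivity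
  have hT0 : (0:ℝ) ≤ T := by positivity
  have hsr : (s:ℝ) + r ≤ (C' + r) * (n * x ^ κ) := by
    have h1 : C * n * x ^ κ ≤ C' * (n * x ^ κ) := by
      rw [mul_assoc]
      exact mul_le_mul_of_nonneg_right hCC (by positivity)
    have h2 : (r:ℝ) ≤ r * (n * x ^ κ) := le_mul_of_one_le_right hr0 hnx
    nlinarith
  rw [div_le_iff₀ (mul_pos hk0 hγ0)]
  calc (T:ℝ) * (s + r) ≤ T * ((C' + r) * (n * x ^ κ)) := mul_le_mul_of_nonneg_left hsr hT0
    _ = (T * (C' + r)) * (n * x ^ κ) := by ring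
    _ ≤ (x * (θ * δ)) * (n * x ^ κ) := mul_le_mul_of_nonneg_right hx2 (by positivity)
    _ = δ * (x ^ (κ + 1) * (θ * n)) := by ring
    _ ≤ δ * (k * γ) := by
      apply mul_le_mul_of_nonneg_left _ hδ.le
      exact mul_le_mul hk hγ hθn.le hk0.le

end Pool.Agent.Work.MP_eef58c_lc.TG
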