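import Pool.Agent.Work.MP_eef58c_lc.TG.SDefs

set_option autoImplicit false

/-!
# MP_eef58c_lc, TG, module Rep (M): copies of a hard scheme one after the other

`J = H.J > 0`. A phase `l < p J` is `l = q J + j` with `q = l / J`, `j = l % J` (`Nat.div_add_mod`); its special colour is
`a l = sh a (q J) j` (`sh a i j = a (i + j)`). `q_lt`: `Nat.div_lt_of_lt_mul`; `q_mono`: `Nat.div_le_div_right`. `loc`: `a, a'` agree below `l`, so `sh a (q J)` and
`sh a' (q J)` agree below `l % J`. `edge`, `sp`: the same `q`, so the same hidden vector `sh a (q J)`: `H.ok.edge`, `H.ok.sp` give `l % J = l' % J`, with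
`l / J = l' / J` we get `l = l'`. `card_sp`: if `l ≥ p J` the filter is empty. `cov`: `H.cov`. `sum_m`: the `l < p J` with `l / J = q` are the `q J + j`,
`j < J` (`Finset.sum_bij` or `sum_image`), `∑ j < J, m j = D`.
-/

namespace Pool.Agent.Work.MP_eef58c_lc.TG

open Finset

variable {K : Type}

private theorem rep_par {H : Hard K} {p : ℕ} {a : ℕ → K} {l : ℕ} {g h : H.V} {c : K}
    (e : (H.rep p).par a l g c = some h) :
    l < p * H.J ∧ H.par (sh a (l / H.J * H.J)) (l % H.J) g c = some h := by
  have e' : (if l < p * H.J then H.par (sh a (l / H.J * H.J)) (l % H.J) g c else none) = some h := e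
  by_cases hl : l < p * H.J
  · rw [if_pos hl] at e'
    exact ⟨hl, e'⟩
  · rw [if_neg hl] at e'
    exact absurd e' (by simp)

private theorem sh_mod (a : ℕ → K) (l J : ℕ) : sh a (l / J * J) (l % J) = a l := by
  show a (l / J * J + l % J) = a l
  rw [Nat.div_add_mod']

theorem rep_ok {H : Hard K} (hH : H.OK) (hJ : 0 < H.J) (p : ℕ) : (H.rep p).OK where
  q_lt := fun l hl => by
    show l / H.J < p
    have hl' : l < p * H.J := hl
    exact (Nat.div_lt_iff_lt_mul hJ).2 hl'
  q_mono := fun l l' h => Nat.div_le_div_right h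
  ge := fun a l g c hl => by
    show (if l < p * H.J then H.par (sh a (l / H.J * H.J)) (l % H.J) g c else none) = none
    have hl' : p * H.J ≤ l := hl
    rw [if_neg (not_lt.2 hl')]
  loc := fun a a' l hl => by
    funext g c
    show (if l < p * H.J then H.par (sh a (l / H.J * H.J)) (l % H.J) g c else none) =
      (if l < p * H.J then H.par (sh a' (l / H.J * H.J)) (l % H.J) g c else none)
    have h1 : H.par (sh a (l / H.J * H.J)) (l % H.J) = H.par (sh a' (l / H.J * H.J)) (l % H.J) := by
      apply hH.ok.loc
      intro i hi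
      show a (l / H.J * H.J + i) = a' (l / H.J * H.J + i)
      apply hl
      have := Nat.div_add_mod' l H.J
      omega
    rw [h1]
  side := fun a l g c h e => hH.ok.side _ _ g c h (rep_par e).2
  edge := fun a l l' g g' c c' h h' hq e e' he => by
    have hq' : l / H.J = l' / H.J := hq
    have e1 := (rep_par e).2
    have e2 := (rep_par e').2
    rw [← hq'] at e2
    obtain ⟨h1, h2, h3⟩ := hH.ok.edge _ _ _ _ _ _ _ _ _ e1 e2 he
    refine ⟨?_, h2, h3⟩
    have h4 := Nat.div_add_mod' l H.J
    have h5 := Nat.div_add_mod' l' H.J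
    rw [← hq'] at h5
    omega
  sp := fun a l l' g g' h h' hq e e' he => by
    have hq' : l / H.J = l' / H.J := hq
    have e1 := (rep_par e).2
    have e2 := (rep_par e').2
    rw [← sh_mod a l H.J] at e1
    rw [← sh_mod a l' H.J, ← hq'] at e2
    obtain ⟨h1, h2⟩ := hH.ok.sp _ _ _ _ _ _ _ e1 e2 he
    refine ⟨?_, h2⟩
    have h4 := Nat.div_add_mod' l H.J
    have h5 := Nat.div_add_mod' l' H.J
    rw [← hq'] at h5
    omega
  card_sp := fun a l => by
    show (univ.filter fun g : H.V => (if l < p * H.J then H.par (sh a (l / H.J * H.J)) (l % H.J) g (a l)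
      else none : Option H.V).isSome).card = if l < p * H.J then H.m (l % H.J) else 0
    by_cases hl : l < p * H.J
    · simp only [if_pos hl]
      rw [← hH.ok.card_sp (sh a (l / H.J * H.J)) (l % H.J), sh_mod]
    · simp only [if_neg hl]
      simp
  cov := fun a l g c h e hc => by
    have e1 := (rep_par e).2
    refine hH.cov (sh a (l / H.J * H.J)) (l % H.J) g c h e1 ?_
    rw [sh_mod]
    exact hc
  card_C := fun a q => hH.card_C _
  sum_m := fun q hq => by
    show ∑ l ∈ (range (p * H.J)).filter (fun l => l / H.J = q),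
      (if l < p * H.J then H.m (l % H.J) else 0) = ∑ j ∈ range H.J, H.m j
    symm
    have hq' : q < p := hq
    have hle : (q + 1) * H.J ≤ p * H.J := Nat.mul_le_mul_right _ hq'
    refine Finset.sum_bij (fun j _ => q * H.J + j) ?_ ?_ ?_ ?_
    · intro j hj
      have hj' := mem_range.1 hj
      rw [mem_filter, mem_range]
      refine ⟨?_, ?_⟩
      · rw [Nat.add_mul, one_mul] at hle
        omega
      · rw [Nat.add_comm, Nat.add_mul_div_right _ _ hJ, Nat.div_eq_of_lt hj', zero_add]
    · intro j _ j' _ h
      exact Nat.add_left_cancel h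
    · intro l hl
      rw [mem_filter, mem_range] at hl
      refine ⟨l % H.J, mem_range.2 (Nat.mod_lt _ hJ), ?_⟩
      rw [← hl.2]
      exact Nat.div_add_mod' l H.J
    · intro j hj
      have hj' := mem_range.1 hj
      rw [if_pos]
      · rw [Nat.add_comm, Nat.add_mul_mod_self_right, Nat.mod_eq_of_lt hj']
      · rw [Nat.add_mul, one_mul] at hle
        omega

end Pool.Agent.Work.MP_eef58c_lc.TG
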