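import Pool.Agent.Work.MP_eef58c_lc.TG.SBits

set_option autoImplicit false

/-!
# MP_eef58c_lc, TG, module SDet (M-L): deterministic algorithms with arbitrary output succeed on few instances

`k = card K`. For `x = (a, β)` write `a' = ha a`, `β' = hb β`. `bad l x`: the condition of `sbits` for `a'`, `β`, `l`. It does not depend on `a l` (`ha (update a l y)` is `Function.update (ha a) l y`,
`Function.update_idem`). For every `a`, `l` at most `card / 2 ^ r` of the `β` are bad (`sbits`), so at most `L / 2 ^ r * card` of the `x` are bad for some `l`.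
If `x` is successful and not bad for any `l`: `γ ≤ ∑ l < L, Z l x`, `Z l x = (S.bp ι a' β' (A.out ..) l (a' l)).card`. For fixed `l`, `β`: with `G a = if succ (a, β) ∧ ¬ bad l (a, β) then Z l (a, β) else 0`:
`k * ∑ a, G a = ∑ a, ∑ c, G (update a l c)` (involution `(a, c) ↦ (update a l c, a l)`, see `g7_swap` in Work/MP_eef58c_lc/G7), and `∑ c, G (update a l c) ≤ s + k + r` for every `a`: it is `0` if `(a, β)` is
bad for `l`, otherwise it is the sum over `C = {c : succ (update a l c, β)}` of `Z l (update a l c, β)`, and `C` satisfies the first condition in `bad` (success implies `out ⊆ stream`), so the sum is `< s + k + r`.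
Hence `γ * #{success, not bad} ≤ ∑ l < L, (s + k + r) / k * card`.
-/

namespace Pool.Agent.Work.MP_eef58c_lc.TG

open Finset

set_option linter.unusedSectionVars false

private theorem swap {K : Type} [Fintype K] [DecidableEq K] {L : ℕ} (i : Fin L) (F : (Fin L → K) → ℕ) :
    ∑ a, ∑ x, F (Function.update a i x) = Fintype.card K * ∑ a, F a := by
  have h1 : ∑ z : (Fin L → K) × K, F (Function.update z.1 i z.2) =
      ∑ z : (Fin L → K) × K, F z.1 := by
    apply Finset.sum_bij' (fun z _ => (Function.update z.1 i z.2, z.1 i))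
      (fun z _ => (Function.update z.1 i z.2, z.1 i))
    · intro z _; simp
    · intro z _; simp
    · intro z _; simp
    · intro z _; simp
    · intro z _; simp
  rw [Fintype.sum_prod_type, Fintype.sum_prod_type] at h1
  rw [h1, Finset.mul_sum]
  refine Finset.sum_congr rfl fun a _ => ?_
  simp

section Aux

variable {K : Type} [Fintype K] [DecidableEq K] [Nonempty K] {S : Str K} {n s : ℕ}

private theorem ha_upd {L : ℕ} (a : Fin L → K) (l : Fin L) (y : K) :
    ha (Function.update a l y) = Function.update (ha a) (l : ℕ) y := by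
  funext i
  by_cases h : i = (l : ℕ)
  · subst h
    rw [Function.update_self]
    unfold ha
    rw [dif_pos l.2]
    exact Function.update_self l y a
  · rw [Function.update_of_ne h]
    unfold ha
    by_cases h2 : i < L
    · rw [dif_pos h2, dif_pos h2, Function.update_of_ne]
      intro h3
      exact h (congrArg Fin.val h3)
    · rw [dif_neg h2, dif_neg h2]

/-- bad for the phase `l` -/
private def Bad (ι : ℕ → S.V → Bool → Fin n) (A : SAlg n s) (r l : ℕ) (a : ℕ → K)
    (β : ℕ → S.V → K → Bool) : Prop :=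
  ∃ C : Finset K, (∀ c ∈ C, A.out (S.strm ι (Function.update a l c) β S.L) ⊆
      (S.strm ι (Function.update a l c) β S.L).toFinset) ∧
    s + Fintype.card K + r ≤ ∑ c ∈ C, (S.bp ι (Function.update a l c) β
      (A.out (S.strm ι (Function.update a l c) β S.L)) l c).card

private theorem bad_update (ι : ℕ → S.V → Bool → Fin n) (A : SAlg n s) (r l : ℕ) (a : ℕ → K)
    (β : ℕ → S.V → K → Bool) (y : K) :
    Bad ι A r l (Function.update a l y) β ↔ Bad ι A r l a β := by
  unfold Bad
  simp only [Function.update_idem]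

/-- the number of the special base slots of the phase `l` in the output -/
private noncomputable def Zl (ι : ℕ → S.V → Bool → Fin n) (A : SAlg n s) (l : ℕ) (a : ℕ → K)
    (β : ℕ → S.V → K → Bool) : ℕ := (S.bp ι a β (A.out (S.strm ι a β S.L)) l (a l)).card

open Classical in
private theorem sum_G (ι : ℕ → S.V → Bool → Fin n) (A : SAlg n s) (α : ℝ) (r : ℕ) (l : Fin S.L)
    (β : ℕ → S.V → K → Bool) :
    Fintype.card K * ∑ a : Fin S.L → K, (if A.Succeeds α (S.strm ι (ha a) β S.L) ∧
      ¬ Bad ι A r l (ha a) β then Zl ι A l (ha a) β else 0) ≤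
      (s + Fintype.card K + r) * Fintype.card (Fin S.L → K) := by
  rw [← swap l]
  have h1 : ∀ a : Fin S.L → K, ∑ c : K, (if A.Succeeds α (S.strm ι (ha (Function.update a l c)) β S.L) ∧
      ¬ Bad ι A r l (ha (Function.update a l c)) β then Zl ι A l (ha (Function.update a l c)) β else 0) ≤
      s + Fintype.card K + r := by
    intro a
    by_cases hb : Bad ι A r l (ha a) β
    · rw [sum_eq_zero]
      · exact Nat.zero_le _
      · intro c _
        rw [if_neg]
        rintro ⟨-, h⟩
        rw [ha_upd, bad_update] at h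
        exact h hb
    · have h2 : ∑ c : K, (if A.Succeeds α (S.strm ι (ha (Function.update a l c)) β S.L) ∧
          ¬ Bad ι A r l (ha (Function.update a l c)) β then Zl ι A l (ha (Function.update a l c)) β
            else 0) =
          ∑ c ∈ univ.filter (fun c => A.Succeeds α (S.strm ι (Function.update (ha a) l c) β S.L)),
            (S.bp ι (Function.update (ha a) l c) β
              (A.out (S.strm ι (Function.update (ha a) l c) β S.L)) l c).card := by
        rw [sum_filter]
        refine sum_congr rfl fun c _ => ?_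
        rw [ha_upd, bad_update]
        unfold Zl
        rw [Function.update_self]
        by_cases h3 : A.Succeeds α (S.strm ι (Function.update (ha a) l c) β S.L)
        · rw [if_pos ⟨h3, hb⟩, if_pos h3]
        · rw [if_neg (fun h => h3 h.1), if_neg h3]
      rw [h2]
      by_contra hc
      refine hb ⟨_, fun c hc => ?_, (not_le.1 hc).le⟩
      exact (mem_filter.1 hc).2.1
  refine (sum_le_sum fun a _ => h1 a).trans (le_of_eq ?_)
  rw [sum_const, smul_eq_mul, card_univ, mul_comm]

open Classical in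
private theorem good (ι : ℕ → S.V → Bool → Fin n) (A : SAlg n s) {α γ : ℝ} (hγ : 0 < γ)
    (hs : ∀ a β, A.Succeeds α (S.strm ι a β S.L) →
      γ ≤ ∑ l ∈ range S.L, ((S.bp ι a β (A.out (S.strm ι a β S.L)) l (a l)).card : ℝ)) (r : ℕ)
    (β : ℕ → S.V → K → Bool) :
    ((univ.filter fun a : Fin S.L → K => A.Succeeds α (S.strm ι (ha a) β S.L) ∧
      ∀ l : Fin S.L, ¬ Bad ι A r l (ha a) β).card : ℝ) ≤
      (S.L : ℝ) * (s + Fintype.card K + r) / (Fintype.card K * γ) * Fintype.card (Fin S.L → K) := by
  have h1 : ((univ.filter fun a : Fin S.L → K => A.Succeeds α (S.strm ι (ha a) β S.L) ∧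
      ∀ l : Fin S.L, ¬ Bad ι A r l (ha a) β).card : ℝ) * γ ≤
      ∑ a : Fin S.L → K, ∑ l : Fin S.L, (((if A.Succeeds α (S.strm ι (ha a) β S.L) ∧
        ¬ Bad ι A r l (ha a) β then Zl ι A l (ha a) β else 0 : ℕ)) : ℝ) := by
    rw [← nsmul_eq_mul]
    calc (univ.filter fun a : Fin S.L → K => A.Succeeds α (S.strm ι (ha a) β S.L) ∧
          ∀ l : Fin S.L, ¬ Bad ι A r l (ha a) β).card • γ
        ≤ ∑ a ∈ univ.filter (fun a : Fin S.L → K => A.Succeeds α (S.strm ι (ha a) β S.L) ∧
          ∀ l : Fin S.L, ¬ Bad ι A r l (ha a) β),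
            ∑ l : Fin S.L, (((if A.Succeeds α (S.strm ι (ha a) β S.L) ∧
              ¬ Bad ι A r l (ha a) β then Zl ι A l (ha a) β else 0 : ℕ)) : ℝ) := by
          apply card_nsmul_le_sum
          intro a hab
          rw [mem_filter] at hab
          refine (hs _ _ hab.2.1).trans (le_of_eq ?_)
          rw [Finset.sum_range]
          refine sum_congr rfl fun l _ => ?_
          rw [if_pos ⟨hab.2.1, hab.2.2 l⟩]
          rfl
      _ ≤ _ := by
          apply sum_le_sum_of_subset_of_nonneg (filter_subset _ _)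
          intro a _ _
          positivity
  have h2 : (Fintype.card K : ℝ) * ∑ a : Fin S.L → K, ∑ l : Fin S.L,
      (((if A.Succeeds α (S.strm ι (ha a) β S.L) ∧
        ¬ Bad ι A r l (ha a) β then Zl ι A l (ha a) β else 0 : ℕ)) : ℝ) ≤
      (S.L : ℝ) * (s + Fintype.card K + r) * Fintype.card (Fin S.L → K) := by
    have h3 : Fintype.card K * ∑ a : Fin S.L → K, ∑ l : Fin S.L,
        (if A.Succeeds α (S.strm ι (ha a) β S.L) ∧
        ¬ Bad ι A r l (ha a) β then Zl ι A l (ha a) β else 0) ≤
      S.L * (s + Fintype.card K + r) * Fintype.card (Fin S.L → K) := by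
      rw [sum_comm, mul_sum]
      refine (sum_le_sum fun l _ => sum_G ι A α r l β).trans (le_of_eq ?_)
      rw [sum_const, card_univ, Fintype.card_fin, smul_eq_mul]
      ring
    exact_mod_cast h3
  have hk : (0 : ℝ) < Fintype.card K := by exact_mod_cast Fintype.card_pos
  rw [div_mul_eq_mul_div, le_div_iff₀ (by positivity)]
  calc ((univ.filter fun a : Fin S.L → K => A.Succeeds α (S.strm ι (ha a) β S.L) ∧
      ∀ l : Fin S.L, ¬ Bad ι A r l (ha a) β).card : ℝ) * (Fintype.card K * γ)
      = Fintype.card K * (((univ.filter fun a : Fin S.L → K =>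
        A.Succeeds α (S.strm ι (ha a) β S.L) ∧ ∀ l : Fin S.L, ¬ Bad ι A r l (ha a) β).card : ℝ) * γ) := by
        ring
    _ ≤ _ := mul_le_mul_of_nonneg_left h1 hk.le
    _ ≤ _ := h2

end Aux

open Classical in
theorem sdet {K : Type} [Fintype K] [DecidableEq K] [Nonempty K] {S : Str K} (hS : S.OK) {n s : ℕ}
    {ι : ℕ → S.V → Bool → Fin n} (hι : S.Emb ι) (A : SAlg n s) {α γ : ℝ} (hγ : 0 < γ)
    (hs : ∀ a β, A.Succeeds α (S.strm ι a β S.L) →
      γ ≤ ∑ l ∈ range S.L, ((S.bp ι a β (A.out (S.strm ι a β S.L)) l (a l)).card : ℝ)) (r : ℕ) :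
    ((univ.filter fun x : (Fin S.L → K) × (Fin S.L × S.V × K → Bool) =>
      A.Succeeds α (S.strm ι (ha x.1) (hb x.2) S.L)).card : ℝ) ≤
      ((S.L : ℝ) * (s + Fintype.card K + r) / (Fintype.card K * γ) + S.L / 2 ^ r) *
        Fintype.card ((Fin S.L → K) × (Fin S.L × S.V × K → Bool)) := by
  set Cc : ℝ := (S.L : ℝ) * (s + Fintype.card K + r) / (Fintype.card K * γ) with hCc
  have h1 : (univ.filter fun x : (Fin S.L → K) × (Fin S.L × S.V × K → Bool) =>
      A.Succeeds α (S.strm ι (ha x.1) (hb x.2) S.L)) ⊆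
      (univ.filter fun x : (Fin S.L → K) × (Fin S.L × S.V × K → Bool) =>
        A.Succeeds α (S.strm ι (ha x.1) (hb x.2) S.L) ∧
          ∀ l : Fin S.L, ¬ Bad ι A r l (ha x.1) (hb x.2)) ∪
      (univ : Finset (Fin S.L)).biUnion fun l =>
        univ.filter fun x : (Fin S.L → K) × (Fin S.L × S.V × K → Bool) =>
          Bad ι A r l (ha x.1) (hb x.2) := by
    intro x hx
    rw [mem_filter] at hx
    rw [mem_union, mem_filter, mem_biUnion]
    by_cases h : ∃ l : Fin S.L, Bad ι A r l (ha x.1) (hb x.2)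
    · obtain ⟨l, hl⟩ := h
      exact Or.inr ⟨l, mem_univ _, mem_filter.2 ⟨mem_univ _, hl⟩⟩
    · exact Or.inl ⟨mem_univ _, hx.2, fun l hl => h ⟨l, hl⟩⟩
  have h2 : ((univ.filter fun x : (Fin S.L → K) × (Fin S.L × S.V × K → Bool) =>
      A.Succeeds α (S.strm ι (ha x.1) (hb x.2) S.L)).card : ℝ) ≤
      ((univ.filter fun x : (Fin S.L → K) × (Fin S.L × S.V × K → Bool) =>
        A.Succeeds α (S.strm ι (ha x.1) (hb x.2) S.L) ∧
          ∀ l : Fin S.L, ¬ Bad ι A r l (ha x.1) (hb x.2)).card : ℝ) +
      ∑ l : Fin S.L, ((univ.filter fun x : (Fin S.L → K) × (Fin S.L × S.V × K → Bool) =>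
        Bad ι A r l (ha x.1) (hb x.2)).card : ℝ) := by
    have h := (card_le_card h1).trans ((card_union_le _ _).trans
      (Nat.add_le_add_left card_biUnion_le _))
    exact_mod_cast h
  have h3 : ((univ.filter fun x : (Fin S.L → K) × (Fin S.L × S.V × K → Bool) =>
        A.Succeeds α (S.strm ι (ha x.1) (hb x.2) S.L) ∧
          ∀ l : Fin S.L, ¬ Bad ι A r l (ha x.1) (hb x.2)).card : ℝ) =
      ∑ β : Fin S.L × S.V × K → Bool, ((univ.filter fun a : Fin S.L → K =>
        A.Succeeds α (S.strm ι (ha a) (hb β) S.L) ∧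
          ∀ l : Fin S.L, ¬ Bad ι A r l (ha a) (hb β)).card : ℝ) := by
    rw [← Nat.cast_sum]
    congr 1
    rw [card_filter, Fintype.sum_prod_type_right]
    exact sum_congr rfl fun β _ => (card_filter _ _).symm
  have h4 : ∀ l : Fin S.L, ((univ.filter fun x : (Fin S.L → K) × (Fin S.L × S.V × K → Bool) =>
        Bad ι A r l (ha x.1) (hb x.2)).card : ℝ) =
      ∑ a : Fin S.L → K, ((univ.filter fun β : Fin S.L × S.V × K → Bool =>
        Bad ι A r l (ha a) (hb β)).card : ℝ) := by
    intro l
    rw [← Nat.cast_sum]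
    congr 1
    rw [card_filter, Fintype.sum_prod_type]
    exact sum_congr rfl fun a _ => (card_filter _ _).symm
  have h5 : ∀ (l : Fin S.L) (a : Fin S.L → K), ((univ.filter fun β : Fin S.L × S.V × K → Bool =>
        Bad ι A r l (ha a) (hb β)).card : ℝ) ≤ 1 / 2 ^ r * Fintype.card (Fin S.L × S.V × K → Bool) := by
    intro l a
    have h7 : (univ.filter fun β : Fin S.L × S.V × K → Bool =>
        Bad ι A r l (ha a) (hb β)).card * 2 ^ r ≤ Fintype.card (Fin S.L × S.V × K → Bool) := by
      refine (Nat.mul_le_mul_right _ (card_le_card fun β hβ => ?_)).trans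
        (sbits hS A hι (ha a) l.2 r)
      rw [mem_filter] at hβ ⊢
      exact ⟨mem_univ _, hβ.2⟩
    have h6 : ((univ.filter fun β : Fin S.L × S.V × K → Bool =>
        Bad ι A r l (ha a) (hb β)).card : ℝ) * 2 ^ r ≤ Fintype.card (Fin S.L × S.V × K → Bool) := by
      exact_mod_cast h7
    rw [one_div, ← div_eq_inv_mul, le_div_iff₀ (by positivity)]
    exact h6
  calc _ ≤ _ := h2
    _ = ∑ β : Fin S.L × S.V × K → Bool, ((univ.filter fun a : Fin S.L → K =>
        A.Succeeds α (S.strm ι (ha a) (hb β) S.L) ∧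
          ∀ l : Fin S.L, ¬ Bad ι A r l (ha a) (hb β)).card : ℝ) +
        ∑ l : Fin S.L, ∑ a : Fin S.L → K, ((univ.filter fun β : Fin S.L × S.V × K → Bool =>
        Bad ι A r l (ha a) (hb β)).card : ℝ) := by
        rw [h3]
        congr 1
        exact sum_congr rfl fun l _ => h4 l
    _ ≤ ∑ β : Fin S.L × S.V × K → Bool, (Cc * Fintype.card (Fin S.L → K)) +
        ∑ l : Fin S.L, ∑ a : Fin S.L → K,
          (1 / 2 ^ r * (Fintype.card (Fin S.L × S.V × K → Bool) : ℝ)) :=
        add_le_add (sum_le_sum fun β _ => good ι A hγ hs r (hb β))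
          (sum_le_sum fun l _ => sum_le_sum fun a _ => h5 l a)
    _ = (Cc + S.L / 2 ^ r) * Fintype.card ((Fin S.L → K) × (Fin S.L × S.V × K → Bool)) := by
        rw [sum_const, sum_const, sum_const, card_univ, card_univ, card_univ, nsmul_eq_mul,
          nsmul_eq_mul, nsmul_eq_mul, Fintype.card_prod, Nat.cast_mul, Fintype.card_fin]
        ring

end Pool.Agent.Work.MP_eef58c_lc.TG
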