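import Pool.Agent.Work.MP_eef58c_lc.TG.SpecM

set_option autoImplicit false

/-!
# MP_eef58c_lc, TG, module MatC (M): matchings have few slots which are not special

`mat_cov`: let `t = (l, (g, i), c)` be a slot of `M` with `S.q l = q`, `c ≠ a l`, `h` the partner. By `cov` one end `x` of `g, h` is in `C a q`; its half is `k` (`i` or
`i xor β`). The map `t ↦ (x, k) ∈ C a q ×ˢ univ` is injective: if `t, t'` have the same `(x, k)` then their edges in `M` have the common vertex `ι q x k`, so they are equal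
(`IsMatching`) and `t = t'` (`edg_inj`). So the number is `≤ 2 * c` (`card_C`, `Finset.card_le_card_of_injOn`, or `Finset.card_le_card_of_forall_subsingleton`).
`mat_spec`: `(l, (g, i), c) ↦ (l, g, c)` maps the special slots of `M` to the special base slots, at most two to one (`i : Bool`).
`mat_card`: `M.card = (slots M).card` (`slots_card_eq`) = special + not special; the latter is the sum over the copies `q < p`.
-/

namespace Pool.Agent.Work.MP_eef58c_lc.TG

open Finset

variable {K : Type} [Fintype K] [DecidableEq K]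

theorem mat_cov {S : Str K} (hS : S.OK) {n : ℕ} {ι : ℕ → S.V → Bool → Fin n} (hι : S.Emb ι) (a : ℕ → K)
    (β : ℕ → S.V → K → Bool) {M : Finset (Sym2 (Fin n))} (hM : IsMatching M) (q : ℕ) :
    ((S.slots ι a β M).filter fun t => S.q t.1 = q ∧ t.2.2 ≠ a t.1).card ≤ 2 * S.c := by
  have h1 : ((S.slots ι a β M).filter fun t => S.q t.1 = q ∧ t.2.2 ≠ a t.1).card ≤
      (S.C a q ×ˢ (univ : Finset Bool)).card := by
    refine Finset.card_le_card_of_forall_subsingleton
      (fun t x => ∃ e ∈ M, S.edg ι a β t.1 t.2.1.1 t.2.1.2 t.2.2 = some e ∧ ι q x.1 x.2 ∈ e) ?_ ?_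
    · intro t ht
      rw [Finset.mem_filter, mem_slots hS] at ht
      obtain ⟨⟨e, he, h2⟩, hq, hc⟩ := ht
      obtain ⟨h, hp, hh⟩ := (edg_some S ι a β _ _ _ _ e).1 h2
      rw [hq] at hh
      rcases hS.cov a _ _ _ h hp hc with h3 | h3
      · rw [hq] at h3
        refine ⟨(t.2.1.1, t.2.1.2), Finset.mem_product.2 ⟨h3, Finset.mem_univ _⟩, e, he, h2, ?_⟩
        rw [← hh]
        exact Sym2.mem_mk_left _ _
      · rw [hq] at h3
        refine ⟨(h, xor t.2.1.2 (β t.1 t.2.1.1 t.2.2)),
          Finset.mem_product.2 ⟨h3, Finset.mem_univ _⟩, e, he, h2, ?_⟩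
        rw [← hh]
        exact Sym2.mem_mk_right _ _
    · rintro x - t ⟨ht, e, he, h2, h3⟩ t' ⟨ht', e', he', h2', h3'⟩
      have h4 := hM e he e' he' _ h3 h3'
      rw [← h4] at h2'
      obtain ⟨r1, r2, r3, r4, -⟩ := edg_inj hS hι h2 h2'
      exact Prod.ext r1 (Prod.ext (Prod.ext r2 r3) r4)
  refine h1.trans ?_
  rw [Finset.card_product, Finset.card_univ, Fintype.card_bool, mul_comm]
  exact Nat.mul_le_mul_left 2 (hS.card_C a q)

theorem mat_spec {S : Str K} (hS : S.OK) {n : ℕ} (ι : ℕ → S.V → Bool → Fin n) (a : ℕ → K)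
    (β : ℕ → S.V → K → Bool) (M : Finset (Sym2 (Fin n))) :
    ((S.slots ι a β M).filter fun t => t.2.2 = a t.1).card ≤
      2 * ((S.bs ι a β M).filter fun t => t.2.2 = a t.1).card := by
  classical
  have h1 : ((S.slots ι a β M).filter fun t => t.2.2 = a t.1).card ≤
      (((S.bs ι a β M).filter fun t => t.2.2 = a t.1) ×ˢ (univ : Finset Bool)).card := by
    refine Finset.card_le_card_of_forall_subsingleton
      (fun t x => (x.1.1 : ℕ) = t.1 ∧ x.1.2.1 = t.2.1.1 ∧ x.1.2.2 = t.2.2 ∧ x.2 = t.2.1.2) ?_ ?_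
    · intro t ht
      rw [Finset.mem_filter, mem_slots hS] at ht
      obtain ⟨⟨e, he, h2⟩, hc⟩ := ht
      have hl := edg_lt hS h2
      refine ⟨((⟨t.1, hl⟩, t.2.1.1, t.2.2), t.2.1.2), Finset.mem_product.2
        ⟨Finset.mem_filter.2 ⟨?_, hc⟩, Finset.mem_univ _⟩, rfl, rfl, rfl, rfl⟩
      unfold Str.bs
      rw [Finset.mem_filter]
      exact ⟨Finset.mem_univ _, t.2.1.2, e, he, h2⟩
    · rintro x - t ⟨-, e1, e2, e3, e4⟩ t' ⟨-, f1, f2, f3, f4⟩
      exact Prod.ext (e1.symm.trans f1) (Prod.ext (Prod.ext (e2.symm.trans f2) (e4.symm.trans f4))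
        (e3.symm.trans f3))
  refine h1.trans ?_
  rw [Finset.card_product, Finset.card_univ, Fintype.card_bool, mul_comm]

theorem mat_card {S : Str K} (hS : S.OK) {n : ℕ} {ι : ℕ → S.V → Bool → Fin n} (hι : S.Emb ι) (a : ℕ → K)
    (β : ℕ → S.V → K → Bool) {M : Finset (Sym2 (Fin n))} (hM : IsMatching M)
    (hE : ∀ e ∈ M, ∃ l g i c, S.edg ι a β l g i c = some e) :
    M.card ≤ 2 * ((S.bs ι a β M).filter fun t => t.2.2 = a t.1).card + 2 * (S.p * S.c) := by
  classical
  rw [← slots_card_eq hS hι a β M hE]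
  have h1 := Finset.card_filter_add_card_filter_not (s := S.slots ι a β M)
    (fun t : ℕ × (S.V × Bool) × K => t.2.2 = a t.1)
  have h2 := mat_spec hS ι a β M
  have h3 : ((S.slots ι a β M).filter fun t => ¬ t.2.2 = a t.1).card ≤ 2 * (S.p * S.c) := by
    have h4 := Finset.card_eq_sum_card_fiberwise
      (s := (S.slots ι a β M).filter fun t => ¬ t.2.2 = a t.1) (t := range S.p)
      (f := fun t : ℕ × (S.V × Bool) × K => S.q t.1) (by
        intro t ht
        rw [Finset.mem_coe, Finset.mem_filter, mem_slots hS] at ht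
        obtain ⟨⟨e, he, h2⟩, -⟩ := ht
        exact Finset.mem_coe.2 (Finset.mem_range.2 (hS.q_lt _ (edg_lt hS h2))))
    rw [h4]
    calc ∑ b ∈ range S.p, (((S.slots ι a β M).filter fun t => ¬ t.2.2 = a t.1).filter
          fun t => S.q t.1 = b).card
        ≤ ∑ _b ∈ range S.p, 2 * S.c := by
          refine Finset.sum_le_sum fun b _ => ?_
          refine le_trans (Finset.card_le_card ?_) (mat_cov hS hι a β hM b)
          intro t ht
          rw [Finset.mem_filter, Finset.mem_filter] at ht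
          exact Finset.mem_filter.2 ⟨ht.1.1, ht.2, ht.1.2⟩
      _ = 2 * (S.p * S.c) := by
          rw [Finset.sum_const, Finset.card_range, smul_eq_mul]
          ring
  omega

end Pool.Agent.Work.MP_eef58c_lc.TG
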