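import Pool.Agent.Work.MP_eef58c_lc.TG.SDefs2
import Pool.Agent.Work.MP_eef58c_lc.TG.MatC

set_option autoImplicit false

/-!
# MP_eef58c_lc, TG, module SSucc (S): success for the cardinality, arbitrary output

`X = A.out ..` is a matching in the stream. `M'` from `special_matching`: `2 p M = card M' ≤ α card X` and `card X ≤ 2 Z + 2 p c` (`mat_card`, `mem_strm`), `Z = #{t ∈ bs X : t.2.2 = a t.1} = ∑ l < L, (bp X l (a l)).card`
(`Finset.card_eq_sum_card_fiberwise` with the map `t.1`, and for fixed `l` the slots `(l, g, a l)` correspond to the `g ∈ bp`). So `Z ≥ p M / α - p c ≥ p M (1/α - 1/ρ)`.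
-/

namespace Pool.Agent.Work.MP_eef58c_lc.TG

open Finset

variable {K : Type} [Fintype K] [DecidableEq K]

theorem ssucc {S : Str K} (hS : S.OK) {n s : ℕ} {ι : ℕ → S.V → Bool → Fin n} (hι : S.Emb ι) (A : SAlg n s)
    {α ρ : ℝ} (hα : 0 < α) (hρ : 0 < ρ) (hc : ρ * S.c ≤ S.M) (a : ℕ → K) (β : ℕ → S.V → K → Bool)
    (h : A.Succeeds α (S.strm ι a β S.L)) :
    (S.p : ℝ) * S.M * (1 / α - 1 / ρ) ≤
      ∑ l ∈ range S.L, ((S.bp ι a β (A.out (S.strm ι a β S.L)) l (a l)).card : ℝ) := by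
  classical
  obtain ⟨hsub, hM, hbest⟩ := h
  generalize A.out (S.strm ι a β S.L) = M at hsub hM hbest ⊢
  obtain ⟨M', hM's, hM', -, hcard⟩ := special_matching hS hι a β
  have h1 := hbest M' hM's hM'
  rw [hcard] at h1
  have hE : ∀ e ∈ M, ∃ l g i c, S.edg ι a β l g i c = some e := by
    intro e he
    have h2 := hsub he
    rw [List.mem_toFinset] at h2
    obtain ⟨l, g, i, c, -, h3⟩ := (mem_strm S ι a β S.L e).1 h2
    exact ⟨l, g, i, c, h3⟩
  have h2 := mat_card hS hι a β hM hE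
  have h3 : ((S.bs ι a β M).filter fun t => t.2.2 = a t.1).card =
      ∑ l ∈ range S.L, (S.bp ι a β M l (a l)).card := by
    have h4 : ((S.bs ι a β M).filter fun t => t.2.2 = a t.1).card =
        ∑ l : Fin S.L, (((S.bs ι a β M).filter fun t => t.2.2 = a t.1).filter fun t => t.1 = l).card :=
      Finset.card_eq_sum_card_fiberwise fun t _ => mem_coe.2 (mem_univ _)
    rw [h4, ← Fin.sum_univ_eq_sum_range (fun l => (S.bp ι a β M l (a l)).card)]
    refine Finset.sum_congr rfl fun l _ => ?_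
    refine Finset.card_bij' (fun t _ => t.2.1) (fun g _ => (l, g, a l)) ?_ ?_ ?_ ?_
    · rintro ⟨l', g, c⟩ ht
      simp only [mem_filter, Str.bs, mem_univ, true_and] at ht
      obtain ⟨⟨⟨i, e, he, h5⟩, h6⟩, h7⟩ := ht
      subst h7
      simp only [Str.bp, mem_filter, mem_univ, true_and]
      refine ⟨i, e, he, ?_⟩
      rw [← h6]
      exact h5
    · intro g hg
      simp only [Str.bp, mem_filter, mem_univ, true_and] at hg
      simp only [mem_filter, Str.bs, mem_univ, true_and]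
      exact ⟨⟨hg, trivial⟩, trivial⟩
    · rintro ⟨l', g, c⟩ ht
      simp only [mem_filter, Str.bs, mem_univ, true_and] at ht
      obtain ⟨⟨-, h6⟩, h7⟩ := ht
      subst h7
      simp only [h6]
    · intro g _
      rfl
  rw [h3] at h2
  have h4 : (M.card : ℝ) ≤ 2 * (∑ l ∈ range S.L, ((S.bp ι a β M l (a l)).card : ℝ)) + 2 * (S.p * S.c) := by
    exact_mod_cast h2
  generalize (∑ l ∈ range S.L, ((S.bp ι a β M l (a l)).card : ℝ)) = Z at h4 ⊢
  have h5 : (S.p : ℝ) * S.M ≤ α * (Z + S.p * S.c) := by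
    have h6 : α * (M.card : ℝ) ≤ α * (2 * Z + 2 * (S.p * S.c)) := mul_le_mul_of_nonneg_left h4 hα.le
    push_cast at h1
    nlinarith
  have h7 : (S.p : ℝ) * S.M / α ≤ Z + S.p * S.c := by
    rw [div_le_iff₀ hα]
    linarith
  have h8 : (S.p : ℝ) * S.c ≤ S.p * S.M / ρ := by
    rw [le_div_iff₀ hρ]
    have h9 : (S.p : ℝ) * (ρ * S.c) ≤ S.p * S.M := mul_le_mul_of_nonneg_left hc (Nat.cast_nonneg _)
    linarith
  have h10 : (S.p : ℝ) * S.M * (1 / α - 1 / ρ) = S.p * S.M / α - S.p * S.M / ρ := by ring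
  rw [h10]
  linarith

end Pool.Agent.Work.MP_eef58c_lc.TG
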