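import Pool.Agent.Work.MP_eef58c_lc.TG.HardF
import Pool.Agent.Work.MP_eef58c_lc.TG.Rep
import Pool.Agent.Work.MP_eef58c_lc.TG.SDet
import Pool.Agent.Work.MP_eef58c_lc.TG.SSucc
import Pool.Agent.Work.MP_eef58c_lc.TG.Num
import Pool.Agent.Work.MP_eef58c_lc.TG.DLe
import Pool.Agent.Work.MP_eef58c_lc.G10

set_option autoImplicit false

/-!
# MP_eef58c_lc, TG, module MainS (M-L): maximum cardinality matching, arbitrary output

`α' = max α 1 < 1 + 1/√2`, `ρ` between `α'` and `1 + 1/√2`, `θ = 1/α' - 1/ρ > 0`. `hardfam` with `κ + 1` and `p = 1`: `T, n₁`. `r` with `T / 2 ^ r ≤ δ / 4`; `num_bound T r κ C (θ / 16) (δ / 2)`: `n₂`;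
`n₃ ≥ 64 T / (θ δ)`. For `n ≥ n₁, n₂, n₃`: `K`, `H`; `S = H.rep 1`: `S.OK` by `rep_ok` (`H.J > 0` because `H.D > 0`), `S.L = 1 * H.J ≤ T`. `ι`: an embedding `V × Bool ↪ Fin n` (`2 * 1 * card V ≤ n`), `ι q g i = e (g, i)`
(`Emb`: `q, q' < 1`). `γ = θ * S.M`, `γ ≥ θ card V / 4 ≥ (θ / 16) n`. `sdet` for every `A`:
`L (s + k + r) / (k γ) + L / 2^r ≤ T (s + r) / (k γ) + T / γ + T / 2 ^ r ≤ δ / 2 + δ / 4 + δ / 4`. `yao` (G10), `nodup_strm`, `bip_strm`. An algorithm which succeeds for `α` succeeds for `α'`; monotonicity of `toOuterMeasure`.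
-/

namespace Pool.Agent.Work.MP_eef58c_lc.TG

open Finset

theorem main_out (α δ C : ℝ) (κ : ℕ) (hα : α < 1 + 1 / √2) (hδ : 0 < δ) : ∃ n₀ : ℕ, ∀ n ≥ n₀, ∀ s : ℕ,
    (s : ℝ) ≤ C * n * Real.log n ^ κ → ∀ μ : PMF (SAlg n s), ∃ l : List (Sym2 (Fin n)),
      l.Nodup ∧ (∃ X : Finset (Fin n), ∀ e ∈ l, ∃ u ∈ X, ∃ v, v ∉ X ∧ e = s(u, v)) ∧
      μ.toOuterMeasure {A | A.Succeeds α l} ≤ ENNReal.ofReal δ := by
  have hs2 : (0 : ℝ) < 1 / √2 := by positivity
  set α' : ℝ := max α 1 with hα'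
  have hα'1 : 1 ≤ α' := le_max_right _ _
  have hα'0 : 0 < α' := by linarith
  have hα'lt : α' < 1 + 1 / √2 := max_lt hα (by linarith)
  obtain ⟨ρ, hρ1, hρ2⟩ := exists_between hα'lt
  have hρ1' : 1 ≤ ρ := by linarith
  have hρ0 : 0 < ρ := by linarith
  set θ : ℝ := 1 / α' - 1 / ρ with hθ
  have hθ0 : 0 < θ := by
    rw [hθ, sub_pos]
    exact one_div_lt_one_div_of_lt hα'0 hρ1
  obtain ⟨T, n₁, hF⟩ := hardfam hρ1' hρ2 (κ + 1) 1 le_rfl
  obtain ⟨r, hr⟩ : ∃ r : ℕ, (T : ℝ) / 2 ^ r ≤ δ / 4 := by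
    obtain ⟨r, hr⟩ := pow_unbounded_of_one_lt (4 * T / δ) (one_lt_two : (1 : ℝ) < 2)
    refine ⟨r, ?_⟩
    rw [div_lt_iff₀ hδ] at hr
    rw [div_le_iff₀ (by positivity)]
    linarith
  obtain ⟨n₂, hN⟩ := num_bound T r κ C (θ := θ / 16) (δ := δ / 2) (by positivity) (by positivity)
  obtain ⟨n₃, hn₃⟩ := exists_nat_ge (64 * T / (θ * δ))
  refine ⟨n₁ + n₂ + n₃ + 1, fun n hn s hs μ => ?_⟩
  obtain ⟨K, fK, dK, H, hne, hH, hHT, hD, hn1, hn2, hV4, hρc, hlog⟩ := hF n (by omega)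
  have hJ : 0 < H.J := by
    rcases Nat.eq_zero_or_pos H.J with h | h
    · exfalso
      have : H.D = 0 := by
        unfold Sch.D
        rw [h]
        simp
      omega
    · exact h
  have hS : (H.rep 1).OK := rep_ok hH hJ 1
  obtain ⟨e⟩ : Nonempty (H.V × Bool ↪ Fin n) := by
    refine Function.Embedding.nonempty_of_card_le ?_
    rw [Fintype.card_prod, Fintype.card_bool, Fintype.card_fin]
    omega
  set ι : ℕ → (H.rep 1).V → Bool → Fin n := fun _ g i => e (g, i) with hιdef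
  have hι : (H.rep 1).Emb ι := by
    intro q q' g g' i i' hq hq' h
    have hq1 : q < 1 := hq
    have hq1' : q' < 1 := hq'
    have h2 := e.injective h
    rw [Prod.mk.injEq] at h2
    exact ⟨by omega, h2.1, h2.2⟩
  have hD0 : (0 : ℝ) < (H.D : ℝ) := by exact_mod_cast hD
  set γ : ℝ := θ * H.D with hγdef
  have hγ : 0 < γ := mul_pos hθ0 hD0
  have hγn : θ / 16 * n ≤ γ := by
    have h1 : (n : ℝ) ≤ 4 * 1 * Fintype.card H.V := by exact_mod_cast hn2
    have h2 : (Fintype.card H.V : ℝ) ≤ 4 * H.D := by exact_mod_cast hV4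
    rw [hγdef]
    have h3 : (n : ℝ) ≤ 16 * H.D := by linarith
    nlinarith
  have hk0 : (0 : ℝ) < Fintype.card K := by
    have := Fintype.card_pos (α := K)
    exact_mod_cast this
  have hn0 : (0 : ℝ) < n := by
    have : 0 < n := by omega
    exact_mod_cast this
  have hLT : (((H.rep 1).L : ℕ) : ℝ) ≤ T := by
    have h1 : (H.rep 1).L = 1 * H.J := rfl
    rw [h1, one_mul]
    exact_mod_cast hHT
  have hL0 : (0 : ℝ) ≤ (((H.rep 1).L : ℕ) : ℝ) := Nat.cast_nonneg _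
  have hTγ : (T : ℝ) / γ ≤ δ / 4 := by
    rw [div_le_iff₀ hγ]
    have h1 : 64 * T / (θ * δ) ≤ n := by
      refine hn₃.trans ?_
      have : n₃ ≤ n := by omega
      exact_mod_cast this
    rw [div_le_iff₀ (by positivity)] at h1
    nlinarith [mul_le_mul_of_nonneg_left hγn hδ.le]
  have hbd : ((H.rep 1).L : ℝ) * (s + Fintype.card K + r) / (Fintype.card K * γ) + (H.rep 1).L / 2 ^ r ≤ δ := by
    have h1 : ((H.rep 1).L : ℝ) * (s + Fintype.card K + r) / (Fintype.card K * γ) =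
        ((H.rep 1).L : ℝ) * (s + r) / (Fintype.card K * γ) + (H.rep 1).L / γ := by
      field_simp
      ring
    rw [h1]
    have h2 : ((H.rep 1).L : ℝ) * (s + r) / (Fintype.card K * γ) ≤ T * (s + r) / (Fintype.card K * γ) := by
      gcongr
    have h3 := hN n (by omega) s hs (Fintype.card K) γ hlog hγn
    have h4 : ((H.rep 1).L : ℝ) / γ ≤ T / γ := by gcongr
    have h5 : ((H.rep 1).L : ℝ) / 2 ^ r ≤ T / 2 ^ r := by gcongr
    linarith
  have hsucc : ∀ (A : SAlg n s) a β, A.Succeeds α' ((H.rep 1).strm ι a β (H.rep 1).L) →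
      γ ≤ ∑ l ∈ range (H.rep 1).L,
        (((H.rep 1).bp ι a β (A.out ((H.rep 1).strm ι a β (H.rep 1).L)) l (a l)).card : ℝ) := by
    intro A a β h
    have h1 := ssucc hS hι A hα'0 hρ0 hρc a β h
    refine le_trans (le_of_eq ?_) h1
    have h2 : (H.rep 1).p = 1 := rfl
    have h3 : (H.rep 1).M = H.D := rfl
    rw [h2, h3, hγdef, hθ]
    push_cast
    ring
  classical
  obtain ⟨x, hx⟩ := yao (I := (Fin (H.rep 1).L → K) × (Fin (H.rep 1).L × (H.rep 1).V × K → Bool)) μ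
    (fun x A => A.Succeeds α' ((H.rep 1).strm ι (ha x.1) (hb x.2) (H.rep 1).L)) hδ.le (by
      intro A
      have h1 := sdet hS hι A hγ (hsucc A) r
      have h2 := mul_le_mul_of_nonneg_right hbd (Nat.cast_nonneg (α := ℝ)
        (Fintype.card ((Fin (H.rep 1).L → K) × (Fin (H.rep 1).L × (H.rep 1).V × K → Bool))))
      refine le_trans (le_trans (le_of_eq ?_) h1) (le_trans (le_of_eq ?_) h2)
      · congr!
      · congr!)
  refine ⟨(H.rep 1).strm ι (ha x.1) (hb x.2) (H.rep 1).L, nodup_strm hS hι _ _ _, bip_strm hS hι _ _ _, ?_⟩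
  refine le_trans (MeasureTheory.measure_mono ?_) hx
  rintro A ⟨h1, h2, h3⟩
  refine ⟨h1, h2, fun M' hM' hm => (h3 M' hM' hm).trans ?_⟩
  exact mul_le_mul_of_nonneg_right (le_max_left _ _) (Nat.cast_nonneg _)

end Pool.Agent.Work.MP_eef58c_lc.TG
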