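import Mathlib

set_option autoImplicit false

/-!
# MP_eef58c_lc, TG, module Avg (S): averaging over the hidden colour of the phase `i` (copy of Work/MP_eef58c_lc/G7)

For every `F`: `∑ a, ∑ x, F (update a i x) = card K * ∑ a, F a` (`(a, x) ↦ (update a i x, a i)` is an involution). For fixed `a`:
`∑ x, #{t ∈ Φ a : t.1 = i, t.2.2 = x} ≤ #(Φ a)` (disjoint subsets).
-/

namespace Pool.Agent.Work.MP_eef58c_lc.TG

open Finset

private theorem avg_swap {K : Type} [Fintype K] {L : ℕ} (i : Fin L) (F : (Fin L → K) → ℕ) :
    ∑ a, ∑ x, F (Function.update a i x) = Fintype.card K * ∑ a, F a := by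
  classical
  have h1 : ∑ z : (Fin L → K) × K, F (Function.update z.1 i z.2) = ∑ z : (Fin L → K) × K, F z.1 := by
    apply Finset.sum_bij' (fun z _ => (Function.update z.1 i z.2, z.1 i))
      (fun z _ => (Function.update z.1 i z.2, z.1 i))
    · intro z _; simp
    · intro z _; simp
    · intro z _; simp
    · intro z _; simp
    · intro z _; simp
  rw [Fintype.sum_prod_type, Fintype.sum_prod_type] at h1
  rw [h1, Finset.mul_sum]
  refine Finset.sum_congr rfl fun a _ => ?_
  simp

theorem avg {K V : Type} [Fintype K] [DecidableEq K] [Fintype V] [DecidableEq V] {L : ℕ} (i : Fin L)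
    (Φ : (Fin L → K) → Finset (Fin L × V × K)) (hΦ : ∀ a x, Φ (Function.update a i x) = Φ a) :
    Fintype.card K * ∑ a, ((Φ a).filter (fun t => t.1 = i ∧ t.2.2 = a t.1)).card ≤ ∑ a, (Φ a).card := by
  rw [← avg_swap i (fun a => ((Φ a).filter (fun t => t.1 = i ∧ t.2.2 = a t.1)).card)]
  refine Finset.sum_le_sum fun a _ => ?_
  have h1 : ∀ x : K,
      ((Φ (Function.update a i x)).filter
        (fun t => t.1 = i ∧ t.2.2 = Function.update a i x t.1)).card =
      ((Φ a).filter (fun t => t.1 = i ∧ t.2.2 = x)).card := by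
    intro x
    rw [hΦ]
    congr 1
    ext t
    simp only [mem_filter]
    constructor
    · rintro ⟨h, h', h''⟩
      refine ⟨h, h', ?_⟩
      rw [h', Function.update_self] at h''
      exact h''
    · rintro ⟨h, h', h''⟩
      refine ⟨h, h', ?_⟩
      rw [h', Function.update_self]
      exact h''
  simp only [h1]
  rw [← Finset.card_biUnion]
  · apply Finset.card_le_card
    intro t ht
    simp only [mem_biUnion, mem_filter] at ht
    obtain ⟨x, _, h, _⟩ := ht
    exact h
  · intro x _ y _ hxy
    show Disjoint _ _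
    rw [Finset.disjoint_left]
    intro t ht ht'
    simp only [mem_filter] at ht ht'
    exact hxy (ht.2.2.symm.trans ht'.2.2)

end Pool.Agent.Work.MP_eef58c_lc.TG
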