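import Pool.Agent.Work.MP_eef58c_lc.TG.Slot

set_option autoImplicit false

/-!
# MP_eef58c_lc, TG, module Bits (M): few states can name many random edges (compare Work/MP_eef58c_lc/G8)

`a` is fixed. For fixed `σ`, `X = held σ` let `B` be the set of the `β` with `∀ e ∈ X, ∃ l g i c, edg (hb β) = some e` and `s + r ≤ (bs (hb β) X).card`. If `β₀ ∈ B` put
`Y = S.bs ι a (hb β₀) X`: every `β ∈ B` agrees with `β₀` on `Y`: for `t ∈ Y` there are `i`, `e ∈ X` with `edg (hb β₀) t i = some e`, and `edg (hb β) l' g' i' c' = some e`, so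
`edg_inj` gives `t = (l', g', c')` and `hb β₀ t = hb β t`, that is `β₀ t = β t`. Hence `B.card * 2 ^ Y.card ≤ card (all β)` (private lemma `g8_agree` of G8, copy it), and
`B.card * 2 ^ (s + r) ≤ card`. Sum over the `2 ^ s` states and cancel `2 ^ s`.
-/

namespace Pool.Agent.Work.MP_eef58c_lc.TG

open Finset

/-- functions which agree with a fixed function on a set `Y` -/
private theorem g8_agree {κ : Type} [Fintype κ] [DecidableEq κ] (B : Finset (κ → Bool)) (Y : Finset κ) (β₀ : κ → Bool)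
    (h : ∀ β ∈ B, ∀ t ∈ Y, β t = β₀ t) : B.card * 2 ^ Y.card ≤ Fintype.card (κ → Bool) := by
  have h1 : B.card * 2 ^ Y.card = Fintype.card ({β // β ∈ B} × ({t // t ∈ Y} → Bool)) := by
    simp
  rw [h1]
  refine Fintype.card_le_of_injective
    (fun z t => if ht : t ∈ Y then z.2 ⟨t, ht⟩ else z.1.1 t) ?_
  rintro ⟨⟨β, hβ⟩, γ⟩ ⟨⟨β', hβ'⟩, γ'⟩ hz
  have hz' : ∀ t, (if ht : t ∈ Y then γ ⟨t, ht⟩ else β t) = (if ht : t ∈ Y then γ' ⟨t, ht⟩ else β' t) :=
    fun t => congrFun hz t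
  have e1 : β = β' := by
    funext t
    by_cases ht : t ∈ Y
    · rw [h β hβ t ht, h β' hβ' t ht]
    · have := hz' t
      rwa [dif_neg ht, dif_neg ht] at this
  have e2 : γ = γ' := by
    funext t
    have := hz' t.1
    rwa [dif_pos t.2, dif_pos t.2] at this
  subst e1
  subst e2
  rfl

open Classical in
private theorem g8_one {K : Type} [Fintype K] [DecidableEq K] {S : Str K} (hS : S.OK) {n s : ℕ}
    {ι : ℕ → S.V → Bool → Fin n} (hι : S.Emb ι) (a : ℕ → K) (X : Finset (Sym2 (Fin n))) (r : ℕ) :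
    (univ.filter fun β : Fin S.L × S.V × K → Bool =>
      (∀ e ∈ X, ∃ l g i c, S.edg ι a (hb β) l g i c = some e) ∧
        s + r ≤ (S.bs ι a (hb β) X).card).card * 2 ^ (s + r) ≤
      Fintype.card (Fin S.L × S.V × K → Bool) := by
  rcases Finset.eq_empty_or_nonempty (univ.filter fun β : Fin S.L × S.V × K → Bool =>
      (∀ e ∈ X, ∃ l g i c, S.edg ι a (hb β) l g i c = some e) ∧
        s + r ≤ (S.bs ι a (hb β) X).card) with h | ⟨β₀, h⟩
  · rw [h]
    simp
  · rw [mem_filter] at h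
    obtain ⟨_, h1, h2⟩ := h
    refine (Nat.mul_le_mul_left _ (Nat.pow_le_pow_right (by norm_num) h2)).trans ?_
    refine g8_agree _ (S.bs ι a (hb β₀) X) β₀ ?_
    intro β hβ t ht
    rw [mem_filter] at hβ
    unfold Str.bs at ht
    rw [mem_filter] at ht
    obtain ⟨_, i, e, he, hie⟩ := ht
    obtain ⟨l', g', i', c', hl'⟩ := hβ.2.1 e he
    obtain ⟨e1, e2, _, e4, e5⟩ := edg_inj hS hι hie hl'
    have h6 : hb β₀ t.1 t.2.1 t.2.2 = β₀ t := by
      unfold hb
      rw [dif_pos t.1.2]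
    have h7 : hb β t.1 t.2.1 t.2.2 = β t := by
      unfold hb
      rw [dif_pos t.1.2]
    rw [h6, h7] at e5
    exact e5.symm

open Classical in
theorem bits {K : Type} [Fintype K] [DecidableEq K] {S : Str K} (hS : S.OK) {n s : ℕ}
    {ι : ℕ → S.V → Bool → Fin n} (hι : S.Emb ι) (a : ℕ → K) (held : Fin (2 ^ s) → Finset (Sym2 (Fin n)))
    (r : ℕ) :
    (univ.filter fun β : Fin S.L × S.V × K → Bool =>
      ∃ σ, (∀ e ∈ held σ, ∃ l g i c, S.edg ι a (hb β) l g i c = some e) ∧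
        s + r ≤ (S.bs ι a (hb β) (held σ)).card).card * 2 ^ r ≤
      Fintype.card (Fin S.L × S.V × K → Bool) := by
  have h1 : (univ.filter fun β : Fin S.L × S.V × K → Bool =>
      ∃ σ, (∀ e ∈ held σ, ∃ l g i c, S.edg ι a (hb β) l g i c = some e) ∧
        s + r ≤ (S.bs ι a (hb β) (held σ)).card) ⊆
      (univ : Finset (Fin (2 ^ s))).biUnion (fun σ => univ.filter fun β : Fin S.L × S.V × K → Bool =>
        (∀ e ∈ held σ, ∃ l g i c, S.edg ι a (hb β) l g i c = some e) ∧
        s + r ≤ (S.bs ι a (hb β) (held σ)).card) := by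
    intro β hβ
    rw [mem_filter] at hβ
    obtain ⟨_, σ, hσ⟩ := hβ
    rw [mem_biUnion]
    exact ⟨σ, mem_univ _, mem_filter.2 ⟨mem_univ _, hσ⟩⟩
  have h2 := (card_le_card h1).trans card_biUnion_le
  have h3 : (∑ σ : Fin (2 ^ s), (univ.filter fun β : Fin S.L × S.V × K → Bool =>
        (∀ e ∈ held σ, ∃ l g i c, S.edg ι a (hb β) l g i c = some e) ∧
        s + r ≤ (S.bs ι a (hb β) (held σ)).card).card) * 2 ^ (s + r) ≤
      2 ^ s * Fintype.card (Fin S.L × S.V × K → Bool) := by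
    rw [Finset.sum_mul]
    calc _ ≤ ∑ σ : Fin (2 ^ s), Fintype.card (Fin S.L × S.V × K → Bool) :=
          Finset.sum_le_sum fun σ _ => g8_one (s := s) hS hι a (held σ) r
      _ = _ := by rw [Finset.sum_const, smul_eq_mul, Finset.card_univ, Fintype.card_fin]
  have h4 := (Nat.mul_le_mul_right (2 ^ (s + r)) h2).trans h3
  rw [pow_add, mul_left_comm] at h4
  exact Nat.le_of_mul_le_mul_left h4 (by positivity)

end Pool.Agent.Work.MP_eef58c_lc.TG
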