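import Pool.Agent.Work.MP_eef58c_lc.TG.StrmA
import Pool.Agent.Work.MP_eef58c_lc.TG.Avg
import Pool.Agent.Work.MP_eef58c_lc.TG.Bits

set_option autoImplicit false

/-!
# MP_eef58c_lc, TG, module Det (M-L): deterministic algorithms succeed on few instances (compare Work/MP_eef58c_lc/G9)

Write `k = card K`, `L = S.L`, `a' = ha a`, `β' = hb β`, `H j (a, β) = S.bs ι a' β' (A.held (A.state (S.strm ι a' β' j) (F a' β')))`.
`(a, β)` is bad if `∃ σ, (∀ e ∈ A.held σ, ∃ l g i c, S.edg ι a' β' l g i c = some e) ∧ s + r ≤ (S.bs ι a' β' (A.held σ)).card`; by `bits` for every `a` at most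
`card / 2 ^ r` of the `β` are bad. If `(a, β)` is not bad then `(H j (a, β)).card ≤ s + r` for all `j` (`held_sub` below, `mem_strm`).
For `l : Fin L` put `Φ_l a = if (H (l+1) (a, β)).card ≤ s + r then H (l+1) (a, β) else ∅` (`β` fixed). `Φ_l (update a l x) = Φ_l a`: `ha (update a l x)` and `ha a` agree below `l`,
so the streams up to phase `l` agree (`strm_loc`), the values of `F` on their subsets agree (`hF`), the states agree (`A.oracle`; note `A.state` of the same list with
two functions), and the `bs` agree (`bs_loc`, `held_sub`, `mem_strm`).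
So by `avg`: `k * ∑ a, #((Φ_l a).filter (t.1 = l ∧ t.2.2 = a t.1)) ≤ (s + r) * card (Fin L → K)`.
`Z (a, β) = #((H L (a, β)).filter (t.2.2 = ha a t.1))`. If `t` is counted and `l = t.1` (`Fin L`) then its edge `e` is held at the end; `strm_split` (`j = l+1`), `held_append`:
`e` is held after phase `l`, or `e` is an edge of a slot of phase `≥ l+1` which contradicts `edg_inj`. So `t ∈ H (l+1)`. Hence for `(a, β)` not bad
`Z ≤ ∑ l, #((Φ_l a).filter ..)`, and `k * ∑_(a, β) not bad Z ≤ L (s + r) card`. By `hs`, `γ * #{success, not bad} ≤ ∑ Z`. Add the bad ones.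
`held_sub`, `held_append`: as in Work/MP_eef58c_lc/G6 (import it: `Pool.Agent.Work.MP_eef58c_lc.G6`, or copy the two proofs).
-/

namespace Pool.Agent.Work.MP_eef58c_lc.TG

open Finset

set_option linter.unusedSectionVars false

private theorem held_sub {n s : ℕ} (A : Alg n s) (l : List (Sym2 (Fin n))) (F : Finset (Sym2 (Fin n)) → ℝ) :
    A.held (A.state l F) ⊆ l.toFinset := by
  induction l using List.reverseRecOn with
  | nil => rw [A.start F]; exact Finset.empty_subset _
  | append_singleton l e ih =>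
    refine (A.step l e F).trans ?_
    intro x hx
    rw [mem_insert] at hx
    rw [List.mem_toFinset, List.mem_append]
    rcases hx with rfl | hx
    · right; simp
    · left; exact List.mem_toFinset.1 (ih hx)

private theorem held_append {n s : ℕ} (A : Alg n s) (l r : List (Sym2 (Fin n)))
    (F : Finset (Sym2 (Fin n)) → ℝ) :
    A.held (A.state (l ++ r) F) ⊆ A.held (A.state l F) ∪ r.toFinset := by
  induction r using List.reverseRecOn with
  | nil => simp
  | append_singleton r e ih =>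
    rw [← List.append_assoc]
    refine (A.step (l ++ r) e F).trans ?_
    intro x hx
    rw [mem_insert] at hx
    rw [mem_union, List.mem_toFinset, List.mem_append]
    rcases hx with rfl | hx
    · right; right; simp
    · rcases mem_union.1 (ih hx) with h | h
      · left; exact h
      · right; left; exact List.mem_toFinset.1 h

section Aux

variable {K : Type} [Fintype K] [DecidableEq K] [Nonempty K] {S : Str K} {n s : ℕ}

/-- the base slots which are held after the phases `< j` -/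
private noncomputable def Hj (ι : ℕ → S.V → Bool → Fin n) (A : Alg n s)
    (F : (ℕ → K) → (ℕ → S.V → K → Bool) → Finset (Sym2 (Fin n)) → ℝ) (β : ℕ → S.V → K → Bool)
    (j : ℕ) (a : ℕ → K) : Finset (Fin S.L × S.V × K) :=
  S.bs ι a β (A.held (A.state (S.strm ι a β j) (F a β)))

/-- the bad pairs -/
private def Bad (ι : ℕ → S.V → Bool → Fin n) (A : Alg n s) (r : ℕ) (a : ℕ → K)
    (β : ℕ → S.V → K → Bool) : Prop :=
  ∃ σ, (∀ e ∈ A.held σ, ∃ l g i c, S.edg ι a β l g i c = some e) ∧
    s + r ≤ (S.bs ι a β (A.held σ)).card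

private theorem Hj_card (ι : ℕ → S.V → Bool → Fin n) (A : Alg n s)
    (F : (ℕ → K) → (ℕ → S.V → K → Bool) → Finset (Sym2 (Fin n)) → ℝ) {β : ℕ → S.V → K → Bool}
    {r : ℕ} {a : ℕ → K} (hb : ¬ Bad ι A r a β) (j : ℕ) : (Hj ι A F β j a).card ≤ s + r := by
  by_contra hc
  refine hb ⟨A.state (S.strm ι a β j) (F a β), fun e he => ?_, ?_⟩
  · have h1 := held_sub A (S.strm ι a β j) (F a β) he
    rw [List.mem_toFinset, mem_strm] at h1
    obtain ⟨l, g, i, c, -, h2⟩ := h1
    exact ⟨l, g, i, c, h2⟩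
  · have h2 : ¬ (S.bs ι a β (A.held (A.state (S.strm ι a β j) (F a β)))).card ≤ s + r := hc
    omega

private theorem ha_val {L : ℕ} (a : Fin L → K) (l : Fin L) : ha a (l : ℕ) = a l := by
  unfold ha
  rw [dif_pos l.2]

private theorem ha_update {L : ℕ} (a : Fin L → K) (l : Fin L) (x : K) (i : ℕ) (hi : i < l) :
    ha (Function.update a l x) i = ha a i := by
  unfold ha
  by_cases h : i < L
  · rw [dif_pos h, dif_pos h, Function.update_of_ne]
    intro h1
    have h2 := congrArg Fin.val h1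
    simp only at h2
    omega
  · rw [dif_neg h, dif_neg h]

private theorem Hj_update (hS : S.OK) {ι : ℕ → S.V → Bool → Fin n} (hι : S.Emb ι) (A : Alg n s)
    (F : (ℕ → K) → (ℕ → S.V → K → Bool) → Finset (Sym2 (Fin n)) → ℝ)
    (hF : ∀ a a' β l, (∀ i < l, a i = a' i) → ∀ X ⊆ (S.strm ι a β (l + 1)).toFinset, F a β X = F a' β X)
    (β : ℕ → S.V → K → Bool) (l : Fin S.L) (a : Fin S.L → K) (x : K) :
    Hj ι A F β (l + 1) (ha (Function.update a l x)) = Hj ι A F β (l + 1) (ha a) := by
  have h : ∀ i < (l : ℕ), ha (Function.update a l x) i = ha a i := ha_update a l x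
  have h1 := strm_loc hS ι β h
  have h2 : A.state (S.strm ι (ha (Function.update a l x)) β (l + 1)) (F (ha (Function.update a l x)) β) =
      A.state (S.strm ι (ha a) β (l + 1)) (F (ha a) β) := by
    rw [A.oracle _ _ _ (hF _ _ β l h), h1]
  unfold Hj
  rw [h2]
  refine bs_loc hS hι β h _ fun e he => ?_
  have h3 := held_sub A _ _ he
  rw [List.mem_toFinset, ← h1, mem_strm] at h3
  obtain ⟨l', g, i, c, h4, h5⟩ := h3
  exact ⟨l', g, i, c, by omega, h5⟩

private theorem Z_le (hS : S.OK) {ι : ℕ → S.V → Bool → Fin n} (hι : S.Emb ι) (A : Alg n s)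
    (F : (ℕ → K) → (ℕ → S.V → K → Bool) → Finset (Sym2 (Fin n)) → ℝ)
    (β : ℕ → S.V → K → Bool) (a : Fin S.L → K) :
    ((Hj ι A F β S.L (ha a)).filter (fun t => t.2.2 = ha a t.1)).card ≤
      ∑ l : Fin S.L, ((Hj ι A F β (l + 1) (ha a)).filter (fun t => t.1 = l ∧ t.2.2 = a t.1)).card := by
  classical
  have hsub : (Hj ι A F β S.L (ha a)).filter (fun t => t.2.2 = ha a t.1) ⊆
      univ.biUnion (fun l : Fin S.L => (Hj ι A F β (l + 1) (ha a)).filter
        (fun t => t.1 = l ∧ t.2.2 = a t.1)) := by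
    intro t ht
    rw [mem_filter] at ht
    obtain ⟨ht, hsp⟩ := ht
    rw [mem_biUnion]
    refine ⟨t.1, mem_univ _, ?_⟩
    rw [mem_filter]
    rw [ha_val] at hsp
    refine ⟨?_, rfl, hsp⟩
    unfold Hj Str.bs at ht ⊢
    rw [mem_filter] at ht ⊢
    refine ⟨mem_univ _, ?_⟩
    obtain ⟨-, i, e, he, hie⟩ := ht
    obtain ⟨r, hr, hr2⟩ := strm_split S ι (ha a) β (j := (t.1 : ℕ) + 1) t.1.isLt
    rw [hr] at he
    have h1 := held_append A _ _ _ he
    rw [mem_union] at h1
    rcases h1 with h1 | h1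
    · exact ⟨i, e, h1, hie⟩
    · exfalso
      rw [List.mem_toFinset] at h1
      obtain ⟨l, g, i', c, hl, h3⟩ := hr2 _ h1
      have h4 := (edg_inj hS hι h3 hie).1
      omega
  exact (card_le_card hsub).trans card_biUnion_le

open Classical in
private theorem sum_Z (hS : S.OK) {ι : ℕ → S.V → Bool → Fin n} (hι : S.Emb ι) (A : Alg n s)
    (F : (ℕ → K) → (ℕ → S.V → K → Bool) → Finset (Sym2 (Fin n)) → ℝ)
    (hF : ∀ a a' β l, (∀ i < l, a i = a' i) → ∀ X ⊆ (S.strm ι a β (l + 1)).toFinset, F a β X = F a' β X)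
    (β : ℕ → S.V → K → Bool) (r : ℕ) :
    Fintype.card K * ∑ a ∈ univ.filter (fun a : Fin S.L → K => ¬ Bad ι A r (ha a) β),
      ((Hj ι A F β S.L (ha a)).filter (fun t => t.2.2 = ha a t.1)).card ≤
      S.L * (s + r) * Fintype.card (Fin S.L → K) := by
  let Φ : Fin S.L → (Fin S.L → K) → Finset (Fin S.L × S.V × K) := fun l a =>
    if (Hj ι A F β (l + 1) (ha a)).card ≤ s + r then Hj ι A F β (l + 1) (ha a) else ∅
  have hΦc : ∀ l a, (Φ l a).card ≤ s + r := by
    intro l a
    show (if (Hj ι A F β (l + 1) (ha a)).card ≤ s + r then Hj ι A F β (l + 1) (ha a) else ∅).card ≤ s + r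
    split_ifs with h
    · exact h
    · rw [card_empty]
      exact Nat.zero_le _
  have hΦu : ∀ l a x, Φ l (Function.update a l x) = Φ l a := by
    intro l a x
    show (if (Hj ι A F β (l + 1) (ha (Function.update a l x))).card ≤ s + r then
      Hj ι A F β (l + 1) (ha (Function.update a l x)) else ∅) =
      (if (Hj ι A F β (l + 1) (ha a)).card ≤ s + r then Hj ι A F β (l + 1) (ha a) else ∅)
    rw [Hj_update hS hι A F hF β l a x]
  have hgood : ∀ a : Fin S.L → K, ¬ Bad ι A r (ha a) β → ∀ l, Φ l a = Hj ι A F β (l + 1) (ha a) := by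
    intro a hab l
    exact if_pos (Hj_card ι A F hab _)
  calc Fintype.card K * ∑ a ∈ univ.filter (fun a : Fin S.L → K => ¬ Bad ι A r (ha a) β),
      ((Hj ι A F β S.L (ha a)).filter (fun t => t.2.2 = ha a t.1)).card
      ≤ Fintype.card K * ∑ a ∈ univ.filter (fun a : Fin S.L → K => ¬ Bad ι A r (ha a) β),
          ∑ l : Fin S.L, ((Φ l a).filter (fun t => t.1 = l ∧ t.2.2 = a t.1)).card := by
        refine Nat.mul_le_mul_left _ (sum_le_sum fun a hab => ?_)
        rw [mem_filter] at hab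
        refine (Z_le hS hι A F β a).trans (le_of_eq (sum_congr rfl fun l _ => ?_))
        rw [hgood a hab.2 l]
    _ ≤ Fintype.card K * ∑ a : Fin S.L → K,
          ∑ l : Fin S.L, ((Φ l a).filter (fun t => t.1 = l ∧ t.2.2 = a t.1)).card :=
        Nat.mul_le_mul_left _ (sum_le_sum_of_subset (filter_subset _ _))
    _ = ∑ l : Fin S.L, Fintype.card K * ∑ a : Fin S.L → K,
          ((Φ l a).filter (fun t => t.1 = l ∧ t.2.2 = a t.1)).card := by
        rw [sum_comm, mul_sum]
    _ ≤ ∑ l : Fin S.L, ∑ a : Fin S.L → K, (Φ l a).card :=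
        sum_le_sum fun l _ => avg l (Φ l) (hΦu l)
    _ ≤ ∑ l : Fin S.L, ∑ a : Fin S.L → K, (s + r) :=
        sum_le_sum fun l _ => sum_le_sum fun a _ => hΦc l a
    _ = S.L * (s + r) * Fintype.card (Fin S.L → K) := by
        rw [sum_const, sum_const, card_univ, card_univ, Fintype.card_fin, smul_eq_mul, smul_eq_mul]
        ring

open Classical in
private theorem good (hS : S.OK) {ι : ℕ → S.V → Bool → Fin n} (hι : S.Emb ι) (A : Alg n s)
    (F : (ℕ → K) → (ℕ → S.V → K → Bool) → Finset (Sym2 (Fin n)) → ℝ)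
    (hF : ∀ a a' β l, (∀ i < l, a i = a' i) → ∀ X ⊆ (S.strm ι a β (l + 1)).toFinset, F a β X = F a' β X)
    {α γ : ℝ} (hγ : 0 < γ)
    (hs : ∀ a β, A.Succeeds α (S.strm ι a β S.L) (F a β) →
      γ ≤ (((S.bs ι a β (A.held (A.state (S.strm ι a β S.L) (F a β)))).filter
        fun t => t.2.2 = a t.1).card : ℝ)) (r : ℕ) (β : ℕ → S.V → K → Bool) :
    ((univ.filter fun a : Fin S.L → K => A.Succeeds α (S.strm ι (ha a) β S.L) (F (ha a) β) ∧
      ¬ Bad ι A r (ha a) β).card : ℝ) ≤
      (S.L : ℝ) * (s + r) / (Fintype.card K * γ) * Fintype.card (Fin S.L → K) := by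
  have h1 : ((univ.filter fun a : Fin S.L → K => A.Succeeds α (S.strm ι (ha a) β S.L) (F (ha a) β) ∧
      ¬ Bad ι A r (ha a) β).card : ℝ) * γ ≤
      ∑ a ∈ univ.filter (fun a : Fin S.L → K => ¬ Bad ι A r (ha a) β),
        (((Hj ι A F β S.L (ha a)).filter (fun t => t.2.2 = ha a t.1)).card : ℝ) := by
    rw [← nsmul_eq_mul]
    calc (univ.filter fun a : Fin S.L → K => A.Succeeds α (S.strm ι (ha a) β S.L) (F (ha a) β) ∧
          ¬ Bad ι A r (ha a) β).card • γ
        ≤ ∑ a ∈ univ.filter (fun a : Fin S.L → K => A.Succeeds α (S.strm ι (ha a) β S.L) (F (ha a) β) ∧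
          ¬ Bad ι A r (ha a) β),
            (((Hj ι A F β S.L (ha a)).filter (fun t => t.2.2 = ha a t.1)).card : ℝ) := by
          apply card_nsmul_le_sum
          intro a hab
          rw [mem_filter] at hab
          exact hs _ _ hab.2.1
      _ ≤ _ := by
          apply sum_le_sum_of_subset_of_nonneg
          · intro a hab
            rw [mem_filter] at hab ⊢
            exact ⟨mem_univ _, hab.2.2⟩
          · intro a _ _
            positivity
  have h2 : (Fintype.card K : ℝ) * ∑ a ∈ univ.filter (fun a : Fin S.L → K => ¬ Bad ι A r (ha a) β),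
        (((Hj ι A F β S.L (ha a)).filter (fun t => t.2.2 = ha a t.1)).card : ℝ) ≤
      (S.L : ℝ) * (s + r) * Fintype.card (Fin S.L → K) := by
    exact_mod_cast sum_Z hS hι A F hF β r
  have hk : (0 : ℝ) < Fintype.card K := by exact_mod_cast Fintype.card_pos
  rw [div_mul_eq_mul_div, le_div_iff₀ (by positivity)]
  calc ((univ.filter fun a : Fin S.L → K => A.Succeeds α (S.strm ι (ha a) β S.L) (F (ha a) β) ∧
      ¬ Bad ι A r (ha a) β).card : ℝ) * (Fintype.card K * γ)
      = Fintype.card K * (((univ.filter fun a : Fin S.L → K =>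
        A.Succeeds α (S.strm ι (ha a) β S.L) (F (ha a) β) ∧ ¬ Bad ι A r (ha a) β).card : ℝ) * γ) := by
        ring
    _ ≤ _ := mul_le_mul_of_nonneg_left h1 hk.le
    _ ≤ _ := h2

end Aux

open Classical in
theorem det {K : Type} [Fintype K] [DecidableEq K] [Nonempty K] {S : Str K} (hS : S.OK) {n s : ℕ}
    {ι : ℕ → S.V → Bool → Fin n} (hι : S.Emb ι) (A : Alg n s)
    (F : (ℕ → K) → (ℕ → S.V → K → Bool) → Finset (Sym2 (Fin n)) → ℝ)
    (hF : ∀ a a' β l, (∀ i < l, a i = a' i) → ∀ X ⊆ (S.strm ι a β (l + 1)).toFinset, F a β X = F a' β X)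
    {α γ : ℝ} (hγ : 0 < γ)
    (hs : ∀ a β, A.Succeeds α (S.strm ι a β S.L) (F a β) →
      γ ≤ (((S.bs ι a β (A.held (A.state (S.strm ι a β S.L) (F a β)))).filter
        fun t => t.2.2 = a t.1).card : ℝ)) (r : ℕ) :
    ((univ.filter fun x : (Fin S.L → K) × (Fin S.L × S.V × K → Bool) =>
      A.Succeeds α (S.strm ι (ha x.1) (hb x.2) S.L) (F (ha x.1) (hb x.2))).card : ℝ) ≤
      ((S.L : ℝ) * (s + r) / (Fintype.card K * γ) + 1 / 2 ^ r) *
        Fintype.card ((Fin S.L → K) × (Fin S.L × S.V × K → Bool)) := by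
  set Cc : ℝ := (S.L : ℝ) * (s + r) / (Fintype.card K * γ) with hCc
  have h1 : (univ.filter fun x : (Fin S.L → K) × (Fin S.L × S.V × K → Bool) =>
      A.Succeeds α (S.strm ι (ha x.1) (hb x.2) S.L) (F (ha x.1) (hb x.2))) ⊆
      (univ.filter fun x : (Fin S.L → K) × (Fin S.L × S.V × K → Bool) =>
        A.Succeeds α (S.strm ι (ha x.1) (hb x.2) S.L) (F (ha x.1) (hb x.2)) ∧
          ¬ Bad ι A r (ha x.1) (hb x.2)) ∪
      (univ.filter fun x : (Fin S.L → K) × (Fin S.L × S.V × K → Bool) =>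
        Bad ι A r (ha x.1) (hb x.2)) := by
    intro x hx
    rw [mem_filter] at hx
    rw [mem_union, mem_filter, mem_filter]
    by_cases h : Bad ι A r (ha x.1) (hb x.2)
    · exact Or.inr ⟨mem_univ _, h⟩
    · exact Or.inl ⟨mem_univ _, hx.2, h⟩
  have h2 : ((univ.filter fun x : (Fin S.L → K) × (Fin S.L × S.V × K → Bool) =>
      A.Succeeds α (S.strm ι (ha x.1) (hb x.2) S.L) (F (ha x.1) (hb x.2))).card : ℝ) ≤
      ((univ.filter fun x : (Fin S.L → K) × (Fin S.L × S.V × K → Bool) =>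
        A.Succeeds α (S.strm ι (ha x.1) (hb x.2) S.L) (F (ha x.1) (hb x.2)) ∧
          ¬ Bad ι A r (ha x.1) (hb x.2)).card : ℝ) +
      ((univ.filter fun x : (Fin S.L → K) × (Fin S.L × S.V × K → Bool) =>
        Bad ι A r (ha x.1) (hb x.2)).card : ℝ) := by
    exact_mod_cast (card_le_card h1).trans (card_union_le _ _)
  have h3 : ((univ.filter fun x : (Fin S.L → K) × (Fin S.L × S.V × K → Bool) =>
        A.Succeeds α (S.strm ι (ha x.1) (hb x.2) S.L) (F (ha x.1) (hb x.2)) ∧
          ¬ Bad ι A r (ha x.1) (hb x.2)).card : ℝ) =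
      ∑ β : Fin S.L × S.V × K → Bool, ((univ.filter fun a : Fin S.L → K =>
        A.Succeeds α (S.strm ι (ha a) (hb β) S.L) (F (ha a) (hb β)) ∧
          ¬ Bad ι A r (ha a) (hb β)).card : ℝ) := by
    rw [← Nat.cast_sum]
    congr 1
    rw [card_filter, Fintype.sum_prod_type_right]
    exact sum_congr rfl fun β _ => (card_filter _ _).symm
  have h4 : ((univ.filter fun x : (Fin S.L → K) × (Fin S.L × S.V × K → Bool) =>
        Bad ι A r (ha x.1) (hb x.2)).card : ℝ) =
      ∑ a : Fin S.L → K, ((univ.filter fun β : Fin S.L × S.V × K → Bool =>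
        Bad ι A r (ha a) (hb β)).card : ℝ) := by
    rw [← Nat.cast_sum]
    congr 1
    rw [card_filter, Fintype.sum_prod_type]
    exact sum_congr rfl fun a _ => (card_filter _ _).symm
  have h5 : ∀ a : Fin S.L → K, ((univ.filter fun β : Fin S.L × S.V × K → Bool =>
        Bad ι A r (ha a) (hb β)).card : ℝ) ≤ 1 / 2 ^ r * Fintype.card (Fin S.L × S.V × K → Bool) := by
    intro a
    have h6 : ((univ.filter fun β : Fin S.L × S.V × K → Bool =>
        Bad ι A r (ha a) (hb β)).card : ℝ) * 2 ^ r ≤ Fintype.card (Fin S.L × S.V × K → Bool) := by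
      have h7 : (univ.filter fun β : Fin S.L × S.V × K → Bool =>
        Bad ι A r (ha a) (hb β)).card * 2 ^ r ≤ Fintype.card (Fin S.L × S.V × K → Bool) := by
        refine (Nat.mul_le_mul_right _ (card_le_card fun β hβ => ?_)).trans
          (bits hS hι (ha a) A.held r)
        rw [mem_filter] at hβ ⊢
        exact ⟨mem_univ _, hβ.2⟩
      exact_mod_cast h7
    rw [one_div, ← div_eq_inv_mul, le_div_iff₀ (by positivity)]
    exact h6
  calc _ ≤ _ := h2
    _ = ∑ β : Fin S.L × S.V × K → Bool, ((univ.filter fun a : Fin S.L → K =>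
        A.Succeeds α (S.strm ι (ha a) (hb β) S.L) (F (ha a) (hb β)) ∧
          ¬ Bad ι A r (ha a) (hb β)).card : ℝ) +
        ∑ a : Fin S.L → K, ((univ.filter fun β : Fin S.L × S.V × K → Bool =>
        Bad ι A r (ha a) (hb β)).card : ℝ) := by rw [h3, h4]
    _ ≤ ∑ β : Fin S.L × S.V × K → Bool, (Cc * Fintype.card (Fin S.L → K)) +
        ∑ a : Fin S.L → K, (1 / 2 ^ r * (Fintype.card (Fin S.L × S.V × K → Bool) : ℝ)) :=
        add_le_add (sum_le_sum fun β _ => good hS hι A F hF hγ hs r (hb β))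
          (sum_le_sum fun a _ => h5 a)
    _ = (Cc + 1 / 2 ^ r) * Fintype.card ((Fin S.L → K) × (Fin S.L × S.V × K → Bool)) := by
        rw [sum_const, sum_const, card_univ, card_univ, nsmul_eq_mul, nsmul_eq_mul,
          Fintype.card_prod, Nat.cast_mul]
        ring

end Pool.Agent.Work.MP_eef58c_lc.TG
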