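import Pool.Agent.Work.MP_eef58c_lc.TG.HardF
import Pool.Agent.Work.MP_eef58c_lc.TG.Rep
import Pool.Agent.Work.MP_eef58c_lc.TG.Det
import Pool.Agent.Work.MP_eef58c_lc.TG.Num
import Pool.Agent.Work.MP_eef58c_lc.TG.DLe
import Pool.Agent.Work.MP_eef58c_lc.G10

set_option autoImplicit false

/-!
# MP_eef58c_lc, TG, module Asm (M): assembly

`r` with `1 / 2 ^ r ≤ δ / 2`; `hardfam` with `κ + 1` and `p`: `T, n₁`; `num_bound (p * T) r κ C (θ / 16) (δ / 2)`: `n₂`. For `n ≥ max n₁ n₂`: `K`, `H`; `S = H.rep p`: `S.OK` by `rep_ok` (`H.J > 0`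
because `H.D > 0`), `S.p = p`, `S.M = H.D`, `S.c = H.c`, `S.L = p * H.J ≤ p * T`, `S.M ≤ card V` (`D_le`). `ι`: an embedding `Fin p × V × Bool ↪ Fin n` (`2 p card V ≤ n`) extended by
`ι q g i = e (⟨q % p, _⟩, g, i)` or with `if q < p`; `Emb`.
`det` for every algorithm `A` with `γ = θ * (p * S.M)`, `γ ≥ θ p card V / 4 ≥ (θ / 16) n`; `num_bound` for `k = card K`; `(L : ℝ) (s + r) / (k γ) ≤ (p T) (s + r) / (k γ)`. `yao` (G10) with
`I = (Fin L → K) × (Fin L × V × K → Bool)`, nonempty: one `(a, β)` with `a = ha x.1`, `β = hb x.2`.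
-/

namespace Pool.Agent.Work.MP_eef58c_lc.TG

open Finset

theorem asm {ρ : ℝ} (hρ1 : 1 ≤ ρ) (hρ : ρ < 1 + 1 / √2) {p : ℕ} (hp : 1 ≤ p) {α θ δ : ℝ} (hθ : 0 < θ) (hδ : 0 < δ)
    (C : ℝ) (κ : ℕ)
    (F : ∀ (K : Type) [Fintype K] [DecidableEq K] (S : Str K) (n : ℕ), (ℕ → S.V → Bool → Fin n) →
      (ℕ → K) → (ℕ → S.V → K → Bool) → Finset (Sym2 (Fin n)) → ℝ)
    (hF : ∀ (K : Type) [Fintype K] [DecidableEq K] (S : Str K) (n : ℕ) (ι : ℕ → S.V → Bool → Fin n),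
      S.OK → S.Emb ι → 0 < Fintype.card S.V → ∀ a a' β l, (∀ i < l, a i = a' i) →
        ∀ X ⊆ (S.strm ι a β (l + 1)).toFinset, F K S n ι a β X = F K S n ι a' β X)
    (hs : ∀ (K : Type) [Fintype K] [DecidableEq K] (S : Str K) (n s : ℕ) (ι : ℕ → S.V → Bool → Fin n)
      (A : Alg n s), S.OK → S.Emb ι → 0 < Fintype.card S.V → S.p = p → ρ * S.c ≤ S.M → 0 < S.M →
        S.M ≤ Fintype.card S.V → Fintype.card S.V ≤ 4 * S.M → ∀ a β,
        A.Succeeds α (S.strm ι a β S.L) (F K S n ι a β) → θ * (p * S.M) ≤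
          (((S.bs ι a β (A.held (A.state (S.strm ι a β S.L) (F K S n ι a β)))).filter
            fun t => t.2.2 = a t.1).card : ℝ)) :
    ∃ n₀ : ℕ, ∀ n ≥ n₀, ∀ s : ℕ, (s : ℝ) ≤ C * n * Real.log n ^ κ → ∀ μ : PMF (Alg n s),
      ∃ (K : Type) (_ : Fintype K) (_ : DecidableEq K) (S : Str K) (ι : ℕ → S.V → Bool → Fin n) (a : ℕ → K)
        (β : ℕ → S.V → K → Bool), S.OK ∧ S.Emb ι ∧ 0 < Fintype.card S.V ∧
        μ.toOuterMeasure {A | A.Succeeds α (S.strm ι a β S.L) (F K S n ι a β)} ≤ ENNReal.ofReal δ := by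
  classical
  obtain ⟨r, hr⟩ : ∃ r : ℕ, (1 / 2 : ℝ) ^ r < δ / 2 :=
    exists_pow_lt_of_lt_one (by positivity) (by norm_num)
  obtain ⟨T, n₁, hfam⟩ := hardfam hρ1 hρ (κ + 1) p hp
  obtain ⟨n₂, hnum⟩ := num_bound (p * T) r κ C (θ := θ / 16) (δ := δ / 2) (by positivity)
    (by positivity)
  refine ⟨max n₁ n₂, fun n hn s hsn μ => ?_⟩
  obtain ⟨K, fK, dK, H, hne, hH, hJ, hD, hV1, hV2, hV3, hρc, hlog⟩ := hfam n (by omega)
  have hJ0 : 0 < H.J := by
    rcases Nat.eq_zero_or_pos H.J with h | h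
    · exfalso
      have h1 : H.D = 0 := by
        unfold Sch.D
        rw [h]
        rfl
      omega
    · exact h
  have hDV : H.D ≤ Fintype.card H.V := D_le hH.ok
  have hS : (H.rep p).OK := rep_ok hH hJ0 p
  obtain ⟨e⟩ : Nonempty (Fin p × H.V × Bool ↪ Fin n) := by
    refine Function.Embedding.nonempty_of_card_le ?_
    rw [Fintype.card_prod, Fintype.card_prod, Fintype.card_fin, Fintype.card_fin,
      Fintype.card_bool]
    calc p * (Fintype.card H.V * 2) = 2 * p * Fintype.card H.V := by ring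
      _ ≤ n := hV1
  let ι : ℕ → (H.rep p).V → Bool → Fin n := fun q g i => e (⟨q % p, Nat.mod_lt _ hp⟩, g, i)
  have hι : (H.rep p).Emb ι := by
    intro q q' g g' i i' hq hq' h
    have h1 := e.injective h
    have hq1 : q < p := hq
    have hq2 : q' < p := hq'
    have h2 : q % p = q' % p := congrArg (fun x : Fin p × H.V × Bool => (x.1 : ℕ)) h1
    rw [Nat.mod_eq_of_lt hq1, Nat.mod_eq_of_lt hq2] at h2
    exact ⟨h2, congrArg (fun x : Fin p × H.V × Bool => x.2.1) h1,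
      congrArg (fun x : Fin p × H.V × Bool => x.2.2) h1⟩
  have hV0 : 0 < Fintype.card (H.rep p).V := lt_of_lt_of_le hD hDV
  have hpR : (1 : ℝ) ≤ p := by exact_mod_cast hp
  have hDR : (0 : ℝ) < H.D := by exact_mod_cast hD
  set γ : ℝ := θ * (p * (H.D : ℝ)) with hγ
  have hγ0 : 0 < γ := by positivity
  have hγn : θ / 16 * n ≤ γ := by
    have h1 : (n : ℝ) ≤ 16 * (p * H.D) := by
      have h2 : n ≤ 16 * (p * H.D) :=
        calc n ≤ 4 * p * Fintype.card H.V := hV2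
          _ ≤ 4 * p * (4 * H.D) := Nat.mul_le_mul_left _ hV3
          _ = 16 * (p * H.D) := by ring
      exact_mod_cast h2
    rw [hγ]
    nlinarith [mul_le_mul_of_nonneg_left h1 hθ.le]
  have hk0 : (0 : ℝ) < Fintype.card K := by
    exact_mod_cast Fintype.card_pos
  have key := hnum n (by omega) s hsn (Fintype.card K) γ hlog hγn
  have hbound : ((H.rep p).L : ℝ) * (s + r) / (Fintype.card K * γ) + 1 / 2 ^ r ≤ δ := by
    have h1 : ((H.rep p).L : ℝ) ≤ ((p * T : ℕ) : ℝ) := by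
      have h2 : (H.rep p).L ≤ p * T := Nat.mul_le_mul_left p hJ
      exact_mod_cast h2
    have h3 : ((H.rep p).L : ℝ) * (s + r) / (Fintype.card K * γ) ≤
        ((p * T : ℕ) : ℝ) * (s + r) / (Fintype.card K * γ) := by
      refine div_le_div_of_nonneg_right (mul_le_mul_of_nonneg_right h1 (by positivity)) ?_
      positivity
    have h4 : (1 : ℝ) / 2 ^ r = (1 / 2 : ℝ) ^ r := by
      rw [div_pow, one_pow]
    rw [h4]
    linarith
  have hmain := yao μ (fun (x : (Fin (H.rep p).L → K) × (Fin (H.rep p).L × (H.rep p).V × K → Bool))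
    (A : Alg n s) => A.Succeeds α ((H.rep p).strm ι (ha x.1) (hb x.2) (H.rep p).L)
      (F K (H.rep p) n ι (ha x.1) (hb x.2))) hδ.le (fun A => by
        have h1 := det hS hι A (F K (H.rep p) n ι)
          (fun a a' β l h => hF K (H.rep p) n ι hS hι hV0 a a' β l h) (α := α) hγ0
          (fun a β h => hs K (H.rep p) n s ι A hS hι hV0 rfl hρc hD hDV hV3 a β h) r
        refine h1.trans ?_
        exact mul_le_mul_of_nonneg_right hbound (Nat.cast_nonneg _))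
  obtain ⟨x, hx⟩ := hmain
  exact ⟨K, fK, dK, H.rep p, ι, ha x.1, hb x.2, hS, hι, hV0, hx⟩

end Pool.Agent.Work.MP_eef58c_lc.TG
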