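import Pool.Agent.Work.MP_eef58c_lc.TG.SchA

set_option autoImplicit false

/-!
# MP_eef58c_lc, TG, module BlkS (M): simple blocks and operations

`fresh_ok`: no edges; `tot`: `1 = 0 + 0 + 1`. `flip_ok`: `side` for the negated sides. `raise_ok`: only `card1` changes. `scale_ok`: `prod_ok`,
`card_product`, `D_prod`; an edge of the product is an edge of `B` with the same label at both ends.
-/

namespace Pool.Agent.Work.MP_eef58c_lc.TG

open Finset

variable {K : Type}

theorem fresh_ok (K : Type) : (Blk.fresh K).OK where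
  ok := emp_ok Unit fun _ => true
  act_loc := fun _ _ _ => rfl
  St_loc := fun _ _ _ => rfl
  act_sd := fun _ _ _ => rfl
  dj := fun _ => disjoint_empty_right _
  free := fun _ _ _ _ h => absurd h (by simp [Blk.fresh, Sch.emp])
  cov0 := fun _ _ _ _ _ h => absurd h (by simp [Blk.fresh, Sch.emp])
  cov1 := fun _ _ _ _ _ h => absurd h (by simp [Blk.fresh, Sch.emp])
  St0 := fun _ => empty_subset _
  St1 := fun _ => empty_subset _
  card_act := fun _ => rfl
  card_St := fun _ => rfl
  card0 := fun _ => le_rfl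
  card1 := fun _ => le_rfl
  tot := by
    have h1 : (Blk.fresh K).D = 0 := D_emp Unit fun _ => true
    rw [h1]
    rfl

theorem fresh_o (K : Type) : (Blk.fresh K).o = 0 := by
  have h1 : (Blk.fresh K).D = 0 := D_emp Unit fun _ => true
  show (Blk.fresh K).D + 0 = 0
  rw [h1]

theorem flip_ok {B : Blk K} (hB : B.OK) : B.flip.OK where
  ok :=
    { ge := hB.ok.ge
      loc := hB.ok.loc
      side := fun a j g c h e => by
        show (!B.sd h) = !(!B.sd g)
        rw [hB.ok.side a j g c h e]
      edge := hB.ok.edge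
      sp := hB.ok.sp
      card_sp := hB.ok.card_sp }
  act_loc := hB.act_loc
  St_loc := hB.St_loc
  act_sd := fun a u hu => by
    show (!B.sd u) = !B.sa
    rw [hB.act_sd a u hu]
  dj := hB.dj
  free := hB.free
  cov0 := hB.cov0
  cov1 := hB.cov1
  St0 := hB.St0
  St1 := hB.St1
  card_act := hB.card_act
  card_St := hB.card_St
  card0 := hB.card0
  card1 := hB.card1
  tot := hB.tot

theorem flip_o (B : Blk K) : B.flip.o = B.o := rfl

theorem raise_ok {B : Blk K} (hB : B.OK) {c : ℕ} (hc : B.c1 ≤ c) : (B.raise c).OK where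
  ok := hB.ok
  act_loc := hB.act_loc
  St_loc := hB.St_loc
  act_sd := hB.act_sd
  dj := hB.dj
  free := hB.free
  cov0 := hB.cov0
  cov1 := hB.cov1
  St0 := hB.St0
  St1 := hB.St1
  card_act := hB.card_act
  card_St := hB.card_St
  card0 := hB.card0
  card1 := fun a => (hB.card1 a).trans hc
  tot := hB.tot

theorem raise_o (B : Blk K) (c : ℕ) : (B.raise c).o = B.o := rfl

private theorem scale_par {B : Blk K} {r : ℕ} {a : ℕ → K} {j : ℕ} {g h : B.V × Fin r} {c : K}
    (e : (B.scale r).par a j g c = some h) : B.par a j g.1 c = some h.1 ∧ h.2 = g.2 := by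
  have e' : (B.par a j g.1 c).map (fun u => (u, g.2)) = some h := e
  rw [Option.map_eq_some_iff] at e'
  obtain ⟨u, hu, rfl⟩ := e'
  exact ⟨hu, rfl⟩

theorem scale_ok {B : Blk K} (hB : B.OK) (r : ℕ) : (B.scale r).OK where
  ok := prod_ok hB.ok (Fin r)
  act_loc := fun a a' h => by
    show B.act a ×ˢ univ = B.act a' ×ˢ univ
    rw [hB.act_loc a a' h]
  St_loc := fun a a' h => by
    show B.St a ×ˢ univ = B.St a' ×ˢ univ
    rw [hB.St_loc a a' h]
  act_sd := fun a u hu => by
    have hu' : u ∈ B.act a ×ˢ (univ : Finset (Fin r)) := hu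
    exact hB.act_sd a u.1 (mem_product.1 hu').1
  dj := fun a => by
    show Disjoint (B.act a ×ˢ (univ : Finset (Fin r))) (B.St a ×ˢ univ)
    rw [disjoint_product]
    exact Or.inl (hB.dj a)
  free := fun a j g h e => by
    obtain ⟨e1, -⟩ := scale_par e
    obtain ⟨h1, h2, h3, h4⟩ := hB.free a j g.1 h.1 e1
    exact ⟨fun hh => h1 (mem_product.1 (show g ∈ B.act a ×ˢ (univ : Finset (Fin r)) from hh)).1,
      fun hh => h2 (mem_product.1 (show g ∈ B.St a ×ˢ (univ : Finset (Fin r)) from hh)).1,
      fun hh => h3 (mem_product.1 (show h ∈ B.act a ×ˢ (univ : Finset (Fin r)) from hh)).1,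
      fun hh => h4 (mem_product.1 (show h ∈ B.St a ×ˢ (univ : Finset (Fin r)) from hh)).1⟩
  cov0 := fun a j g c h e hc => by
    obtain ⟨e1, -⟩ := scale_par e
    rcases hB.cov0 a j g.1 c h.1 e1 hc with h1 | h1 | h1 | h1
    · exact Or.inl (show g ∈ B.act a ×ˢ (univ : Finset (Fin r)) from mem_product.2 ⟨h1, mem_univ _⟩)
    · exact Or.inr (Or.inl (show h ∈ B.act a ×ˢ (univ : Finset (Fin r)) from
        mem_product.2 ⟨h1, mem_univ _⟩))
    · exact Or.inr (Or.inr (Or.inl (show g ∈ B.C0 a ×ˢ (univ : Finset (Fin r)) from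
        mem_product.2 ⟨h1, mem_univ _⟩)))
    · exact Or.inr (Or.inr (Or.inr (show h ∈ B.C0 a ×ˢ (univ : Finset (Fin r)) from
        mem_product.2 ⟨h1, mem_univ _⟩)))
  cov1 := fun a j g c h e hc => by
    obtain ⟨e1, -⟩ := scale_par e
    rcases hB.cov1 a j g.1 c h.1 e1 hc with h1 | h1
    · exact Or.inl (show g ∈ B.C1 a ×ˢ (univ : Finset (Fin r)) from mem_product.2 ⟨h1, mem_univ _⟩)
    · exact Or.inr (show h ∈ B.C1 a ×ˢ (univ : Finset (Fin r)) from mem_product.2 ⟨h1, mem_univ _⟩)
  St0 := fun a => product_subset_product_left (hB.St0 a)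
  St1 := fun a => product_subset_product_left (hB.St1 a)
  card_act := fun a => by
    show (B.act a ×ˢ (univ : Finset (Fin r))).card = B.v * r
    rw [card_product, hB.card_act, card_univ, Fintype.card_fin]
  card_St := fun a => by
    show (B.St a ×ˢ (univ : Finset (Fin r))).card = B.st * r
    rw [card_product, hB.card_St, card_univ, Fintype.card_fin]
  card0 := fun a => by
    show (B.C0 a ×ˢ (univ : Finset (Fin r))).card ≤ B.c0 * r
    rw [card_product, card_univ, Fintype.card_fin]
    exact Nat.mul_le_mul_right r (hB.card0 a)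
  card1 := fun a => by
    show (B.C1 a ×ˢ (univ : Finset (Fin r))).card ≤ B.c1 * r
    rw [card_product, card_univ, Fintype.card_fin]
    exact Nat.mul_le_mul_right r (hB.card1 a)
  tot := by
    have h1 : (B.scale r).D = B.D * Fintype.card (Fin r) := D_prod B.toSch (Fin r)
    have h2 : Fintype.card (B.scale r).V = Fintype.card B.V * Fintype.card (Fin r) :=
      Fintype.card_prod B.V (Fin r)
    have h3 : (B.scale r).st = B.st * r := rfl
    have h4 : (B.scale r).v = B.v * r := rfl
    rw [h1, h2, h3, h4, hB.tot, Fintype.card_fin]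
    ring

theorem scale_o (B : Blk K) (r : ℕ) : (B.scale r).o = B.o * r := by
  have h1 : (B.scale r).D = B.D * Fintype.card (Fin r) := D_prod B.toSch (Fin r)
  show (B.scale r).D + B.st * r = (B.D + B.st) * r
  rw [h1, Fintype.card_fin]
  ring

theorem scale_card_V (B : Blk K) (r : ℕ) : Fintype.card (B.scale r).V = Fintype.card B.V * r := by
  have h2 : Fintype.card (B.scale r).V = Fintype.card B.V * Fintype.card (Fin r) :=
    Fintype.card_prod B.V (Fin r)
  rw [h2, Fintype.card_fin]

end Pool.Agent.Work.MP_eef58c_lc.TG
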