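import Mathlib

set_option autoImplicit false

/-!
# MP_eef58c_lc, one-pass hardness `2 + 1/√2`: gadgets, schemes, blocks (definitions, part A)

Paper proof: /team-store/msm_eef58c.md. `K` is the set of colours, the hidden vector is `a : ℕ → K`.

* `Gad K R`: Ruzsa-Szemeredi type gadget of ratio `1 : R` (`I v` = dying labels of the large side, `φ v s` the
  special maps, `J v` their images, `Z v` the rest).
* `Sch K`: scheme: `par a j g c` is the partner of the group vertex `g` in colour `c` in phase `j` (or `none`).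
  An edge of phase `j` is special if its colour is `a j`.
* `Blk K`: block: a scheme with active and stopped vertices and two covers.
* operations `prod`, `sum`, `ext`, `fresh`, `flip`, `scale`, `merge`, `fin`.
-/

namespace Pool.Agent.Work.MP_eef58c_lc.TG

open Finset

/-- a gadget of ratio `1 : R` -/
structure Gad (K : Type) (R : ℕ) where
  X : Type
  fX : Fintype X
  dX : DecidableEq X
  I : K → Finset X
  φ : K → Fin R → X → X
  ι : ℕ

attribute [instance] Gad.fX Gad.dX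

variable {K : Type}

/-- the dying labels of the small side -/
def Gad.J {R : ℕ} (G : Gad K R) (v : K) : Finset G.X := univ.biUnion fun s => (G.I v).image (G.φ v s)

/-- the remaining labels -/
def Gad.Z {R : ℕ} (G : Gad K R) (v : K) : Finset G.X := univ \ (G.I v ∪ G.J v)

/-- the number of labels -/
def Gad.N {R : ℕ} (G : Gad K R) : ℕ := Fintype.card G.X

/-- the number of the remaining labels -/
def Gad.ζ {R : ℕ} (G : Gad K R) : ℕ := G.N - (R + 1) * G.ι

structure Gad.OK {R : ℕ} (G : Gad K R) : Prop where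
  ne : Nonempty K
  card_I : ∀ v, (G.I v).card = G.ι
  ι_pos : 0 < G.ι
  inj : ∀ v s s' x x', x ∈ G.I v → x' ∈ G.I v → G.φ v s x = G.φ v s' x' → s = s' ∧ x = x'
  nI : ∀ v s x, x ∈ G.I v → G.φ v s x ∉ G.I v
  ind : ∀ v w s x, v ≠ w → x ∈ G.I v → x ∈ G.I w → G.φ w s x ∉ G.J v
  col : ∀ w w' s x, x ∈ G.I w → x ∈ G.I w' → G.φ w s x = G.φ w' s x → w = w'

/-- a scheme -/
structure Sch (K : Type) where
  V : Type
  fV : Fintype V
  dV : DecidableEq V
  sd : V → Bool
  J : ℕ
  par : (ℕ → K) → ℕ → V → K → Option V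
  m : ℕ → ℕ

attribute [instance] Sch.fV Sch.dV

structure Sch.OK (S : Sch K) : Prop where
  ge : ∀ a j g c, S.J ≤ j → S.par a j g c = none
  loc : ∀ a a' j, (∀ i < j, a i = a' i) → S.par a j = S.par a' j
  side : ∀ a j g c h, S.par a j g c = some h → S.sd h = !S.sd g
  edge : ∀ a j j' g g' c c' h h', S.par a j g c = some h → S.par a j' g' c' = some h' →
    s(g, h) = s(g', h') → j = j' ∧ g = g' ∧ c = c'
  sp : ∀ a j j' g g' h h', S.par a j g (a j) = some h → S.par a j' g' (a j') = some h' →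
    (g = g' ∨ g = h' ∨ h = g' ∨ h = h') → j = j' ∧ g = g'
  card_sp : ∀ a j, (univ.filter fun g => (S.par a j g (a j)).isSome).card = S.m j

/-- the number of special edges -/
def Sch.D (S : Sch K) : ℕ := ∑ j ∈ range S.J, S.m j

/-- the scheme without edges -/
def Sch.emp (K : Type) (V : Type) [Fintype V] [DecidableEq V] (sd : V → Bool) : Sch K where
  V := V
  fV := inferInstance
  dV := inferInstance
  sd := sd
  J := 0
  par := fun _ _ _ _ => none
  m := fun _ => 0

/-- copies with labels -/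
def Sch.prod (S : Sch K) (X : Type) [Fintype X] [DecidableEq X] : Sch K where
  V := S.V × X
  fV := inferInstance
  dV := inferInstance
  sd := fun u => S.sd u.1
  J := S.J
  par := fun a j g c => (S.par a j g.1 c).map fun h => (h, g.2)
  m := fun j => S.m j * Fintype.card X

/-- shift of a hidden vector -/
def sh (a : ℕ → K) (i : ℕ) : ℕ → K := fun j => a (i + j)

/-- first the phases of `S`, then those of `T`, on disjoint vertex sets -/
def Sch.sum (S T : Sch K) : Sch K where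
  V := S.V ⊕ T.V
  fV := inferInstance
  dV := inferInstance
  sd := Sum.elim S.sd T.sd
  J := S.J + T.J
  par := fun a j g c =>
    if j < S.J then Sum.elim (fun u => (S.par a j u c).map Sum.inl) (fun _ => none) g
    else Sum.elim (fun _ => none) (fun u => (T.par (sh a S.J) (j - S.J) u c).map Sum.inr) g
  m := fun j => if j < S.J then S.m j else T.m (j - S.J)

/-- one more phase -/
def Sch.ext (S : Sch K) (np : (ℕ → K) → S.V → K → Option S.V) (mm : ℕ) : Sch K where
  V := S.V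
  fV := S.fV
  dV := S.dV
  sd := S.sd
  J := S.J + 1
  par := fun a j g c => if j < S.J then S.par a j g c else if j = S.J then np a g c else none
  m := fun j => if j < S.J then S.m j else if j = S.J then mm else 0

/-- a block: scheme, active vertices, stopped vertices, covers -/
structure Blk (K : Type) extends Sch K where
  act : (ℕ → K) → Finset V
  St : (ℕ → K) → Finset V
  C0 : (ℕ → K) → Finset V
  C1 : (ℕ → K) → Finset V
  v : ℕ
  st : ℕ
  c0 : ℕ
  c1 : ℕ
  sa : Bool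

structure Blk.OK (B : Blk K) : Prop where
  ok : B.toSch.OK
  act_loc : ∀ a a' : ℕ → K, (∀ i < B.J, a i = a' i) → B.act a = B.act a'
  St_loc : ∀ a a' : ℕ → K, (∀ i < B.J, a i = a' i) → B.St a = B.St a'
  act_sd : ∀ a, ∀ u ∈ B.act a, B.sd u = B.sa
  dj : ∀ a, Disjoint (B.act a) (B.St a)
  free : ∀ a j g h, B.par a j g (a j) = some h → g ∉ B.act a ∧ g ∉ B.St a ∧ h ∉ B.act a ∧ h ∉ B.St a
  cov0 : ∀ a j g c h, B.par a j g c = some h → c ≠ a j → g ∈ B.act a ∨ h ∈ B.act a ∨ g ∈ B.C0 a ∨ h ∈ B.C0 a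
  cov1 : ∀ a j g c h, B.par a j g c = some h → c ≠ a j → g ∈ B.C1 a ∨ h ∈ B.C1 a
  St0 : ∀ a, B.St a ⊆ B.C0 a
  St1 : ∀ a, B.St a ⊆ B.C1 a
  card_act : ∀ a, (B.act a).card = B.v
  card_St : ∀ a, (B.St a).card = B.st
  card0 : ∀ a, (B.C0 a).card ≤ B.c0
  card1 : ∀ a, (B.C1 a).card ≤ B.c1
  tot : Fintype.card B.V = 2 * B.D + B.st + B.v

/-- special edges and stopped vertices -/
def Blk.o (B : Blk K) : ℕ := B.D + B.st

/-- one active vertex -/
def Blk.fresh (K : Type) : Blk K where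
  toSch := Sch.emp K Unit fun _ => true
  act := fun _ => {()}
  St := fun _ => ∅
  C0 := fun _ => ∅
  C1 := fun _ => ∅
  v := 1
  st := 0
  c0 := 0
  c1 := 0
  sa := true

/-- change of the sides -/
def Blk.flip (B : Blk K) : Blk K where
  V := B.V
  fV := B.fV
  dV := B.dV
  sd := fun u => !B.sd u
  J := B.J
  par := B.par
  m := B.m
  act := B.act
  St := B.St
  C0 := B.C0
  C1 := B.C1
  v := B.v
  st := B.st
  c0 := B.c0
  c1 := B.c1
  sa := !B.sa

/-- a larger bound for the cover `C1` -/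
def Blk.raise (B : Blk K) (c : ℕ) : Blk K := { B with c1 := c }

/-- `r` copies -/
def Blk.scale (B : Blk K) (r : ℕ) : Blk K where
  toSch := B.toSch.prod (Fin r)
  act := fun a => B.act a ×ˢ univ
  St := fun a => B.St a ×ˢ univ
  C0 := fun a => B.C0 a ×ˢ univ
  C1 := fun a => B.C1 a ×ˢ univ
  v := B.v * r
  st := B.st * r
  c0 := B.c0 * r
  c1 := B.c1 * r
  sa := B.sa

/-- an injection of `A` into `B × Fin R` -/
def IsPair {α β : Type} (R : ℕ) (A : Finset α) (B : Finset β) (e : α → Option (β × Fin R)) : Prop :=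
  (∀ u ∉ A, e u = none) ∧ (∀ u ∈ A, ∃ p, e u = some p ∧ p.1 ∈ B) ∧
    (∀ u ∈ A, ∀ u' ∈ A, e u = e u' → u = u')

open Classical in
/-- a chosen injection of `A` into `B × Fin R` -/
noncomputable def pair {α β : Type} (R : ℕ) (A : Finset α) (B : Finset β) : α → Option (β × Fin R) :=
  if h : ∃ e, IsPair R A B e then h.choose else fun _ => none

/-- the new phase of a merge -/
noncomputable def mergeNp {R : ℕ} (G : Gad K R) (P Q : Blk K) (a : ℕ → K) (g : (P.V ⊕ Q.V) × G.X) (c : K) :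
    Option ((P.V ⊕ Q.V) × G.X) :=
  Sum.elim (fun u => (pair R (P.act a) (Q.act (sh a P.J)) u).bind fun p =>
    if g.2 ∈ G.I c then some (Sum.inr p.1, G.φ c p.2 g.2) else none) (fun _ => none) g.1

/-- merge of two blocks: `P` is the large side, `Q` the small side -/
noncomputable def Blk.merge {R : ℕ} (G : Gad K R) (P Q : Blk K) : Blk K where
  toSch := ((P.toSch.sum Q.toSch).prod G.X).ext (mergeNp G P Q) (P.v * G.ι)
  act := fun a => (P.act a).disjSum ∅ ×ˢ G.J (a (P.J + Q.J))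
  St := fun a => (P.St a).disjSum (Q.St (sh a P.J)) ×ˢ univ ∪
    ((∅ : Finset P.V).disjSum (Q.act (sh a P.J)) ×ˢ G.I (a (P.J + Q.J)) ∪
      (P.act a).disjSum (Q.act (sh a P.J)) ×ˢ G.Z (a (P.J + Q.J)))
  C0 := fun a => (P.C0 a).disjSum (Q.C1 (sh a P.J)) ×ˢ G.J (a (P.J + Q.J)) ∪
    ((P.C1 a).disjSum (Q.C0 (sh a P.J) ∪ Q.act (sh a P.J)) ×ˢ G.I (a (P.J + Q.J)) ∪
      (P.C0 a ∪ P.act a).disjSum (Q.C0 (sh a P.J) ∪ Q.act (sh a P.J)) ×ˢ G.Z (a (P.J + Q.J)))
  C1 := fun a => (P.C1 a).disjSum (Q.C0 (sh a P.J) ∪ Q.act (sh a P.J)) ×ˢ G.J (a (P.J + Q.J)) ∪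
    ((P.C1 a).disjSum (Q.C0 (sh a P.J) ∪ Q.act (sh a P.J)) ×ˢ G.I (a (P.J + Q.J)) ∪
      (P.C0 a ∪ P.act a).disjSum (Q.C0 (sh a P.J) ∪ Q.act (sh a P.J)) ×ˢ G.Z (a (P.J + Q.J)))
  v := P.v * (R * G.ι)
  st := (P.st + Q.st) * G.N + (Q.v * G.ι + (P.v + Q.v) * G.ζ)
  c0 := (P.c0 + Q.c1) * (R * G.ι) + ((P.c1 + (Q.c0 + Q.v)) * G.ι + ((P.c0 + P.v) + (Q.c0 + Q.v)) * G.ζ)
  c1 := (P.c1 + (Q.c0 + Q.v)) * (R * G.ι) + ((P.c1 + (Q.c0 + Q.v)) * G.ι + ((P.c0 + P.v) + (Q.c0 + Q.v)) * G.ζ)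
  sa := P.sa

/-- the last phase: all stopped and active vertices are matched with new vertices -/
def finNp [AddCommGroup K] [DecidableEq K] (B : Blk K) (a : ℕ → K) (g : (B.V ⊕ B.V) × K) (c : K) :
    Option ((B.V ⊕ B.V) × K) :=
  Sum.elim (fun u => if u ∈ B.St a ∪ B.act a then some (Sum.inr u, g.2 + c) else none) (fun _ => none) g.1

/-- the scheme of a block after its last phase -/
def Blk.fin [AddCommGroup K] [Fintype K] [DecidableEq K] (B : Blk K) : Sch K :=
  ((B.toSch.sum (Sch.emp K B.V fun u => !B.sd u)).prod K).ext (finNp B) ((B.st + B.v) * Fintype.card K)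

/-- a scheme with a cover of the edges which are not special -/
structure Hard (K : Type) extends Sch K where
  C : (ℕ → K) → Finset V
  c : ℕ

structure Hard.OK (H : Hard K) : Prop where
  ok : H.toSch.OK
  cov : ∀ a j g c h, H.par a j g c = some h → c ≠ a j → g ∈ H.C a ∨ h ∈ H.C a
  card_C : ∀ a, (H.C a).card ≤ H.c

/-- the hard scheme of a block -/
def Blk.hard [AddCommGroup K] [Fintype K] [DecidableEq K] (B : Blk K) : Hard K where
  toSch := B.fin
  C := fun a => ((B.C0 a ∪ B.act a).disjSum ∅ ×ˢ univ : Finset ((B.V ⊕ B.V) × K))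
  c := (B.c0 + B.v) * Fintype.card K

/-- copies of a hard scheme -/
def Hard.scale (H : Hard K) (r : ℕ) : Hard K where
  toSch := H.toSch.prod (Fin r)
  C := fun a => H.C a ×ˢ univ
  c := H.c * r

/-- a state `n` with value `φ` can be reached, see section 3 of the note -/
def Good (ρ : ℝ) (R : ℕ) (n φ : ℝ) : Prop :=
  ∀ ε > 0, ∃ η > 0, ∃ T : ℕ, ∀ (K : Type) (G : Gad K R), G.OK → (G.ζ : ℝ) ≤ η * G.N →
    ∃ B : Blk K, B.OK ∧ 0 < B.v ∧ (B.c0 : ℝ) + (n - ε) * B.v ≤ B.c1 ∧ (B.c1 : ℝ) ≤ B.c0 + (n + ε) * B.v ∧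
      (φ - ε) * B.v ≤ (B.o : ℝ) - ρ * B.c0 ∧ Fintype.card B.V ≤ (2 * R * G.N) ^ T ∧ B.J ≤ T

end Pool.Agent.Work.MP_eef58c_lc.TG
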