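import Pool.Agent.Work.MP_eef58c_lc.TG.SDefs

set_option autoImplicit false

/-!
# MP_eef58c_lc, TG, module EInj (M): different slots have different edges

`edg_some`: definition of `Option.map`. `edg_inj`: let `h, h'` be the partners, `l, l' < L` (`ge`), `q = S.q l`, `q' = S.q l'` are `< p`. `Sym2.eq_iff`: either
`ι q g i = ι q' g' i'` and `ι q h (i xor b) = ι q' h' (i' xor b')`: then `q = q'`, `g = g'`, `i = i'`, `h = h'`, `b = b'` and `S.OK.edge` gives `l = l'`, `c = c'`. Or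
`ι q g i = ι q' h' _` and `ι q h _ = ι q' g' i'`: `q = q'`, `g = h'`, `h = g'`; `s(g, h) = s(g', h')`, by `edge`: `l = l'`, `g = g'`, so `h = g` contradicting `side`.
`edg_loc`: `loc`.
-/

namespace Pool.Agent.Work.MP_eef58c_lc.TG

open Finset

variable {K : Type}

theorem edg_some (S : Str K) {n : ℕ} (ι : ℕ → S.V → Bool → Fin n) (a : ℕ → K) (β : ℕ → S.V → K → Bool)
    (l : ℕ) (g : S.V) (i : Bool) (c : K) (e : Sym2 (Fin n)) :
    S.edg ι a β l g i c = some e ↔ ∃ h, S.par a l g c = some h ∧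
      s(ι (S.q l) g i, ι (S.q l) h (xor i (β l g c))) = e := by
  unfold Str.edg
  exact Option.map_eq_some_iff

theorem edg_lt {S : Str K} (hS : S.OK) {n : ℕ} {ι : ℕ → S.V → Bool → Fin n} {a : ℕ → K}
    {β : ℕ → S.V → K → Bool} {l : ℕ} {g : S.V} {i : Bool} {c : K} {e : Sym2 (Fin n)}
    (h : S.edg ι a β l g i c = some e) : l < S.L := by
  by_contra hl
  obtain ⟨h', h1, _⟩ := (edg_some S ι a β l g i c e).1 h
  rw [hS.ge a l g c (not_lt.1 hl)] at h1
  exact absurd h1 (by simp)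

theorem edg_inj {S : Str K} (hS : S.OK) {n : ℕ} {ι : ℕ → S.V → Bool → Fin n} (hι : S.Emb ι) {a : ℕ → K}
    {β β' : ℕ → S.V → K → Bool} {l l' : ℕ} {g g' : S.V} {i i' : Bool} {c c' : K} {e : Sym2 (Fin n)}
    (h : S.edg ι a β l g i c = some e) (h' : S.edg ι a β' l' g' i' c' = some e) :
    l = l' ∧ g = g' ∧ i = i' ∧ c = c' ∧ β l g c = β' l g c := by
  have hq := hS.q_lt l (edg_lt hS h)
  have hq' := hS.q_lt l' (edg_lt hS h')
  obtain ⟨u, hu, he⟩ := (edg_some S ι a β l g i c e).1 h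
  obtain ⟨u', hu', he'⟩ := (edg_some S ι a β' l' g' i' c' e).1 h'
  rw [← he', Sym2.eq_iff] at he
  rcases he with ⟨h1, h2⟩ | ⟨h1, h2⟩
  · obtain ⟨e1, e2, e3⟩ := hι _ _ _ _ _ _ hq hq' h1
    obtain ⟨-, e5, e6⟩ := hι _ _ _ _ _ _ hq hq' h2
    subst e2 e3 e5
    obtain ⟨f1, -, f3⟩ := hS.edge a l l' g g c c' u u e1 hu hu' rfl
    subst f1 f3
    exact ⟨rfl, rfl, rfl, rfl, by simpa using e6⟩
  · obtain ⟨e1, e2, e3⟩ := hι _ _ _ _ _ _ hq hq' h1
    obtain ⟨-, e5, e6⟩ := hι _ _ _ _ _ _ hq hq' h2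
    obtain ⟨f1, f2, f3⟩ := hS.edge a l l' g g' c c' u u' e1 hu hu'
      (by rw [e2, e5]; exact Sym2.eq_swap)
    exfalso
    have h3 := hS.side a l g c u hu
    rw [e5, ← f2] at h3
    cases hh : S.sd g <;> simp [hh] at h3

theorem edg_loc {S : Str K} (hS : S.OK) {n : ℕ} (ι : ℕ → S.V → Bool → Fin n) {a a' : ℕ → K}
    (β : ℕ → S.V → K → Bool) {l : ℕ} (h : ∀ i < l, a i = a' i) (g : S.V) (i : Bool) (c : K) :
    S.edg ι a β l g i c = S.edg ι a' β l g i c := by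
  unfold Str.edg
  rw [hS.loc a a' l h]

end Pool.Agent.Work.MP_eef58c_lc.TG
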