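import Mathlib

set_option autoImplicit false

/-!
# MP_eef58c_lc, TG: the submodular function (definitions)

Slots are triples `(l, u, c)` (phase, group, colour). `E l` = groups with a special slot in phase `l` (`c = a l`).
-/

namespace Pool.Agent.Work.MP_eef58c_lc.TG

open Finset

/-- data of the function -/
structure FD (U K : Type) where
  L : ℕ
  h : ℝ
  a : ℕ → K
  E : ℕ → Finset U

variable {U K : Type}

/-- value of the phases `≥ l` -/
noncomputable def FD.t (D : FD U K) (l : ℕ) : ℝ := D.h + ∑ i ∈ Ico l D.L, ((D.E i).card : ℝ)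

noncomputable def FD.δ [Fintype U] (D : FD U K) (l : ℕ) : ℝ := (Fintype.card U : ℝ) / D.t l

noncomputable def FD.π [Fintype U] [DecidableEq U] (D : FD U K) (l : ℕ) (u : U) : ℝ :=
  (D.t l / Fintype.card U - if u ∈ D.E l then 1 else 0) / D.t (l + 1)

noncomputable def FD.w0 [Fintype U] [DecidableEq U] [DecidableEq K] (D : FD U K) (l : ℕ) (u : U) (t : ℕ × U × K) : ℝ :=
  if t.1 = l ∧ t.2.1 = u then (if t.2.2 = D.a l then 0 else 1 - D.δ l) else 1

noncomputable def FD.w1 [Fintype U] [DecidableEq U] [DecidableEq K] (D : FD U K) (l : ℕ) (u : U) (t : ℕ × U × K) : ℝ :=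
  if t.1 = l ∧ t.2.1 = u ∧ t.2.2 ≠ D.a l then 1 - D.δ l else 1

noncomputable def FD.w2 [Fintype U] [DecidableEq U] (D : FD U K) (l : ℕ) (u : U) (t : ℕ × U × K) : ℝ :=
  if t.1 = l ∧ t.2.1 = u then 1 - D.δ l else 1

noncomputable def FD.P [Fintype U] [DecidableEq U] [DecidableEq K] (D : FD U K) (l : ℕ) (T : Finset (ℕ × U × K)) : ℝ :=
  ∑ u, D.π l u * ∏ t ∈ T, D.w1 l u t

/-- the function -/
noncomputable def FD.F [Fintype U] [DecidableEq U] [DecidableEq K] (D : FD U K) (T : Finset (ℕ × U × K)) : ℝ :=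
  ∑ l ∈ range D.L, ∑ u ∈ D.E l, (1 - (∏ t ∈ T, D.w0 l u t) * ∏ i ∈ range l, D.P i T) +
    D.h * (1 - ∏ i ∈ range D.L, D.P i T)

structure FD.OK [Fintype U] (D : FD U K) : Prop where
  pos : 0 < Fintype.card U
  le : (Fintype.card U : ℝ) ≤ D.h

/-- nonnegative, antitone, supermodular set functions -/
structure Sm {α : Type} [DecidableEq α] (f : Finset α → ℝ) : Prop where
  nn : ∀ T, 0 ≤ f T
  anti : Antitone f
  sup : ∀ S T, f S + f T ≤ f (S ∪ T) + f (S ∩ T)

end Pool.Agent.Work.MP_eef58c_lc.TG
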