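import Pool.Agent.Work.MP_eef58c_lc.TG.SDefs
import Pool.Agent.Work.MP_eef58c_lc.TG.FDefs

set_option autoImplicit false

/-!
# MP_eef58c_lc, TG: the function of the instance (definition)
-/

namespace Pool.Agent.Work.MP_eef58c_lc.TG

open Finset

variable {K : Type} [Fintype K] [DecidableEq K]

/-- data of the function: groups are the pairs (vertex, half) -/
def Str.fd (S : Str K) (h : ℝ) (a : ℕ → K) : FD (S.V × Bool) K where
  L := S.L
  h := h
  a := a
  E := fun l => univ.filter fun u => (S.par a l u.1 (a l)).isSome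

/-- the function of the instance -/
noncomputable def Str.f (S : Str K) (h : ℝ) {n : ℕ} (ι : ℕ → S.V → Bool → Fin n) (a : ℕ → K)
    (β : ℕ → S.V → K → Bool) (X : Finset (Sym2 (Fin n))) : ℝ := (S.fd h a).F (S.slots ι a β X)

end Pool.Agent.Work.MP_eef58c_lc.TG
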