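import Pool.Agent.Work.MP_eef58c_lc.TG.FDefs

set_option autoImplicit false

/-!
# MP_eef58c_lc, TG, module FBas (S): basic inequalities

`t l ≥ h ≥ card U > 0`; `0 ≤ δ l ≤ 1`; `π l u ≥ 0` because `t l / card U ≥ 1`; `∑ u, π l u = (t l - card (E l)) / t (l+1) = 1` for `l < L`
(`t l = card (E l) + t (l+1)`, `Finset.sum_Ico_eq_add...`: `Finset.sum_eq_sum_Ico_succ_bot`); weights in `[0, 1]`; `P l ∅ = 1`, and `P l T = 1` if no `t ∈ T` has `t.1 = l` and
`t.2.2 ≠ a l`; `0 ≤ P l T ≤ 1`.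
-/

namespace Pool.Agent.Work.MP_eef58c_lc.TG

open Finset

variable {U K : Type} [Fintype U] [DecidableEq U] [DecidableEq K] {D : FD U K}

theorem h_le_t (D : FD U K) (l : ℕ) : D.h ≤ D.t l := by
  unfold FD.t
  have h1 : (0 : ℝ) ≤ ∑ i ∈ Ico l D.L, ((D.E i).card : ℝ) := Finset.sum_nonneg fun _ _ => Nat.cast_nonneg _
  linarith

private theorem cardR_pos (hD : D.OK) : (0 : ℝ) < Fintype.card U := by
  exact_mod_cast hD.pos

private theorem card_le_t (hD : D.OK) (l : ℕ) : (Fintype.card U : ℝ) ≤ D.t l :=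
  le_trans hD.le (h_le_t D l)

theorem t_pos (hD : D.OK) (l : ℕ) : 0 < D.t l := by
  have h1 := cardR_pos hD
  have h2 := card_le_t hD l
  linarith

theorem t_succ {l : ℕ} (hl : l < D.L) : D.t l = (D.E l).card + D.t (l + 1) := by
  unfold FD.t
  rw [Finset.sum_eq_sum_Ico_succ_bot hl]
  ring

theorem δ_nonneg (hD : D.OK) (l : ℕ) : 0 ≤ D.δ l :=
  div_nonneg (cardR_pos hD).le (t_pos hD l).le

theorem δ_le_one (hD : D.OK) (l : ℕ) : D.δ l ≤ 1 := by
  unfold FD.δ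
  rw [div_le_one (t_pos hD l)]
  exact card_le_t hD l

theorem π_nonneg (hD : D.OK) (l : ℕ) (u : U) : 0 ≤ D.π l u := by
  unfold FD.π
  refine div_nonneg ?_ (t_pos hD _).le
  have h1 : 1 ≤ D.t l / Fintype.card U := by
    rw [le_div_iff₀ (cardR_pos hD), one_mul]
    exact card_le_t hD l
  split_ifs <;> linarith

theorem π_sum (hD : D.OK) {l : ℕ} (hl : l < D.L) : ∑ u, D.π l u = 1 := by
  unfold FD.π
  rw [← Finset.sum_div, Finset.sum_sub_distrib, Finset.sum_const, Finset.card_univ, nsmul_eq_mul,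
    mul_div_cancel₀ _ (cardR_pos hD).ne']
  have h1 : ∑ u : U, (if u ∈ D.E l then (1 : ℝ) else 0) = (D.E l).card := by
    rw [Finset.sum_ite_mem, Finset.univ_inter, Finset.sum_const, nsmul_eq_mul, mul_one]
  rw [h1, div_eq_one_iff_eq (t_pos hD _).ne', t_succ hl]
  ring

theorem w0_mem (hD : D.OK) (l : ℕ) (u : U) (t : ℕ × U × K) : 0 ≤ D.w0 l u t ∧ D.w0 l u t ≤ 1 := by
  have h1 := δ_nonneg hD l
  have h2 := δ_le_one hD l
  unfold FD.w0
  split_ifs <;> constructor <;> linarith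

theorem w1_mem (hD : D.OK) (l : ℕ) (u : U) (t : ℕ × U × K) : 0 ≤ D.w1 l u t ∧ D.w1 l u t ≤ 1 := by
  have h1 := δ_nonneg hD l
  have h2 := δ_le_one hD l
  unfold FD.w1
  split_ifs <;> constructor <;> linarith

theorem P_eq_one (hD : D.OK) {l : ℕ} (hl : l < D.L) {T : Finset (ℕ × U × K)}
    (hT : ∀ t ∈ T, t.1 = l → t.2.2 = D.a l) : D.P l T = 1 := by
  unfold FD.P
  have h1 : ∀ u : U, ∏ t ∈ T, D.w1 l u t = 1 := by
    intro u
    refine Finset.prod_eq_one fun t ht => ?_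
    unfold FD.w1
    refine if_neg ?_
    rintro ⟨h2, -, h3⟩
    exact h3 (hT t ht h2)
  simp only [h1, mul_one]
  exact π_sum hD hl

theorem P_nonneg (hD : D.OK) (l : ℕ) (T : Finset (ℕ × U × K)) : 0 ≤ D.P l T :=
  Finset.sum_nonneg fun u _ => mul_nonneg (π_nonneg hD l u)
    (Finset.prod_nonneg fun t _ => (w1_mem hD l u t).1)

theorem P_le_one (hD : D.OK) {l : ℕ} (hl : l < D.L) (T : Finset (ℕ × U × K)) : D.P l T ≤ 1 := by
  rw [← π_sum hD hl]
  unfold FD.P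
  refine Finset.sum_le_sum fun u _ => mul_le_of_le_one_right (π_nonneg hD l u) ?_
  exact Finset.prod_le_one (fun t _ => (w1_mem hD l u t).1) fun t _ => (w1_mem hD l u t).2

end Pool.Agent.Work.MP_eef58c_lc.TG
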