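import Pool.Agent.Work.MP_eef58c_lc.TG.FBas

set_option autoImplicit false

/-!
# MP_eef58c_lc, TG, module FLocA (M): the phase identity

`l < L`, `T` a set of slots such that every slot of the phase `l` with colour `a l` has its group in `E l`. Fix `u`. Let `ν` be the number of the slots
`(l, u, c) ∈ T` with `c ≠ a l`, `x = 1 - δ l`. `∏ t ∈ T, w1 l u t = x ^ ν`. If `(l, u, a l) ∉ T` then `∏ w0 = ∏ w1 = ∏ w2 = x ^ ν`; if `(l, u, a l) ∈ T` then `∏ w0 = 0`,
`∏ w2 = x ^ (ν + 1) = x * ∏ w1` and `u ∈ E l`. Since `t (l+1) * π l u = t l / N - [u ∈ E l]` (`N = card U`) we have to show for every `u`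
`[u ∈ E l] ∏ w0 + (t l / N - [u ∈ E l]) ∏ w1 = (t l / N) ∏ w2`: in the first case all products agree; in the second case
`(t l / N - 1) ∏ w1 = (t l / N) (1 - N / t l) ∏ w1`.
-/

namespace Pool.Agent.Work.MP_eef58c_lc.TG

open Finset

variable {U K : Type} [Fintype U] [DecidableEq U] [DecidableEq K] {D : FD U K}

private theorem floca_t_pos (hD : D.OK) (l : ℕ) : 0 < D.t l := by
  have h1 : (0 : ℝ) < Fintype.card U := by exact_mod_cast hD.pos
  have h2 : 0 ≤ ∑ i ∈ Ico l D.L, ((D.E i).card : ℝ) :=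
    Finset.sum_nonneg fun i _ => Nat.cast_nonneg _
  have h3 := hD.le
  unfold FD.t
  linarith

private theorem floca_u (hD : D.OK) {l : ℕ} (T : Finset (ℕ × U × K))
    (hT : ∀ t ∈ T, t.1 = l → t.2.2 = D.a l → t.2.1 ∈ D.E l) (u : U) :
    (if u ∈ D.E l then (1 : ℝ) else 0) * ∏ t ∈ T, D.w0 l u t +
      (D.t l / Fintype.card U - if u ∈ D.E l then (1 : ℝ) else 0) * ∏ t ∈ T, D.w1 l u t =
      D.t l / Fintype.card U * ∏ t ∈ T, D.w2 l u t := by
  have hN : (0 : ℝ) < Fintype.card U := by exact_mod_cast hD.pos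
  have ht := floca_t_pos hD l
  by_cases h0 : (l, u, D.a l) ∈ T
  · have hu : u ∈ D.E l := hT _ h0 rfl rfl
    have e0 : ∏ t ∈ T, D.w0 l u t = 0 := by
      refine Finset.prod_eq_zero h0 ?_
      unfold FD.w0
      rw [if_pos ⟨rfl, rfl⟩, if_pos rfl]
    have e1 : ∏ t ∈ T.erase (l, u, D.a l), D.w1 l u t =
        ∏ t ∈ T.erase (l, u, D.a l), D.w2 l u t := by
      refine Finset.prod_congr rfl fun t ht => ?_
      obtain ⟨hne, -⟩ := Finset.mem_erase.1 ht
      unfold FD.w1 FD.w2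
      by_cases h1 : t.1 = l ∧ t.2.1 = u
      · have h2 : t.2.2 ≠ D.a l := by
          intro h3
          apply hne
          exact Prod.ext h1.1 (Prod.ext h1.2 h3)
        rw [if_pos ⟨h1.1, h1.2, h2⟩, if_pos h1]
      · rw [if_neg (fun h2 => h1 ⟨h2.1, h2.2.1⟩), if_neg h1]
    have e2 : D.w1 l u (l, u, D.a l) = 1 := by
      unfold FD.w1
      rw [if_neg]
      rintro ⟨-, -, h1⟩
      exact h1 rfl
    have e3 : D.w2 l u (l, u, D.a l) = 1 - D.δ l := by
      unfold FD.w2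
      rw [if_pos ⟨rfl, rfl⟩]
    have e4 := Finset.mul_prod_erase T (D.w1 l u) h0
    have e5 := Finset.mul_prod_erase T (D.w2 l u) h0
    rw [e0, if_pos hu, ← e4, ← e5, e1, e2, e3]
    unfold FD.δ
    field_simp
    ring
  · have e1 : ∏ t ∈ T, D.w0 l u t = ∏ t ∈ T, D.w2 l u t := by
      refine Finset.prod_congr rfl fun t ht => ?_
      unfold FD.w0 FD.w2
      by_cases h1 : t.1 = l ∧ t.2.1 = u
      · have h2 : t.2.2 ≠ D.a l := by
          intro h3
          apply h0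
          have h4 : t = (l, u, D.a l) := Prod.ext h1.1 (Prod.ext h1.2 h3)
          rw [← h4]
          exact ht
        rw [if_pos h1, if_pos h1, if_neg h2]
      · rw [if_neg h1, if_neg h1]
    have e2 : ∏ t ∈ T, D.w1 l u t = ∏ t ∈ T, D.w2 l u t := by
      refine Finset.prod_congr rfl fun t ht => ?_
      unfold FD.w1 FD.w2
      by_cases h1 : t.1 = l ∧ t.2.1 = u
      · have h2 : t.2.2 ≠ D.a l := by
          intro h3
          apply h0
          have h4 : t = (l, u, D.a l) := Prod.ext h1.1 (Prod.ext h1.2 h3)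
          rw [← h4]
          exact ht
        rw [if_pos ⟨h1.1, h1.2, h2⟩, if_pos h1]
      · rw [if_neg (fun h2 => h1 ⟨h2.1, h2.2.1⟩), if_neg h1]
    rw [e1, e2]
    ring

theorem phase_id (hD : D.OK) {l : ℕ} (T : Finset (ℕ × U × K))
    (hT : ∀ t ∈ T, t.1 = l → t.2.2 = D.a l → t.2.1 ∈ D.E l) :
    ∑ u ∈ D.E l, ∏ t ∈ T, D.w0 l u t + D.t (l + 1) * D.P l T =
      ∑ u, D.t l / Fintype.card U * ∏ t ∈ T, D.w2 l u t := by
  have h1 : ∑ u ∈ D.E l, ∏ t ∈ T, D.w0 l u t =
      ∑ u, (if u ∈ D.E l then (1 : ℝ) else 0) * ∏ t ∈ T, D.w0 l u t := by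
    rw [← Finset.sum_filter_add_sum_filter_not univ (fun u => u ∈ D.E l)
      (fun u => (if u ∈ D.E l then (1 : ℝ) else 0) * ∏ t ∈ T, D.w0 l u t)]
    have h2 : ∑ u ∈ univ.filter (fun u => ¬ u ∈ D.E l),
        (if u ∈ D.E l then (1 : ℝ) else 0) * ∏ t ∈ T, D.w0 l u t = 0 := by
      refine Finset.sum_eq_zero fun u hu => ?_
      rw [if_neg (Finset.mem_filter.1 hu).2, zero_mul]
    rw [h2, add_zero]
    have h3 : univ.filter (fun u => u ∈ D.E l) = D.E l := by
      ext u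
      simp
    rw [h3]
    refine Finset.sum_congr rfl fun u hu => ?_
    rw [if_pos hu, one_mul]
  have h2 : D.t (l + 1) * D.P l T =
      ∑ u, (D.t l / Fintype.card U - if u ∈ D.E l then (1 : ℝ) else 0) * ∏ t ∈ T, D.w1 l u t := by
    unfold FD.P
    rw [Finset.mul_sum]
    refine Finset.sum_congr rfl fun u _ => ?_
    unfold FD.π
    have h3 := (floca_t_pos hD (l + 1)).ne'
    rw [← mul_assoc, mul_div_cancel₀ _ h3]
  rw [h1, h2, ← Finset.sum_add_distrib]
  exact Finset.sum_congr rfl fun u _ => floca_u hD T hT u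

end Pool.Agent.Work.MP_eef58c_lc.TG
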