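import Pool.Agent.Work.MP_eef58c_lc.TG.FBas

set_option autoImplicit false

/-!
# MP_eef58c_lc, TG, module FUpA (M): lower bounds for the factors

Weierstrass: `∏ t ∈ T, w t ≥ 1 - ∑ t ∈ T, (1 - w t)` for `0 ≤ w ≤ 1` (induction).
`P_lower`: `π l u ≤ t l / (N * t (l+1))`, `∏ w1 l u t ≥ 1 - δ l * ν_u`, `ν_u = #{t ∈ T : t.1 = l, t.2.1 = u, t.2.2 ≠ a l}`, `∑ u, ν_u = b`, `∑ u, π l u = 1`,
`(t l / (N t (l+1))) * δ l = 1 / t (l+1)`.
`W_lower`: `1 - w0` is `1` for the slot `(l, u, a l)`, `δ l ≤ N / h` for the slots `(l, u, c)`, `c ≠ a l`, and `0` otherwise.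
`F_up1`: `1 - W Π ≤ (1 - Π) + (1 - W)` for `0 ≤ Π ≤ 1`, `W ≤ 1`; the sum over `l < L` and `u ∈ E l` of `1 - W` is at most the number of the special slots plus `N / h` times the
number of the others (different `(l, u)` have different slots: `Finset.card_eq_sum_card_fiberwise` or `sum_comm`), and `h * (1 - ∏ ..) ≤ h`.
-/

namespace Pool.Agent.Work.MP_eef58c_lc.TG

open Finset

variable {U K : Type} [Fintype U] [DecidableEq U] [DecidableEq K] {D : FD U K}

theorem weier {α : Type} (T : Finset α) (w : α → ℝ) (h0 : ∀ t ∈ T, 0 ≤ w t) (h1 : ∀ t ∈ T, w t ≤ 1) :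
    1 - ∑ t ∈ T, (1 - w t) ≤ ∏ t ∈ T, w t := by
  classical
  induction T using Finset.induction_on with
  | empty => simp
  | insert x s hx ih =>
    rw [sum_insert hx, prod_insert hx]
    have hi := ih (fun t ht => h0 t (mem_insert_of_mem ht)) (fun t ht => h1 t (mem_insert_of_mem ht))
    have hp1 : ∏ t ∈ s, w t ≤ 1 :=
      prod_le_one (fun t ht => h0 t (mem_insert_of_mem ht)) (fun t ht => h1 t (mem_insert_of_mem ht))
    have hx1 := h1 x (mem_insert_self _ _)
    nlinarith [mul_le_mul_of_nonneg_left hp1 (sub_nonneg.2 hx1)]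

private theorem fup_card_pos (hD : D.OK) : (0 : ℝ) < Fintype.card U := by
  exact_mod_cast hD.pos

private theorem fup_π_le (hD : D.OK) (l : ℕ) (u : U) : D.π l u * D.δ l ≤ 1 / D.t (l + 1) := by
  have hN := fup_card_pos hD
  have ht := t_pos hD l
  have ht' := t_pos hD (l + 1)
  have h1 : D.π l u ≤ D.t l / Fintype.card U / D.t (l + 1) := by
    unfold FD.π
    refine div_le_div_of_nonneg_right ?_ ht'.le
    split_ifs <;> linarith
  calc D.π l u * D.δ l ≤ D.t l / Fintype.card U / D.t (l + 1) * D.δ l :=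
        mul_le_mul_of_nonneg_right h1 (δ_nonneg hD l)
    _ = 1 / D.t (l + 1) := by
        unfold FD.δ
        field_simp

theorem P_lower (hD : D.OK) {l : ℕ} (hl : l < D.L) (T : Finset (ℕ × U × K)) :
    1 - ((T.filter fun t => t.1 = l ∧ t.2.2 ≠ D.a t.1).card : ℝ) / D.t (l + 1) ≤ D.P l T := by
  have ht' := t_pos hD (l + 1)
  have h1 : ∀ u, D.π l u * (1 - ∑ t ∈ T, (1 - D.w1 l u t)) ≤ D.π l u * ∏ t ∈ T, D.w1 l u t := fun u =>
    mul_le_mul_of_nonneg_left (weier T _ (fun t _ => (w1_mem hD l u t).1) (fun t _ => (w1_mem hD l u t).2))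
      (π_nonneg hD l u)
  have h2 : ∑ u, D.π l u * (1 - ∑ t ∈ T, (1 - D.w1 l u t)) =
      1 - ∑ t ∈ T, ∑ u, D.π l u * (1 - D.w1 l u t) := by
    have h6 : ∀ u ∈ (univ : Finset U), D.π l u * (1 - ∑ t ∈ T, (1 - D.w1 l u t)) =
        D.π l u - ∑ t ∈ T, D.π l u * (1 - D.w1 l u t) := by
      intro u _
      rw [mul_sub, mul_one, mul_sum]
    rw [sum_congr rfl h6, sum_sub_distrib, π_sum hD hl, sum_comm]
  have h3 : ∀ t ∈ T, ∑ u, D.π l u * (1 - D.w1 l u t) ≤
      if t.1 = l ∧ t.2.2 ≠ D.a t.1 then 1 / D.t (l + 1) else 0 := by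
    intro t _
    by_cases hc : t.1 = l ∧ t.2.2 ≠ D.a t.1
    · rw [if_pos hc]
      have h4 : ∑ u, D.π l u * (1 - D.w1 l u t) = D.π l t.2.1 * (1 - D.w1 l t.2.1 t) := by
        refine sum_eq_single_of_mem _ (mem_univ _) fun u _ hu => ?_
        have h5 : D.w1 l u t = 1 := by
          unfold FD.w1
          rw [if_neg]
          rintro ⟨-, h, -⟩
          exact hu h.symm
        rw [h5, sub_self, mul_zero]
      rw [h4]
      have h5 : D.w1 l t.2.1 t = 1 - D.δ l := by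
        unfold FD.w1
        rw [if_pos]
        exact ⟨hc.1, rfl, by rw [← hc.1]; exact hc.2⟩
      rw [h5]
      have h6 := fup_π_le hD l t.2.1
      linarith
    · rw [if_neg hc]
      refine le_of_eq (sum_eq_zero fun u _ => ?_)
      have h5 : D.w1 l u t = 1 := by
        unfold FD.w1
        rw [if_neg]
        rintro ⟨h, -, h'⟩
        exact hc ⟨h, by rw [h]; exact h'⟩
      rw [h5, sub_self, mul_zero]
  have h4 : ∑ t ∈ T, (if t.1 = l ∧ t.2.2 ≠ D.a t.1 then 1 / D.t (l + 1) else 0) =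
      ((T.filter fun t => t.1 = l ∧ t.2.2 ≠ D.a t.1).card : ℝ) / D.t (l + 1) := by
    rw [← sum_filter, sum_const, nsmul_eq_mul, mul_one_div]
  calc 1 - ((T.filter fun t => t.1 = l ∧ t.2.2 ≠ D.a t.1).card : ℝ) / D.t (l + 1)
      ≤ 1 - ∑ t ∈ T, ∑ u, D.π l u * (1 - D.w1 l u t) := by
        rw [← h4]
        linarith [sum_le_sum h3]
    _ = ∑ u, D.π l u * (1 - ∑ t ∈ T, (1 - D.w1 l u t)) := h2.symm
    _ ≤ D.P l T := sum_le_sum fun u _ => h1 u

/-- the value of a slot -/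
private noncomputable def fupc (D : FD U K) (t : ℕ × U × K) : ℝ :=
  if t.2.2 = D.a t.1 then 1 else Fintype.card U / D.h

private theorem fupc_nonneg (hD : D.OK) (t : ℕ × U × K) : 0 ≤ fupc D t := by
  have hN := fup_card_pos hD
  have hh : 0 < D.h := hN.trans_le hD.le
  unfold fupc
  split_ifs
  · exact zero_le_one
  · positivity

private theorem fup_w0 (hD : D.OK) (l : ℕ) (u : U) (t : ℕ × U × K) :
    1 - D.w0 l u t ≤ if t.1 = l ∧ t.2.1 = u then fupc D t else 0 := by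
  have hN := fup_card_pos hD
  have hh : 0 < D.h := hN.trans_le hD.le
  unfold FD.w0
  by_cases hc : t.1 = l ∧ t.2.1 = u
  · rw [if_pos hc, if_pos hc]
    unfold fupc
    rw [hc.1]
    split_ifs
    · simp
    · have : D.δ l ≤ Fintype.card U / D.h := by
        unfold FD.δ
        exact div_le_div_of_nonneg_left hN.le hh (h_le_t D l)
      linarith
  · rw [if_neg hc, if_neg hc]
    simp

private theorem fup_sum (hD : D.OK) (T : Finset (ℕ × U × K)) :
    ∑ l ∈ range D.L, ∑ u ∈ D.E l, (1 - ∏ t ∈ T, D.w0 l u t) ≤ ∑ t ∈ T, fupc D t := by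
  calc ∑ l ∈ range D.L, ∑ u ∈ D.E l, (1 - ∏ t ∈ T, D.w0 l u t)
      ≤ ∑ l ∈ range D.L, ∑ u ∈ D.E l, ∑ t ∈ T, (if t.1 = l ∧ t.2.1 = u then fupc D t else 0) := by
        refine sum_le_sum fun l _ => sum_le_sum fun u _ => ?_
        have h1 := weier T (D.w0 l u) (fun t _ => (w0_mem hD l u t).1) (fun t _ => (w0_mem hD l u t).2)
        have h2 : ∑ t ∈ T, (1 - D.w0 l u t) ≤ ∑ t ∈ T, (if t.1 = l ∧ t.2.1 = u then fupc D t else 0) :=
          sum_le_sum fun t _ => fup_w0 hD l u t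
        linarith
    _ ≤ ∑ l ∈ range D.L, ∑ u : U, ∑ t ∈ T, (if t.1 = l ∧ t.2.1 = u then fupc D t else 0) := by
        refine sum_le_sum fun l _ => sum_le_univ_sum_of_nonneg fun u => sum_nonneg fun t _ => ?_
        split_ifs
        · exact fupc_nonneg hD t
        · exact le_rfl
    _ = ∑ t ∈ T, ∑ l ∈ range D.L, ∑ u : U, (if t.1 = l ∧ t.2.1 = u then fupc D t else 0) := by
        have e : ∀ l ∈ range D.L, ∑ u : U, ∑ t ∈ T, (if t.1 = l ∧ t.2.1 = u then fupc D t else 0) =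
            ∑ t ∈ T, ∑ u : U, (if t.1 = l ∧ t.2.1 = u then fupc D t else 0) := fun l _ => sum_comm
        rw [sum_congr rfl e, sum_comm]
    _ ≤ ∑ t ∈ T, fupc D t := by
        refine sum_le_sum fun t _ => ?_
        have h1 : ∀ l, ∑ u : U, (if t.1 = l ∧ t.2.1 = u then fupc D t else 0) = if t.1 = l then fupc D t else 0 := by
          intro l
          by_cases hl : t.1 = l
          · simp [hl]
          · simp [hl]
        simp_rw [h1]
        rw [sum_ite_eq]
        split_ifs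
        · exact le_rfl
        · exact fupc_nonneg hD t

theorem F_up1 (hD : D.OK) (T : Finset (ℕ × U × K)) :
    D.F T ≤ ∑ l ∈ range D.L, ((D.E l).card : ℝ) * (1 - ∏ i ∈ range l, D.P i T) + D.h +
      ((T.filter fun t => t.2.2 = D.a t.1).card : ℝ) +
      Fintype.card U / D.h * ((T.filter fun t => t.2.2 ≠ D.a t.1).card : ℝ) := by
  have hN := fup_card_pos hD
  have hh : 0 < D.h := hN.trans_le hD.le
  have hsum : ∑ t ∈ T, fupc D t = ((T.filter fun t => t.2.2 = D.a t.1).card : ℝ) +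
      Fintype.card U / D.h * ((T.filter fun t => t.2.2 ≠ D.a t.1).card : ℝ) := by
    unfold fupc
    rw [sum_ite, sum_const, sum_const, nsmul_eq_mul, nsmul_eq_mul, mul_one, mul_comm]
  have hq0 : ∀ l, 0 ≤ ∏ i ∈ range l, D.P i T := fun l => prod_nonneg fun i _ => P_nonneg hD i T
  have hq1 : ∀ l ≤ D.L, ∏ i ∈ range l, D.P i T ≤ 1 := fun l hl =>
    prod_le_one (fun i _ => P_nonneg hD i T) fun i hi => P_le_one hD (lt_of_lt_of_le (mem_range.1 hi) hl) T
  have h1 : ∑ l ∈ range D.L, ∑ u ∈ D.E l, (1 - (∏ t ∈ T, D.w0 l u t) * ∏ i ∈ range l, D.P i T) ≤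
      ∑ l ∈ range D.L, ((D.E l).card : ℝ) * (1 - ∏ i ∈ range l, D.P i T) +
        ∑ l ∈ range D.L, ∑ u ∈ D.E l, (1 - ∏ t ∈ T, D.w0 l u t) := by
    rw [← sum_add_distrib]
    refine sum_le_sum fun l hl => ?_
    rw [← nsmul_eq_mul, ← sum_const, ← sum_add_distrib]
    refine sum_le_sum fun u _ => ?_
    have a1 := hq1 l (mem_range.1 hl).le
    have a2 : ∏ t ∈ T, D.w0 l u t ≤ 1 :=
      prod_le_one (fun t _ => (w0_mem hD l u t).1) (fun t _ => (w0_mem hD l u t).2)
    nlinarith [mul_nonneg (sub_nonneg.2 a1) (sub_nonneg.2 a2)]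
  have h2 : D.h * (1 - ∏ i ∈ range D.L, D.P i T) ≤ D.h := by
    nlinarith [mul_nonneg hh.le (hq0 D.L)]
  have h3 := fup_sum hD T
  unfold FD.F
  rw [hsum] at h3
  linarith

end Pool.Agent.Work.MP_eef58c_lc.TG
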