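import Pool.Agent.Work.MP_eef58c_lc.TG.FUpA

set_option autoImplicit false

/-!
# MP_eef58c_lc, TG, module FUpB (M): the products of the factors copy by copy

`q` is the copy of a phase. `b i = #{t ∈ T : t.1 = i, t.2.2 ≠ a i}`. For `i < L` with `q i = j'` the number `t (i+1)` is at least `h + (p - 1 - j') M`: the phases `l'` with `q l' > j'`
are `≥ i + 1` (monotone), and they contribute `M` for every copy `j' + 1, .., p - 1`. So `∏ i < L, q i = j', P i T ≥ ∏ (1 - b i / t (i+1)) ≥ 1 - ∑ b i / t (i+1) ≥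
1 - c / (h + (p - 1 - j') M)` (`weier`; `b i ≤ c ≤ h ≤ t`). For `l` with `q l = j`: `∏ i ∈ range l, P i T ≥ ∏ i ∈ range L, q i ≤ j, P i T` (all factors in `[0, 1]`, `i < l` implies
`q i ≤ j`; the other factors are `≤ 1`) `≥ ∏ j' ∈ range (j+1), (1 - c / (h + (p - 1 - j') M))`.
Sum over `l` (`sum_fiberwise`): `∑ l, card (E l) * ∏ .. ≥ M * ∑ j < p, ∏ j' ≤ j, ..`.
-/

namespace Pool.Agent.Work.MP_eef58c_lc.TG

open Finset

variable {U K : Type} [Fintype U] [DecidableEq U] [DecidableEq K] {D : FD U K}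

private theorem prod_subset_leB {α : Type} [DecidableEq α] {A B : Finset α} (hAB : A ⊆ B)
    (w : α → ℝ) (h0 : ∀ t ∈ B, 0 ≤ w t) (h1 : ∀ t ∈ B, w t ≤ 1) : ∏ t ∈ B, w t ≤ ∏ t ∈ A, w t := by
  rw [← prod_sdiff hAB]
  have h2 : ∏ t ∈ B \ A, w t ≤ 1 :=
    prod_le_one (fun t ht => h0 t (mem_sdiff.1 ht).1) fun t ht => h1 t (mem_sdiff.1 ht).1
  have h3 : 0 ≤ ∏ t ∈ A, w t := prod_nonneg fun t ht => h0 t (hAB ht)
  calc (∏ t ∈ B \ A, w t) * ∏ t ∈ A, w t ≤ 1 * ∏ t ∈ A, w t := mul_le_mul_of_nonneg_right h2 h3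
    _ = _ := one_mul _

private theorem t_lowerB (D : FD U K) (q : ℕ → ℕ) (hq : Monotone q) {p : ℕ} {M : ℝ}
    (hM : ∀ j < p, ∑ l ∈ (range D.L).filter (fun l => q l = j), ((D.E l).card : ℝ) = M)
    {i j' : ℕ} (hi : q i = j') (hj' : j' < p) : D.h + ((p : ℝ) - 1 - j') * M ≤ D.t (i + 1) := by
  unfold FD.t
  have h1 : ((p : ℝ) - 1 - j') * M = ∑ j ∈ Ico (j' + 1) p,
      ∑ l ∈ (range D.L).filter (fun l => q l = j), ((D.E l).card : ℝ) := by
    rw [sum_congr rfl fun j hj => hM j (mem_Ico.1 hj).2, sum_const, Nat.card_Ico, nsmul_eq_mul,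
      Nat.cast_sub (by omega)]
    push_cast
    ring
  have h2 : ∑ j ∈ Ico (j' + 1) p,
      ∑ l ∈ (range D.L).filter (fun l => q l = j), ((D.E l).card : ℝ) =
      ∑ l ∈ (range D.L).filter (fun l => q l ∈ Ico (j' + 1) p), ((D.E l).card : ℝ) := by
    rw [← sum_fiberwise_of_maps_to (s := (range D.L).filter (fun l => q l ∈ Ico (j' + 1) p))
      (t := Ico (j' + 1) p) (g := q) (fun l hl => (mem_filter.1 hl).2)]
    refine sum_congr rfl fun j hj => ?_
    refine sum_congr ?_ fun _ _ => rfl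
    ext l
    simp only [mem_filter]
    constructor
    · rintro ⟨h3, h4⟩
      refine ⟨⟨h3, ?_⟩, h4⟩
      rw [h4]
      exact hj
    · rintro ⟨⟨h3, _⟩, h4⟩
      exact ⟨h3, h4⟩
  have h3 : ∑ l ∈ (range D.L).filter (fun l => q l ∈ Ico (j' + 1) p), ((D.E l).card : ℝ) ≤
      ∑ l ∈ Ico (i + 1) D.L, ((D.E l).card : ℝ) := by
    refine sum_le_sum_of_subset_of_nonneg ?_ fun _ _ _ => Nat.cast_nonneg _
    intro l hl
    rw [mem_filter, mem_range, mem_Ico] at hl
    rw [mem_Ico]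
    refine ⟨?_, hl.1⟩
    by_contra hcon
    have h4 : q l ≤ q i := hq (by omega)
    omega
  rw [h1, h2]
  linarith

private theorem den_posB (hD : D.OK) {p j' : ℕ} {M : ℝ} (hj' : j' < p) (hM0 : 0 ≤ M) :
    0 < D.h ∧ D.h ≤ D.h + ((p : ℝ) - 1 - j') * M := by
  have h1 : (0 : ℝ) < Fintype.card U := by exact_mod_cast hD.pos
  have h2 : (0 : ℝ) ≤ (p : ℝ) - 1 - j' := by
    have h3 : ((j' + 1 : ℕ) : ℝ) ≤ (p : ℝ) := by exact_mod_cast hj'
    push_cast at h3
    linarith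
  have h4 : 0 ≤ ((p : ℝ) - 1 - j') * M := mul_nonneg h2 hM0
  exact ⟨lt_of_lt_of_le h1 hD.le, by linarith⟩

private theorem copy_lowerB (hD : D.OK) (T : Finset (ℕ × U × K)) (q : ℕ → ℕ) (hq : Monotone q)
    {p : ℕ} {M c : ℝ}
    (hM : ∀ j < p, ∑ l ∈ (range D.L).filter (fun l => q l = j), ((D.E l).card : ℝ) = M)
    (hc : ∀ j, ((T.filter fun t => q t.1 = j ∧ t.2.2 ≠ D.a t.1).card : ℝ) ≤ c) (hM0 : 0 ≤ M)
    {j' : ℕ} (hj' : j' < p) :
    1 - c / (D.h + ((p : ℝ) - 1 - j') * M) ≤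
      ∏ i ∈ (range D.L).filter (fun i => q i = j'), D.P i T := by
  obtain ⟨hh0, hh1⟩ := den_posB (D := D) hD hj' hM0
  have hden : 0 < D.h + ((p : ℝ) - 1 - j') * M := lt_of_lt_of_le hh0 hh1
  refine le_trans ?_ (weier ((range D.L).filter fun i => q i = j') (fun i => D.P i T)
    (fun i _ => P_nonneg hD i T) fun i hi => P_le_one hD (mem_range.1 (mem_filter.1 hi).1) T)
  have h1 : ∀ i ∈ (range D.L).filter (fun i => q i = j'), 1 - D.P i T ≤
      ((T.filter fun t => t.1 = i ∧ t.2.2 ≠ D.a t.1).card : ℝ) /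
        (D.h + ((p : ℝ) - 1 - j') * M) := by
    intro i hi
    rw [mem_filter, mem_range] at hi
    have h2 := P_lower hD hi.1 T
    have h3 := t_lowerB D q hq hM hi.2 hj'
    have h4 : ((T.filter fun t => t.1 = i ∧ t.2.2 ≠ D.a t.1).card : ℝ) / D.t (i + 1) ≤
        ((T.filter fun t => t.1 = i ∧ t.2.2 ≠ D.a t.1).card : ℝ) /
          (D.h + ((p : ℝ) - 1 - j') * M) :=
      div_le_div_of_nonneg_left (Nat.cast_nonneg _) hden h3
    linarith
  have h5 := sum_le_sum h1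
  rw [← sum_div] at h5
  have h6 : ∑ i ∈ (range D.L).filter (fun i => q i = j'),
      ((T.filter fun t => t.1 = i ∧ t.2.2 ≠ D.a t.1).card : ℝ) ≤ c := by
    refine le_trans ?_ (hc j')
    have h7 : ∀ i ∈ (range D.L).filter (fun i => q i = j'),
        (T.filter fun t => t.1 = i ∧ t.2.2 ≠ D.a t.1).card ≤
        ((T.filter fun t => q t.1 = j' ∧ t.2.2 ≠ D.a t.1).filter fun t => t.1 = i).card := by
      intro i hi
      rw [mem_filter] at hi
      refine card_le_card fun t ht => ?_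
      rw [mem_filter] at ht
      rw [mem_filter, mem_filter]
      refine ⟨⟨ht.1, ?_, ht.2.2⟩, ht.2.1⟩
      rw [ht.2.1]
      exact hi.2
    have h8 : ∑ i ∈ (range D.L).filter (fun i => q i = j'),
        ((T.filter fun t => q t.1 = j' ∧ t.2.2 ≠ D.a t.1).filter fun t => t.1 = i).card ≤
        (T.filter fun t => q t.1 = j' ∧ t.2.2 ≠ D.a t.1).card := by
      rw [← card_biUnion]
      · refine card_le_card fun t ht => ?_
        rw [mem_biUnion] at ht
        obtain ⟨i, _, ht2⟩ := ht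
        exact (mem_filter.1 ht2).1
      · intro i _ i' _ hne
        refine disjoint_left.2 fun t ht ht' => hne ?_
        exact (mem_filter.1 ht).2.symm.trans (mem_filter.1 ht').2
    exact_mod_cast (sum_le_sum h7).trans h8
  have h9 : (∑ i ∈ (range D.L).filter (fun i => q i = j'),
      ((T.filter fun t => t.1 = i ∧ t.2.2 ≠ D.a t.1).card : ℝ)) /
        (D.h + ((p : ℝ) - 1 - j') * M) ≤ c / (D.h + ((p : ℝ) - 1 - j') * M) :=
    div_le_div_of_nonneg_right h6 hden.le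
  linarith

theorem F_up2 (hD : D.OK) (T : Finset (ℕ × U × K)) (q : ℕ → ℕ) (hq : Monotone q) {p : ℕ}
    (hp : ∀ l < D.L, q l < p) {M c : ℝ}
    (hM : ∀ j < p, ∑ l ∈ (range D.L).filter (fun l => q l = j), ((D.E l).card : ℝ) = M)
    (hc : ∀ j, ((T.filter fun t => q t.1 = j ∧ t.2.2 ≠ D.a t.1).card : ℝ) ≤ c) (hc0 : 0 ≤ c) (hch : c ≤ D.h)
    (hM0 : 0 ≤ M) :
    M * ∑ j ∈ range p, ∏ j' ∈ range (j + 1), (1 - c / (D.h + ((p : ℝ) - 1 - j') * M)) ≤
      ∑ l ∈ range D.L, ((D.E l).card : ℝ) * ∏ i ∈ range l, D.P i T := by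
  have hr0 : ∀ j' < p, 0 ≤ 1 - c / (D.h + ((p : ℝ) - 1 - j') * M) := by
    intro j' hj'
    obtain ⟨hh0, hh1⟩ := den_posB (D := D) hD hj' hM0
    have hden : 0 < D.h + ((p : ℝ) - 1 - j') * M := lt_of_lt_of_le hh0 hh1
    have h1 : c / (D.h + ((p : ℝ) - 1 - j') * M) ≤ 1 := by
      rw [div_le_one hden]
      linarith
    linarith
  have key : ∀ l < D.L, ∏ j' ∈ range (q l + 1), (1 - c / (D.h + ((p : ℝ) - 1 - j') * M)) ≤
      ∏ i ∈ range l, D.P i T := by
    intro l hl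
    have hql := hp l hl
    have h1 : ∏ i ∈ (range D.L).filter (fun i => q i ∈ range (q l + 1)), D.P i T ≤
        ∏ i ∈ range l, D.P i T := by
      refine prod_subset_leB ?_ _ (fun i _ => P_nonneg hD i T) fun i hi =>
        P_le_one hD (mem_range.1 (mem_filter.1 hi).1) T
      intro i hi
      rw [mem_range] at hi
      rw [mem_filter, mem_range, mem_range]
      have h2 : q i ≤ q l := hq hi.le
      exact ⟨by omega, by omega⟩
    refine le_trans ?_ h1
    rw [← prod_fiberwise_of_maps_to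
      (s := (range D.L).filter (fun i => q i ∈ range (q l + 1))) (t := range (q l + 1)) (g := q)
      (fun i hi => (mem_filter.1 hi).2)]
    refine prod_le_prod (fun j' hj' => hr0 j' ?_) fun j' hj' => ?_
    · rw [mem_range] at hj'
      omega
    · rw [mem_range] at hj'
      have h3 : ((range D.L).filter (fun i => q i ∈ range (q l + 1))).filter
          (fun i => q i = j') = (range D.L).filter (fun i => q i = j') := by
        ext i
        simp only [mem_filter, mem_range]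
        constructor
        · rintro ⟨⟨h4, _⟩, h5⟩
          exact ⟨h4, h5⟩
        · rintro ⟨h4, h5⟩
          exact ⟨⟨h4, by omega⟩, h5⟩
      rw [h3]
      exact copy_lowerB hD T q hq hM hc hM0 (by omega)
  rw [mul_sum, ← sum_fiberwise_of_maps_to (s := range D.L) (t := range p) (g := q)
    (fun l hl => mem_range.2 (hp l (mem_range.1 hl)))]
  refine sum_le_sum fun j hj => ?_
  rw [mem_range] at hj
  rw [← hM j hj, sum_mul]
  refine sum_le_sum fun l hl => ?_
  rw [mem_filter, mem_range] at hl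
  have h1 := key l hl.1
  rw [hl.2] at h1
  exact mul_le_mul_of_nonneg_left (by rw [hM j hj]; exact h1) (Nat.cast_nonneg _)

end Pool.Agent.Work.MP_eef58c_lc.TG
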