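import Pool.Agent.Work.MP_eef58c_lc.TG.Defs

set_option autoImplicit false

/-!
# MP_eef58c_lc, TG, module SchC (M): one more phase

All fields of `Sch.OK` by distinguishing `j < S.J`, `j = S.J`, `j > S.J` (the same for `j'`). `loc`: if `a, a'` agree below `j` and
`j = S.J` use `h1`; `sp`: the four cases old-old (`hS.sp`), old-new and new-old (`h6`), new-new (`h5`); `edge`: `hS.edge`, `h4` (also in the
symmetric form, `Eq.symm`), `h3`; `card_sp`: `hS.card_sp`, `h7`, and `0` for `j > S.J`.
-/

namespace Pool.Agent.Work.MP_eef58c_lc.TG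

open Finset

variable {K : Type}

private theorem schC_lt (S : Sch K) (np : (ℕ → K) → S.V → K → Option S.V) (mm : ℕ) (a : ℕ → K) (j : ℕ) (g : S.V)
    (c : K) (h : j < S.J) : (S.ext np mm).par a j g c = S.par a j g c := by
  show (if j < S.J then S.par a j g c else if j = S.J then np a g c else none) = S.par a j g c
  rw [if_pos h]

private theorem schC_eq (S : Sch K) (np : (ℕ → K) → S.V → K → Option S.V) (mm : ℕ) (a : ℕ → K) (g : S.V)
    (c : K) : (S.ext np mm).par a S.J g c = np a g c := by
  show (if S.J < S.J then S.par a S.J g c else if S.J = S.J then np a g c else none) = np a g c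
  rw [if_neg (lt_irrefl _), if_pos rfl]

private theorem schC_gt (S : Sch K) (np : (ℕ → K) → S.V → K → Option S.V) (mm : ℕ) (a : ℕ → K) (j : ℕ) (g : S.V)
    (c : K) (h : S.J < j) : (S.ext np mm).par a j g c = none := by
  show (if j < S.J then S.par a j g c else if j = S.J then np a g c else none) = none
  rw [if_neg (by omega), if_neg (by omega)]

/-- the cases of an edge of the extended scheme -/
private theorem schC_cases (S : Sch K) (np : (ℕ → K) → S.V → K → Option S.V) (mm : ℕ) (a : ℕ → K) (j : ℕ) (g : S.V)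
    (c : K) (h : S.V) (e : (S.ext np mm).par a j g c = some h) :
    (j < S.J ∧ S.par a j g c = some h) ∨ (j = S.J ∧ np a g c = some h) := by
  rcases lt_trichotomy j S.J with hj | hj | hj
  · left
    refine ⟨hj, ?_⟩
    rw [← schC_lt S np mm a j g c hj]
    exact e
  · right
    subst hj
    refine ⟨rfl, ?_⟩
    rw [← schC_eq S np mm a g c]
    exact e
  · exfalso
    rw [schC_gt S np mm a j g c hj] at e
    exact absurd e (by simp)

private theorem schC_card {S : Sch K} (hS : S.OK) (np : (ℕ → K) → S.V → K → Option S.V) (mm : ℕ)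
    (h7 : ∀ a, (univ.filter fun g => (np a g (a S.J)).isSome).card = mm) (a : ℕ → K) (j : ℕ) :
    (univ.filter fun g : S.V =>
      (if j < S.J then S.par a j g (a j) else if j = S.J then np a g (a j) else none : Option S.V).isSome).card =
      if j < S.J then S.m j else if j = S.J then mm else 0 := by
  rcases lt_trichotomy j S.J with hlt | heq | hgt
  · simp only [if_pos hlt]
    exact hS.card_sp a j
  · subst heq
    simp only [lt_irrefl, if_false, if_true]
    exact h7 a
  · have q1 : ¬ j < S.J := by omega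
    have q2 : ¬ j = S.J := by omega
    simp only [if_neg q1, if_neg q2]
    simp

theorem ext_ok {S : Sch K} (hS : S.OK) (np : (ℕ → K) → S.V → K → Option S.V) (mm : ℕ)
    (h1 : ∀ a a' : ℕ → K, (∀ i < S.J, a i = a' i) → np a = np a')
    (h2 : ∀ a g c h, np a g c = some h → S.sd h = !S.sd g)
    (h3 : ∀ a g g' c c' h h', np a g c = some h → np a g' c' = some h' → s(g, h) = s(g', h') → g = g' ∧ c = c')
    (h4 : ∀ a j g g' c c' h h', S.par a j g c = some h → np a g' c' = some h' → s(g, h) ≠ s(g', h'))
    (h5 : ∀ a g g' h h', np a g (a S.J) = some h → np a g' (a S.J) = some h' →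
      (g = g' ∨ g = h' ∨ h = g' ∨ h = h') → g = g')
    (h6 : ∀ a j g g' h h', S.par a j g (a j) = some h → np a g' (a S.J) = some h' →
      g ≠ g' ∧ g ≠ h' ∧ h ≠ g' ∧ h ≠ h')
    (h7 : ∀ a, (univ.filter fun g => (np a g (a S.J)).isSome).card = mm) :
    (S.ext np mm).OK := by
  refine ⟨?_, ?_, ?_, ?_, ?_, ?_⟩
  · intro a j g c hj
    exact schC_gt S np mm a j g c (Nat.lt_of_succ_le hj)
  · intro a a' j hj
    funext g c
    rcases lt_trichotomy j S.J with hlt | heq | hgt
    · rw [schC_lt S np mm a j g c hlt, schC_lt S np mm a' j g c hlt, hS.loc a a' j hj]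
    · subst heq
      rw [schC_eq S np mm a g c, schC_eq S np mm a' g c, h1 a a' hj]
    · rw [schC_gt S np mm a j g c hgt, schC_gt S np mm a' j g c hgt]
  · intro a j g c h e
    rcases schC_cases S np mm a j g c h e with ⟨_, e1⟩ | ⟨_, e1⟩
    · exact hS.side a j g c h e1
    · exact h2 a g c h e1
  · intro a j j' g g' c c' h h' e e' he
    rcases schC_cases S np mm a j g c h e with ⟨hj, e1⟩ | ⟨hj, e1⟩
    · rcases schC_cases S np mm a j' g' c' h' e' with ⟨hj', e1'⟩ | ⟨hj', e1'⟩
      · exact hS.edge a j j' g g' c c' h h' e1 e1' he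
      · exact absurd he (h4 a j g g' c c' h h' e1 e1')
    · rcases schC_cases S np mm a j' g' c' h' e' with ⟨hj', e1'⟩ | ⟨hj', e1'⟩
      · exact absurd he.symm (h4 a j' g' g c' c h' h e1' e1)
      · have h3' := h3 a g g' c c' h h' e1 e1' he
        exact ⟨hj.trans hj'.symm, h3'.1, h3'.2⟩
  · intro a j j' g g' h h' e e' he
    rcases schC_cases S np mm a j g (a j) h e with ⟨hj, e1⟩ | ⟨hj, e1⟩
    · rcases schC_cases S np mm a j' g' (a j') h' e' with ⟨hj', e1'⟩ | ⟨hj', e1'⟩
      · exact hS.sp a j j' g g' h h' e1 e1' he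
      · exfalso
        subst hj'
        obtain ⟨q1, q2, q3, q4⟩ := h6 a j g g' h h' e1 e1'
        rcases he with he | he | he | he
        · exact q1 he
        · exact q2 he
        · exact q3 he
        · exact q4 he
    · rcases schC_cases S np mm a j' g' (a j') h' e' with ⟨hj', e1'⟩ | ⟨hj', e1'⟩
      · exfalso
        subst hj
        obtain ⟨q1, q2, q3, q4⟩ := h6 a j' g' g h' h e1' e1
        rcases he with he | he | he | he
        · exact q1 he.symm
        · exact q3 he.symm
        · exact q2 he.symm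
        · exact q4 he.symm
      · subst hj
        subst hj'
        exact ⟨rfl, h5 a g g' h h' e1 e1' he⟩
  · intro a j
    exact schC_card hS np mm h7 a j

theorem D_ext (S : Sch K) (np : (ℕ → K) → S.V → K → Option S.V) (mm : ℕ) :
    (S.ext np mm).D = S.D + mm := by
  show ∑ j ∈ range (S.J + 1), (if j < S.J then S.m j else if j = S.J then mm else 0) = ∑ j ∈ range S.J, S.m j + mm
  rw [Finset.sum_range_succ, if_neg (lt_irrefl _), if_pos rfl]
  refine congrArg (· + mm) (Finset.sum_congr rfl fun j hj => ?_)
  rw [if_pos (Finset.mem_range.1 hj)]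

end Pool.Agent.Work.MP_eef58c_lc.TG
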