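import Pool.Agent.Work.MP_eef58c_lc.TG.SchA
import Pool.Agent.Work.MP_eef58c_lc.TG.SchC

set_option autoImplicit false

/-!
# MP_eef58c_lc, TG, module FinB (M): the last phase

`fin_ok`: `ext_ok` for `prod_ok (sum_ok hB.ok (emp_ok ..)) K`, `S.J = B.J + 0`. New edges: `(inl u, x) - (inr u, x + c)`, `u ∈ St ∪ act`, all `c`. `h1`:
`St_loc`, `act_loc`; `h2`: sides are opposite; `h3`: `u = u'`, `x = x'`, `x + c = x' + c'`; `h4`: old edges join `inl` with `inl` (the second summand has no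
edges); `h5`: `(inr u, x + v) = (inr u', x' + v)` gives `u = u'`, `x = x'`; `h6`: `free`; `h7`: the number of pairs `(inl u, x)`, `u ∈ St ∪ act` is
`(st + v) * card K` (`dj`).
`hard_ok`: `cov`: old edges which are not special: `cov0` (an end in `act` or in `C0`); new edges: the group vertex has `u ∈ St ∪ act ⊆ C0 ∪ act` (`St0`).
`card_C`: `card_union_le`.
`fin_D`, `fin_card_V`: `D = (B.D + 0) * k + (st + v) * k = (B.o + B.v) * k`, `card V = 2 * card B.V * k`.
-/

namespace Pool.Agent.Work.MP_eef58c_lc.TG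

open Finset

variable {K : Type} [AddCommGroup K] [Fintype K] [DecidableEq K]

private theorem fin_new {B : Blk K} (a : ℕ → K) (g h : (B.V ⊕ B.V) × K) (c : K) (hh : finNp B a g c = some h) :
    ∃ u, u ∈ B.St a ∪ B.act a ∧ g.1 = Sum.inl u ∧ h = (Sum.inr u, g.2 + c) := by
  obtain ⟨g1, g2⟩ := g
  rcases g1 with u | u
  · change (if u ∈ B.St a ∪ B.act a then some ((Sum.inr u, g2 + c) : (B.V ⊕ B.V) × K) else none) = some h at hh
    by_cases hu : u ∈ B.St a ∪ B.act a
    · rw [if_pos hu] at hh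
      exact ⟨u, hu, rfl, (Option.some.inj hh).symm⟩
    · rw [if_neg hu] at hh
      cases hh
  · change (none : Option ((B.V ⊕ B.V) × K)) = some h at hh
    cases hh

private theorem fin_old {B : Blk K} (a : ℕ → K) (j : ℕ) (g h : (B.V ⊕ B.V) × K) (c : K)
    (hh : ((B.toSch.sum (Sch.emp K B.V fun u => !B.sd u)).prod K).par a j g c = some h) :
    ∃ u h1, g.1 = Sum.inl u ∧ B.par a j u c = some h1 ∧ h = (Sum.inl h1, g.2) := by
  change ((if j < B.J then Sum.elim (fun u => (B.par a j u c).map Sum.inl) (fun _ => none) g.1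
      else Sum.elim (fun _ => none) (fun _ => none) g.1 : Option (B.V ⊕ B.V)).map fun h => (h, g.2)) = some h at hh
  obtain ⟨g1, g2⟩ := g
  by_cases hj : j < B.J
  · rw [if_pos hj] at hh
    rcases g1 with u | u
    · rw [Option.map_eq_some_iff] at hh
      obtain ⟨k, hk, he⟩ := hh
      simp only [Sum.elim_inl] at hk
      rw [Option.map_eq_some_iff] at hk
      obtain ⟨k1, hk1, hk2⟩ := hk
      exact ⟨u, k1, rfl, hk1, by rw [← he, ← hk2]⟩
    · simp at hh
  · rw [if_neg hj] at hh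
    rcases g1 with u | u <;> simp at hh

private theorem fin_card {B : Blk K} (hB : B.OK) (a : ℕ → K) (v : K) :
    (univ.filter fun g : (B.V ⊕ B.V) × K => (finNp B a g v).isSome).card = (B.st + B.v) * Fintype.card K := by
  have h1 : (univ.filter fun g : (B.V ⊕ B.V) × K => (finNp B a g v).isSome) =
      ((B.St a ∪ B.act a).disjSum (∅ : Finset B.V)) ×ˢ (univ : Finset K) := by
    ext ⟨g1, g2⟩
    rw [mem_filter, mem_product, mem_disjSum]
    rcases g1 with u | u
    · have e : finNp B a (Sum.inl u, g2) v =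
          (if u ∈ B.St a ∪ B.act a then some ((Sum.inr u, g2 + v) : (B.V ⊕ B.V) × K) else none) := rfl
      rw [e]
      by_cases hu : u ∈ B.St a ∪ B.act a
      · rw [if_pos hu]
        simpa using hu
      · rw [if_neg hu]
        simpa using hu
    · have e : finNp B a (Sum.inr u, g2) v = none := rfl
      rw [e]
      simp
  rw [h1, card_product, card_disjSum, card_empty, add_zero, card_union_of_disjoint (hB.dj a).symm,
    hB.card_St a, hB.card_act a, card_univ]

theorem fin_ok {B : Blk K} (hB : B.OK) : B.fin.OK := by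
  have hS : ((B.toSch.sum (Sch.emp K B.V fun u => !B.sd u)).prod K).OK :=
    prod_ok (sum_ok hB.ok (emp_ok B.V fun u => !B.sd u)) K
  refine ext_ok hS (finNp B) ((B.st + B.v) * Fintype.card K) ?_ ?_ ?_ ?_ ?_ ?_ ?_
  · intro a a' h
    have h' : ∀ i < B.J, a i = a' i := fun i hi => h i hi
    funext g c
    unfold finNp
    rw [hB.St_loc a a' h', hB.act_loc a a' h']
  · intro a (g : (B.V ⊕ B.V) × K) c (h : (B.V ⊕ B.V) × K) hh
    obtain ⟨u, hu, hg, he⟩ := fin_new a g h c hh
    change Sum.elim B.sd (fun u => !B.sd u) h.1 = !(Sum.elim B.sd (fun u => !B.sd u) g.1)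
    rw [hg, he]
    rfl
  · intro a (g : (B.V ⊕ B.V) × K) (g' : (B.V ⊕ B.V) × K) c c' (h : (B.V ⊕ B.V) × K) (h' : (B.V ⊕ B.V) × K) hh hh' hs
    obtain ⟨u, hu, hg, he⟩ := fin_new a g h c hh
    obtain ⟨u', hu', hg', he'⟩ := fin_new a g' h' c' hh'
    obtain ⟨g1, g2⟩ := g
    obtain ⟨g1', g2'⟩ := g'
    simp only at hg hg' he he'
    subst hg hg' he he'
    rcases Sym2.eq_iff.1 hs with ⟨e1, e2⟩ | ⟨e1, e2⟩
    · have e3 : u = u' := Sum.inl.inj (Prod.mk.inj e1).1
      have e4 : g2 = g2' := (Prod.mk.inj e1).2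
      have e5 : g2 + c = g2' + c' := (Prod.mk.inj e2).2
      subst e3 e4
      exact ⟨rfl, add_left_cancel e5⟩
    · have e3 := (Prod.mk.inj e1).1
      cases e3
  · intro a j (g : (B.V ⊕ B.V) × K) (g' : (B.V ⊕ B.V) × K) c c' (h : (B.V ⊕ B.V) × K) (h' : (B.V ⊕ B.V) × K) hh hh' hs
    obtain ⟨u, h1, hg, hp, he⟩ := fin_old a j g h c hh
    obtain ⟨u', hu', hg', he'⟩ := fin_new a g' h' c' hh'
    obtain ⟨g1, g2⟩ := g
    obtain ⟨g1', g2'⟩ := g'
    simp only at hg hg' he he'
    subst hg hg' he he'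
    rcases Sym2.eq_iff.1 hs with ⟨e1, e2⟩ | ⟨e1, e2⟩
    · have e3 := (Prod.mk.inj e2).1
      cases e3
    · have e3 := (Prod.mk.inj e1).1
      cases e3
  · intro a (g : (B.V ⊕ B.V) × K) (g' : (B.V ⊕ B.V) × K) (h : (B.V ⊕ B.V) × K) (h' : (B.V ⊕ B.V) × K) hh hh' hs
    obtain ⟨u, hu, hg, he⟩ := fin_new a g h _ hh
    obtain ⟨u', hu', hg', he'⟩ := fin_new a g' h' _ hh'
    obtain ⟨g1, g2⟩ := g
    obtain ⟨g1', g2'⟩ := g'
    simp only at hg hg' he he'
    subst hg hg' he he'
    rcases hs with e | e | e | e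
    · exact e
    · have e3 := (Prod.mk.inj e).1
      cases e3
    · have e3 := (Prod.mk.inj e).1
      cases e3
    · have e3 : u = u' := Sum.inr.inj (Prod.mk.inj e).1
      have e5 := (Prod.mk.inj e).2
      have e4 : g2 = g2' := add_right_cancel e5
      subst e3 e4
      rfl
  · intro a j (g : (B.V ⊕ B.V) × K) (g' : (B.V ⊕ B.V) × K) (h : (B.V ⊕ B.V) × K) (h' : (B.V ⊕ B.V) × K) hh hh'
    obtain ⟨u, h1, hg, hp, he⟩ := fin_old a j g h _ hh
    obtain ⟨u', hu', hg', he'⟩ := fin_new a g' h' _ hh'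
    obtain ⟨g1, g2⟩ := g
    obtain ⟨g1', g2'⟩ := g'
    simp only at hg hg' he he'
    subst hg hg' he he'
    obtain ⟨f1, f2, f3, f4⟩ := hB.free a j u h1 hp
    refine ⟨?_, ?_, ?_, ?_⟩
    · intro e
      have e3 : u = u' := Sum.inl.inj (Prod.mk.inj e).1
      subst e3
      rcases mem_union.1 hu' with h | h
      · exact f2 h
      · exact f1 h
    · intro e
      have e3 := (Prod.mk.inj e).1
      cases e3
    · intro e
      have e3 : h1 = u' := Sum.inl.inj (Prod.mk.inj e).1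
      subst e3
      rcases mem_union.1 hu' with h | h
      · exact f4 h
      · exact f3 h
    · intro e
      have e3 := (Prod.mk.inj e).1
      cases e3
  · intro a
    exact fin_card hB a _

theorem hard_ok {B : Blk K} (hB : B.OK) : B.hard.OK := by
  refine ⟨fin_ok hB, ?_, ?_⟩
  · intro a j (g : (B.V ⊕ B.V) × K) c (h : (B.V ⊕ B.V) × K) hp hc
    have hmem : ∀ w : (B.V ⊕ B.V) × K, (∃ u, (u ∈ B.C0 a ∨ u ∈ B.act a) ∧ w.1 = Sum.inl u) →
        w ∈ ((B.C0 a ∪ B.act a).disjSum (∅ : Finset B.V)) ×ˢ (univ : Finset K) := by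
      rintro ⟨w1, w2⟩ ⟨u, hu, hw⟩
      rw [mem_product, mem_disjSum]
      exact ⟨Or.inl ⟨u, mem_union.2 hu, hw.symm⟩, mem_univ _⟩
    change g ∈ ((B.C0 a ∪ B.act a).disjSum (∅ : Finset B.V)) ×ˢ (univ : Finset K) ∨
      h ∈ ((B.C0 a ∪ B.act a).disjSum (∅ : Finset B.V)) ×ˢ (univ : Finset K)
    change (if j < B.J + 0 then ((B.toSch.sum (Sch.emp K B.V fun u => !B.sd u)).prod K).par a j g c
      else if j = B.J + 0 then finNp B a g c else none) = some h at hp
    by_cases hj : j < B.J + 0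
    · rw [if_pos hj] at hp
      obtain ⟨u, h1, hg, hp1, he⟩ := fin_old a j g h c hp
      rcases hB.cov0 a j u c h1 hp1 hc with t | t | t | t
      · exact Or.inl (hmem g ⟨u, Or.inr t, hg⟩)
      · exact Or.inr (hmem h ⟨h1, Or.inr t, by rw [he]⟩)
      · exact Or.inl (hmem g ⟨u, Or.inl t, hg⟩)
      · exact Or.inr (hmem h ⟨h1, Or.inl t, by rw [he]⟩)
    · rw [if_neg hj] at hp
      by_cases hj' : j = B.J + 0
      · rw [if_pos hj'] at hp
        obtain ⟨u, hu, hg, he⟩ := fin_new a g h c hp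
        refine Or.inl (hmem g ⟨u, ?_, hg⟩)
        rcases mem_union.1 hu with t | t
        · exact Or.inl (hB.St0 a t)
        · exact Or.inr t
      · rw [if_neg hj'] at hp
        cases hp
  · intro a
    change (((B.C0 a ∪ B.act a).disjSum (∅ : Finset B.V)) ×ˢ (univ : Finset K)).card ≤ (B.c0 + B.v) * Fintype.card K
    rw [card_product, card_disjSum, card_empty, add_zero, card_univ]
    refine Nat.mul_le_mul_right _ ((card_union_le _ _).trans ?_)
    exact Nat.add_le_add (hB.card0 a) (hB.card_act a).le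

theorem hard_D (B : Blk K) : B.hard.D = (B.o + B.v) * Fintype.card K := by
  have h : B.hard.D = ((B.toSch.sum (Sch.emp K B.V fun u => !B.sd u)).prod K).D + (B.st + B.v) * Fintype.card K :=
    D_ext _ _ _
  rw [h, D_prod, D_sum, D_emp, add_zero, ← add_mul]
  unfold Blk.o
  rw [add_assoc]

theorem hard_J (B : Blk K) : B.hard.J = B.J + 1 := rfl

theorem hard_card_V (B : Blk K) : Fintype.card B.hard.V = 2 * Fintype.card B.V * Fintype.card K := by
  have h : Fintype.card B.hard.V = Fintype.card ((B.V ⊕ B.V) × K) := rfl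
  rw [h, Fintype.card_prod, Fintype.card_sum]
  ring

end Pool.Agent.Work.MP_eef58c_lc.TG
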