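import Pool.Agent.Work.MP_eef58c_lc.TG.Defs

set_option autoImplicit false

/-!
# MP_eef58c_lc, TG, module GCard (S-M): labels of a gadget

`J v` is the union over `s : Fin R` of the images of `I v` under `φ v s`; by `inj` the images have `ι` elements and are disjoint for
different `s` (`card_biUnion`, `card_image_of_injOn`). `I v` and `J v` are disjoint by `nI`, `Z v` is the rest.
-/

namespace Pool.Agent.Work.MP_eef58c_lc.TG

open Finset

variable {K : Type} {R : ℕ}

theorem gcard_J {G : Gad K R} (hG : G.OK) (v : K) : (G.J v).card = R * G.ι := by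
  unfold Gad.J
  rw [card_biUnion]
  · have h : ∀ s ∈ (univ : Finset (Fin R)), ((G.I v).image (G.φ v s)).card = G.ι := by
      intro s _
      rw [card_image_of_injOn, hG.card_I]
      intro x hx x' hx' h
      exact (hG.inj v s s x x' (mem_coe.1 hx) (mem_coe.1 hx') h).2
    rw [sum_congr rfl h, sum_const, card_univ, Fintype.card_fin, smul_eq_mul]
  · intro s _ s' _ hs
    refine disjoint_left.2 fun y hy hy' => hs ?_
    obtain ⟨x, hx, rfl⟩ := mem_image.1 hy
    obtain ⟨x', hx', h⟩ := mem_image.1 hy'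
    exact (hG.inj v s s' x x' hx hx' h.symm).1

theorem gdisj_IJ {G : Gad K R} (hG : G.OK) (v : K) : Disjoint (G.I v) (G.J v) := by
  refine disjoint_left.2 fun y hy hy' => ?_
  obtain ⟨s, _, hs⟩ := mem_biUnion.1 hy'
  obtain ⟨x, hx, rfl⟩ := mem_image.1 hs
  exact hG.nI v s x hx hy

private theorem card_IJ {G : Gad K R} (hG : G.OK) (v : K) : (G.I v ∪ G.J v).card = (R + 1) * G.ι := by
  rw [card_union_of_disjoint (gdisj_IJ hG v), hG.card_I, gcard_J hG]
  ring

theorem gcard_N {G : Gad K R} (hG : G.OK) (v : K) : G.N = (R + 1) * G.ι + G.ζ := by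
  have h : (R + 1) * G.ι ≤ G.N := by
    rw [← card_IJ hG v]
    exact card_le_univ _
  unfold Gad.ζ
  omega

theorem gcard_Z {G : Gad K R} (hG : G.OK) (v : K) : (G.Z v).card = G.ζ := by
  unfold Gad.Z Gad.ζ
  rw [card_sdiff_of_subset (subset_univ _), card_IJ hG v, card_univ]
  rfl

theorem gmem (G : Gad K R) (v : K) (x : G.X) : x ∈ G.I v ∨ x ∈ G.J v ∨ x ∈ G.Z v := by
  unfold Gad.Z
  rw [mem_sdiff, mem_union]
  have := mem_univ x
  tauto

theorem gmem_Z (G : Gad K R) (v : K) (x : G.X) : x ∈ G.Z v ↔ x ∉ G.I v ∧ x ∉ G.J v := by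
  unfold Gad.Z
  rw [mem_sdiff, mem_union]
  have := mem_univ x
  tauto

theorem gmem_J (G : Gad K R) (v : K) (s : Fin R) (x : G.X) (hx : x ∈ G.I v) : G.φ v s x ∈ G.J v :=
  mem_biUnion.2 ⟨s, mem_univ _, mem_image_of_mem _ hx⟩

end Pool.Agent.Work.MP_eef58c_lc.TG
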