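import Pool.Agent.Work.MP_eef58c_lc.TG.Defs

set_option autoImplicit false

/-!
# MP_eef58c_lc, TG: the gadget (definition)

`K = Fin d → ZMod p` (coefficient vectors of polynomials of degree `< d`), labels `X = (ZMod p × ZMod p → ZMod ((R+1) * p))`.
-/

namespace Pool.Agent.Work.MP_eef58c_lc.TG

open Finset

/-- value at `i` of the polynomial with coefficients `v` -/
def pv {p d : ℕ} (v : Fin d → ZMod p) (i : ZMod p) : ZMod p := ∑ j, v j * i ^ (j : ℕ)

/-- indicator of the graph of the polynomial -/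
def uv {p d : ℕ} (R : ℕ) (v : Fin d → ZMod p) (z : ZMod p × ZMod p) : ZMod ((R + 1) * p) :=
  if z.2 = pv v z.1 then 1 else 0

/-- the sum of a label over the graph -/
def th {p d : ℕ} [NeZero p] (R : ℕ) (v : Fin d → ZMod p) (x : ZMod p × ZMod p → ZMod ((R + 1) * p)) :
    ZMod ((R + 1) * p) := ∑ i, x (i, pv v i)

/-- the gadget -/
def gad (p d R : ℕ) [NeZero p] : Gad (Fin d → ZMod p) R where
  X := ZMod p × ZMod p → ZMod ((R + 1) * p)
  fX := haveI : NeZero ((R + 1) * p) := ⟨Nat.mul_ne_zero (Nat.succ_ne_zero R) (NeZero.ne p)⟩; inferInstance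
  dX := inferInstance
  I := fun v =>
    haveI : NeZero ((R + 1) * p) := ⟨Nat.mul_ne_zero (Nat.succ_ne_zero R) (NeZero.ne p)⟩
    univ.filter fun x => (th R v x).val < p - R * d
  φ := fun v s x z => x z + ((s : ℕ) + 1 : ZMod ((R + 1) * p)) * uv R v z
  ι := (p - R * d) * ((R + 1) * p) ^ (p ^ 2 - 1)

end Pool.Agent.Work.MP_eef58c_lc.TG
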