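import Pool.Agent.Work.MP_eef58c_lc.TG.GadO

set_option autoImplicit false

/-!
# MP_eef58c_lc, TG, module GadE (M): gadgets with many colours

`d = 3 κ + 3`, `K = Fin d → ZMod q` with `q` prime, `G = gad q d R`. `N = ((R+1) q) ^ (q^2)`, `card K = q ^ d`. There is a constant `A`
(depending on `R, T, d, p`), a natural number `≥ 1`, with `(2 R N)^T * card K * p ≤ exp (A q^3)` for all `q ≥ 2`
(`log N = q^2 log ((R+1) q) ≤ q^2 (R + q)`, `log (2R) ≤ 2 R`, `d log q ≤ d q`, `log p ≤ p`).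
Given `n` large let `x = log n`, `y` the largest natural number with `8 A y^3 ≤ x` (or `y = ⌊(x / (8 A))^(1/3)⌋₊`), `y ≥ 1`; Bertrand
(`Nat.exists_prime_lt_and_le_two_mul`): prime `q` with `y < q ≤ 2 y`. Then `A q^3 ≤ 8 A y^3 ≤ x`, so the size is `≤ n`. And
`q ≥ y + 1`, `8 A q^3 ≥ 8 A (y+1)^3 > x`, so `q ^ d = (q^3)^(κ+1) ≥ (x / (8A))^(κ+1) ≥ x^κ` as soon as `x ≥ (8 A)^(κ+1)`. `ζ ≤ η N`: `gad_zeta`, `R d ≤ η q` for `n` large;
`R d < q` for `n` large.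
(`K` is an additive group, `Fintype`, `DecidableEq` by `inferInstance`.)
-/

namespace Pool.Agent.Work.MP_eef58c_lc.TG

open Finset

private theorem size_bound (R T d p : ℕ) : ∃ A : ℕ, 1 ≤ A ∧ ∀ q : ℕ, 1 ≤ q →
    (((2 * R * ((R + 1) * q) ^ (q ^ 2)) ^ T * q ^ d * p : ℕ) : ℝ) ≤ Real.exp (A * (q : ℝ) ^ 3) := by
  refine ⟨T * (3 * R + 1) + d + p + 1, by omega, fun q hq => ?_⟩
  have hq1 : (1 : ℝ) ≤ q := by exact_mod_cast hq
  have hq0 : (0 : ℝ) ≤ q := by linarith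
  have he : ∀ m : ℕ, (m : ℝ) ≤ Real.exp m := fun m => by linarith [Real.add_one_le_exp (m : ℝ)]
  have h1 : (((R + 1) * q : ℕ) : ℝ) ≤ Real.exp (R + q) := by
    rw [Real.exp_add]
    push_cast
    exact mul_le_mul (Real.add_one_le_exp (R : ℝ)) (he q) hq0 (Real.exp_pos _).le
  have h2 : ((((R + 1) * q) ^ (q ^ 2) : ℕ) : ℝ) ≤ Real.exp ((q : ℝ) ^ 2 * (R + q)) := by
    rw [Nat.cast_pow]
    calc (((R + 1) * q : ℕ) : ℝ) ^ (q ^ 2) ≤ Real.exp (R + q) ^ (q ^ 2) :=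
          pow_le_pow_left₀ (Nat.cast_nonneg _) h1 _
      _ = Real.exp ((q : ℝ) ^ 2 * (R + q)) := by
          rw [← Real.exp_nat_mul]
          push_cast
          rfl
  have h3 : ((2 * R : ℕ) : ℝ) ≤ Real.exp (2 * R) := by
    have := he (2 * R)
    push_cast at this ⊢
    exact this
  have h4 : ((2 * R * ((R + 1) * q) ^ (q ^ 2) : ℕ) : ℝ) ≤ Real.exp (2 * R + (q : ℝ) ^ 2 * (R + q)) := by
    rw [Nat.cast_mul, Real.exp_add]
    exact mul_le_mul h3 h2 (Nat.cast_nonneg _) (Real.exp_pos _).le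
  have h5 : (((2 * R * ((R + 1) * q) ^ (q ^ 2)) ^ T : ℕ) : ℝ) ≤
      Real.exp (T * (2 * R + (q : ℝ) ^ 2 * (R + q))) := by
    rw [Nat.cast_pow, Real.exp_nat_mul]
    exact pow_le_pow_left₀ (Nat.cast_nonneg _) h4 _
  have h6 : ((q ^ d : ℕ) : ℝ) ≤ Real.exp (d * q) := by
    rw [Nat.cast_pow, Real.exp_nat_mul]
    exact pow_le_pow_left₀ hq0 (he q) _
  have h7 : (((2 * R * ((R + 1) * q) ^ (q ^ 2)) ^ T * q ^ d * p : ℕ) : ℝ) ≤
      Real.exp (T * (2 * R + (q : ℝ) ^ 2 * (R + q)) + d * q + p) := by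
    rw [Nat.cast_mul, Nat.cast_mul, Real.exp_add, Real.exp_add]
    exact mul_le_mul (mul_le_mul h5 h6 (Nat.cast_nonneg _) (Real.exp_pos _).le) (he p)
      (Nat.cast_nonneg _) (mul_pos (Real.exp_pos _) (Real.exp_pos _)).le
  refine h7.trans (Real.exp_le_exp.2 ?_)
  have e1 : (1 : ℝ) ≤ (q : ℝ) ^ 3 := one_le_pow₀ hq1
  have e2 : (q : ℝ) ^ 2 ≤ (q : ℝ) ^ 3 := pow_le_pow_right₀ hq1 (by norm_num)
  have e3 : (q : ℝ) ≤ (q : ℝ) ^ 3 := by
    calc (q : ℝ) = (q : ℝ) ^ 1 := (pow_one _).symm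
      _ ≤ (q : ℝ) ^ 3 := pow_le_pow_right₀ hq1 (by norm_num)
  have hR : (0 : ℝ) ≤ R := Nat.cast_nonneg _
  have hT : (0 : ℝ) ≤ T := Nat.cast_nonneg _
  have hd : (0 : ℝ) ≤ d := Nat.cast_nonneg _
  have hp : (0 : ℝ) ≤ p := Nat.cast_nonneg _
  have e4 : 2 * (R : ℝ) + (q : ℝ) ^ 2 * (R + q) ≤ (3 * R + 1) * (q : ℝ) ^ 3 := by
    nlinarith [mul_le_mul_of_nonneg_left e1 hR, mul_le_mul_of_nonneg_left e2 hR]
  have e5 := mul_le_mul_of_nonneg_left e4 hT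
  have e6 := mul_le_mul_of_nonneg_left e3 hd
  have e7 := mul_le_mul_of_nonneg_left e1 hp
  push_cast
  nlinarith

theorem gad_exists {R : ℕ} (hR : 1 ≤ R) {η : ℝ} (hη : 0 < η) (T κ p : ℕ) : ∃ n₀ : ℕ, ∀ n ≥ n₀,
    ∃ (K : Type) (_ : AddCommGroup K) (_ : Fintype K) (_ : DecidableEq K) (G : Gad K R), G.OK ∧
      (G.ζ : ℝ) ≤ η * G.N ∧ (2 * R * G.N) ^ T * Fintype.card K * p ≤ n ∧
      (Real.log n) ^ κ ≤ Fintype.card K := by
  set d : ℕ := 3 * κ + 3 with hd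
  obtain ⟨A, hA1, hA⟩ := size_bound R T d p
  have hA0 : (0 : ℝ) < A := by exact_mod_cast hA1
  set Y : ℕ := ⌈(R * d : ℝ) / η⌉₊ + R * d + 1 with hY
  set L : ℝ := 8 * A * (Y : ℝ) ^ 3 + (8 * A) ^ (κ + 1) with hL
  refine ⟨⌈Real.exp L⌉₊, fun n hn => ?_⟩
  have hL0 : 0 ≤ L := by positivity
  have hn1 : Real.exp L ≤ n := (Nat.le_ceil _).trans (by exact_mod_cast hn)
  have hn0 : (0 : ℝ) < n := (Real.exp_pos L).trans_le hn1
  set x : ℝ := Real.log n with hx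
  have hLx : L ≤ x := by
    rw [hx, Real.le_log_iff_exp_le hn0]
    exact hn1
  have hx0 : 0 ≤ x := hL0.trans hLx
  -- the cube root
  set z : ℝ := (x / (8 * A)) ^ (1 / 3 : ℝ) with hz
  have hz0 : 0 ≤ z := Real.rpow_nonneg (by positivity) _
  have hz3 : z ^ 3 = x / (8 * A) := by
    rw [hz, ← Real.rpow_natCast, ← Real.rpow_mul (by positivity)]
    norm_num
  set y : ℕ := ⌊z⌋₊ with hy
  have hyz : (y : ℝ) ≤ z := Nat.floor_le hz0
  have hzy : z < y + 1 := Nat.lt_floor_add_one z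
  have hYz : (Y : ℝ) ≤ z := by
    by_contra h
    push Not at h
    have h1 : z ^ 3 < (Y : ℝ) ^ 3 := pow_lt_pow_left₀ h hz0 (by norm_num)
    rw [hz3, div_lt_iff₀ (by positivity)] at h1
    have h2 : (0 : ℝ) ≤ (8 * (A : ℝ)) ^ (κ + 1) := by positivity
    nlinarith
  have hYy : Y ≤ y := Nat.le_floor hYz
  have hy0 : y ≠ 0 := by omega
  obtain ⟨q, hq, hyq, hq2⟩ := Nat.exists_prime_lt_and_le_two_mul y hy0
  have hqF : Fact q.Prime := ⟨hq⟩
  have hqY : Y < q := by omega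
  have hRd : R * d < q := by omega
  have hqR : ((R * d : ℕ) : ℝ) ≤ η * q := by
    have h1 : (R * d : ℝ) / η ≤ q := by
      refine (Nat.le_ceil _).trans ?_
      have : ⌈(R * d : ℝ) / η⌉₊ ≤ q := by omega
      exact_mod_cast this
    rw [div_le_iff₀ hη] at h1
    push_cast
    linarith
  have hq0 : (0 : ℝ) < q := by exact_mod_cast hq.pos
  have hcard : Fintype.card (Fin d → ZMod q) = q ^ d := by
    rw [Fintype.card_fun, ZMod.card, Fintype.card_fin]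
  refine ⟨Fin d → ZMod q, inferInstance, inferInstance, inferInstance, gad q d R,
    gad_ok q d R hRd, ?_, ?_, ?_⟩
  · have h1 := gad_zeta q d R hRd.le
    have h2 : (q : ℝ) * ((gad q d R).ζ : ℝ) = ((R * d : ℕ) : ℝ) * ((gad q d R).N : ℝ) := by
      exact_mod_cast h1
    have h3 : ((R * d : ℕ) : ℝ) * ((gad q d R).N : ℝ) ≤ η * q * ((gad q d R).N : ℝ) :=
      mul_le_mul_of_nonneg_right hqR (Nat.cast_nonneg _)
    have h4 : (q : ℝ) * ((gad q d R).ζ : ℝ) ≤ q * (η * ((gad q d R).N : ℝ)) := by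
      rw [h2]
      linarith
    exact le_of_mul_le_mul_left h4 hq0
  · rw [hcard, gad_N]
    have h1 := hA q hq.one_lt.le
    have h2 : (A : ℝ) * (q : ℝ) ^ 3 ≤ x := by
      have h3 : (q : ℝ) ≤ 2 * y := by exact_mod_cast hq2
      have h4 : (q : ℝ) ^ 3 ≤ (2 * z) ^ 3 := pow_le_pow_left₀ hq0.le (by linarith) 3
      have h5 : (2 * z) ^ 3 = x / A := by
        rw [mul_pow, hz3]
        field_simp
        ring
      rw [h5, le_div_iff₀ hA0] at h4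
      linarith
    have h3 : Real.exp ((A : ℝ) * (q : ℝ) ^ 3) ≤ n := by
      rw [← Real.le_log_iff_exp_le hn0]
      exact h2
    exact_mod_cast h1.trans h3
  · rw [hcard]
    have h1 : x / (8 * A) ≤ (q : ℝ) ^ 3 := by
      rw [← hz3]
      refine pow_le_pow_left₀ hz0 (hzy.le.trans ?_) 3
      exact_mod_cast hyq
    have h2 : (x / (8 * A)) ^ (κ + 1) ≤ ((q : ℝ) ^ 3) ^ (κ + 1) :=
      pow_le_pow_left₀ (by positivity) h1 _
    have h3 : ((q ^ d : ℕ) : ℝ) = ((q : ℝ) ^ 3) ^ (κ + 1) := by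
      rw [Nat.cast_pow, ← pow_mul, hd]
      congr 1
    rw [h3]
    refine le_trans ?_ h2
    rw [div_pow, le_div_iff₀ (by positivity), pow_succ x κ]
    refine mul_le_mul_of_nonneg_left ?_ (by positivity)
    have h4 : (0 : ℝ) ≤ 8 * A * (Y : ℝ) ^ 3 := by positivity
    linarith

end Pool.Agent.Work.MP_eef58c_lc.TG
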