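import Pool.Agent.Work.MP_eef58c_lc.TG.GDefs

set_option autoImplicit false

/-!
# MP_eef58c_lc, TG, module GadI (M): sizes of the gadget

`W = (R+1) p`, `N = card (ZMod p × ZMod p → ZMod W) = W ^ (p^2)` (`Fintype.card_fun`, `ZMod.card`).
`card_I`: the map `th R v` is additive and its fibres all have the same size: `x ↦ x + c • e`, `e` the indicator of one point
`(0, pv v 0)` of the graph, maps the fibre over `0` bijectively onto the fibre over `c` (`th R v (x + c • e) = th R v x + c`). Summing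
over the `W` fibres (`card_eq_sum_card_fiberwise`): `W * fib = W ^ (p^2)`, so `fib = W ^ (p^2 - 1)` (`p ≥ 1`). The set `I v` is the union of
the fibres over the `c` with `c.val < p - R d ≤ W`, there are `p - R d` such `c`.
`zeta`: `N - (R+1) ι = W ^ (p^2-1) (W - (R+1)(p - R d)) = W ^ (p^2-1) (R+1) R d` if `R d ≤ p`; `N = W ^ (p^2-1) * (R+1) * p`. So
`p * ζ = R d * N`.
-/

namespace Pool.Agent.Work.MP_eef58c_lc.TG

open Finset

private theorem neW (p R : ℕ) [NeZero p] : NeZero ((R + 1) * p) :=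
  ⟨Nat.mul_ne_zero (Nat.succ_ne_zero R) (NeZero.ne p)⟩

private theorem card_lab (p W : ℕ) [NeZero p] [NeZero W] :
    Fintype.card (ZMod p × ZMod p → ZMod W) = W ^ (p ^ 2) := by
  rw [Fintype.card_fun, Fintype.card_prod, ZMod.card, ZMod.card, sq]

theorem gad_N (p d R : ℕ) [NeZero p] : (gad p d R).N = ((R + 1) * p) ^ (p ^ 2) := by
  have := neW p R
  exact card_lab p ((R + 1) * p)

private def bump (p W : ℕ) (z0 : ZMod p × ZMod p) (c : ZMod W) (z : ZMod p × ZMod p) : ZMod W :=
  if z = z0 then c else 0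

private theorem th_bump {p d : ℕ} [NeZero p] (R : ℕ) (v : Fin d → ZMod p)
    (x : ZMod p × ZMod p → ZMod ((R + 1) * p)) (c : ZMod ((R + 1) * p)) :
    th R v (x + bump p _ (0, pv v 0) c) = th R v x + c := by
  unfold th
  simp only [Pi.add_apply, Finset.sum_add_distrib]
  congr 1
  rw [Finset.sum_eq_single (0 : ZMod p)]
  · simp [bump]
  · intro i _ hi
    simp [bump, hi]
  · intro h
    exact absurd (Finset.mem_univ _) h

private theorem fib_eq {p d : ℕ} [NeZero p] (R : ℕ) [NeZero ((R + 1) * p)] (v : Fin d → ZMod p) (c : ZMod ((R + 1) * p)) :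
    (univ.filter fun x : ZMod p × ZMod p → ZMod ((R + 1) * p) => th R v x = c).card =
      (univ.filter fun x : ZMod p × ZMod p → ZMod ((R + 1) * p) => th R v x = 0).card := by
  apply Finset.card_bij' (fun x _ => x + bump p _ (0, pv v 0) (-c)) (fun x _ => x + bump p _ (0, pv v 0) c)
  · intro x hx
    rw [Finset.mem_filter] at hx ⊢
    refine ⟨Finset.mem_univ _, ?_⟩
    rw [th_bump, hx.2]
    ring
  · intro x hx
    rw [Finset.mem_filter] at hx ⊢
    refine ⟨Finset.mem_univ _, ?_⟩
    rw [th_bump, hx.2]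
    ring
  · intro x _
    funext z
    simp only [Pi.add_apply, bump]
    split_ifs <;> ring
  · intro x _
    funext z
    simp only [Pi.add_apply, bump]
    split_ifs <;> ring

private theorem fib_card {p d : ℕ} [NeZero p] (R : ℕ) [NeZero ((R + 1) * p)] (v : Fin d → ZMod p) (c : ZMod ((R + 1) * p)) :
    (univ.filter fun x : ZMod p × ZMod p → ZMod ((R + 1) * p) => th R v x = c).card =
      ((R + 1) * p) ^ (p ^ 2 - 1) := by
  have h1 := Finset.card_eq_sum_card_fiberwise (s := (univ : Finset (ZMod p × ZMod p → ZMod ((R + 1) * p))))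
    (t := (univ : Finset (ZMod ((R + 1) * p)))) (f := th R v) (fun _ _ => Finset.mem_coe.2 (Finset.mem_univ _))
  rw [Finset.card_univ, card_lab p ((R + 1) * p), Finset.sum_congr rfl (fun c _ => fib_eq R v c),
    Finset.sum_const, Finset.card_univ, ZMod.card, smul_eq_mul] at h1
  rw [fib_eq R v c]
  have hp : 0 < p := Nat.pos_of_ne_zero (NeZero.ne p)
  have hW : 0 < (R + 1) * p := Nat.pos_of_ne_zero (NeZero.ne _)
  have h2 : p ^ 2 = (p ^ 2 - 1) + 1 := by
    have : 0 < p ^ 2 := by positivity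
    omega
  have h3 : ((R + 1) * p) ^ (p ^ 2) = ((R + 1) * p) * ((R + 1) * p) ^ (p ^ 2 - 1) := by
    conv_lhs => rw [h2]
    rw [pow_succ]
    ring
  rw [h3] at h1
  exact (Nat.eq_of_mul_eq_mul_left hW h1).symm

private theorem card_small (W k : ℕ) [NeZero W] (h : k ≤ W) :
    (univ.filter fun c : ZMod W => c.val < k).card = k := by
  have h0 : (Finset.range k).card = k := Finset.card_range k
  rw [← h0]
  symm
  rw [h0]
  rw [← h0]
  apply Finset.card_bij (fun (i : ℕ) _ => (i : ZMod W))
  · intro i hi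
    rw [Finset.card_range] 
    rw [Finset.mem_range] at hi
    rw [Finset.mem_filter]
    refine ⟨Finset.mem_univ _, ?_⟩
    rw [ZMod.val_natCast, Nat.mod_eq_of_lt (by omega)]
    exact hi
  · intro i hi j hj hij
    rw [Finset.mem_range] at hi hj
    have := congrArg ZMod.val hij
    rw [ZMod.val_natCast, ZMod.val_natCast, Nat.mod_eq_of_lt (by omega), Nat.mod_eq_of_lt (by omega)] at this
    exact this
  · intro c hc
    rw [Finset.mem_filter, Finset.card_range] at hc
    exact ⟨c.val, Finset.mem_range.2 hc.2, ZMod.natCast_zmod_val c⟩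

private theorem cardI {p d : ℕ} [NeZero p] (R : ℕ) [NeZero ((R + 1) * p)] (v : Fin d → ZMod p) (k : ℕ) (hk : k ≤ (R + 1) * p) :
    (univ.filter fun x : ZMod p × ZMod p → ZMod ((R + 1) * p) => (th R v x).val < k).card =
      k * ((R + 1) * p) ^ (p ^ 2 - 1) := by
  have h1 := Finset.card_eq_sum_card_fiberwise
    (s := (univ.filter fun x : ZMod p × ZMod p → ZMod ((R + 1) * p) => (th R v x).val < k))
    (t := (univ.filter fun c : ZMod ((R + 1) * p) => c.val < k)) (f := th R v)
    (fun x hx => by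
      rw [Finset.mem_coe, Finset.mem_filter] at hx ⊢
      exact ⟨Finset.mem_univ _, hx.2⟩)
  rw [h1]
  rw [Finset.sum_congr rfl (g := fun _ => ((R + 1) * p) ^ (p ^ 2 - 1)), Finset.sum_const,
    card_small _ _ hk, smul_eq_mul]
  intro c hc
  rw [Finset.mem_filter] at hc
  rw [← fib_card R v c]
  congr 1
  ext x
  simp only [Finset.mem_filter, Finset.mem_univ, true_and]
  constructor
  · rintro ⟨_, h⟩
    exact h
  · intro h
    exact ⟨by rw [h]; exact hc.2, h⟩

theorem gad_card_I (p d R : ℕ) [NeZero p] (v : Fin d → ZMod p) : ((gad p d R).I v).card = (gad p d R).ι := by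
  have := neW p R
  refine cardI R v (p - R * d) ?_
  have : p ≤ (R + 1) * p := Nat.le_mul_of_pos_left p (Nat.succ_pos R)
  omega

theorem gad_zeta (p d R : ℕ) [NeZero p] (h : R * d ≤ p) : p * (gad p d R).ζ = R * d * (gad p d R).N := by
  have hN := gad_N p d R
  have hι : (gad p d R).ι = (p - R * d) * ((R + 1) * p) ^ (p ^ 2 - 1) := rfl
  unfold Gad.ζ
  rw [hN, hι]
  have hp : 0 < p := Nat.pos_of_ne_zero (NeZero.ne p)
  have h2 : p ^ 2 = (p ^ 2 - 1) + 1 := by
    have : 0 < p ^ 2 := by positivity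
    omega
  have h3 : ((R + 1) * p) ^ (p ^ 2) = ((R + 1) * p) ^ (p ^ 2 - 1) * ((R + 1) * p) := by
    conv_lhs => rw [h2]
    rw [pow_succ]
  rw [h3]
  set A := ((R + 1) * p) ^ (p ^ 2 - 1) with hA
  obtain ⟨q, hq⟩ := Nat.exists_eq_add_of_le h
  have h4 : p - R * d = q := by omega
  rw [h4]
  have h5 : A * ((R + 1) * p) - (R + 1) * (q * A) = A * (R + 1) * (R * d) := by
    have : A * ((R + 1) * p) = (R + 1) * (q * A) + A * (R + 1) * (R * d) := by
      conv_lhs => rw [hq]
      ring
    rw [this]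
    omega
  rw [h5]
  ring

end Pool.Agent.Work.MP_eef58c_lc.TG
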