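import Pool.Agent.Work.MP_eef58c_lc.TG.GadI

set_option autoImplicit false

/-!
# MP_eef58c_lc, TG, module GadO (M): the gadget is a gadget

`W = (R+1) p`. The number `κ v w` of the `i` with `pv v i = pv w i` is `< d` if `v ≠ w` (a polynomial of degree `< d` with nonzero
coefficient vector `v - w` over the field `ZMod p` has `< d` roots; if `d = 0` then `v = w`). Hence
`th R v (φ w s x) = th R v x + (s+1) * κ v w` where `κ v v = p`.
* `inj`: if `x, x' ∈ I v` and `φ v s x = φ v s' x'` apply `th R v`: `t + (s+1) p = t' + (s'+1) p` in `ZMod W` with `t.val, t'.val < p`; both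
  sides have representatives `< p + R p = W`, so `t.val + (s+1) p = t'.val + (s'+1) p` in `ℕ`, `s = s'`, and `x = x'`.
* `nI`: `th` of the image has `val = t.val + (s+1) p ≥ p`.
* `ind`: `v ≠ w`, `x ∈ I v`: `(th R v (φ w s x)).val = (th R v x).val + (s+1) κ v w < p - R d + R d = p` (here `(s+1) κ v w ≤ R (d-1)`, and
  `p - R d > 0` because `x ∈ I v`), but elements of `J v` are `φ v s' x'` with `x' ∈ I v` and have `val ≥ p`.
* `col`: `φ w s x = φ w' s x`: `(s+1) (uv w z - uv w' z) = 0` for all `z`. If `w ≠ w'` there is `i` with `pv w i ≠ pv w' i`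
  (`κ w w' < d ≤ p`: `R ≥ 1` because of `s : Fin R` and `R d < p` because `I w` is not empty); `z = (i, pv w i)`: `(s+1 : ZMod W) = 0`,
  impossible because `0 < s + 1 ≤ R < W`.
* `ι_pos`: `R d < p`.
-/

namespace Pool.Agent.Work.MP_eef58c_lc.TG

open Finset

private def kap {p d : ℕ} [NeZero p] (v w : Fin d → ZMod p) : ℕ :=
  (univ.filter fun i : ZMod p => pv v i = pv w i).card

private theorem kap_le {p d : ℕ} [NeZero p] (v w : Fin d → ZMod p) : kap v w ≤ p := by
  unfold kap
  refine (card_filter_le _ _).trans (le_of_eq ?_)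
  rw [card_univ, ZMod.card]

private theorem kap_self {p d : ℕ} [NeZero p] (v : Fin d → ZMod p) : kap v v = p := by
  unfold kap
  rw [filter_true_of_mem fun _ _ => rfl, card_univ, ZMod.card]

private theorem kap_lt {p d : ℕ} [Fact p.Prime] {v w : Fin d → ZMod p} (h : v ≠ w) :
    kap v w < d := by
  classical
  set P : Polynomial (ZMod p) := ∑ j : Fin d, Polynomial.C (v j - w j) * Polynomial.X ^ (j : ℕ)
    with hP
  have hcoeff : ∀ j : Fin d, P.coeff j = v j - w j := by
    intro j
    rw [hP, Polynomial.finset_sum_coeff, Finset.sum_eq_single j]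
    · rw [Polynomial.coeff_C_mul_X_pow, if_pos rfl]
    · intro k _ hk
      rw [Polynomial.coeff_C_mul_X_pow, if_neg]
      intro h1
      exact hk (Fin.ext h1.symm)
    · intro h1
      exact absurd (mem_univ j) h1
  have hP0 : P ≠ 0 := by
    intro h0
    apply h
    funext j
    have h1 := hcoeff j
    rw [h0, Polynomial.coeff_zero] at h1
    exact (sub_eq_zero.1 h1.symm)
  have heval : ∀ i, P.eval i = pv v i - pv w i := by
    intro i
    rw [hP, Polynomial.eval_finset_sum]
    unfold pv
    rw [← Finset.sum_sub_distrib]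
    refine Finset.sum_congr rfl fun j _ => ?_
    rw [Polynomial.eval_mul, Polynomial.eval_C, Polynomial.eval_pow, Polynomial.eval_X]
    ring
  have hsub : (univ.filter fun i : ZMod p => pv v i = pv w i) ⊆ P.roots.toFinset := by
    intro i hi
    rw [mem_filter] at hi
    rw [Multiset.mem_toFinset, Polynomial.mem_roots hP0, Polynomial.IsRoot.def, heval, hi.2, sub_self]
  have h1 : kap v w ≤ P.natDegree :=
    (card_le_card hsub).trans ((Multiset.toFinset_card_le _).trans (Polynomial.card_roots' P))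
  have h2 : P.degree < d := Polynomial.degree_sum_fin_lt _
  have h3 : P.natDegree < d := (Polynomial.natDegree_lt_iff_degree_lt hP0).2 h2
  omega

private theorem th_phi {p d R : ℕ} [NeZero p] (v w : Fin d → ZMod p) (s : Fin R)
    (x : ZMod p × ZMod p → ZMod ((R + 1) * p)) :
    th R v ((gad p d R).φ w s x) = th R v x + ((((s : ℕ) + 1) * kap v w : ℕ) : ZMod ((R + 1) * p)) := by
  show ∑ i, (x (i, pv v i) + ((s : ℕ) + 1 : ZMod ((R + 1) * p)) * uv R w (i, pv v i)) =
    ∑ i, x (i, pv v i) + _
  rw [Finset.sum_add_distrib, ← Finset.mul_sum]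
  congr 1
  push_cast
  congr 1
  unfold uv kap
  simp only
  rw [Finset.sum_boole]

private theorem mem_gI {p d R : ℕ} [NeZero p] (v : Fin d → ZMod p)
    (x : ZMod p × ZMod p → ZMod ((R + 1) * p)) :
    x ∈ (gad p d R).I v ↔ (th R v x).val < p - R * d := by
  haveI : NeZero ((R + 1) * p) := ⟨Nat.mul_ne_zero (Nat.succ_ne_zero R) (NeZero.ne p)⟩
  show x ∈ univ.filter (fun x => (th R v x).val < p - R * d) ↔ _
  rw [mem_filter]
  exact ⟨fun h => h.2, fun h => ⟨mem_univ _, h⟩⟩

private theorem val_phi {p d R : ℕ} [NeZero p] {v : Fin d → ZMod p} (w : Fin d → ZMod p) (s : Fin R)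
    {x : ZMod p × ZMod p → ZMod ((R + 1) * p)} (hx : x ∈ (gad p d R).I v) :
    (th R v ((gad p d R).φ w s x)).val = (th R v x).val + ((s : ℕ) + 1) * kap v w := by
  haveI : NeZero ((R + 1) * p) := ⟨Nat.mul_ne_zero (Nat.succ_ne_zero R) (NeZero.ne p)⟩
  have h1 := (mem_gI v x).1 hx
  have h2 : th R v x = (((th R v x).val : ℕ) : ZMod ((R + 1) * p)) := (ZMod.natCast_zmod_val _).symm
  rw [th_phi]
  conv_lhs => rw [h2]
  rw [← Nat.cast_add, ZMod.val_natCast, Nat.mod_eq_of_lt]
  have h3 : ((s : ℕ) + 1) * kap v w ≤ R * p := Nat.mul_le_mul s.isLt (kap_le v w)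
  have h4 : (R + 1) * p = R * p + p := by ring
  omega

theorem gad_ok (p d R : ℕ) [Fact p.Prime] (h : R * d < p) : (gad p d R).OK where
  ne := ⟨fun _ => 0⟩
  card_I := gad_card_I p d R
  ι_pos := by
    show 0 < (p - R * d) * ((R + 1) * p) ^ (p ^ 2 - 1)
    have hp : 0 < p := (Fact.out : p.Prime).pos
    exact Nat.mul_pos (by omega) (pow_pos (Nat.mul_pos (Nat.succ_pos R) hp) _)
  inj := by
    intro v s s' x x' hx hx' he
    have h1 := val_phi v s hx
    have h2 := val_phi v s' hx'
    rw [he, h2, kap_self] at h1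
    have h3 := (mem_gI v x).1 hx
    have h4 := (mem_gI v x').1 hx'
    have hp : 0 < p := (Fact.out : p.Prime).pos
    have h5 : (s : ℕ) = s' := by
      have e1 : ((th R v x').val + ((s' : ℕ) + 1) * p) / p = (s' : ℕ) + 1 := by
        rw [Nat.add_mul_div_right _ _ hp, Nat.div_eq_of_lt (by omega), zero_add]
      have e2 : ((th R v x).val + ((s : ℕ) + 1) * p) / p = (s : ℕ) + 1 := by
        rw [Nat.add_mul_div_right _ _ hp, Nat.div_eq_of_lt (by omega), zero_add]
      rw [h1, e2] at e1
      omega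
    have h6 : s = s' := Fin.ext h5
    subst h6
    refine ⟨rfl, ?_⟩
    funext z
    have h7 := congrFun he z
    exact add_right_cancel (show x z + ((s : ℕ) + 1 : ZMod ((R + 1) * p)) * uv R v z =
      x' z + ((s : ℕ) + 1 : ZMod ((R + 1) * p)) * uv R v z from h7)
  nI := by
    intro v s x hx hcon
    have h1 := val_phi v s hx
    have h2 := (mem_gI v _).1 hcon
    rw [h1, kap_self] at h2
    have h3 : p ≤ ((s : ℕ) + 1) * p := Nat.le_mul_of_pos_left p (Nat.succ_pos _)
    omega
  ind := by
    intro v w s x hvw hx hxw hcon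
    have h1 := val_phi w s hx
    have h2 := (mem_gI v x).1 hx
    have h3 := kap_lt hvw
    have h4 : ((s : ℕ) + 1) * kap v w ≤ R * d := Nat.mul_le_mul s.isLt h3.le
    unfold Gad.J at hcon
    rw [mem_biUnion] at hcon
    obtain ⟨s', -, hs'⟩ := hcon
    obtain ⟨x', hx', he⟩ := mem_image.1 hs'
    have h5 := val_phi v s' hx'
    rw [he, h1, kap_self] at h5
    have h6 : p ≤ ((s' : ℕ) + 1) * p := Nat.le_mul_of_pos_left p (Nat.succ_pos _)
    omega
  col := by
    intro w w' s x hx hx' he
    by_contra hne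
    have h1 := kap_lt hne
    have hR : 0 < R := lt_of_le_of_lt (Nat.zero_le _) s.isLt
    have h2 : d ≤ R * d := Nat.le_mul_of_pos_left d hR
    obtain ⟨i, hi⟩ : ∃ i, pv w i ≠ pv w' i := by
      by_contra hcon
      push Not at hcon
      have h3 : kap w w' = p := by
        unfold kap
        rw [filter_true_of_mem fun i _ => hcon i, card_univ, ZMod.card]
      omega
    have h3 := congrFun he (i, pv w i)
    have h4 : x (i, pv w i) + ((s : ℕ) + 1 : ZMod ((R + 1) * p)) * uv R w (i, pv w i) =
      x (i, pv w i) + ((s : ℕ) + 1 : ZMod ((R + 1) * p)) * uv R w' (i, pv w i) := h3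
    have h5 := add_left_cancel h4
    have h6 : uv R w (i, pv w i) = 1 := by
      unfold uv
      rw [if_pos rfl]
    have h7 : uv R w' (i, pv w i) = 0 := by
      unfold uv
      rw [if_neg hi]
    rw [h6, h7, mul_one, mul_zero] at h5
    have h8 : (((s : ℕ) + 1 : ℕ) : ZMod ((R + 1) * p)) = 0 := by
      push_cast
      exact h5
    rw [ZMod.natCast_eq_zero_iff] at h8
    have h9 := Nat.le_of_dvd (Nat.succ_pos _) h8
    have hp : 0 < p := (Fact.out : p.Prime).pos
    have h10 : R + 1 ≤ (R + 1) * p := Nat.le_mul_of_pos_right _ hp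
    have := s.isLt
    omega

end Pool.Agent.Work.MP_eef58c_lc.TG
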