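import Pool.Agent.Work.MP_eef58c_lc.TG.BlkS

set_option autoImplicit false

/-!
# MP_eef58c_lc, TG, module GoodA (M): the state 0 and monotonicity

`good_zero`: `Blk.fresh K`, `T = 0`, `η = 1`.
`good_mono`: given `ε` take `B` from `h (ε / 2)` (`η, T`) and `r = ⌈2 / ε⌉₊ + 1` copies, `B' = B.scale r`: `B'.v = B.v * r ≥ r ≥ 2 / ε`, all numbers are
multiplied by `r`. Then `raise` to `c = max B'.c1 ⌊B'.c0 + n' * B'.v⌋₊` (if `n' < 0`: then `n ≤ n' < 0`; the same formula works: if the real number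
`c0 + n' v` is negative then `c0 + (n' - ε) v ≤ 0`). Check: `c ≥ c0 + n' v - 1 ≥ c0 + (n' - ε) v` because `ε v ≥ 1`; `c ≤ c0 + (n' + ε) v`:
`B'.c1 ≤ c0 + (n + ε/2) v ≤ ...` and `⌊x⌋₊ ≤ x` if `x ≥ 0`, and `⌊x⌋₊ = 0 ≤ B'.c1` if `x < 0`.
`card (B.scale r).V = card B.V * r ≤ (2 R N)^T * 2^r ≤ (2 R N)^(T + r)` because `2 R N ≥ 2` (`N ≥ 1`: `N ≥ card I v ≥ ι > 0`) and `r ≤ 2^r`.
`J` is unchanged: take `T' = T + r`.
-/

namespace Pool.Agent.Work.MP_eef58c_lc.TG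

open Finset

theorem good_zero (ρ : ℝ) (R : ℕ) : Good ρ R 0 0 := by
  intro ε hε
  refine ⟨1, one_pos, 0, fun K G _ _ => ⟨Blk.fresh K, fresh_ok K, Nat.one_pos, ?_, ?_, ?_, ?_, ?_⟩⟩
  · show ((0 : ℕ) : ℝ) + (0 - ε) * ((1 : ℕ) : ℝ) ≤ ((0 : ℕ) : ℝ)
    push_cast
    linarith
  · show ((0 : ℕ) : ℝ) ≤ ((0 : ℕ) : ℝ) + (0 + ε) * ((1 : ℕ) : ℝ)
    push_cast
    linarith
  · rw [fresh_o]
    show (0 - ε) * ((1 : ℕ) : ℝ) ≤ ((0 : ℕ) : ℝ) - ρ * ((0 : ℕ) : ℝ)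
    push_cast
    linarith
  · exact le_of_eq (Fintype.card_unit.trans (pow_zero _).symm)
  · exact Nat.le_refl 0

theorem good_mono {ρ : ℝ} {R : ℕ} (hR : 1 ≤ R) {n n' φ φ' : ℝ} (h : Good ρ R n φ) (hn : n ≤ n')
    (hφ : φ' ≤ φ) : Good ρ R n' φ' := by
  intro ε hε
  obtain ⟨η, hη, T, hT⟩ := h (ε / 2) (half_pos hε)
  refine ⟨η, hη, T + (⌈2 / ε⌉₊ + 1), fun K G hG hζ => ?_⟩
  obtain ⟨B, hB, hv, h1, h2, h3, h4, h5⟩ := hT K G hG hζ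
  have hr : 2 / ε ≤ ((⌈2 / ε⌉₊ + 1 : ℕ) : ℝ) := by
    push_cast
    have := Nat.le_ceil (2 / ε)
    linarith
  generalize ⌈2 / ε⌉₊ + 1 = r at hr
  have hr2 : 2 ≤ ε * (r : ℝ) := by
    rw [div_le_iff₀ hε] at hr
    linarith
  have hr0 : (0 : ℝ) < r := by
    have : (0 : ℝ) < 2 / ε := by positivity
    linarith
  have hrn : 0 < r := by exact_mod_cast hr0
  have hv1 : (1 : ℝ) ≤ B.v := by exact_mod_cast hv
  have hεv : 2 ≤ ε * ((B.v : ℝ) * r) := by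
    have : ε * (r : ℝ) ≤ ε * ((B.v : ℝ) * r) :=
      mul_le_mul_of_nonneg_left (le_mul_of_one_le_left hr0.le hv1) hε.le
    linarith
  have hvr : (0 : ℝ) ≤ (B.v : ℝ) * r := by positivity
  refine ⟨(B.scale r).raise (max (B.scale r).c1
    ⌊((B.c0 * r : ℕ) : ℝ) + n' * ((B.v * r : ℕ) : ℝ)⌋₊), raise_ok (scale_ok hB r) (le_max_left _ _),
    Nat.mul_pos hv hrn, ?_, ?_, ?_, ?_, ?_⟩
  · show ((B.c0 * r : ℕ) : ℝ) + (n' - ε) * ((B.v * r : ℕ) : ℝ) ≤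
      ((max (B.c1 * r) ⌊((B.c0 * r : ℕ) : ℝ) + n' * ((B.v * r : ℕ) : ℝ)⌋₊ : ℕ) : ℝ)
    have e1 := Nat.lt_floor_add_one (((B.c0 * r : ℕ) : ℝ) + n' * ((B.v * r : ℕ) : ℝ))
    have e2 : ((⌊((B.c0 * r : ℕ) : ℝ) + n' * ((B.v * r : ℕ) : ℝ)⌋₊ : ℕ) : ℝ) ≤
        ((max (B.c1 * r) ⌊((B.c0 * r : ℕ) : ℝ) + n' * ((B.v * r : ℕ) : ℝ)⌋₊ : ℕ) : ℝ) := by
      exact_mod_cast le_max_right _ _
    push_cast at e1 e2 ⊢
    nlinarith
  · show ((max (B.c1 * r) ⌊((B.c0 * r : ℕ) : ℝ) + n' * ((B.v * r : ℕ) : ℝ)⌋₊ : ℕ) : ℝ) ≤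
      ((B.c0 * r : ℕ) : ℝ) + (n' + ε) * ((B.v * r : ℕ) : ℝ)
    have e1 : ((B.c1 * r : ℕ) : ℝ) ≤ ((B.c0 * r : ℕ) : ℝ) + (n' + ε) * ((B.v * r : ℕ) : ℝ) := by
      push_cast
      have e2 := mul_le_mul_of_nonneg_right h2 hr0.le
      have e3 : (n + ε / 2) * ((B.v : ℝ) * r) ≤ (n' + ε) * ((B.v : ℝ) * r) :=
        mul_le_mul_of_nonneg_right (by linarith) hvr
      nlinarith
    rw [Nat.cast_max]
    refine max_le e1 ?_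
    rcases le_or_gt 0 (((B.c0 * r : ℕ) : ℝ) + n' * ((B.v * r : ℕ) : ℝ)) with hx | hx
    · refine (Nat.floor_le hx).trans ?_
      have e3 : n' * ((B.v * r : ℕ) : ℝ) ≤ (n' + ε) * ((B.v * r : ℕ) : ℝ) :=
        mul_le_mul_of_nonneg_right (by linarith) (Nat.cast_nonneg _)
      linarith
    · rw [Nat.floor_of_nonpos hx.le, Nat.cast_zero]
      exact (Nat.cast_nonneg _).trans e1
  · rw [raise_o, scale_o]
    show (φ' - ε) * ((B.v * r : ℕ) : ℝ) ≤ ((B.o * r : ℕ) : ℝ) - ρ * ((B.c0 * r : ℕ) : ℝ)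
    push_cast
    have e2 := mul_le_mul_of_nonneg_right h3 hr0.le
    have e3 : (φ' - ε) * ((B.v : ℝ) * r) ≤ (φ - ε / 2) * ((B.v : ℝ) * r) :=
      mul_le_mul_of_nonneg_right (by linarith) hvr
    nlinarith
  · show Fintype.card (B.scale r).V ≤ _
    rw [scale_card_V]
    have hN : 1 ≤ G.N := by
      obtain ⟨v⟩ := hG.ne
      have e1 : (G.I v).card ≤ G.N := Finset.card_le_univ _
      rw [hG.card_I v] at e1
      exact le_trans hG.ι_pos e1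
    have h2N : 2 ≤ 2 * R * G.N := by
      calc 2 = 2 * 1 * 1 := rfl
        _ ≤ 2 * R * G.N := Nat.mul_le_mul (Nat.mul_le_mul_left 2 hR) hN
    calc Fintype.card B.V * r ≤ (2 * R * G.N) ^ T * 2 ^ r :=
          Nat.mul_le_mul h4 (Nat.lt_two_pow_self).le
      _ ≤ (2 * R * G.N) ^ T * (2 * R * G.N) ^ r :=
          Nat.mul_le_mul_left _ (Nat.pow_le_pow_left h2N r)
      _ = (2 * R * G.N) ^ (T + r) := (pow_add _ _ _).symm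
  · exact le_trans h5 (Nat.le_add_right _ _)

end Pool.Agent.Work.MP_eef58c_lc.TG
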