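import Pool.Agent.Work.MP_eef58c_lc.TG.RecS

set_option autoImplicit false

/-!
# MP_eef58c_lc, TG, module Rec (M): the recursion (pure Mathlib)

`c = 2 - √2`, `s = 1 - ρ c > 0` (because `(1 + 1/√2) c = 1`), `σ = s / (2 (1 - c)) > 0`, `h = 1 / R`, `e c = c - c^2/2 = 1 - c`. Choose `k : ℕ` with `k σ (1 - c) / 2 > ρ - 1` and `R₀ ≥ 1`
with `1/R₀ ≤ (1-c)/2` and `(ρ - 1) h + (1+h) (k σ) h ≤ s/2` for all `h ≤ 1/R₀` (enough: `(ρ - 1 + 2 k σ) / R₀ ≤ s / 2`, `h ≤ 1`). `P 0`: `S n 0` for `n ≥ 0` by monotonicity from `S 0 0`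
(`0 * _ = 0`). `P (j σ)` for `j ≤ k` by induction with `rec_step` (`A = j σ`). In the end `S c (k σ (c - c^2/2 - h))` and `k σ (1 - c - h) ≥ k σ (1-c)/2 > ρ - 1`.
-/

namespace Pool.Agent.Work.MP_eef58c_lc.TG

theorem rec_abs {ρ : ℝ} (hρ1 : 1 ≤ ρ) (hρ : ρ < 1 + 1 / √2) : ∃ R₀ : ℕ, 1 ≤ R₀ ∧ ∀ R ≥ R₀,
    ∀ S : ℝ → ℝ → Prop, S 0 0 → (∀ n n' φ φ', S n φ → n ≤ n' → φ' ≤ φ → S n' φ') →
    (∀ n m φ ψ, S n φ → S m ψ → S (n + (1 - m) / R) ((1 + 1 / R) * φ + 1 / R * (1 + 1 / R) * ψ +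
      1 / R * ((1 + 1 / R) - ρ * (1 / R + n + m)))) →
    ∃ n φ, S n φ ∧ ρ - 1 < φ := by
  have h2 : (0:ℝ) ≤ 2 := by norm_num
  have hsq : √2 * √2 = 2 := Real.mul_self_sqrt h2
  have hs0 : 0 < √2 := Real.sqrt_pos.2 (by norm_num)
  have hs1 : 1 < √2 := by nlinarith
  have hs2 : √2 < 2 := by nlinarith
  obtain ⟨c, hcdef⟩ : ∃ c : ℝ, c = 2 - √2 := ⟨_, rfl⟩
  have hc0 : 0 < c := by rw [hcdef]; linarith
  have hc1 : c < 1 := by rw [hcdef]; linarith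
  have hcc : c ^ 2 = 4 * c - 2 := by rw [hcdef]; nlinarith
  have hprod : (1 + 1 / √2) * c = 1 := by
    rw [hcdef]
    field_simp
    nlinarith
  obtain ⟨s, hsdef⟩ : ∃ s : ℝ, s = 1 - ρ * c := ⟨_, rfl⟩
  have hspos : 0 < s := by
    have h : ρ * c < (1 + 1 / √2) * c := mul_lt_mul_of_pos_right hρ hc0
    rw [hsdef]; linarith
  have h1c : 0 < 1 - c := by linarith
  obtain ⟨σ, hσdef⟩ : ∃ σ : ℝ, σ = s / (2 * (1 - c)) := ⟨_, rfl⟩
  have hσpos : 0 < σ := by rw [hσdef]; positivity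
  have hσc : σ * (1 - c) = s / 2 := by
    rw [hσdef]; field_simp
  obtain ⟨k, hk⟩ : ∃ k : ℕ, (ρ - 1) / (σ * (1 - c) / 2) < k := exists_nat_gt _
  have hk' : ρ - 1 < k * (σ * (1 - c) / 2) := by
    rwa [div_lt_iff₀ (by positivity)] at hk
  obtain ⟨R₁, hR₁⟩ : ∃ R₁ : ℕ, 2 / (1 - c) < R₁ := exists_nat_gt _
  obtain ⟨R₂, hR₂⟩ : ∃ R₂ : ℕ, (ρ - 1 + 2 * (k * σ)) / (s / 2) < R₂ := exists_nat_gt _
  refine ⟨max 1 (max R₁ R₂), le_max_left _ _, ?_⟩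
  intro R hR S h0 hmono hrule
  have hR1 : 1 ≤ R := le_trans (le_max_left _ _) hR
  have hRa : R₁ ≤ R := le_trans (le_trans (le_max_left _ _) (le_max_right _ _)) hR
  have hRb : R₂ ≤ R := le_trans (le_trans (le_max_right _ _) (le_max_right _ _)) hR
  have hR1' : (1:ℝ) ≤ R := by exact_mod_cast hR1
  have hRa' : (R₁:ℝ) ≤ R := by exact_mod_cast hRa
  have hRb' : (R₂:ℝ) ≤ R := by exact_mod_cast hRb
  have hRpos : (0:ℝ) < R := by linarith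
  have hh0 : 0 < 1 / (R:ℝ) := by positivity
  have hh1 : 1 / (R:ℝ) ≤ 1 := by
    rw [div_le_one hRpos]; exact hR1'
  have hha : 1 / (R:ℝ) ≤ (1 - c) / 2 := by
    rw [div_le_iff₀ hRpos]
    have h : 2 / (1 - c) < R := lt_of_lt_of_le hR₁ hRa'
    rw [div_lt_iff₀ h1c] at h
    linarith
  have hhb : (ρ - 1 + 2 * (k * σ)) * (1 / (R:ℝ)) ≤ s / 2 := by
    have h : (ρ - 1 + 2 * (k * σ)) / (s / 2) < R := lt_of_lt_of_le hR₂ hRb'
    rw [div_lt_iff₀ (by positivity)] at h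
    rw [mul_one_div, div_le_iff₀ hRpos]
    linarith
  have key : ∀ j : ℕ, j ≤ k → ∀ n, 0 ≤ n → n ≤ 2 - √2 →
      S n ((j * σ) * (n - n ^ 2 / 2 - 1 / R)) := by
    intro j
    induction j with
    | zero =>
      intro _ n hn0 _
      have : ((0:ℕ):ℝ) * σ * (n - n ^ 2 / 2 - 1 / R) = 0 := by simp
      rw [this]
      exact hmono 0 n 0 0 h0 hn0 le_rfl
    | succ j ih =>
      intro hj n hn0 hn1
      have hjk : j ≤ k := by omega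
      have hjk' : (j:ℝ) ≤ k := by exact_mod_cast hjk
      have hj0 : (0:ℝ) ≤ j := by positivity
      have hA : 0 ≤ (j:ℝ) * σ := by positivity
      have hAk : (j:ℝ) * σ ≤ k * σ := mul_le_mul_of_nonneg_right hjk' hσpos.le
      have hc' : σ * (1 - (2 - √2)) ≤ (1 - ρ * (2 - √2)) - (ρ - 1) * (1 / (R:ℝ)) -
          (1 + 1 / (R:ℝ)) * (j * σ) * (1 / (R:ℝ)) := by
        rw [← hcdef, ← hsdef, hσc]
        have h3 : (1 + 1 / (R:ℝ)) * (j * σ) * (1 / (R:ℝ)) ≤ 2 * (k * σ) * (1 / (R:ℝ)) := by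
          apply mul_le_mul_of_nonneg_right _ hh0.le
          apply mul_le_mul (by linarith) hAk hA (by norm_num)
        have h4 : (ρ - 1 + 2 * (k * σ)) * (1 / (R:ℝ)) =
          (ρ - 1) * (1 / (R:ℝ)) + 2 * (k * σ) * (1 / (R:ℝ)) := by ring
        linarith
      have := rec_step hρ1 hR1 hA hσpos.le hc' S h0 hmono hrule (ih hjk) n hn0 hn1
      have e : ((j + 1 : ℕ):ℝ) * σ = j * σ + σ := by push_cast; ring
      rw [e]
      exact this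
  have hfin := key k le_rfl c hc0.le (by rw [hcdef])
  refine ⟨_, _, hfin, ?_⟩
  have e : c - c ^ 2 / 2 - 1 / (R:ℝ) = 1 - c - 1 / (R:ℝ) := by rw [hcc]; ring
  rw [e]
  have hkσ : 0 ≤ (k:ℝ) * σ := by positivity
  have h5 : (k:ℝ) * σ * ((1 - c) / 2) ≤ k * σ * (1 - c - 1 / (R:ℝ)) :=
    mul_le_mul_of_nonneg_left (by linarith) hkσ
  have h6 : (k:ℝ) * (σ * (1 - c) / 2) = k * σ * ((1 - c) / 2) := by ring
  linarith

end Pool.Agent.Work.MP_eef58c_lc.TG
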