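import Pool.Agent.Work.MP_eef58c_lc.TG.GoodM
import Pool.Agent.Work.MP_eef58c_lc.TG.Rec

set_option autoImplicit false

/-!
# MP_eef58c_lc, TG, module GoodF (S): a state with large value

`rec_abs` with `S = Good ρ R`, `good_zero`, `good_mono`, `good_merge`.
-/

namespace Pool.Agent.Work.MP_eef58c_lc.TG

theorem good_final {ρ : ℝ} (hρ1 : 1 ≤ ρ) (hρ : ρ < 1 + 1 / √2) :
    ∃ R : ℕ, 1 ≤ R ∧ ∃ n φ, Good ρ R n φ ∧ ρ - 1 < φ := by
  obtain ⟨R, hR, H⟩ := rec_abs hρ1 hρ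
  obtain ⟨n, φ, h1, h2⟩ := H R le_rfl (Good ρ R) (good_zero ρ R)
    (fun n n' φ φ' h hn hφ => good_mono hR h hn hφ)
    (fun n m φ ψ h h' => good_merge (zero_le_one.trans hρ1) hR h h')
  exact ⟨R, hR, n, φ, h1, h2⟩

end Pool.Agent.Work.MP_eef58c_lc.TG
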