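import Mathlib

set_option autoImplicit false

/-!
# MP_eef58c_lc, TG, module MVal (M): value of a merge (pure real arithmetic)

With `N = (R+1) ι + ζ`, `v = R w`. First part: exact computation, `c1' - c0' = R ι ((c1 - c0) - (e1 - e0) + w)`, and `v' = v R ι`:
`(c1 - c0) - (e1 - e0) + w` is between `(n - ε) v - (m + ε) w + w` and `(n + ε) v - (m - ε) w + w`, `w = v / R`.
Second part (`val`): insert `o ≥ ρ c0 + (φ - ε) v`, `q ≥ ρ e0 + (ψ - ε) w`: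
`o' - ρ c0' ≥ (R+1) ι (φ - ε) v + (R+1) ι (ψ - ε) w + (v + w) ι + ρ ι (-(c1 - c0) - R (e1 - e0) - w)
 + ζ ((φ - ε) v + (ψ - ε) w + (v + w)(1 - ρ))`,
`c1 - c0 ≤ (n + ε) v`, `e1 - e0 ≤ (m + ε) w`. The coefficient of `ζ` is `≥ - B v` with `B = |φ| + |ψ| + 2 ε + 2 ρ` and `ζ ≤ 4 η R ι` if
`η ≤ 1/2`, `R ≥ 1` (from `ζ ≤ η N`: `ζ (1 - η) ≤ η (R+1) ι ≤ 2 η R ι`). Divide by `v R ι`.
-/

namespace Pool.Agent.Work.MP_eef58c_lc.TG

theorem mval_diff {R ι ζ v w c0 c1 e0 e1 n m ε : ℝ} (hR : 1 ≤ R) (hι : 0 < ι) (hv : 0 < v) (hvw : v = R * w)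
    (h1 : c0 + (n - ε) * v ≤ c1) (h2 : c1 ≤ c0 + (n + ε) * v)
    (h3 : e0 + (m - ε) * w ≤ e1) (h4 : e1 ≤ e0 + (m + ε) * w) (hε : 0 ≤ ε) :
    ((c0 + e1) * (R * ι) + ((c1 + (e0 + w)) * ι + ((c0 + v) + (e0 + w)) * ζ)) +
        (n + (1 - m) / R - 2 * ε) * (v * (R * ι)) ≤
      (c1 + (e0 + w)) * (R * ι) + ((c1 + (e0 + w)) * ι + ((c0 + v) + (e0 + w)) * ζ) ∧
    (c1 + (e0 + w)) * (R * ι) + ((c1 + (e0 + w)) * ι + ((c0 + v) + (e0 + w)) * ζ) ≤
      ((c0 + e1) * (R * ι) + ((c1 + (e0 + w)) * ι + ((c0 + v) + (e0 + w)) * ζ)) +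
        (n + (1 - m) / R + 2 * ε) * (v * (R * ι)) := by
  have hR0 : 0 < R := by linarith
  have hw : 0 < w := by
    rw [hvw] at hv
    exact (pos_iff_pos_of_mul_pos hv).1 hR0
  have hwv : w ≤ v := by
    rw [hvw]
    exact le_mul_of_one_le_left hw.le hR
  have hεw : ε * w ≤ ε * v := mul_le_mul_of_nonneg_left hwv hε
  have hRι : 0 ≤ R * ι := by positivity
  have e1' : (n + (1 - m) / R - 2 * ε) * (v * (R * ι)) = (n * v + (1 - m) * w - 2 * (ε * v)) * (R * ι) := by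
    rw [hvw]
    field_simp
  have e2' : (n + (1 - m) / R + 2 * ε) * (v * (R * ι)) = (n * v + (1 - m) * w + 2 * (ε * v)) * (R * ι) := by
    rw [hvw]
    field_simp
  have k1 : n * v + (1 - m) * w - 2 * (ε * v) ≤ (c1 - c0) - (e1 - e0) + w := by linarith
  have k2 : (c1 - c0) - (e1 - e0) + w ≤ n * v + (1 - m) * w + 2 * (ε * v) := by linarith
  have m1 := mul_le_mul_of_nonneg_right k1 hRι
  have m2 := mul_le_mul_of_nonneg_right k2 hRι
  rw [e1', e2']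
  constructor
  · linarith
  · linarith

theorem mval {ρ R ι ζ N η v w c0 c1 e0 e1 o q n m φ ψ ε : ℝ} (hρ : 0 ≤ ρ) (hR : 1 ≤ R) (hι : 0 < ι) (hζ : 0 ≤ ζ)
    (hN : N = (R + 1) * ι + ζ) (hη : ζ ≤ η * N) (hη0 : 0 < η) (hη2 : η ≤ 1 / 2) (hv : 0 < v) (hvw : v = R * w)
    (hε : 0 ≤ ε) (h2 : c1 ≤ c0 + (n + ε) * v) (h4 : e1 ≤ e0 + (m + ε) * w)
    (h5 : (φ - ε) * v ≤ o - ρ * c0) (h6 : (ψ - ε) * w ≤ q - ρ * e0) :
    (((1 + 1 / R) * φ + 1 / R * (1 + 1 / R) * ψ + 1 / R * ((1 + 1 / R) - ρ * (1 / R + n + m))) -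
        (4 + 2 * ρ) * ε - 4 * η * (|φ| + |ψ| + 2 * ε + 2 * ρ)) * (v * (R * ι)) ≤
      ((o + q) * N + (v + w) * (ι + ζ)) -
        ρ * ((c0 + e1) * (R * ι) + ((c1 + (e0 + w)) * ι + ((c0 + v) + (e0 + w)) * ζ)) := by
  have hR0 : 0 < R := by linarith
  have hw : 0 < w := by
    rw [hvw] at hv
    exact (pos_iff_pos_of_mul_pos hv).1 hR0
  have hwv : w ≤ v := by
    rw [hvw]
    exact le_mul_of_one_le_left hw.le hR
  have hN0 : 0 ≤ N := by
    rw [hN]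
    positivity
  set B : ℝ := |φ| + |ψ| + 2 * ε + 2 * ρ with hB
  have hB0 : 0 ≤ B := by positivity
  have hζ4 : ζ ≤ 4 * η * (R * ι) := by
    rw [hN] at hη
    have a1 : ζ * (1 / 2) ≤ ζ * (1 - η) := mul_le_mul_of_nonneg_left (by linarith) hζ
    have a2 : η * ((R + 1) * ι) ≤ η * (2 * (R * ι)) := by
      refine mul_le_mul_of_nonneg_left ?_ hη0.le
      nlinarith
    linarith
  -- the left side
  have eL : (((1 + 1 / R) * φ + 1 / R * (1 + 1 / R) * ψ + 1 / R * ((1 + 1 / R) - ρ * (1 / R + n + m))) -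
        (4 + 2 * ρ) * ε - 4 * η * B) * (v * (R * ι)) =
      (R + 1) * φ * v * ι + (R + 1) * ψ * w * ι + (v + w) * ι - ρ * (w + (n + m) * v) * ι -
        (4 + 2 * ρ) * (ε * v) * (R * ι) - (4 * η * (R * ι)) * (B * v) := by
    rw [hvw]
    field_simp
    ring
  have eL' : (((1 + 1 / R) * φ + 1 / R * (1 + 1 / R) * ψ + 1 / R * ((1 + 1 / R) - ρ * (1 / R + n + m))) -
        (4 + 2 * ρ) * ε - 4 * η * (|φ| + |ψ| + 2 * ε + 2 * ρ)) * (v * (R * ι)) =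
      (R + 1) * φ * v * ι + (R + 1) * ψ * w * ι + (v + w) * ι - ρ * (w + (n + m) * v) * ι -
        (4 + 2 * ρ) * (ε * v) * (R * ι) - (4 * η * (R * ι)) * (B * v) := by
    rw [← hB]
    exact eL
  rw [eL']
  -- the right side
  have r1 : (ρ * c0 + (φ - ε) * v + (ρ * e0 + (ψ - ε) * w)) * N ≤ (o + q) * N :=
    mul_le_mul_of_nonneg_right (by linarith) hN0
  have r2 : ρ * ι * (c1 - c0) ≤ ρ * ι * ((n + ε) * v) :=
    mul_le_mul_of_nonneg_left (by linarith) (by positivity)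
  have r3 : ρ * (R * ι) * (e1 - e0) ≤ ρ * (R * ι) * ((m + ε) * w) :=
    mul_le_mul_of_nonneg_left (by linarith) (by positivity)
  have hvw2 : ρ * (R * ι) * ((m + ε) * w) = ρ * ι * ((m + ε) * v) := by
    rw [hvw]
    ring
  -- the coefficient of zeta
  have s1 : -(B * v) ≤ (φ - ε) * v + (ψ - ε) * w + (v + w) * (1 - ρ) := by
    have b1 : -(|φ| * v) ≤ φ * v := by
      have := mul_le_mul_of_nonneg_right (neg_abs_le φ) hv.le
      linarith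
    have b2 : -(|ψ| * v) ≤ ψ * w := by
      have c1 := mul_le_mul_of_nonneg_right (neg_abs_le ψ) hw.le
      have c2 := mul_le_mul_of_nonneg_left hwv (abs_nonneg ψ)
      linarith
    have b3 : ε * w ≤ ε * v := mul_le_mul_of_nonneg_left hwv hε
    have b4 : ρ * w ≤ ρ * v := mul_le_mul_of_nonneg_left hwv hρ
    rw [hB]
    nlinarith
  have s2 : -(4 * η * (R * ι) * (B * v)) ≤ ζ * ((φ - ε) * v + (ψ - ε) * w + (v + w) * (1 - ρ)) := by
    have c1 := mul_le_mul_of_nonneg_left s1 hζ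
    have c2 := mul_le_mul_of_nonneg_right hζ4 (mul_nonneg hB0 hv.le)
    linarith
  -- the error terms
  have t1 : (R + 1) * ι * (ε * v) ≤ 2 * (R * ι) * (ε * v) := by
    refine mul_le_mul_of_nonneg_right ?_ (by positivity)
    nlinarith
  have t2 : (R + 1) * ι * (ε * w) ≤ 2 * (R * ι) * (ε * v) := by
    refine le_trans (mul_le_mul_of_nonneg_left (mul_le_mul_of_nonneg_left hwv hε) (by positivity)) t1
  have t3 : 2 * ρ * ι * (ε * v) ≤ 2 * ρ * (R * ι) * (ε * v) := by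
    refine mul_le_mul_of_nonneg_right ?_ (by positivity)
    have : ι ≤ R * ι := le_mul_of_one_le_left hι.le hR
    nlinarith
  rw [hN] at r1 ⊢
  rw [hvw2] at r3
  linarith

end Pool.Agent.Work.MP_eef58c_lc.TG
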