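import Pool.Agent.Work.MP_eef58c_lc.TG.MrgNp

set_option autoImplicit false

/-!
# MP_eef58c_lc, TG, module MrgCd (M): numbers of a merge

`card_disjSum`, `card_product`, `gcard_J` (`R * ι`), `gcard_Z`, `G.OK.card_I`, `gcard_N` (`N = (R+1) ι + ζ`). Upper bounds for the covers:
`card_union_le`. `merge_card_St` is an equality: the three parts are disjoint (`St P` and `act P`, `St Q` and `act Q` are disjoint by `dj`, `I`
and `Z` are disjoint by `gmem_Z`). `merge_tot`: `card ((P.V ⊕ Q.V) × X) = (card P.V + card Q.V) * N`, `D = (D_P + D_Q) * N + P.v * ι`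
(`D_ext`, `D_prod`, `D_sum`), and `N = (R+1) ι + ζ`, `P.v = R * Q.v`, `P.tot`, `Q.tot`:
`(v + w) N = 2 v ι + w ι + (v + w) ζ + v R ι` with `v = R w`.
-/

namespace Pool.Agent.Work.MP_eef58c_lc.TG

open Finset

variable {K : Type} {R : ℕ}

theorem merge_D {G : Gad K R} (P Q : Blk K) : (Blk.merge G P Q).D = (P.D + Q.D) * G.N + P.v * G.ι := by
  show (((P.toSch.sum Q.toSch).prod G.X).ext (mergeNp G P Q) (P.v * G.ι)).D = _
  rw [D_ext, D_prod, D_sum]
  rfl

theorem merge_card_V {G : Gad K R} (P Q : Blk K) :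
    Fintype.card (Blk.merge G P Q).V = (Fintype.card P.V + Fintype.card Q.V) * G.N := by
  show Fintype.card ((P.V ⊕ Q.V) × G.X) = _
  rw [Fintype.card_prod, Fintype.card_sum]
  rfl

theorem merge_card_act {G : Gad K R} (hG : G.OK) {P Q : Blk K} (hP : P.OK) (a : ℕ → K) :
    ((Blk.merge G P Q).act a).card = (Blk.merge G P Q).v := by
  show ((P.act a).disjSum ∅ ×ˢ G.J (a (P.J + Q.J)) : Finset ((P.V ⊕ Q.V) × G.X)).card = P.v * (R * G.ι)
  rw [card_product, card_disjSum, card_empty, hP.card_act, gcard_J hG, Nat.add_zero]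

theorem merge_card_St {G : Gad K R} (hG : G.OK) {P Q : Blk K} (hP : P.OK) (hQ : Q.OK) (a : ℕ → K) :
    ((Blk.merge G P Q).St a).card = (Blk.merge G P Q).st := by
  show ((P.St a).disjSum (Q.St (sh a P.J)) ×ˢ univ ∪
    ((∅ : Finset P.V).disjSum (Q.act (sh a P.J)) ×ˢ G.I (a (P.J + Q.J)) ∪
      (P.act a).disjSum (Q.act (sh a P.J)) ×ˢ G.Z (a (P.J + Q.J))) : Finset ((P.V ⊕ Q.V) × G.X)).card =
    (P.st + Q.st) * G.N + (Q.v * G.ι + (P.v + Q.v) * G.ζ)
  have d1 := disjoint_left.1 (hP.dj a)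
  have d2 := disjoint_left.1 (hQ.dj (sh a P.J))
  rw [card_union_of_disjoint, card_union_of_disjoint, card_product, card_product, card_product, card_disjSum,
    card_disjSum, card_disjSum, card_empty, hP.card_act, hQ.card_act, hP.card_St, hQ.card_St, gcard_Z hG,
    hG.card_I, card_univ, Nat.zero_add]
  · rfl
  · refine disjoint_left.2 fun u hu hu' => ?_
    have h1 := (mem_product.1 hu).2
    have h2 := (mem_product.1 hu').2
    exact ((gmem_Z G _ _).1 h2).1 h1
  · refine disjoint_left.2 fun u hu hu' => ?_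
    obtain ⟨u, x⟩ := u
    have h1 := (mem_product.1 hu).1
    rcases u with u | u
    · have h3 : u ∈ P.St a := inl_mem_disjSum.1 h1
      rcases mem_union.1 hu' with h | h
      · have h4 := inl_mem_disjSum.1 (mem_product.1 h).1
        exact absurd h4 (notMem_empty _)
      · exact d1 (inl_mem_disjSum.1 (mem_product.1 h).1) h3
    · have h3 : u ∈ Q.St (sh a P.J) := inr_mem_disjSum.1 h1
      rcases mem_union.1 hu' with h | h
      · exact d2 (inr_mem_disjSum.1 (mem_product.1 h).1) h3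
      · exact d2 (inr_mem_disjSum.1 (mem_product.1 h).1) h3

private theorem cov_le {V W X : Type} [DecidableEq V] [DecidableEq W] [DecidableEq X] (A A' A'' : Finset V)
    (B B' B'' : Finset W) (U U' U'' : Finset X) {x x' x'' y y' y'' z z' z'' : ℕ} (h1 : A.card ≤ x)
    (h2 : A'.card ≤ x') (h3 : A''.card ≤ x'') (h4 : B.card ≤ y) (h5 : B'.card ≤ y') (h6 : B''.card ≤ y'')
    (h7 : U.card = z) (h8 : U'.card = z') (h9 : U''.card = z'') :
    (A.disjSum B ×ˢ U ∪ (A'.disjSum B' ×ˢ U' ∪ A''.disjSum B'' ×ˢ U'')).card ≤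
      (x + y) * z + ((x' + y') * z' + (x'' + y'') * z'') := by
  refine (card_union_le _ _).trans (Nat.add_le_add ?_ ((card_union_le _ _).trans (Nat.add_le_add ?_ ?_))) <;>
    rw [card_product, card_disjSum]
  · rw [h7]; exact Nat.mul_le_mul_right _ (Nat.add_le_add h1 h4)
  · rw [h8]; exact Nat.mul_le_mul_right _ (Nat.add_le_add h2 h5)
  · rw [h9]; exact Nat.mul_le_mul_right _ (Nat.add_le_add h3 h6)

theorem merge_card0 {G : Gad K R} (hG : G.OK) {P Q : Blk K} (hP : P.OK) (hQ : Q.OK) (a : ℕ → K) :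
    ((Blk.merge G P Q).C0 a).card ≤ (Blk.merge G P Q).c0 := by
  have e1 : (Q.C0 (sh a P.J) ∪ Q.act (sh a P.J)).card ≤ Q.c0 + Q.v :=
    (card_union_le _ _).trans (Nat.add_le_add (hQ.card0 _) (hQ.card_act _).le)
  have e2 : (P.C0 a ∪ P.act a).card ≤ P.c0 + P.v :=
    (card_union_le _ _).trans (Nat.add_le_add (hP.card0 _) (hP.card_act _).le)
  exact cov_le _ _ _ _ _ _ _ _ _ (hP.card0 a) (hP.card1 a) e2 (hQ.card1 _) e1 e1 (gcard_J hG _) (hG.card_I _)
    (gcard_Z hG _)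

theorem merge_card1 {G : Gad K R} (hG : G.OK) {P Q : Blk K} (hP : P.OK) (hQ : Q.OK) (a : ℕ → K) :
    ((Blk.merge G P Q).C1 a).card ≤ (Blk.merge G P Q).c1 := by
  have e1 : (Q.C0 (sh a P.J) ∪ Q.act (sh a P.J)).card ≤ Q.c0 + Q.v :=
    (card_union_le _ _).trans (Nat.add_le_add (hQ.card0 _) (hQ.card_act _).le)
  have e2 : (P.C0 a ∪ P.act a).card ≤ P.c0 + P.v :=
    (card_union_le _ _).trans (Nat.add_le_add (hP.card0 _) (hP.card_act _).le)
  exact cov_le _ _ _ _ _ _ _ _ _ (hP.card1 a) (hP.card1 a) e2 e1 e1 e1 (gcard_J hG _) (hG.card_I _)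
    (gcard_Z hG _)

theorem merge_tot {G : Gad K R} (hG : G.OK) {P Q : Blk K} (hP : P.OK) (hQ : Q.OK) (hv : P.v = R * Q.v)
    (v₀ : K) : Fintype.card (Blk.merge G P Q).V =
      2 * (Blk.merge G P Q).D + (Blk.merge G P Q).st + (Blk.merge G P Q).v := by
  rw [merge_card_V, merge_D, hP.tot, hQ.tot]
  show _ = 2 * ((P.D + Q.D) * G.N + P.v * G.ι) + ((P.st + Q.st) * G.N + (Q.v * G.ι + (P.v + Q.v) * G.ζ)) +
    P.v * (R * G.ι)
  have hN := gcard_N hG v₀
  rw [hN, hv]
  ring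

end Pool.Agent.Work.MP_eef58c_lc.TG
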