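import Pool.Agent.Work.MP_eef58c_lc.TG.MrgNp

set_option autoImplicit false

/-!
# MP_eef58c_lc, TG, module MrgFr (M): active and stopped vertices of a merge

* `merge_act_loc`, `merge_St_loc`: if `a, a'` agree below `P.J + Q.J + 1` then they agree below `P.J`, `sh a P.J, sh a' P.J` agree below `Q.J`, and
  `a (P.J + Q.J) = a' (P.J + Q.J)`.
* `merge_dj`: `act = act P × J v`; `St P` is disjoint from `act P`; `act Q × I`: `inl ≠ inr`; `act P × Z`: `Z` and `J` are disjoint (`gmem_Z`).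
* `merge_free`: old special edges (`P.free`, `Q.free`): their ends are outside `act P ∪ St P` resp. `act Q ∪ St Q`, with any label, so they are in
  no part of `act`, `St`. New special edge (`mergeNp_some` with `c = v`): `(inl u, x)`, `u ∈ act P`, `x ∈ I v`: not in `J v`, not in `Z v`, `u ∉ St P`; the
  partner `(inr b, y)`, `b ∈ act Q`, `y = φ v s x ∈ J v` (`gmem_J`): `y ∉ I v` (`gdisj_IJ`), `y ∉ Z v`, `b ∉ St Q`.
-/

namespace Pool.Agent.Work.MP_eef58c_lc.TG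

open Finset

variable {K : Type} {R : ℕ}

private theorem mfr_mem_act {G : Gad K R} {P Q : Blk K} (a : ℕ → K) (g : (P.V ⊕ Q.V) × G.X) :
    g ∈ (Blk.merge G P Q).act a ↔ (∃ u ∈ P.act a, g.1 = Sum.inl u) ∧ g.2 ∈ G.J (a (P.J + Q.J)) := by
  change g ∈ (P.act a).disjSum ∅ ×ˢ G.J (a (P.J + Q.J)) ↔ _
  rw [mem_product, mem_disjSum]
  simp [eq_comm]

private theorem mfr_mem_St {G : Gad K R} {P Q : Blk K} (a : ℕ → K) (g : (P.V ⊕ Q.V) × G.X) :
    g ∈ (Blk.merge G P Q).St a ↔ (∃ u ∈ P.St a, g.1 = Sum.inl u) ∨ (∃ b ∈ Q.St (sh a P.J), g.1 = Sum.inr b) ∨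
      ((∃ b ∈ Q.act (sh a P.J), g.1 = Sum.inr b) ∧ g.2 ∈ G.I (a (P.J + Q.J))) ∨
      (((∃ u ∈ P.act a, g.1 = Sum.inl u) ∨ ∃ b ∈ Q.act (sh a P.J), g.1 = Sum.inr b) ∧ g.2 ∈ G.Z (a (P.J + Q.J))) := by
  change g ∈ (P.St a).disjSum (Q.St (sh a P.J)) ×ˢ univ ∪
    ((∅ : Finset P.V).disjSum (Q.act (sh a P.J)) ×ˢ G.I (a (P.J + Q.J)) ∪
      (P.act a).disjSum (Q.act (sh a P.J)) ×ˢ G.Z (a (P.J + Q.J))) ↔ _
  rw [mem_union, mem_union, mem_product, mem_product, mem_product, mem_disjSum, mem_disjSum, mem_disjSum]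
  simp [eq_comm, or_assoc]

private theorem mfr_sh {P Q : Blk K} {a a' : ℕ → K} (h : ∀ i < P.J + Q.J + 1, a i = a' i) :
    ∀ i < Q.J, sh a P.J i = sh a' P.J i := by
  intro i hi
  exact h _ (by omega)

theorem merge_act_loc {G : Gad K R} {P Q : Blk K} (hP : P.OK) (a a' : ℕ → K)
    (h : ∀ i < (Blk.merge G P Q).J, a i = a' i) : (Blk.merge G P Q).act a = (Blk.merge G P Q).act a' := by
  have h' : ∀ i < P.J + Q.J + 1, a i = a' i := h
  change (P.act a).disjSum ∅ ×ˢ G.J (a (P.J + Q.J)) = (P.act a').disjSum ∅ ×ˢ G.J (a' (P.J + Q.J))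
  rw [hP.act_loc a a' (fun i hi => h' i (by omega)), h' (P.J + Q.J) (by omega)]

theorem merge_St_loc {G : Gad K R} {P Q : Blk K} (hP : P.OK) (hQ : Q.OK) (a a' : ℕ → K)
    (h : ∀ i < (Blk.merge G P Q).J, a i = a' i) : (Blk.merge G P Q).St a = (Blk.merge G P Q).St a' := by
  have h' : ∀ i < P.J + Q.J + 1, a i = a' i := h
  ext g
  refine (mfr_mem_St a g).trans (Iff.trans ?_ (mfr_mem_St a' g).symm)
  rw [hP.act_loc a a' (fun i hi => h' i (by omega)),
    hP.St_loc a a' (fun i hi => h' i (by omega)), hQ.act_loc _ _ (mfr_sh h'), hQ.St_loc _ _ (mfr_sh h'),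
    h' (P.J + Q.J) (by omega)]

theorem merge_act_sd {G : Gad K R} {P Q : Blk K} (hP : P.OK) (a : ℕ → K) :
    ∀ u ∈ (Blk.merge G P Q).act a, (Blk.merge G P Q).sd u = (Blk.merge G P Q).sa := by
  intro g hg
  obtain ⟨⟨u, hu, hgu⟩, -⟩ := (mfr_mem_act a g).1 hg
  change Sum.elim P.sd Q.sd g.1 = P.sa
  rw [hgu]
  exact hP.act_sd a u hu

theorem merge_dj {G : Gad K R} {P Q : Blk K} (hP : P.OK) (a : ℕ → K) :
    Disjoint ((Blk.merge G P Q).act a) ((Blk.merge G P Q).St a) := by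
  rw [Finset.disjoint_left]
  intro g hg hs
  obtain ⟨⟨u, hu, hgu⟩, hx⟩ := (mfr_mem_act a g).1 hg
  rcases (mfr_mem_St a g).1 hs with ⟨u', hu', hg'⟩ | ⟨b, hb, hg'⟩ | ⟨⟨b, hb, hg'⟩, -⟩ | ⟨-, hz⟩
  · rw [hgu] at hg'
    have e := Sum.inl.inj hg'
    subst e
    exact Finset.disjoint_left.1 (hP.dj a) hu hu'
  · rw [hgu] at hg'
    cases hg'
  · rw [hgu] at hg'
    cases hg'
  · exact ((gmem_Z G _ _).1 hz).2 hx

/-- a vertex of `P` which is neither active nor stopped -/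
private theorem mfr_inl {G : Gad K R} {P Q : Blk K} (a : ℕ → K) (u : P.V) (x : G.X) (h1 : u ∉ P.act a)
    (h2 : u ∉ P.St a) : ((Sum.inl u, x) : (P.V ⊕ Q.V) × G.X) ∉ (Blk.merge G P Q).act a ∧
      ((Sum.inl u, x) : (P.V ⊕ Q.V) × G.X) ∉ (Blk.merge G P Q).St a := by
  constructor
  · intro hg
    obtain ⟨⟨u', hu', hgu⟩, hx⟩ := (mfr_mem_act a _).1 hg
    have e : u = u' := Sum.inl.inj hgu
    subst e
    exact h1 hu'
  · intro hs
    rcases (mfr_mem_St a _).1 hs with ⟨u', hu', hg'⟩ | ⟨b, hb, hg'⟩ | ⟨⟨b, hb, hg'⟩, -⟩ | ⟨⟨u', hu', hg'⟩ | ⟨b, hb, hg'⟩, hz⟩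
    · have e : u = u' := Sum.inl.inj hg'
      subst e
      exact h2 hu'
    · cases hg'
    · cases hg'
    · have e : u = u' := Sum.inl.inj hg'
      subst e
      exact h1 hu'
    · cases hg'

/-- a vertex of `Q` which is neither active nor stopped -/
private theorem mfr_inr {G : Gad K R} {P Q : Blk K} (a : ℕ → K) (u : Q.V) (x : G.X) (h1 : u ∉ Q.act (sh a P.J))
    (h2 : u ∉ Q.St (sh a P.J)) : ((Sum.inr u, x) : (P.V ⊕ Q.V) × G.X) ∉ (Blk.merge G P Q).act a ∧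
      ((Sum.inr u, x) : (P.V ⊕ Q.V) × G.X) ∉ (Blk.merge G P Q).St a := by
  constructor
  · intro hg
    obtain ⟨⟨u', hu', hgu⟩, hx⟩ := (mfr_mem_act a _).1 hg
    cases hgu
  · intro hs
    rcases (mfr_mem_St a _).1 hs with ⟨u', hu', hg'⟩ | ⟨b, hb, hg'⟩ | ⟨⟨b, hb, hg'⟩, -⟩ | ⟨⟨u', hu', hg'⟩ | ⟨b, hb, hg'⟩, hz⟩
    · cases hg'
    · have e : u = b := Sum.inr.inj hg'
      subst e
      exact h2 hb
    · have e : u = b := Sum.inr.inj hg'
      subst e
      exact h1 hb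
    · cases hg'
    · have e : u = b := Sum.inr.inj hg'
      subst e
      exact h1 hb

theorem merge_free {G : Gad K R} (hG : G.OK) {P Q : Blk K} (hP : P.OK) (hQ : Q.OK) (hv : P.v = R * Q.v) :
    ∀ a j g h, (Blk.merge G P Q).par a j g (a j) = some h →
      g ∉ (Blk.merge G P Q).act a ∧ g ∉ (Blk.merge G P Q).St a ∧
        h ∉ (Blk.merge G P Q).act a ∧ h ∉ (Blk.merge G P Q).St a := by
  intro a j (g : (P.V ⊕ Q.V) × G.X) (h : (P.V ⊕ Q.V) × G.X) hp
  change (if j < P.J + Q.J then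
      ((if j < P.J then Sum.elim (fun u => (P.par a j u (a j)).map Sum.inl) (fun _ => none) g.1
        else Sum.elim (fun _ => none) (fun u => (Q.par (sh a P.J) (j - P.J) u (a j)).map Sum.inr) g.1 :
          Option (P.V ⊕ Q.V)).map fun h => (h, g.2))
      else if j = P.J + Q.J then mergeNp G P Q a g (a j) else none) = some h at hp
  obtain ⟨g1, g2⟩ := g
  by_cases hj : j < P.J + Q.J
  · rw [if_pos hj] at hp
    by_cases hj' : j < P.J
    · rw [if_pos hj'] at hp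
      rcases g1 with u | b
      · simp only [Sum.elim_inl, Option.map_map] at hp
        rw [Option.map_eq_some_iff] at hp
        obtain ⟨h1, hh, he⟩ := hp
        obtain ⟨f1, f2, f3, f4⟩ := hP.free a j u h1 hh
        have he' : h = (Sum.inl h1, g2) := he.symm
        rw [he']
        have t1 := mfr_inl (G := G) (Q := Q) a u g2 f1 f2
        have t2 := mfr_inl (G := G) (Q := Q) a h1 g2 f3 f4
        exact ⟨t1.1, t1.2, t2.1, t2.2⟩
      · simp at hp
    · rw [if_neg hj'] at hp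
      rcases g1 with u | b
      · simp at hp
      · simp only [Sum.elim_inr, Option.map_map] at hp
        rw [Option.map_eq_some_iff] at hp
        obtain ⟨h1, hh, he⟩ := hp
        have ea : a j = sh a P.J (j - P.J) := by
          change a j = a (P.J + (j - P.J))
          congr 1
          omega
        rw [ea] at hh
        obtain ⟨f1, f2, f3, f4⟩ := hQ.free (sh a P.J) (j - P.J) b h1 hh
        have he' : h = (Sum.inr h1, g2) := he.symm
        rw [he']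
        have t1 := mfr_inr (G := G) (P := P) a b g2 f1 f2
        have t2 := mfr_inr (G := G) (P := P) a h1 g2 f3 f4
        exact ⟨t1.1, t1.2, t2.1, t2.2⟩
  · rw [if_neg hj] at hp
    by_cases hj' : j = P.J + Q.J
    · rw [if_pos hj'] at hp
      obtain ⟨u, b, s, hu, hb, hpair, hg1, hg2, hh⟩ := (mergeNp_some hP hQ hv a _ h (a j)).1 hp
      rw [hj'] at hg2 hh
      simp only at hg1 hg2 hh
      subst hg1
      have hJ : G.φ (a (P.J + Q.J)) s g2 ∈ G.J (a (P.J + Q.J)) := gmem_J G _ s g2 hg2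
      have hIJ := Finset.disjoint_left.1 (gdisj_IJ hG (a (P.J + Q.J)))
      rw [hh]
      refine ⟨?_, ?_, ?_, ?_⟩
      · intro hg
        obtain ⟨-, hx⟩ := (mfr_mem_act a _).1 hg
        exact hIJ hg2 hx
      · intro hs
        rcases (mfr_mem_St a _).1 hs with ⟨u', hu', hg'⟩ | ⟨b, hb, hg'⟩ | ⟨⟨b, hb, hg'⟩, -⟩ | ⟨-, hz⟩
        · have e : u = u' := Sum.inl.inj hg'
          subst e
          exact Finset.disjoint_left.1 (hP.dj a) hu hu'
        · cases hg'
        · cases hg'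
        · exact ((gmem_Z G _ _).1 hz).1 hg2
      · intro hg
        obtain ⟨⟨u', hu', hgu⟩, hx⟩ := (mfr_mem_act a _).1 hg
        cases hgu
      · intro hs
        rcases (mfr_mem_St a _).1 hs with ⟨u', hu', hg'⟩ | ⟨b', hb', hg'⟩ | ⟨⟨b', hb', hg'⟩, hI⟩ | ⟨-, hz⟩
        · cases hg'
        · have e : b = b' := Sum.inr.inj hg'
          subst e
          exact Finset.disjoint_left.1 (hQ.dj _) hb hb'
        · exact hIJ hI hJ
        · exact ((gmem_Z G _ _).1 hz).2 hJ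
    · rw [if_neg hj'] at hp
      cases hp

end Pool.Agent.Work.MP_eef58c_lc.TG
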