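import Pool.Agent.Work.MP_eef58c_lc.TG.MrgCov
import Pool.Agent.Work.MP_eef58c_lc.TG.MrgFr
import Pool.Agent.Work.MP_eef58c_lc.TG.MrgCd

set_option autoImplicit false

/-!
# MP_eef58c_lc, TG, module Mrg (S): assembly of the merge

`merge_ok`: all fields from the modules MrgNp, MrgCov, MrgFr, MrgCd (`G.OK.ne` for `tot`). `merge_o`: `o = D + st`, `merge_D`.
-/

namespace Pool.Agent.Work.MP_eef58c_lc.TG

open Finset

variable {K : Type} {R : ℕ}

theorem merge_ok {G : Gad K R} (hG : G.OK) {P Q : Blk K} (hP : P.OK) (hQ : Q.OK) (hs : P.sa = !Q.sa)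
    (hv : P.v = R * Q.v) : (Blk.merge G P Q).OK where
  ok := merge_sch_ok hG hP hQ hs hv
  act_loc := fun a a' h => merge_act_loc hP a a' h
  St_loc := fun a a' h => merge_St_loc hP hQ a a' h
  act_sd := fun a => merge_act_sd hP a
  dj := fun a => merge_dj hP a
  free := merge_free hG hP hQ hv
  cov0 := merge_cov0 hG hP hQ hv
  cov1 := merge_cov1 hG hP hQ hv
  St0 := fun a => merge_St0 hP hQ a
  St1 := fun a => merge_St1 hP hQ a
  card_act := fun a => merge_card_act hG hP a
  card_St := fun a => merge_card_St hG hP hQ a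
  card0 := fun a => merge_card0 hG hP hQ a
  card1 := fun a => merge_card1 hG hP hQ a
  tot := merge_tot hG hP hQ hv (Classical.choice hG.ne)

theorem merge_o {G : Gad K R} (P Q : Blk K) :
    (Blk.merge G P Q).o = (P.o + Q.o) * G.N + (P.v + Q.v) * (G.ι + G.ζ) := by
  have h1 : (Blk.merge G P Q).o = (Blk.merge G P Q).D + (Blk.merge G P Q).st := rfl
  have h2 : (Blk.merge G P Q).st = (P.st + Q.st) * G.N + (Q.v * G.ι + (P.v + Q.v) * G.ζ) := rfl
  rw [h1, h2, merge_D]
  unfold Blk.o
  ring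

end Pool.Agent.Work.MP_eef58c_lc.TG
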