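import Pool.Agent.Work.MP_eef58c_lc.TG.GoodA
import Pool.Agent.Work.MP_eef58c_lc.TG.MVal
import Pool.Agent.Work.MP_eef58c_lc.TG.Mrg

set_option autoImplicit false

/-!
# MP_eef58c_lc, TG, module GoodM (M): merging two states

Given `ε`. Let `ε' ≤ ε / (8 + 4 ρ)`, `ε' > 0` (`ε' = ε / (8 + 4 ρ)`), `B = |φ| + |ψ| + 2 ε' + 2 ρ`, `η' = min (1/2) (ε / (8 (B + 1)))`. `(η₁, T₁)` from `h₁ ε'`,
`(η₂, T₂)` from `h₂ ε'`, `η = min η' (min η₁ η₂)`, `T = T₁ + T₂ + 1`. Given `G`: blocks `P`, `Q`; `P' = P.scale (R * Q.v)`, `Q' = Q.scale P.v`, and `Q'' = Q'` if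
`P.sa = !Q.sa`, otherwise `Q'' = Q'.flip`; then `P'.v = P.v * (R * Q.v) = R * (Q.v * P.v) = R * Q''.v`. The merge `Blk.merge G P' Q''` works:
`mval_diff` and `mval` (all numbers of `P'`, `Q''` are those of `P`, `Q` multiplied by `R * Q.v`, `P.v`; use the definitions of `v, c0, c1` of
`Blk.merge`, `merge_o`, `gcard_N`; casts), `2 ε' ≤ ε` and `(4 + 2 ρ) ε' + 4 η B ≤ ε`.
Size (`merge_card_V`): `(card P.V * (R * Q.v) + card Q.V * P.v) * N ≤ X₁ X₂ (R + 1) N ≤ X₁ X₂ (2 R N)` with `X_i = (2 R N)^T_i`, `Q.v ≤ card Q.V`,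
`P.v ≤ card P.V` (`tot`). `J = P.J + Q.J + 1`.
-/

namespace Pool.Agent.Work.MP_eef58c_lc.TG

open Finset

private theorem gm_side {K : Type} {Q : Blk K} (hQ : Q.OK) (b : Bool) (r : ℕ) :
    ∃ Q' : Blk K, Q'.OK ∧ b = !Q'.sa ∧ Q'.v = Q.v * r ∧ Q'.c0 = Q.c0 * r ∧ Q'.c1 = Q.c1 * r ∧
      Q'.o = Q.o * r ∧ Fintype.card Q'.V = Fintype.card Q.V * r ∧ Q'.J = Q.J := by
  by_cases hb : b = !Q.sa
  · exact ⟨Q.scale r, scale_ok hQ r, hb, rfl, rfl, rfl, scale_o Q r, scale_card_V Q r, rfl⟩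
  · refine ⟨(Q.scale r).flip, flip_ok (scale_ok hQ r), ?_, rfl, rfl, rfl, ?_, ?_, rfl⟩
    · change b = !(!Q.sa)
      cases b <;> cases h : Q.sa <;> simp_all
    · rw [flip_o, scale_o]
    · exact scale_card_V Q r

private theorem gm_eta {ε B0 η' : ℝ} (hε : 0 < ε) (hB : 0 ≤ B0) (h : η' ≤ ε / (8 * (B0 + 1))) :
    4 * η' * B0 ≤ ε / 2 := by
  have h0 : (8 * (B0 + 1)) ≠ 0 := by positivity
  have h4 : ε / (8 * (B0 + 1)) * (8 * (B0 + 1)) = ε := div_mul_cancel₀ ε h0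
  have h6 : 0 < ε / (8 * (B0 + 1)) := by positivity
  generalize ε / (8 * (B0 + 1)) = t at h h4 h6
  have h5 := mul_le_mul_of_nonneg_right h hB
  have h7 : 4 * η' * B0 = 4 * (η' * B0) := by ring
  rw [h7]
  linarith

theorem good_merge {ρ : ℝ} (hρ : 0 ≤ ρ) {R : ℕ} (hR : 1 ≤ R) {n m φ ψ : ℝ} (h₁ : Good ρ R n φ)
    (h₂ : Good ρ R m ψ) :
    Good ρ R (n + (1 - m) / R) ((1 + 1 / R) * φ + 1 / R * (1 + 1 / R) * ψ +
      1 / R * ((1 + 1 / R) - ρ * (1 / R + n + m))) := by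
  intro ε hε
  have h8 : (0 : ℝ) < 8 + 4 * ρ := by linarith
  set ε' : ℝ := ε / (8 + 4 * ρ) with hε'def
  have hε' : 0 < ε' := div_pos hε h8
  have hε'm : ε' * (8 + 4 * ρ) = ε := div_mul_cancel₀ ε h8.ne'
  set B0 : ℝ := |φ| + |ψ| + 2 * ε' + 2 * ρ with hB0
  have hB0n : 0 ≤ B0 := by
    have := abs_nonneg φ
    have := abs_nonneg ψ
    linarith
  obtain ⟨η₁, hη₁, T₁, H₁⟩ := h₁ ε' hε'
  obtain ⟨η₂, hη₂, T₂, H₂⟩ := h₂ ε' hε'
  set η' : ℝ := min (1 / 2) (ε / (8 * (B0 + 1))) with hη'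
  have hη'p : 0 < η' := lt_min (by norm_num) (div_pos hε (by linarith))
  refine ⟨min η' (min η₁ η₂), lt_min hη'p (lt_min hη₁ hη₂), T₁ + T₂ + 1, ?_⟩
  intro K G hG hζ
  have hN0 : (0 : ℝ) ≤ G.N := Nat.cast_nonneg _
  have hζ1 : (G.ζ : ℝ) ≤ η₁ * G.N := hζ.trans
    (mul_le_mul_of_nonneg_right ((min_le_right _ _).trans (min_le_left _ _)) hN0)
  have hζ2 : (G.ζ : ℝ) ≤ η₂ * G.N := hζ.trans
    (mul_le_mul_of_nonneg_right ((min_le_right _ _).trans (min_le_right _ _)) hN0)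
  have hζ' : (G.ζ : ℝ) ≤ η' * G.N := hζ.trans
    (mul_le_mul_of_nonneg_right (min_le_left _ _) hN0)
  obtain ⟨P, hP, hPv, hP1, hP2, hP3, hP4, hP5⟩ := H₁ K G hG hζ1
  obtain ⟨Q, hQ, hQv, hQ1, hQ2, hQ3, hQ4, hQ5⟩ := H₂ K G hG hζ2
  obtain ⟨Q', hQ', hsa, hQ'v, hQ'c0, hQ'c1, hQ'o, hQ'V, hQ'J⟩ := gm_side hQ P.sa P.v
  have hP' : (P.scale (R * Q.v)).OK := scale_ok hP _
  have hvv : (P.scale (R * Q.v)).v = R * Q'.v := by
    rw [hQ'v]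
    change P.v * (R * Q.v) = _
    ring
  obtain ⟨v₀⟩ := hG.ne
  have hNeq := gcard_N hG v₀
  have hι : 0 < G.ι := hG.ι_pos
  have hR0 : (0 : ℝ) < R := by exact_mod_cast hR
  have hR1 : (1 : ℝ) ≤ R := by exact_mod_cast hR
  have hιR : (0 : ℝ) < G.ι := by exact_mod_cast hι
  have hPvR : (0 : ℝ) < P.v := by exact_mod_cast hPv
  have hQvR : (0 : ℝ) < Q.v := by exact_mod_cast hQv
  have hNR : (G.N : ℝ) = ((R : ℝ) + 1) * G.ι + G.ζ := by exact_mod_cast hNeq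
  have hζ0 : (0 : ℝ) ≤ G.ζ := Nat.cast_nonneg _
  -- real numbers
  set v : ℝ := (P.v : ℝ) * (R * Q.v) with hv
  set w : ℝ := (Q.v : ℝ) * P.v with hw
  set c0 : ℝ := (P.c0 : ℝ) * (R * Q.v) with hc0
  set c1 : ℝ := (P.c1 : ℝ) * (R * Q.v) with hc1
  set e0 : ℝ := (Q.c0 : ℝ) * P.v with he0
  set e1 : ℝ := (Q.c1 : ℝ) * P.v with he1
  set o : ℝ := (P.o : ℝ) * (R * Q.v) with ho
  set q : ℝ := (Q.o : ℝ) * P.v with hq
  have hRQ : (0 : ℝ) < R * Q.v := mul_pos hR0 hQvR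
  have hvp : 0 < v := mul_pos hPvR hRQ
  have hvw : v = R * w := by rw [hv, hw]; ring
  have g1 : c0 + (n - ε') * v ≤ c1 := by
    have := mul_le_mul_of_nonneg_right hP1 hRQ.le
    rw [hc0, hv, hc1]
    linarith
  have g2 : c1 ≤ c0 + (n + ε') * v := by
    have := mul_le_mul_of_nonneg_right hP2 hRQ.le
    rw [hc0, hv, hc1]
    linarith
  have g3 : e0 + (m - ε') * w ≤ e1 := by
    have := mul_le_mul_of_nonneg_right hQ1 hPvR.le
    rw [he0, hw, he1]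
    linarith
  have g4 : e1 ≤ e0 + (m + ε') * w := by
    have := mul_le_mul_of_nonneg_right hQ2 hPvR.le
    rw [he0, hw, he1]
    linarith
  have g5 : (φ - ε') * v ≤ o - ρ * c0 := by
    have := mul_le_mul_of_nonneg_right hP3 hRQ.le
    rw [hv, ho, hc0]
    linarith
  have g6 : (ψ - ε') * w ≤ q - ρ * e0 := by
    have := mul_le_mul_of_nonneg_right hQ3 hPvR.le
    rw [hw, hq, he0]
    linarith
  obtain ⟨k1, k2⟩ := mval_diff (ζ := (G.ζ : ℝ)) hR1 hιR hvp hvw g1 g2 g3 g4 hε'.le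
  have k3 := mval (R := (R : ℝ)) (ι := (G.ι : ℝ)) (ζ := (G.ζ : ℝ)) (N := (G.N : ℝ)) (η := η')
    hρ hR1 hιR hζ0 hNR hζ' hη'p (min_le_left _ _) hvp hvw hε'.le g2 g4 g5 g6
  set B := Blk.merge G (P.scale (R * Q.v)) Q' with hB
  have hBv : (B.v : ℝ) = v * (R * G.ι) := by
    have : B.v = P.v * (R * Q.v) * (R * G.ι) := rfl
    rw [this, hv]
    push_cast
    ring
  have hBc0 : (B.c0 : ℝ) = (c0 + e1) * (R * G.ι) +
      ((c1 + (e0 + w)) * G.ι + ((c0 + v) + (e0 + w)) * G.ζ) := by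
    have : B.c0 = (P.c0 * (R * Q.v) + Q'.c1) * (R * G.ι) + ((P.c1 * (R * Q.v) + (Q'.c0 + Q'.v)) * G.ι +
      ((P.c0 * (R * Q.v) + P.v * (R * Q.v)) + (Q'.c0 + Q'.v)) * G.ζ) := rfl
    rw [this, hQ'c1, hQ'c0, hQ'v, hc0, he1, hc1, he0, hw, hv]
    push_cast
    ring
  have hBc1 : (B.c1 : ℝ) = (c1 + (e0 + w)) * (R * G.ι) +
      ((c1 + (e0 + w)) * G.ι + ((c0 + v) + (e0 + w)) * G.ζ) := by
    have : B.c1 = (P.c1 * (R * Q.v) + (Q'.c0 + Q'.v)) * (R * G.ι) +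
      ((P.c1 * (R * Q.v) + (Q'.c0 + Q'.v)) * G.ι +
      ((P.c0 * (R * Q.v) + P.v * (R * Q.v)) + (Q'.c0 + Q'.v)) * G.ζ) := rfl
    rw [this, hQ'c0, hQ'v, hc0, hc1, he0, hw, hv]
    push_cast
    ring
  have hBo : (B.o : ℝ) = (o + q) * G.N + (v + w) * (G.ι + G.ζ) := by
    have h1 : B.o = ((P.scale (R * Q.v)).o + Q'.o) * G.N +
      ((P.scale (R * Q.v)).v + Q'.v) * (G.ι + G.ζ) := merge_o _ _
    have h2 : (P.scale (R * Q.v)).v = P.v * (R * Q.v) := rfl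
    rw [h1, h2, scale_o, hQ'o, hQ'v, ho, hq, hv, hw]
    push_cast
    ring
  have hBvp : (0 : ℝ) < B.v := by
    rw [hBv]
    exact mul_pos hvp (mul_pos hR0 hιR)
  have h2ε : 2 * ε' ≤ ε := by
    have : 0 ≤ ε' * ρ := mul_nonneg hε'.le hρ
    linarith
  rw [← hBc0, ← hBc1, ← hBv] at k1 k2
  rw [← hBc0, ← hBo, ← hBv] at k3
  refine ⟨B, merge_ok hG hP' hQ' hsa hvv, by exact_mod_cast hBvp, ?_, ?_, ?_, ?_, ?_⟩
  · have := mul_le_mul_of_nonneg_right h2ε hBvp.le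
    linarith
  · have := mul_le_mul_of_nonneg_right h2ε hBvp.le
    linarith
  · refine le_trans (mul_le_mul_of_nonneg_right ?_ hBvp.le) k3
    have h1 : (4 + 2 * ρ) * ε' = ε / 2 := by linarith
    have h2 : 4 * η' * (|φ| + |ψ| + 2 * ε' + 2 * ρ) ≤ ε / 2 := by
      rw [← hB0]
      exact gm_eta hε hB0n (min_le_right _ _)
    linarith
  · -- size
    have h1 : Fintype.card B.V = (Fintype.card P.V * (R * Q.v) + Fintype.card Q.V * P.v) * G.N := by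
      have h2 : Fintype.card B.V =
        (Fintype.card (P.scale (R * Q.v)).V + Fintype.card Q'.V) * G.N := merge_card_V _ _
      rw [h2, scale_card_V, hQ'V]
    have hPle : P.v ≤ (2 * R * G.N) ^ T₁ := by
      have := hP.tot
      omega
    have hQle : Q.v ≤ (2 * R * G.N) ^ T₂ := by
      have := hQ.tot
      omega
    rw [h1]
    calc (Fintype.card P.V * (R * Q.v) + Fintype.card Q.V * P.v) * G.N
        ≤ ((2 * R * G.N) ^ T₁ * (R * (2 * R * G.N) ^ T₂) +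
            (2 * R * G.N) ^ T₂ * (2 * R * G.N) ^ T₁) * G.N := by
          gcongr
      _ = (2 * R * G.N) ^ T₁ * (2 * R * G.N) ^ T₂ * ((R + 1) * G.N) := by ring
      _ ≤ (2 * R * G.N) ^ T₁ * (2 * R * G.N) ^ T₂ * (2 * R * G.N) := by
          refine Nat.mul_le_mul_left _ (Nat.mul_le_mul_right _ ?_)
          omega
      _ = (2 * R * G.N) ^ (T₁ + T₂ + 1) := by rw [pow_succ, pow_add]
  · have h1 : B.J = P.J + Q'.J + 1 := rfl
    rw [h1, hQ'J]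
    omega

end Pool.Agent.Work.MP_eef58c_lc.TG
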