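import Pool.Agent.Work.MP_eef58c_lc.TG.SchA

set_option autoImplicit false

/-!
# MP_eef58c_lc, TG, module HScale (S): copies of a hard scheme

`prod_ok`, an edge of the product is an edge of `H` with the same label at both ends, `card_product`.
-/

namespace Pool.Agent.Work.MP_eef58c_lc.TG

open Finset

variable {K : Type}

private theorem prod_some {S : Sch K} {X : Type} [Fintype X] [DecidableEq X] {a : ℕ → K} {j : ℕ}
    {g h : S.V × X} {c : K} (H : (S.prod X).par a j g c = some h) :
    S.par a j g.1 c = some h.1 ∧ h.2 = g.2 := by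
  have H' : (S.par a j g.1 c).map (fun h => (h, g.2)) = some h := H
  rw [Option.map_eq_some_iff] at H'
  obtain ⟨u, hu, rfl⟩ := H'
  exact ⟨hu, rfl⟩

theorem hscale_ok {H : Hard K} (hH : H.OK) (r : ℕ) : (H.scale r).OK where
  ok := prod_ok hH.ok (Fin r)
  cov := fun a j g c h hh hc => by
    obtain ⟨h1, h2⟩ := prod_some (S := H.toSch) (X := Fin r) hh
    rcases hH.cov a j g.1 c h.1 h1 hc with h3 | h3
    · exact Or.inl (Finset.mem_product.2 ⟨h3, Finset.mem_univ _⟩)
    · exact Or.inr (Finset.mem_product.2 ⟨h3, Finset.mem_univ _⟩)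
  card_C := fun a => by
    show (H.C a ×ˢ (univ : Finset (Fin r))).card ≤ H.c * r
    rw [Finset.card_product, Finset.card_univ, Fintype.card_fin]
    exact Nat.mul_le_mul_right r (hH.card_C a)

theorem hscale_D (H : Hard K) (r : ℕ) : (H.scale r).D = H.D * r := by
  show (H.toSch.prod (Fin r)).D = H.D * r
  rw [D_prod, Fintype.card_fin]

theorem hscale_card_V (H : Hard K) (r : ℕ) : Fintype.card (H.scale r).V = Fintype.card H.V * r := by
  have h : Fintype.card (H.V × Fin r) = Fintype.card H.V * r := by
    rw [Fintype.card_prod, Fintype.card_fin]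
  exact h

end Pool.Agent.Work.MP_eef58c_lc.TG
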