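import Pool.Agent.Work.MP_eef58c_lc.TG.GoodF
import Pool.Agent.Work.MP_eef58c_lc.TG.GadE
import Pool.Agent.Work.MP_eef58c_lc.TG.FinB
import Pool.Agent.Work.MP_eef58c_lc.TG.HScale

set_option autoImplicit false

/-!
# MP_eef58c_lc, TG, module HardF (M): hard schemes for all large `n`

`good_final` gives `R, n, φ`; `ε = φ - (ρ - 1) > 0`; `Good` gives `η, T₀`. `gad_exists hR hη T₀ κ (4 * p)` (so `(2 R N)^T₀ * card K * (4 p) ≤ n`): `K`, `G`. Block `B` from `Good`;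
`H₀ = B.hard`: `card H₀.V = 2 * card B.V * card K ≤ 2 * (2 R N)^T₀ * card K`, so `2 p * card H₀.V ≤ n`. `μ = n / (2 p * card H₀.V)` (natural division),
`μ ≥ 1`, `H = H₀.scale μ`: `2 p card H₀.V μ ≤ n < 2 p card H₀.V (μ + 1) ≤ 4 p card H₀.V μ`. `J = B.J + 1 ≤ T₀ + 1 =: T`.
`0 < D`: `D = (B.o + B.v) * card K * μ`, `B.v > 0`. `card V ≤ 4 D`: `card B.V = 2 D_B + st + v ≤ 2 (B.o + B.v)`.
`ρ c ≤ D`: `ρ (B.c0 + B.v) ≤ B.o + B.v` from `(φ - ε) v = (ρ - 1) v ≤ o - ρ c0`. `DecidableEq K` as in `gad_exists`.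
-/

namespace Pool.Agent.Work.MP_eef58c_lc.TG

open Finset

theorem hardfam {ρ : ℝ} (hρ1 : 1 ≤ ρ) (hρ : ρ < 1 + 1 / √2) (κ p : ℕ) (hp : 1 ≤ p) : ∃ T n₀ : ℕ, ∀ n ≥ n₀,
    ∃ (K : Type) (_ : Fintype K) (_ : DecidableEq K) (H : Hard K), Nonempty K ∧ H.OK ∧ H.J ≤ T ∧ 0 < H.D ∧
      2 * p * Fintype.card H.V ≤ n ∧ n ≤ 4 * p * Fintype.card H.V ∧ Fintype.card H.V ≤ 4 * H.D ∧
      ρ * H.c ≤ H.D ∧ (Real.log n) ^ κ ≤ Fintype.card K := by
  obtain ⟨R, hR, n₁, φ, hGood, hφ⟩ := good_final hρ1 hρ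
  obtain ⟨η, hη, T₀, hB⟩ := hGood (φ - (ρ - 1)) (by linarith)
  obtain ⟨n₀, hn₀⟩ := gad_exists hR hη T₀ κ (4 * p)
  refine ⟨T₀ + 1, n₀, fun n hn => ?_⟩
  obtain ⟨K, i1, i2, i3, G, hGok, hζ, hsize, hlog⟩ := hn₀ n hn
  obtain ⟨B, hBok, hv, -, -, hphi, hcard, hJ⟩ := hB K G hGok hζ
  have hK : 0 < Fintype.card K := Fintype.card_pos_iff.2 hGok.ne
  have htot := hBok.tot
  have hBV : 0 < Fintype.card B.V := by omega
  set q : ℕ := 2 * p * (2 * Fintype.card B.V * Fintype.card K) with hq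
  have hq0 : 0 < q := by positivity
  have hqn : q ≤ n := by
    refine le_trans ?_ hsize
    calc q = 4 * p * (Fintype.card B.V * Fintype.card K) := by rw [hq]; ring
      _ ≤ 4 * p * ((2 * R * G.N) ^ T₀ * Fintype.card K) :=
        Nat.mul_le_mul_left _ (Nat.mul_le_mul_right _ hcard)
      _ = (2 * R * G.N) ^ T₀ * Fintype.card K * (4 * p) := by ring
  have hμ : 1 ≤ n / q := (Nat.one_le_div_iff hq0).2 hqn
  have e1 : Fintype.card (B.hard.scale (n / q)).V =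
      2 * Fintype.card B.V * Fintype.card K * (n / q) := by
    rw [hscale_card_V, hard_card_V]
  have e2 : (B.hard.scale (n / q)).D = (B.o + B.v) * Fintype.card K * (n / q) := by
    rw [hscale_D, hard_D]
  have e3 : ((B.hard.scale (n / q)).c : ℝ) =
      ((B.c0 : ℝ) + B.v) * Fintype.card K * ((n / q : ℕ) : ℝ) := by
    have : (B.hard.scale (n / q)).c = (B.c0 + B.v) * Fintype.card K * (n / q) := rfl
    rw [this]
    push_cast
    ring
  refine ⟨K, i2, i3, B.hard.scale (n / q), hGok.ne, hscale_ok (hard_ok hBok) _, ?_, ?_, ?_, ?_, ?_,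
    ?_, hlog⟩
  · have : (B.hard.scale (n / q)).J = B.hard.J := rfl
    rw [this, hard_J]
    omega
  · rw [e2]
    have : 0 < B.o + B.v := by omega
    positivity
  · rw [e1]
    calc 2 * p * (2 * Fintype.card B.V * Fintype.card K * (n / q)) = q * (n / q) := by
          rw [hq]; ring
      _ ≤ n := Nat.mul_div_le n q
  · rw [e1]
    have h1 : n < q * (n / q) + q := Nat.lt_mul_div_succ n hq0
    have h2 : q ≤ q * (n / q) := Nat.le_mul_of_pos_right q hμ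
    have h3 : 4 * p * (2 * Fintype.card B.V * Fintype.card K * (n / q)) = 2 * (q * (n / q)) := by
      rw [hq]; ring
    omega
  · rw [e1, e2]
    have h1 : Fintype.card B.V ≤ 2 * (B.o + B.v) := by
      have : B.o = B.D + B.st := rfl
      omega
    calc 2 * Fintype.card B.V * Fintype.card K * (n / q)
        ≤ 2 * (2 * (B.o + B.v)) * Fintype.card K * (n / q) := by gcongr
      _ = 4 * ((B.o + B.v) * Fintype.card K * (n / q)) := by ring
  · rw [e3, e2]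
    push_cast
    have h1 : ρ * ((B.c0 : ℝ) + B.v) ≤ (B.o : ℝ) + B.v := by
      have h2 : (ρ - 1) * (B.v : ℝ) ≤ (B.o : ℝ) - ρ * B.c0 := by
        have := hphi
        rw [sub_sub_cancel] at this
        exact this
      linarith
    have h2 : (0 : ℝ) ≤ (Fintype.card K : ℝ) * ((n / q : ℕ) : ℝ) := by positivity
    calc ρ * (((B.c0 : ℝ) + B.v) * Fintype.card K * ((n / q : ℕ) : ℝ))
        = (ρ * ((B.c0 : ℝ) + B.v)) * ((Fintype.card K : ℝ) * ((n / q : ℕ) : ℝ)) := by ring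
      _ ≤ ((B.o : ℝ) + B.v) * ((Fintype.card K : ℝ) * ((n / q : ℕ) : ℝ)) :=
        mul_le_mul_of_nonneg_right h1 h2
      _ = ((B.o : ℝ) + B.v) * Fintype.card K * ((n / q : ℕ) : ℝ) := by ring

end Pool.Agent.Work.MP_eef58c_lc.TG
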