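import Pool.Agent.Work.MP_eef58c_lc.TG.MatC

set_option autoImplicit false

/-!
# MP_eef58c_lc, TG, module SuccC (S): success for the cardinality

Let `M ⊆ held` be the matching of `Succeeds`, `M'` from `special_matching`: `2 p S.M = card M' ≤ α card M` and `card M ≤ 2 Z + 2 p c` (`mat_card`; the edges of `M` are in the stream:
`held ⊆ (strm L).toFinset`, see `held_sub` in Work/MP_eef58c_lc/G6; `bs_mono` for `M ⊆ held`). So `Z ≥ p S.M / α - p c ≥ p S.M (1/α - 1/ρ)`.
-/

namespace Pool.Agent.Work.MP_eef58c_lc.TG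

open Finset

variable {K : Type} [Fintype K] [DecidableEq K]

private theorem succC_held_sub {n s : ℕ} (A : Alg n s) (l : List (Sym2 (Fin n)))
    (F : Finset (Sym2 (Fin n)) → ℝ) : A.held (A.state l F) ⊆ l.toFinset := by
  induction l using List.reverseRecOn with
  | nil => rw [A.start F]; exact Finset.empty_subset _
  | append_singleton l e ih =>
    refine (A.step l e F).trans ?_
    intro x hx
    rw [mem_insert] at hx
    rw [List.mem_toFinset, List.mem_append]
    rcases hx with rfl | hx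
    · right; simp
    · left; exact List.mem_toFinset.1 (ih hx)

theorem succ_card {S : Str K} (hS : S.OK) {n s : ℕ} {ι : ℕ → S.V → Bool → Fin n} (hι : S.Emb ι) (A : Alg n s)
    {α ρ : ℝ} (hα : 0 < α) (hρ : 0 < ρ) (hc : ρ * S.c ≤ S.M) (a : ℕ → K) (β : ℕ → S.V → K → Bool)
    (h : A.Succeeds α (S.strm ι a β S.L) (fun X => (X.card : ℝ))) :
    (S.p : ℝ) * S.M * (1 / α - 1 / ρ) ≤
      (((S.bs ι a β (A.held (A.state (S.strm ι a β S.L) (fun X => (X.card : ℝ))))).filter
        fun t => t.2.2 = a t.1).card : ℝ) := by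
  obtain ⟨M, hMh, hM, hbest⟩ := h
  obtain ⟨M', hM's, hM', -, hcard⟩ := special_matching hS hι a β
  have h1 := hbest M' hM's hM'
  simp only at h1
  rw [hcard] at h1
  have hE : ∀ e ∈ M, ∃ l g i c, S.edg ι a β l g i c = some e := by
    intro e he
    have h2 := succC_held_sub A _ _ (hMh he)
    rw [List.mem_toFinset] at h2
    obtain ⟨l, g, i, c, -, h3⟩ := (mem_strm S ι a β S.L e).1 h2
    exact ⟨l, g, i, c, h3⟩
  have h2 := mat_card hS hι a β hM hE
  have h3 : ((S.bs ι a β M).filter fun t => t.2.2 = a t.1).card ≤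
      ((S.bs ι a β (A.held (A.state (S.strm ι a β S.L) (fun X => (X.card : ℝ))))).filter
        fun t => t.2.2 = a t.1).card :=
    card_le_card (filter_subset_filter _ (bs_mono S ι a β hMh))
  generalize ((S.bs ι a β (A.held (A.state (S.strm ι a β S.L) (fun X => (X.card : ℝ))))).filter
        fun t => t.2.2 = a t.1).card = Z at h3 ⊢
  have h4 : (M.card : ℝ) ≤ 2 * Z + 2 * (S.p * S.c) := by
    have : M.card ≤ 2 * Z + 2 * (S.p * S.c) := by omega
    exact_mod_cast this
  have h5 : (S.p : ℝ) * S.M ≤ α * (Z + S.p * S.c) := by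
    have h6 : α * (M.card : ℝ) ≤ α * (2 * Z + 2 * (S.p * S.c)) := mul_le_mul_of_nonneg_left h4 hα.le
    push_cast at h1
    nlinarith
  have h7 : (S.p : ℝ) * S.M / α ≤ Z + S.p * S.c := by
    rw [div_le_iff₀ hα]
    linarith
  have h8 : (S.p : ℝ) * S.c ≤ S.p * S.M / ρ := by
    rw [le_div_iff₀ hρ]
    have h9 : (S.p : ℝ) * (ρ * S.c) ≤ S.p * S.M := mul_le_mul_of_nonneg_left hc (Nat.cast_nonneg _)
    linarith
  have h10 : (S.p : ℝ) * S.M * (1 / α - 1 / ρ) = S.p * S.M / α - S.p * S.M / ρ := by ring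
  rw [h10]
  linarith

end Pool.Agent.Work.MP_eef58c_lc.TG
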