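import Pool.Agent.Work.MP_eef58c_lc.TG.Asm
import Pool.Agent.Work.MP_eef58c_lc.TG.SuccC

set_option autoImplicit false

/-!
# MP_eef58c_lc, TG, module MainC (S-M): maximum cardinality matching

`α' = max α 1 < 1 + 1/√2`, `ρ` between `α'` and `1 + 1/√2`, `p = 1`, `θ = 1/α' - 1/ρ > 0`, `F .. X = card X`: `asm` with `succ_card` (`hF` is `rfl`). `nodup_strm`, `bip_strm`. An algorithm which
succeeds for `α` succeeds for `α'` (`card M ≥ 0`), and `toOuterMeasure` is monotone.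
-/

namespace Pool.Agent.Work.MP_eef58c_lc.TG

open Finset

theorem main_card (α δ C : ℝ) (κ : ℕ) (hα : α < 1 + 1 / √2) (hδ : 0 < δ) : ∃ n₀ : ℕ, ∀ n ≥ n₀, ∀ s : ℕ,
    (s : ℝ) ≤ C * n * Real.log n ^ κ → ∀ μ : PMF (Alg n s), ∃ l : List (Sym2 (Fin n)),
      l.Nodup ∧ (∃ X : Finset (Fin n), ∀ e ∈ l, ∃ u ∈ X, ∃ v, v ∉ X ∧ e = s(u, v)) ∧
      μ.toOuterMeasure {A | A.Succeeds α l (fun S => (S.card : ℝ))} ≤ ENNReal.ofReal δ := by
  obtain ⟨ρ, h1, h2⟩ := exists_between (show max α 1 < 1 + 1 / √2 by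
    refine max_lt hα ?_
    have h3 : (0 : ℝ) < 1 / √2 := by positivity
    linarith)
  have hα0 : (0 : ℝ) < max α 1 := lt_of_lt_of_le one_pos (le_max_right _ _)
  have hρ1 : 1 ≤ ρ := (le_max_right α 1).trans h1.le
  have hρ0 : 0 < ρ := lt_of_lt_of_le one_pos hρ1
  have hθ : (0 : ℝ) < 1 / max α 1 - 1 / ρ := sub_pos.2 (one_div_lt_one_div_of_lt hα0 h1)
  obtain ⟨n₀, hn₀⟩ := asm (ρ := ρ) hρ1 h2 (p := 1) le_rfl (α := max α 1)
    (θ := 1 / max α 1 - 1 / ρ) hθ hδ C κ (fun K _ _ S n ι a β X => (X.card : ℝ))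
    (fun K _ _ S n ι _ _ _ a a' β l _ X _ => rfl)
    (fun K _ _ S n s ι A hS hι _ hp hc _ _ _ a β hA => by
      have h3 := succ_card hS hι A hα0 hρ0 hc a β hA
      rw [hp] at h3
      refine le_trans (le_of_eq ?_) h3
      ring)
  refine ⟨n₀, fun n hn s hs μ => ?_⟩
  obtain ⟨K, _, _, S, ι, a, β, hS, hι, _, hμ⟩ := hn₀ n hn s hs μ
  refine ⟨S.strm ι a β S.L, nodup_strm hS hι a β S.L, bip_strm hS hι a β S.L, le_trans ?_ hμ⟩
  refine μ.toOuterMeasure.mono ?_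
  rintro A ⟨M, hM, hMm, hbest⟩
  refine ⟨M, hM, hMm, fun M' hM' hMm' => (hbest M' hM' hMm').trans ?_⟩
  exact mul_le_mul_of_nonneg_right (le_max_left _ _) (Nat.cast_nonneg _)

end Pool.Agent.Work.MP_eef58c_lc.TG
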