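import Pool.Agent.Work.MP_eef58c_lc.TG.MrgNp

set_option autoImplicit false

/-!
# MP_eef58c_lc, TG, module MrgCov (M): the covers of a merge

Phases `j < P.J + Q.J` of `Blk.merge G P Q` are those of `(P.sum Q).prod G.X` (labels fixed): an edge of `P` (`j < P.J`) with label `x`, or an edge
of `Q` for the hidden vector `sh a P.J` and the phase `j - P.J` (`a j = sh a P.J (j - P.J)`), label `x`. Phase `P.J + Q.J`: `mergeNp_some`.
Write `v = a (P.J + Q.J)`; every label is in `I v`, `J v` or `Z v` (`gmem`).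
`merge_cov0` (edge not special, wanted: an end in `act` or in `C0`):
* `P`-edge, label in `J`: `P.cov0`: an end in `act P` (then the vertex is in `act`) or in `C0 P`; label in `I`: `P.cov1`; label in `Z`: `P.cov0`, `C0 P ∪ act P`.
* `Q`-edge: label in `J`: `Q.cov1`; label in `I` or `Z`: `Q.cov0`, `C0 Q ∪ act Q`.
* new edge `(inl u, x) - (inr b, φ w s x)`, `w ≠ v`, `x ∈ I w`: `x ∈ J v`: the group vertex is in `act`; `x ∈ I v`: by `G.OK.ind` (`v ≠ w`) the partner's label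
  `y` is not in `J v`, so `y ∈ I v` or `y ∈ Z v` and `(inr b, y)` is in `C0` (`b ∈ act Q`); `x ∈ Z v`: `u ∈ act P`, `(inl u, x) ∈ C0`.
`merge_cov1`: the same for `P`- and `Q`-edges except label in `J`: `P.cov1` resp. `Q.cov0` (`C0 Q ∪ act Q`); new edge: the partner `(inr b, y)` is in `C1`
whatever `y` is.
`merge_St0`, `merge_St1`: `St P ⊆ C0 P, C1 P` and `St Q ⊆ C0 Q, C1 Q`, case distinction on the label.
-/

namespace Pool.Agent.Work.MP_eef58c_lc.TG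

open Finset

variable {K : Type} {R : ℕ}

private theorem act_inl {G : Gad K R} {P Q : Blk K} (a : ℕ → K) (u : P.V) (x : G.X) :
    ((Sum.inl u, x) : (P.V ⊕ Q.V) × G.X) ∈ (Blk.merge G P Q).act a ↔ u ∈ P.act a ∧ x ∈ G.J (a (P.J + Q.J)) := by
  change _ ∈ (P.act a).disjSum ∅ ×ˢ G.J (a (P.J + Q.J)) ↔ _
  rw [mem_product, inl_mem_disjSum]

private theorem C0_inl {G : Gad K R} {P Q : Blk K} (a : ℕ → K) (u : P.V) (x : G.X) :
    ((Sum.inl u, x) : (P.V ⊕ Q.V) × G.X) ∈ (Blk.merge G P Q).C0 a ↔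
      (u ∈ P.C0 a ∧ x ∈ G.J (a (P.J + Q.J))) ∨ (u ∈ P.C1 a ∧ x ∈ G.I (a (P.J + Q.J))) ∨
        ((u ∈ P.C0 a ∨ u ∈ P.act a) ∧ x ∈ G.Z (a (P.J + Q.J))) := by
  change _ ∈ ((P.C0 a).disjSum (Q.C1 (sh a P.J)) ×ˢ G.J (a (P.J + Q.J)) ∪
    ((P.C1 a).disjSum (Q.C0 (sh a P.J) ∪ Q.act (sh a P.J)) ×ˢ G.I (a (P.J + Q.J)) ∪
      (P.C0 a ∪ P.act a).disjSum (Q.C0 (sh a P.J) ∪ Q.act (sh a P.J)) ×ˢ G.Z (a (P.J + Q.J)))) ↔ _
  rw [mem_union, mem_union, mem_product, mem_product, mem_product]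
  simp only [inl_mem_disjSum, mem_union]

private theorem C0_inr {G : Gad K R} {P Q : Blk K} (a : ℕ → K) (u : Q.V) (x : G.X) :
    ((Sum.inr u, x) : (P.V ⊕ Q.V) × G.X) ∈ (Blk.merge G P Q).C0 a ↔
      (u ∈ Q.C1 (sh a P.J) ∧ x ∈ G.J (a (P.J + Q.J))) ∨
        ((u ∈ Q.C0 (sh a P.J) ∨ u ∈ Q.act (sh a P.J)) ∧ x ∈ G.I (a (P.J + Q.J))) ∨
        ((u ∈ Q.C0 (sh a P.J) ∨ u ∈ Q.act (sh a P.J)) ∧ x ∈ G.Z (a (P.J + Q.J))) := by
  change _ ∈ ((P.C0 a).disjSum (Q.C1 (sh a P.J)) ×ˢ G.J (a (P.J + Q.J)) ∪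
    ((P.C1 a).disjSum (Q.C0 (sh a P.J) ∪ Q.act (sh a P.J)) ×ˢ G.I (a (P.J + Q.J)) ∪
      (P.C0 a ∪ P.act a).disjSum (Q.C0 (sh a P.J) ∪ Q.act (sh a P.J)) ×ˢ G.Z (a (P.J + Q.J)))) ↔ _
  rw [mem_union, mem_union, mem_product, mem_product, mem_product]
  simp only [inr_mem_disjSum, mem_union]

private theorem C1_inl {G : Gad K R} {P Q : Blk K} (a : ℕ → K) (u : P.V) (x : G.X) :
    ((Sum.inl u, x) : (P.V ⊕ Q.V) × G.X) ∈ (Blk.merge G P Q).C1 a ↔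
      (u ∈ P.C1 a ∧ x ∈ G.J (a (P.J + Q.J))) ∨ (u ∈ P.C1 a ∧ x ∈ G.I (a (P.J + Q.J))) ∨
        ((u ∈ P.C0 a ∨ u ∈ P.act a) ∧ x ∈ G.Z (a (P.J + Q.J))) := by
  change _ ∈ ((P.C1 a).disjSum (Q.C0 (sh a P.J) ∪ Q.act (sh a P.J)) ×ˢ G.J (a (P.J + Q.J)) ∪
    ((P.C1 a).disjSum (Q.C0 (sh a P.J) ∪ Q.act (sh a P.J)) ×ˢ G.I (a (P.J + Q.J)) ∪
      (P.C0 a ∪ P.act a).disjSum (Q.C0 (sh a P.J) ∪ Q.act (sh a P.J)) ×ˢ G.Z (a (P.J + Q.J)))) ↔ _
  rw [mem_union, mem_union, mem_product, mem_product, mem_product]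
  simp only [inl_mem_disjSum, mem_union]

private theorem C1_inr {G : Gad K R} {P Q : Blk K} (a : ℕ → K) (u : Q.V) (x : G.X) :
    ((Sum.inr u, x) : (P.V ⊕ Q.V) × G.X) ∈ (Blk.merge G P Q).C1 a ↔
      u ∈ Q.C0 (sh a P.J) ∨ u ∈ Q.act (sh a P.J) := by
  have hx := gmem G (a (P.J + Q.J)) x
  change _ ∈ ((P.C1 a).disjSum (Q.C0 (sh a P.J) ∪ Q.act (sh a P.J)) ×ˢ G.J (a (P.J + Q.J)) ∪
    ((P.C1 a).disjSum (Q.C0 (sh a P.J) ∪ Q.act (sh a P.J)) ×ˢ G.I (a (P.J + Q.J)) ∪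
      (P.C0 a ∪ P.act a).disjSum (Q.C0 (sh a P.J) ∪ Q.act (sh a P.J)) ×ˢ G.Z (a (P.J + Q.J)))) ↔ _
  rw [mem_union, mem_union, mem_product, mem_product, mem_product]
  simp only [inr_mem_disjSum, mem_union]
  tauto

private theorem par_cases {G : Gad K R} {P Q : Blk K} (hP : P.OK) (hQ : Q.OK) (hv : P.v = R * Q.v)
    (a : ℕ → K) (j : ℕ) (g h : (P.V ⊕ Q.V) × G.X) (c : K) (H : (Blk.merge G P Q).par a j g c = some h) :
    (∃ u u' x, j < P.J ∧ g = (Sum.inl u, x) ∧ h = (Sum.inl u', x) ∧ P.par a j u c = some u') ∨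
    (∃ u u' x, P.J ≤ j ∧ g = (Sum.inr u, x) ∧ h = (Sum.inr u', x) ∧
      Q.par (sh a P.J) (j - P.J) u c = some u') ∨
    (j = P.J + Q.J ∧ ∃ u b s x, u ∈ P.act a ∧ b ∈ Q.act (sh a P.J) ∧ x ∈ G.I c ∧
      g = (Sum.inl u, x) ∧ h = (Sum.inr b, G.φ c s x)) := by
  obtain ⟨g1, x⟩ := g
  change (if j < P.J + Q.J then
      (if j < P.J then Sum.elim (fun u => (P.par a j u c).map Sum.inl) (fun _ => none) g1
        else Sum.elim (fun _ => none) (fun u => (Q.par (sh a P.J) (j - P.J) u c).map Sum.inr) g1).map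
          (fun h => ((h, x) : (P.V ⊕ Q.V) × G.X))
    else if j = P.J + Q.J then mergeNp G P Q a (g1, x) c else none) = some h at H
  split_ifs at H with h1 h2 h3
  · left
    obtain ⟨w, hw, rfl⟩ := Option.map_eq_some_iff.1 H
    cases g1 with
    | inl u =>
      obtain ⟨u', hu', rfl⟩ := Option.map_eq_some_iff.1 hw
      exact ⟨u, u', x, h2, rfl, rfl, hu'⟩
    | inr u => exact absurd hw (by simp)
  · right; left
    obtain ⟨w, hw, rfl⟩ := Option.map_eq_some_iff.1 H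
    cases g1 with
    | inl u => exact absurd hw (by simp)
    | inr u =>
      obtain ⟨u', hu', rfl⟩ := Option.map_eq_some_iff.1 hw
      exact ⟨u, u', x, not_lt.1 h2, rfl, rfl, hu'⟩
  · right; right
    obtain ⟨u, b, s, hu, hb, _, hg, hx, rfl⟩ := (mergeNp_some hP hQ hv a _ h c).1 H
    exact ⟨h3, u, b, s, x, hu, hb, hx, Prod.ext hg rfl, rfl⟩

theorem merge_cov0 {G : Gad K R} (hG : G.OK) {P Q : Blk K} (hP : P.OK) (hQ : Q.OK) (hv : P.v = R * Q.v) :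
    ∀ a j g c h, (Blk.merge G P Q).par a j g c = some h → c ≠ a j →
      g ∈ (Blk.merge G P Q).act a ∨ h ∈ (Blk.merge G P Q).act a ∨
        g ∈ (Blk.merge G P Q).C0 a ∨ h ∈ (Blk.merge G P Q).C0 a := by
  intro a j g c h H hc
  rcases par_cases hP hQ hv a j g h c H with ⟨u, u', x, _, rfl, rfl, hu⟩ | ⟨u, u', x, hj, rfl, rfl, hu⟩ |
    ⟨hj, u, b, s, x, hu, hb, hx, rfl, rfl⟩
  · have h0 := hP.cov0 a j u c u' hu hc
    have h1 := hP.cov1 a j u c u' hu hc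
    have hx := gmem G (a (P.J + Q.J)) x
    refine (or_congr (act_inl a u x) (or_congr (act_inl a u' x) (or_congr (C0_inl a u x) (C0_inl a u' x)))).2 ?_
    rcases hx with hx | hx | hx
    · rcases h1 with h1 | h1
      · exact Or.inr (Or.inr (Or.inl (Or.inr (Or.inl ⟨h1, hx⟩))))
      · exact Or.inr (Or.inr (Or.inr (Or.inr (Or.inl ⟨h1, hx⟩))))
    · rcases h0 with h0 | h0 | h0 | h0
      · exact Or.inl ⟨h0, hx⟩
      · exact Or.inr (Or.inl ⟨h0, hx⟩)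
      · exact Or.inr (Or.inr (Or.inl (Or.inl ⟨h0, hx⟩)))
      · exact Or.inr (Or.inr (Or.inr (Or.inl ⟨h0, hx⟩)))
    · rcases h0 with h0 | h0 | h0 | h0
      · exact Or.inr (Or.inr (Or.inl (Or.inr (Or.inr ⟨Or.inr h0, hx⟩))))
      · exact Or.inr (Or.inr (Or.inr (Or.inr (Or.inr ⟨Or.inr h0, hx⟩))))
      · exact Or.inr (Or.inr (Or.inl (Or.inr (Or.inr ⟨Or.inl h0, hx⟩))))
      · exact Or.inr (Or.inr (Or.inr (Or.inr (Or.inr ⟨Or.inl h0, hx⟩))))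
  · have hc' : c ≠ sh a P.J (j - P.J) := by
      unfold sh
      rwa [Nat.add_sub_cancel' hj]
    have h0 := hQ.cov0 _ _ u c u' hu hc'
    have h1 := hQ.cov1 _ _ u c u' hu hc'
    have hx := gmem G (a (P.J + Q.J)) x
    refine Or.inr (Or.inr ((or_congr (C0_inr a u x) (C0_inr a u' x)).2 ?_))
    rcases hx with hx | hx | hx
    · rcases h0 with h0 | h0 | h0 | h0
      · exact Or.inl (Or.inr (Or.inl ⟨Or.inr h0, hx⟩))
      · exact Or.inr (Or.inr (Or.inl ⟨Or.inr h0, hx⟩))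
      · exact Or.inl (Or.inr (Or.inl ⟨Or.inl h0, hx⟩))
      · exact Or.inr (Or.inr (Or.inl ⟨Or.inl h0, hx⟩))
    · rcases h1 with h1 | h1
      · exact Or.inl (Or.inl ⟨h1, hx⟩)
      · exact Or.inr (Or.inl ⟨h1, hx⟩)
    · rcases h0 with h0 | h0 | h0 | h0
      · exact Or.inl (Or.inr (Or.inr ⟨Or.inr h0, hx⟩))
      · exact Or.inr (Or.inr (Or.inr ⟨Or.inr h0, hx⟩))
      · exact Or.inl (Or.inr (Or.inr ⟨Or.inl h0, hx⟩))
      · exact Or.inr (Or.inr (Or.inr ⟨Or.inl h0, hx⟩))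
  · subst hj
    have h1 := gmem G (a (P.J + Q.J)) x
    have h2 := gmem G (a (P.J + Q.J)) (G.φ c s x)
    rcases h1 with h1 | h1 | h1
    · rcases h2 with h2 | h2 | h2
      · exact Or.inr (Or.inr (Or.inr ((C0_inr a b _).2 (Or.inr (Or.inl ⟨Or.inr hb, h2⟩)))))
      · exact absurd h2 (hG.ind (a (P.J + Q.J)) c s x (Ne.symm hc) h1 hx)
      · exact Or.inr (Or.inr (Or.inr ((C0_inr a b _).2 (Or.inr (Or.inr ⟨Or.inr hb, h2⟩)))))
    · exact Or.inl ((act_inl a u x).2 ⟨hu, h1⟩)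
    · exact Or.inr (Or.inr (Or.inl ((C0_inl a u x).2 (Or.inr (Or.inr ⟨Or.inr hu, h1⟩)))))

theorem merge_cov1 {G : Gad K R} (hG : G.OK) {P Q : Blk K} (hP : P.OK) (hQ : Q.OK) (hv : P.v = R * Q.v) :
    ∀ a j g c h, (Blk.merge G P Q).par a j g c = some h → c ≠ a j →
      g ∈ (Blk.merge G P Q).C1 a ∨ h ∈ (Blk.merge G P Q).C1 a := by
  intro a j g c h H hc
  rcases par_cases hP hQ hv a j g h c H with ⟨u, u', x, _, rfl, rfl, hu⟩ | ⟨u, u', x, hj, rfl, rfl, hu⟩ |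
    ⟨hj, u, b, s, x, hu, hb, hx, rfl, rfl⟩
  · have h0 := hP.cov0 a j u c u' hu hc
    have h1 := hP.cov1 a j u c u' hu hc
    have hx := gmem G (a (P.J + Q.J)) x
    refine (or_congr (C1_inl a u x) (C1_inl a u' x)).2 ?_
    rcases hx with hx | hx | hx
    · rcases h1 with h1 | h1
      · exact Or.inl (Or.inr (Or.inl ⟨h1, hx⟩))
      · exact Or.inr (Or.inr (Or.inl ⟨h1, hx⟩))
    · rcases h1 with h1 | h1
      · exact Or.inl (Or.inl ⟨h1, hx⟩)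
      · exact Or.inr (Or.inl ⟨h1, hx⟩)
    · rcases h0 with h0 | h0 | h0 | h0
      · exact Or.inl (Or.inr (Or.inr ⟨Or.inr h0, hx⟩))
      · exact Or.inr (Or.inr (Or.inr ⟨Or.inr h0, hx⟩))
      · exact Or.inl (Or.inr (Or.inr ⟨Or.inl h0, hx⟩))
      · exact Or.inr (Or.inr (Or.inr ⟨Or.inl h0, hx⟩))
  · have hc' : c ≠ sh a P.J (j - P.J) := by
      unfold sh
      rwa [Nat.add_sub_cancel' hj]
    have h0 := hQ.cov0 _ _ u c u' hu hc'
    refine (or_congr (C1_inr a u x) (C1_inr a u' x)).2 ?_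
    tauto
  · exact Or.inr ((C1_inr a b _).2 (Or.inr hb))

theorem merge_St0 {G : Gad K R} {P Q : Blk K} (hP : P.OK) (hQ : Q.OK) (a : ℕ → K) :
    (Blk.merge G P Q).St a ⊆ (Blk.merge G P Q).C0 a := by
  intro g hg
  obtain ⟨g1, x⟩ := g
  change _ ∈ ((P.St a).disjSum (Q.St (sh a P.J)) ×ˢ univ ∪
    ((∅ : Finset P.V).disjSum (Q.act (sh a P.J)) ×ˢ G.I (a (P.J + Q.J)) ∪
      (P.act a).disjSum (Q.act (sh a P.J)) ×ˢ G.Z (a (P.J + Q.J)))) at hg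
  rw [mem_union, mem_union, mem_product, mem_product, mem_product] at hg
  have hx := gmem G (a (P.J + Q.J)) x
  cases g1 with
  | inl u =>
    simp only [inl_mem_disjSum, notMem_empty] at hg
    have h0 : u ∈ P.St a → u ∈ P.C0 a := fun h => hP.St0 a h
    have h1 : u ∈ P.St a → u ∈ P.C1 a := fun h => hP.St1 a h
    refine (C0_inl a u x).2 ?_
    tauto
  | inr u =>
    simp only [inr_mem_disjSum] at hg
    have h0 : u ∈ Q.St (sh a P.J) → u ∈ Q.C0 (sh a P.J) := fun h => hQ.St0 _ h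
    have h1 : u ∈ Q.St (sh a P.J) → u ∈ Q.C1 (sh a P.J) := fun h => hQ.St1 _ h
    refine (C0_inr a u x).2 ?_
    tauto

theorem merge_St1 {G : Gad K R} {P Q : Blk K} (hP : P.OK) (hQ : Q.OK) (a : ℕ → K) :
    (Blk.merge G P Q).St a ⊆ (Blk.merge G P Q).C1 a := by
  intro g hg
  obtain ⟨g1, x⟩ := g
  change _ ∈ ((P.St a).disjSum (Q.St (sh a P.J)) ×ˢ univ ∪
    ((∅ : Finset P.V).disjSum (Q.act (sh a P.J)) ×ˢ G.I (a (P.J + Q.J)) ∪
      (P.act a).disjSum (Q.act (sh a P.J)) ×ˢ G.Z (a (P.J + Q.J)))) at hg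
  rw [mem_union, mem_union, mem_product, mem_product, mem_product] at hg
  have hx := gmem G (a (P.J + Q.J)) x
  cases g1 with
  | inl u =>
    simp only [inl_mem_disjSum, notMem_empty] at hg
    have h0 : u ∈ P.St a → u ∈ P.C0 a := fun h => hP.St0 a h
    have h1 : u ∈ P.St a → u ∈ P.C1 a := fun h => hP.St1 a h
    refine (C1_inl a u x).2 ?_
    tauto
  | inr u =>
    simp only [inr_mem_disjSum] at hg
    have h0 : u ∈ Q.St (sh a P.J) → u ∈ Q.C0 (sh a P.J) := fun h => hQ.St0 _ h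
    refine (C1_inr a u x).2 ?_
    tauto

end Pool.Agent.Work.MP_eef58c_lc.TG
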