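import Pool.Agent.Work.MP_eef58c_lc.TG.Defs

set_option autoImplicit false

/-!
# MP_eef58c_lc, TG, module Pair (S): the chosen injection

`A.card = (B ×ˢ (univ : Finset (Fin R))).card`, so there is an equivalence of the two finsets (`Finset.equivOfCardEq`, or a bijection from
`Finset.card_eq_card...`); `e u = some (equiv u)` for `u ∈ A`, `none` otherwise (classical). Then `pair_spec` by `dif_pos` and
`Exists.choose_spec`.
-/

namespace Pool.Agent.Work.MP_eef58c_lc.TG

open Finset

theorem pair_spec {α β : Type} (R : ℕ) (A : Finset α) (B : Finset β) (h : A.card = R * B.card) :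
    IsPair R A B (pair R A B) := by
  classical
  have hcard : A.card = (B ×ˢ (univ : Finset (Fin R))).card := by
    rw [card_product, card_univ, Fintype.card_fin, h, mul_comm]
  have hex : ∃ e, IsPair R A B e := by
    let E := Finset.equivOfCardEq hcard
    refine ⟨fun u => if hu : u ∈ A then some (E ⟨u, hu⟩ : β × Fin R) else none, ?_, ?_, ?_⟩
    · intro u hu
      simp only [dif_neg hu]
    · intro u hu
      refine ⟨E ⟨u, hu⟩, by simp only [dif_pos hu], ?_⟩
      exact (mem_product.1 (E ⟨u, hu⟩).2).1
    · intro u hu u' hu' he
      simp only [dif_pos hu, dif_pos hu', Option.some.injEq] at he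
      have h1 := E.injective (Subtype.ext he)
      exact congrArg Subtype.val h1
  unfold pair
  rw [dif_pos hex]
  exact hex.choose_spec

end Pool.Agent.Work.MP_eef58c_lc.TG
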