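import Pool.Agent.Work.MP_eef58c_lc.TG.SchA
import Pool.Agent.Work.MP_eef58c_lc.TG.SchC
import Pool.Agent.Work.MP_eef58c_lc.TG.Pair
import Pool.Agent.Work.MP_eef58c_lc.TG.GCard

set_option autoImplicit false

/-!
# MP_eef58c_lc, TG, module MrgNp (M): the scheme of a merge

`mergeNp_some` is a reformulation of the definition: the new edges are `(inl u, x) - (inr b, φ c s x)` with `u ∈ act P`, `(b, s)` the pair of
`u` (so `b ∈ act Q`), `x ∈ I c` (use `pair_spec`: `(P.act a).card = P.v = R * Q.v = R * (Q.act (sh a P.J)).card`).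
`merge_sch_ok`: `ext_ok` applied to `prod_ok (sum_ok hP.ok hQ.ok) G.X`:
* `h1`: `act_loc` of `P` and of `Q` (`a, a'` agree below `P.J + Q.J`, so `sh a P.J, sh a' P.J` agree below `Q.J`).
* `h2`: `act_sd`, `P.sa = !Q.sa`.
* `h3`: `s((inl u, x), (inr b, y)) = s((inl u', x'), (inr b', y'))` gives `u = u'`, `x = x'`, `b = b'`, `y = y'` (`Sym2.eq_iff`, the swapped case is
  `inl = inr`), the pairs of `u` and `u'` are equal, so `φ c s x = φ c' s x`, and `c = c'` by `G.OK.col`.
* `h4`: old edges join `inl` with `inl` or `inr` with `inr`, new edges join `inl` with `inr`.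
* `h5`: `g = h'` and `h = g'` are impossible (`inl`/`inr`); `h = h'`: `b = b'`, `φ v s x = φ v s' x'` with `v = a (P.J + Q.J)`, `G.OK.inj`: `s = s'`,
  `x = x'`, so the pairs agree and `u = u'` (`IsPair`).
* `h6`: `P.OK.free`, `Q.OK.free`: vertices of old special edges (of `P` or `Q`, label arbitrary) are not in `act P`, `act Q`.
* `h7`: the set is `{(inl u, x) : u ∈ act P, x ∈ I v}`, `P.v * ι` elements.
-/

namespace Pool.Agent.Work.MP_eef58c_lc.TG

open Finset

variable {K : Type} {R : ℕ}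

theorem mergeNp_some {G : Gad K R} {P Q : Blk K} (hP : P.OK) (hQ : Q.OK) (hv : P.v = R * Q.v) (a : ℕ → K)
    (g h : (P.V ⊕ Q.V) × G.X) (c : K) :
    mergeNp G P Q a g c = some h ↔ ∃ u b s, u ∈ P.act a ∧ b ∈ Q.act (sh a P.J) ∧
      pair R (P.act a) (Q.act (sh a P.J)) u = some (b, s) ∧ g.1 = Sum.inl u ∧ g.2 ∈ G.I c ∧
      h = (Sum.inr b, G.φ c s g.2) := by
  have hp : IsPair R (P.act a) (Q.act (sh a P.J)) (pair R (P.act a) (Q.act (sh a P.J))) :=
    pair_spec R _ _ (by rw [hP.card_act, hQ.card_act, hv])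
  obtain ⟨g1, x⟩ := g
  rcases g1 with u | u
  · constructor
    · intro h1
      simp only [mergeNp, Sum.elim_inl, Option.bind_eq_some_iff] at h1
      obtain ⟨⟨b, s⟩, h2, h3⟩ := h1
      by_cases hx : x ∈ G.I c
      · rw [if_pos hx] at h3
        have hu : u ∈ P.act a := by
          by_contra hu
          rw [hp.1 u hu] at h2
          exact absurd h2 (by simp)
        obtain ⟨q, hq, hqB⟩ := hp.2.1 u hu
        rw [h2, Option.some.injEq] at hq
        refine ⟨u, b, s, hu, ?_, h2, rfl, hx, (Option.some.inj h3).symm⟩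
        rw [← hq] at hqB
        exact hqB
      · rw [if_neg hx] at h3
        exact absurd h3 (by simp)
    · rintro ⟨u', b, s, hu, hb, h2, h3, h4, rfl⟩
      have h5 : u = u' := Sum.inl.inj h3
      subst h5
      have h4' : x ∈ G.I c := h4
      simp only [mergeNp, Sum.elim_inl, h2, Option.bind_some, if_pos h4']
  · constructor
    · intro h1
      simp only [mergeNp, Sum.elim_inr] at h1
      exact absurd h1 (by simp)
    · rintro ⟨u', b, s, hu, hb, h2, h3, h4, rfl⟩
      exact absurd h3 (by simp)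

/-- the edges of the old phases join vertices of the same summand -/
private lemma old_edge {G : Gad K R} {P Q : Blk K} {a : ℕ → K} {j : ℕ} {g h : (P.V ⊕ Q.V) × G.X} {c : K}
    (he : ((P.toSch.sum Q.toSch).prod G.X).par a j g c = some h) :
    (∃ u w, g.1 = Sum.inl u ∧ h.1 = Sum.inl w ∧ j < P.J ∧ P.par a j u c = some w) ∨
    (∃ u w, g.1 = Sum.inr u ∧ h.1 = Sum.inr w ∧ ¬ j < P.J ∧
      Q.par (sh a P.J) (j - P.J) u c = some w) := by
  obtain ⟨g1, x⟩ := g
  obtain ⟨h1, h2, h3⟩ := Option.map_eq_some_iff.1 he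
  subst h3
  have h2' : (if j < P.J then Sum.elim (fun u => (P.par a j u c).map Sum.inl) (fun _ => none) g1
    else Sum.elim (fun _ => none) (fun u => (Q.par (sh a P.J) (j - P.J) u c).map Sum.inr) g1) =
      some h1 := h2
  by_cases hj : j < P.J
  · rw [if_pos hj] at h2'
    rcases g1 with u | u
    · rw [Sum.elim_inl] at h2'
      obtain ⟨w, hw, hw'⟩ := Option.map_eq_some_iff.1 h2'
      exact Or.inl ⟨u, w, rfl, hw'.symm, hj, hw⟩
    · rw [Sum.elim_inr] at h2'
      exact absurd h2' (by simp)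
  · rw [if_neg hj] at h2'
    rcases g1 with u | u
    · rw [Sum.elim_inl] at h2'
      exact absurd h2' (by simp)
    · rw [Sum.elim_inr] at h2'
      obtain ⟨w, hw, hw'⟩ := Option.map_eq_some_iff.1 h2'
      exact Or.inr ⟨u, w, rfl, hw'.symm, hj, hw⟩

theorem merge_sch_ok {G : Gad K R} (hG : G.OK) {P Q : Blk K} (hP : P.OK) (hQ : Q.OK) (hs : P.sa = !Q.sa)
    (hv : P.v = R * Q.v) : (Blk.merge G P Q).toSch.OK := by
  classical
  have hpair : ∀ a, IsPair R (P.act a) (Q.act (sh a P.J)) (pair R (P.act a) (Q.act (sh a P.J))) :=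
    fun a => pair_spec R _ _ (by rw [hP.card_act, hQ.card_act, hv])
  have key := mergeNp_some (G := G) hP hQ hv
  refine ext_ok (prod_ok (sum_ok hP.ok hQ.ok) G.X) (mergeNp G P Q) (P.v * G.ι) ?_ ?_ ?_ ?_ ?_ ?_ ?_
  · intro a a' h
    have h' : ∀ i < P.J + Q.J, a i = a' i := h
    have e1 : P.act a = P.act a' := hP.act_loc a a' fun i hi => h' i (by omega)
    have e2 : Q.act (sh a P.J) = Q.act (sh a' P.J) :=
      hQ.act_loc _ _ fun i hi => h' (P.J + i) (by omega)
    funext g c
    unfold mergeNp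
    rw [e1, e2]
  · intro a g c h he
    obtain ⟨u, b, s, hu, hb, -, hg, -, rfl⟩ := (key a g h c).1 he
    have e1 : P.sd u = P.sa := hP.act_sd a u hu
    have e2 : Q.sd b = Q.sa := hQ.act_sd _ b hb
    show Sum.elim P.sd Q.sd (Sum.inr b) = !(Sum.elim P.sd Q.sd g.1)
    rw [hg, Sum.elim_inr, Sum.elim_inl, e1, e2, hs, Bool.not_not]
  · intro a g g' c c' h h' he he' hss
    obtain ⟨u, b, s, hu, hb, hp, hg, hx, rfl⟩ := (key a g h c).1 he
    obtain ⟨u', b', s', hu', hb', hp', hg', hx', rfl⟩ := (key a g' h' c').1 he'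
    rcases Sym2.eq_iff.1 hss with ⟨h1, h2⟩ | ⟨h1, h2⟩
    · refine ⟨h1, ?_⟩
      subst h1
      have e1 : u = u' := Sum.inl.inj (hg.symm.trans hg')
      subst e1
      rw [hp] at hp'
      have e2 := Option.some.inj hp'
      have e3 : s = s' := congrArg Prod.snd e2
      subst e3
      exact hG.col c c' s g.2 hx hx' (congrArg Prod.snd h2)
    · exfalso
      have := congrArg Prod.fst h1
      rw [hg] at this
      exact absurd this (by simp)
  · intro a j g g' c c' h h' he he' hss
    obtain ⟨u', b', s', hu', hb', hp', hg', hx', rfl⟩ := (key a g' h' c').1 he'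
    rcases Sym2.eq_iff.1 hss with ⟨h1, h2⟩ | ⟨h1, h2⟩
    · subst h1
      subst h2
      rcases old_edge he with ⟨u, w, e1, e2, -⟩ | ⟨u, w, e1, e2, -⟩
      · exact absurd e2 (by simp)
      · rw [hg'] at e1
        exact absurd e1 (by simp)
    · subst h1
      subst h2
      rcases old_edge he with ⟨u, w, e1, e2, -⟩ | ⟨u, w, e1, e2, -⟩
      · exact absurd e1 (by simp)
      · rw [hg'] at e2
        exact absurd e2 (by simp)
  · intro a g g' h h' he he' hcase
    obtain ⟨u, b, s, hu, hb, hp, hg, hx, rfl⟩ := (key a g h _).1 he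
    obtain ⟨u', b', s', hu', hb', hp', hg', hx', rfl⟩ := (key a g' h' _).1 he'
    rcases hcase with h1 | h1 | h1 | h1
    · exact h1
    · exfalso
      rw [h1] at hg
      exact absurd hg (by simp)
    · exfalso
      rw [← h1] at hg'
      exact absurd hg' (by simp)
    · have e1 : b = b' := Sum.inr.inj (congrArg Prod.fst h1)
      have e2 := congrArg Prod.snd h1
      obtain ⟨e3, e4⟩ := hG.inj _ s s' g.2 g'.2 hx hx' e2
      subst e1
      subst e3
      have e5 : u = u' := (hpair a).2.2 u hu u' hu' (hp.trans hp'.symm)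
      subst e5
      exact Prod.ext (hg.trans hg'.symm) e4
  · intro a j g g' h h' he he'
    obtain ⟨u', b', s', hu', hb', hp', hg', hx', rfl⟩ := (key a g' h' _).1 he'
    rcases old_edge he with ⟨u, w, e1, e2, hj, e3⟩ | ⟨u, w, e1, e2, hj, e3⟩
    · obtain ⟨f1, -, f3, -⟩ := hP.free a j u w e3
      refine ⟨?_, ?_, ?_, ?_⟩
      · rintro rfl
        rw [e1] at hg'
        exact f1 (Sum.inl.inj hg' ▸ hu')
      · rintro rfl
        exact absurd e1 (by simp)
      · rintro rfl
        rw [e2] at hg'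
        exact f3 (Sum.inl.inj hg' ▸ hu')
      · rintro rfl
        exact absurd e2 (by simp)
    · have ha : a j = sh a P.J (j - P.J) := by
        show a j = a (P.J + (j - P.J))
        congr 1
        omega
      rw [ha] at e3
      obtain ⟨f1, -, f3, -⟩ := hQ.free (sh a P.J) (j - P.J) u w e3
      refine ⟨?_, ?_, ?_, ?_⟩
      · rintro rfl
        rw [e1] at hg'
        exact absurd hg' (by simp)
      · rintro rfl
        exact f1 (Sum.inr.inj e1 ▸ hb')
      · rintro rfl
        rw [e2] at hg'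
        exact absurd hg' (by simp)
      · rintro rfl
        exact f3 (Sum.inr.inj e2 ▸ hb')
  · intro a
    set v := a ((P.toSch.sum Q.toSch).prod G.X).J with hvdef
    have hset : (univ.filter fun g : (P.V ⊕ Q.V) × G.X => (mergeNp G P Q a g v).isSome) =
        ((P.act a).map ⟨Sum.inl, Sum.inl_injective⟩ ×ˢ G.I v : Finset ((P.V ⊕ Q.V) × G.X)) := by
      ext g
      simp only [mem_filter, mem_univ, true_and, mem_product, mem_map, Function.Embedding.coeFn_mk]
      constructor
      · intro h1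
        obtain ⟨h, hh⟩ := Option.isSome_iff_exists.1 h1
        obtain ⟨u, b, s, hu, hb, hp, hg, hx, -⟩ := (key a g h v).1 hh
        exact ⟨⟨u, hu, hg.symm⟩, hx⟩
      · rintro ⟨⟨u, hu, hg⟩, hx⟩
        obtain ⟨⟨b, s⟩, hp, hb⟩ := (hpair a).2.1 u hu
        exact Option.isSome_iff_exists.2
          ⟨_, (key a g _ v).2 ⟨u, b, s, hu, hb, hp, hg.symm, hx, rfl⟩⟩
    show (univ.filter fun g : (P.V ⊕ Q.V) × G.X => (mergeNp G P Q a g v).isSome).card = _
    rw [hset, card_product, card_map, hP.card_act, hG.card_I]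

end Pool.Agent.Work.MP_eef58c_lc.TG
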