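import Mathlib

set_option autoImplicit false

/-!
# MP_eef58c_lc, TG, module RecS (M-L): one step of the recursion (pure Mathlib)

`S` is a set of pairs `(n, φ)` closed under the rules. `c = 2 - √2` (`0 < c < 1`), `e n = n - n^2 / 2`, `h = 1 / R`, `s = 1 - ρ c`. Identity (because `c^2 - 4 c + 2 = 0`):
`e n + e (c - n) = (1 - n) (1 - c + n)`.
Define `a 0 = 0`, `a (i+1) = a i + (1 - c + a i) h`, `b 0 = 0`, `b (i+1) = (1+h) (b i) + h (1+h) (A (e (c - a i) - h)) + h ((1+h) - ρ (h + c))`. By induction: if `a j ≤ c` for all `j < i`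
then `S (a i) (b i)` (rule `h2` with the partner `m = c - a j`, `ψ = A (e (c - a j) - h)` from `hP`) and `b i ≥ A e (a i) + σ a i`:
 `A`-part: `(1+h) A e(a) + h (1+h) A (e (c-a) - h) ≥ A e(a) + h A (e a + e (c - a)) - h (1+h) A h = A e(a) + h A (1 - a)(1 - c + a) - h (1+h) A h` (`e (c - a) ≥ 0`), and
 `e (a + δ) = e a + δ (1 - a) - δ^2/2 ≤ e a + δ (1 - a)` with `δ = h (1 - c + a)`;
 the rest: `(1+h) σ a + h (s + h - ρ h - (1+h) A h) ≥ σ (a + h (1 - c + a))` iff `s - (ρ - 1) h - (1+h) A h ≥ σ (1 - c)`: hypothesis `hc`.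
Given `n ∈ [0, c]`: `a` is increasing with steps between `(1-c) h` and `h` as long as `a i ≤ c`; let `i` be the last index with `a i ≤ n` (`Nat.find` of the first index with `n < a i`, it exists
because `a i ≥ i (1-c) h` while all earlier ones are `≤ c`; minus one). Then `a j ≤ c` for `j ≤ i`, `n ≤ a i + h`, `e n ≤ e (a i) + h`, and
`b i ≥ A e (a i) + σ a i ≥ (A + σ) e (a i) ≥ (A + σ) (e n - h)` (`e x ≤ x`); conclude with the monotonicity rule `h1`.
-/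

namespace Pool.Agent.Work.MP_eef58c_lc.TG

private noncomputable def sq (c h ρ A : ℝ) : ℕ → ℝ × ℝ
  | 0 => (0, 0)
  | i + 1 => ((sq c h ρ A i).1 + (1 - c + (sq c h ρ A i).1) * h,
      (1 + h) * (sq c h ρ A i).2 +
        h * (1 + h) * (A * ((c - (sq c h ρ A i).1) - (c - (sq c h ρ A i).1) ^ 2 / 2 - h)) +
        h * ((1 + h) - ρ * (h + c)))

private theorem c_facts : (2 - √2) ^ 2 - 4 * (2 - √2) + 2 = 0 ∧ 0 < 2 - √2 ∧ 2 - √2 < 1 := by
  have h1 : √2 ^ 2 = 2 := Real.sq_sqrt (by norm_num)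
  have h2 : 0 ≤ √2 := Real.sqrt_nonneg 2
  refine ⟨by nlinarith, by nlinarith, by nlinarith⟩

private theorem step_ineq {c h ρ σ A a b : ℝ} (hcc : c ^ 2 - 4 * c + 2 = 0) (hc1 : c < 1)
    (hh : 0 < h) (hA : 0 ≤ A)
    (hc : σ * (1 - c) ≤ (1 - ρ * c) - (ρ - 1) * h - (1 + h) * A * h) (ha : 0 ≤ a) (hac : a ≤ c)
    (hb : A * (a - a ^ 2 / 2) + σ * a ≤ b) :
    A * ((a + (1 - c + a) * h) - (a + (1 - c + a) * h) ^ 2 / 2) + σ * (a + (1 - c + a) * h) ≤
      (1 + h) * b + h * (1 + h) * (A * ((c - a) - (c - a) ^ 2 / 2 - h)) +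
        h * ((1 + h) - ρ * (h + c)) := by
  have e1 : 0 ≤ (c - a) - (c - a) ^ 2 / 2 := by nlinarith
  have e2 : (a - a ^ 2 / 2) + ((c - a) - (c - a) ^ 2 / 2) = (1 - a) * (1 - c + a) := by
    linear_combination (-1 / 2) * hcc
  have e3 : 0 ≤ h * h * A * ((c - a) - (c - a) ^ 2 / 2) := by positivity
  have e4 : 0 ≤ A * ((1 - c + a) * h) ^ 2 / 2 := by positivity
  have e5 := mul_le_mul_of_nonneg_left hc hh.le
  have e6 := mul_le_mul_of_nonneg_left hb (by linarith : 0 ≤ 1 + h)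
  have e7 : h * A * ((a - a ^ 2 / 2) + ((c - a) - (c - a) ^ 2 / 2)) =
      h * A * ((1 - a) * (1 - c + a)) := by rw [e2]
  nlinarith [e3, e4, e5, e6, e7]

theorem rec_step {ρ σ A : ℝ} (hρ : 1 ≤ ρ) {R : ℕ} (hR : 1 ≤ R) (hA : 0 ≤ A) (hσ : 0 ≤ σ)
    (hc : σ * (1 - (2 - √2)) ≤ (1 - ρ * (2 - √2)) - (ρ - 1) * (1 / R) - (1 + 1 / R) * A * (1 / R))
    (S : ℝ → ℝ → Prop) (h0 : S 0 0) (h1 : ∀ n n' φ φ', S n φ → n ≤ n' → φ' ≤ φ → S n' φ')
    (h2 : ∀ n m φ ψ, S n φ → S m ψ → S (n + (1 - m) / R) ((1 + 1 / R) * φ + 1 / R * (1 + 1 / R) * ψ +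
      1 / R * ((1 + 1 / R) - ρ * (1 / R + n + m))))
    (hP : ∀ n, 0 ≤ n → n ≤ 2 - √2 → S n (A * (n - n ^ 2 / 2 - 1 / R))) :
    ∀ n, 0 ≤ n → n ≤ 2 - √2 → S n ((A + σ) * (n - n ^ 2 / 2 - 1 / R)) := by
  obtain ⟨hcc, hc0, hc1⟩ := c_facts
  generalize 2 - √2 = c at *
  have hR' : (1 : ℝ) ≤ R := by exact_mod_cast hR
  have hh : 0 < 1 / (R : ℝ) := by positivity
  replace h2 : ∀ n m φ ψ, S n φ → S m ψ → S (n + (1 - m) * (1 / R))
      ((1 + 1 / R) * φ + 1 / R * (1 + 1 / R) * ψ +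
      1 / R * ((1 + 1 / R) - ρ * (1 / R + n + m))) := by
    intro n m φ ψ h3 h4
    have h5 := h2 n m φ ψ h3 h4
    have e : n + (1 - m) / (R : ℝ) = n + (1 - m) * (1 / R) := by ring
    rwa [e] at h5
  generalize 1 / (R : ℝ) = h at *
  have hs1 : ∀ i, (sq c h ρ A (i + 1)).1 = (sq c h ρ A i).1 + (1 - c + (sq c h ρ A i).1) * h :=
    fun i => rfl
  have hs2 : ∀ i, (sq c h ρ A (i + 1)).2 = (1 + h) * (sq c h ρ A i).2 +
        h * (1 + h) * (A * ((c - (sq c h ρ A i).1) - (c - (sq c h ρ A i).1) ^ 2 / 2 - h)) +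
        h * ((1 + h) - ρ * (h + c)) := fun i => rfl
  have hpos : ∀ i : ℕ, 0 ≤ (sq c h ρ A i).1 := by
    intro i
    induction i with
    | zero => exact le_refl 0
    | succ i ih =>
      rw [hs1]
      have : 0 ≤ (1 - c + (sq c h ρ A i).1) * h := mul_nonneg (by linarith) hh.le
      linarith
  have hgrow : ∀ i : ℕ, (i : ℝ) * ((1 - c) * h) ≤ (sq c h ρ A i).1 := by
    intro i
    induction i with
    | zero => simp [sq]
    | succ i ih =>
      rw [hs1]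
      have h3 : 0 ≤ (sq c h ρ A i).1 * h := mul_nonneg (hpos i) hh.le
      push_cast
      nlinarith
  have main : ∀ i : ℕ, (∀ j < i, (sq c h ρ A j).1 ≤ c) → S (sq c h ρ A i).1 (sq c h ρ A i).2 ∧
      A * ((sq c h ρ A i).1 - (sq c h ρ A i).1 ^ 2 / 2) + σ * (sq c h ρ A i).1 ≤
        (sq c h ρ A i).2 := by
    intro i
    induction i with
    | zero =>
      intro _
      refine ⟨h0, ?_⟩
      simp [sq]
    | succ i ih =>
      intro hj
      obtain ⟨i1, i2⟩ := ih fun j hji => hj j (by omega)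
      have hac := hj i (by omega)
      have ha := hpos i
      rw [hs1, hs2]
      refine ⟨?_, step_ineq hcc hc1 hh hA hc ha hac i2⟩
      have h3 := h2 _ _ _ _ i1 (hP (c - (sq c h ρ A i).1) (by linarith) (by linarith))
      have e1 : (sq c h ρ A i).1 + (1 - (c - (sq c h ρ A i).1)) * h =
          (sq c h ρ A i).1 + (1 - c + (sq c h ρ A i).1) * h := by ring
      have e2 : (1 + h) * (sq c h ρ A i).2 + h * (1 + h) *
          (A * (c - (sq c h ρ A i).1 - (c - (sq c h ρ A i).1) ^ 2 / 2 - h)) +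
          h * (1 + h - ρ * (h + (sq c h ρ A i).1 + (c - (sq c h ρ A i).1))) =
          (1 + h) * (sq c h ρ A i).2 + h * (1 + h) *
          (A * (c - (sq c h ρ A i).1 - (c - (sq c h ρ A i).1) ^ 2 / 2 - h)) +
          h * (1 + h - ρ * (h + c)) := by ring
      rw [e1, e2] at h3
      exact h3
  intro n hn hnc
  have hex : ∃ k : ℕ, n < (sq c h ρ A k).1 := by
    have h3 : 0 < (1 - c) * h := mul_pos (by linarith) hh
    obtain ⟨k, hk⟩ := exists_nat_gt (n / ((1 - c) * h))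
    refine ⟨k, lt_of_lt_of_le ?_ (hgrow k)⟩
    rwa [div_lt_iff₀ h3] at hk
  classical
  set k := Nat.find hex with hk
  have hk1 : n < (sq c h ρ A k).1 := Nat.find_spec hex
  have hk2 : ∀ j < k, (sq c h ρ A j).1 ≤ n := fun j hj => not_lt.1 (Nat.find_min hex hj)
  have hk0 : k ≠ 0 := by
    intro h3
    rw [h3] at hk1
    have : (sq c h ρ A 0).1 = 0 := rfl
    linarith
  obtain ⟨i, hi⟩ := Nat.exists_eq_succ_of_ne_zero hk0
  rw [hi] at hk1 hk2
  have hai : (sq c h ρ A i).1 ≤ n := hk2 i (by omega)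
  obtain ⟨m1, m2⟩ := main i fun j hj => (hk2 j (by omega)).trans hnc
  have ha := hpos i
  have hk1' : n < (sq c h ρ A i).1 + (1 - c + (sq c h ρ A i).1) * h := hk1
  generalize (sq c h ρ A i).1 = a at *
  generalize (sq c h ρ A i).2 = b at *
  refine h1 a n b _ m1 hai ?_
  have h4 : n - a ≤ h := by nlinarith
  have h5 : n - n ^ 2 / 2 - h ≤ a - a ^ 2 / 2 := by nlinarith
  have h6 : (A + σ) * (n - n ^ 2 / 2 - h) ≤ (A + σ) * (a - a ^ 2 / 2) :=
    mul_le_mul_of_nonneg_left h5 (by linarith)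
  have h7 : σ * (a - a ^ 2 / 2) ≤ σ * a := mul_le_mul_of_nonneg_left (by nlinarith) hσ
  nlinarith

end Pool.Agent.Work.MP_eef58c_lc.TG
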