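import Pool.Agent.Work.MP_eef58c_lc.TG.SRun

set_option autoImplicit false

/-!
# MP_eef58c_lc, TG, module SBits (M-L): few states know few edges of a phase

Put `a^c = Function.update a l c`, `O β c = A.out (S.strm ι a^c (hb β) S.L)`, `Z β c = (S.bp ι a^c (hb β) (O β c) l c).card`. A `β` is in the set iff there is `C ⊆ K` with `O β c ⊆ (stream of a^c, β)` for
all `c ∈ C` and `s + card K + r ≤ ∑ c ∈ C, Z β c`. For `σ : Fin (2^s)`, `C : Finset K` and `ρ` (a function on the slots `t` with `t.1 ≠ l`) let `B` be the set of those `β` with this `C`, with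
`A.state (S.strm ι a (hb β) (l+1)) = σ` and with the restriction `ρ`. Let `β₀ ∈ B` and `Y = {(l, g, c) : c ∈ C, g ∈ bp for β₀}` (so `s + card K + r ≤ Y.card`). Every `β ∈ B` agrees with `β₀` on `Y`: `O β c = O β₀ c`
by `out_tail`; for `(l, g, c) ∈ Y` there is `e ∈ O β₀ c` with `edg ι a^c (hb β₀) l g i c = some e`; `e ∈ O β c ⊆ stream of (a^c, β)`, so `e = edg ι a^c (hb β) l' g' i' c'` (`mem_strm`), and `edg_inj`
gives `hb β₀ l g c = hb β l g c`. Moreover `β = β₀` on all slots with phase `≠ l`. So (`g8_agree` of Work/MP_eef58c_lc/G8, copy it) `B.card * 2 ^ (Y.card + rest) ≤ 2 ^ (all slots)` with `rest` = number of the slots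
with phase `≠ l`. Sum over the `2 ^ rest` functions `ρ` (`Finset.card_le_mul_card_image` for the restriction map), over the `2 ^ s` states and over the `2 ^ card K` sets `C`:
`#set * 2 ^ (s + card K + r) ≤ 2 ^ s * 2 ^ card K * 2 ^ (all slots)`; cancel.
-/

namespace Pool.Agent.Work.MP_eef58c_lc.TG

open Finset

/-- functions which agree with a fixed function on a set `Y` -/
private theorem g8_agree {κ : Type} [Fintype κ] [DecidableEq κ] (B : Finset (κ → Bool)) (Y : Finset κ) (β₀ : κ → Bool)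
    (h : ∀ β ∈ B, ∀ t ∈ Y, β t = β₀ t) : B.card * 2 ^ Y.card ≤ Fintype.card (κ → Bool) := by
  have h1 : B.card * 2 ^ Y.card = Fintype.card ({β // β ∈ B} × ({t // t ∈ Y} → Bool)) := by
    simp
  rw [h1]
  refine Fintype.card_le_of_injective
    (fun z t => if ht : t ∈ Y then z.2 ⟨t, ht⟩ else z.1.1 t) ?_
  rintro ⟨⟨β, hβ⟩, γ⟩ ⟨⟨β', hβ'⟩, γ'⟩ hz
  have hz' : ∀ t, (if ht : t ∈ Y then γ ⟨t, ht⟩ else β t) = (if ht : t ∈ Y then γ' ⟨t, ht⟩ else β' t) :=
    fun t => congrFun hz t
  have e1 : β = β' := by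
    funext t
    by_cases ht : t ∈ Y
    · rw [h β hβ t ht, h β' hβ' t ht]
    · have := hz' t
      rwa [dif_neg ht, dif_neg ht] at this
  have e2 : γ = γ' := by
    funext t
    have := hz' t.1
    rwa [dif_pos t.2, dif_pos t.2] at this
  subst e1
  subst e2
  rfl

/-- sum over the fibres of a restriction map -/
private theorem fib {κ : Type} [Fintype κ] [DecidableEq κ] (B : Finset (κ → Bool)) (off : Finset κ) (M : ℕ)
    (h : ∀ β₀ ∈ B, (B.filter fun β => ∀ t ∈ off, β t = β₀ t).card * 2 ^ (M + off.card) ≤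
      Fintype.card (κ → Bool)) : B.card * 2 ^ M ≤ Fintype.card (κ → Bool) := by
  let f : (κ → Bool) → ({t // t ∈ off} → Bool) := fun β t => β t.1
  have h1 : B.card = ∑ b ∈ B.image f, (B.filter fun β => f β = b).card :=
    Finset.card_eq_sum_card_image f B
  have h2 : (B.image f).card ≤ 2 ^ off.card := by
    refine (card_le_univ _).trans (le_of_eq ?_)
    simp
  have h3 : ∀ b ∈ B.image f, (B.filter fun β => f β = b).card * 2 ^ (M + off.card) ≤
      Fintype.card (κ → Bool) := by
    intro b hb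
    obtain ⟨β₀, h4, rfl⟩ := mem_image.1 hb
    refine (Nat.mul_le_mul_right _ (card_le_card fun β hβ => ?_)).trans (h β₀ h4)
    rw [mem_filter] at hβ ⊢
    exact ⟨hβ.1, fun t ht => congrFun hβ.2 ⟨t, ht⟩⟩
  have h5 : B.card * 2 ^ (M + off.card) ≤ 2 ^ off.card * Fintype.card (κ → Bool) := by
    rw [h1, sum_mul]
    refine (sum_le_sum h3).trans ?_
    rw [sum_const, smul_eq_mul]
    exact Nat.mul_le_mul_right _ h2
  rw [pow_add, ← mul_assoc, mul_comm (2 ^ off.card)] at h5
  exact Nat.le_of_mul_le_mul_right h5 (by positivity)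

open Classical in
private theorem one {K : Type} [Fintype K] [DecidableEq K] {S : Str K} (hS : S.OK) {n s : ℕ} (A : SAlg n s)
    {ι : ℕ → S.V → Bool → Fin n} (hι : S.Emb ι) (a : ℕ → K) {l : ℕ} (hl : l < S.L) (M : ℕ)
    (σ : Fin (2 ^ s)) (C : Finset K) :
    (univ.filter fun β : Fin S.L × S.V × K → Bool =>
      A.state (S.strm ι a (hb β) (l + 1)) = σ ∧
      (∀ c ∈ C, A.out (S.strm ι (Function.update a l c) (hb β) S.L) ⊆
          (S.strm ι (Function.update a l c) (hb β) S.L).toFinset) ∧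
        M ≤ ∑ c ∈ C, (S.bp ι (Function.update a l c) (hb β)
          (A.out (S.strm ι (Function.update a l c) (hb β) S.L)) l c).card).card * 2 ^ M ≤
      Fintype.card (Fin S.L × S.V × K → Bool) := by
  refine fib _ (univ.filter fun t : Fin S.L × S.V × K => (t.1 : ℕ) ≠ l) M fun β₀ h₀ => ?_
  rw [mem_filter] at h₀
  obtain ⟨-, hσ, hC, hM⟩ := h₀
  set Y : Finset (Fin S.L × S.V × K) := univ.filter fun t => (t.1 : ℕ) = l ∧ t.2.2 ∈ C ∧
    t.2.1 ∈ S.bp ι (Function.update a l t.2.2) (hb β₀)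
      (A.out (S.strm ι (Function.update a l t.2.2) (hb β₀) S.L)) l t.2.2 with hY
  set off : Finset (Fin S.L × S.V × K) := univ.filter fun t => (t.1 : ℕ) ≠ l with hoff
  have hYc : M ≤ Y.card := by
    refine hM.trans ?_
    rw [← card_sigma]
    refine card_le_card_of_injOn (fun z => ((⟨l, hl⟩ : Fin S.L), z.2, z.1)) ?_ ?_
    · rintro ⟨c, g⟩ hz
      have hz2 := mem_sigma.1 (mem_coe.1 hz)
      rw [hY]
      exact mem_coe.2 (mem_filter.2 ⟨mem_univ _, rfl, hz2.1, hz2.2⟩)
    · rintro ⟨c, g⟩ _ ⟨c', g'⟩ _ h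
      have h1 : ((⟨l, hl⟩ : Fin S.L), g, c) = ((⟨l, hl⟩ : Fin S.L), g', c') := h
      rw [Prod.mk.injEq, Prod.mk.injEq] at h1
      obtain ⟨-, rfl, rfl⟩ := h1
      rfl
  have hdj : Disjoint Y off := by
    rw [disjoint_left]
    intro t h1 h2
    exact (mem_filter.1 h2).2 (mem_filter.1 h1).2.1
  refine (Nat.mul_le_mul_left _ (Nat.pow_le_pow_right (by norm_num)
    (show M + off.card ≤ (Y ∪ off).card by
      rw [card_union_of_disjoint hdj]
      omega))).trans (g8_agree _ (Y ∪ off) β₀ fun β hβ t ht => ?_)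
  rw [mem_filter, mem_filter] at hβ
  obtain ⟨⟨-, hσ', hC', -⟩, hoffβ⟩ := hβ
  rcases mem_union.1 ht with ht | ht
  · obtain ⟨-, h1, h2, h3⟩ := mem_filter.1 ht
    unfold Str.bp at h3
    rw [mem_filter] at h3
    obtain ⟨-, i, e, he, hie⟩ := h3
    have hβl : ∀ l', l' ≠ l → hb β₀ l' = hb β l' := by
      intro l' hl'
      funext g c
      unfold hb
      by_cases h : l' < S.L
      · rw [dif_pos h, dif_pos h]
        exact (hoffβ (⟨l', h⟩, g, c) (mem_filter.2 ⟨mem_univ _, hl'⟩)).symm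
      · rw [dif_neg h, dif_neg h]
    have h4 := out_tail hS A ι a hl hβl (hσ.trans hσ'.symm) t.2.2
    rw [h4] at he
    have h5 := hC' _ h2 he
    rw [List.mem_toFinset, mem_strm] at h5
    obtain ⟨l', g', i', c', -, h6⟩ := h5
    have h7 := (edg_inj hS hι hie h6).2.2.2.2
    have h8 : ∀ β' : Fin S.L × S.V × K → Bool, hb β' l t.2.1 t.2.2 = β' t := by
      intro β'
      unfold hb
      rw [dif_pos hl]
      congr 1
      refine Prod.ext (Fin.ext ?_) rfl
      exact h1.symm
    rw [h8, h8] at h7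
    exact h7.symm
  · exact hoffβ t ht

open Classical in
theorem sbits {K : Type} [Fintype K] [DecidableEq K] {S : Str K} (hS : S.OK) {n s : ℕ} (A : SAlg n s)
    {ι : ℕ → S.V → Bool → Fin n} (hι : S.Emb ι) (a : ℕ → K) {l : ℕ} (hl : l < S.L) (r : ℕ) :
    (univ.filter fun β : Fin S.L × S.V × K → Bool =>
      ∃ C : Finset K, (∀ c ∈ C, A.out (S.strm ι (Function.update a l c) (hb β) S.L) ⊆
          (S.strm ι (Function.update a l c) (hb β) S.L).toFinset) ∧
        s + Fintype.card K + r ≤ ∑ c ∈ C, (S.bp ι (Function.update a l c) (hb β)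
          (A.out (S.strm ι (Function.update a l c) (hb β) S.L)) l c).card).card * 2 ^ r ≤
      Fintype.card (Fin S.L × S.V × K → Bool) := by
  have h1 : (univ.filter fun β : Fin S.L × S.V × K → Bool =>
      ∃ C : Finset K, (∀ c ∈ C, A.out (S.strm ι (Function.update a l c) (hb β) S.L) ⊆
          (S.strm ι (Function.update a l c) (hb β) S.L).toFinset) ∧
        s + Fintype.card K + r ≤ ∑ c ∈ C, (S.bp ι (Function.update a l c) (hb β)
          (A.out (S.strm ι (Function.update a l c) (hb β) S.L)) l c).card) ⊆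
      (univ : Finset (Fin (2 ^ s) × Finset K)).biUnion fun z =>
        univ.filter fun β : Fin S.L × S.V × K → Bool =>
          A.state (S.strm ι a (hb β) (l + 1)) = z.1 ∧
          (∀ c ∈ z.2, A.out (S.strm ι (Function.update a l c) (hb β) S.L) ⊆
            (S.strm ι (Function.update a l c) (hb β) S.L).toFinset) ∧
          s + Fintype.card K + r ≤ ∑ c ∈ z.2, (S.bp ι (Function.update a l c) (hb β)
            (A.out (S.strm ι (Function.update a l c) (hb β) S.L)) l c).card := by
    intro β hβ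
    rw [mem_filter] at hβ
    obtain ⟨-, C, hC1, hC2⟩ := hβ
    rw [mem_biUnion]
    exact ⟨(A.state (S.strm ι a (hb β) (l + 1)), C), mem_univ _,
      mem_filter.2 ⟨mem_univ _, rfl, hC1, hC2⟩⟩
  have h2 := (card_le_card h1).trans card_biUnion_le
  have h3 : (∑ z : Fin (2 ^ s) × Finset K, (univ.filter fun β : Fin S.L × S.V × K → Bool =>
          A.state (S.strm ι a (hb β) (l + 1)) = z.1 ∧
          (∀ c ∈ z.2, A.out (S.strm ι (Function.update a l c) (hb β) S.L) ⊆
            (S.strm ι (Function.update a l c) (hb β) S.L).toFinset) ∧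
          s + Fintype.card K + r ≤ ∑ c ∈ z.2, (S.bp ι (Function.update a l c) (hb β)
            (A.out (S.strm ι (Function.update a l c) (hb β) S.L)) l c).card).card) *
          2 ^ (s + Fintype.card K + r) ≤
      2 ^ s * 2 ^ Fintype.card K * Fintype.card (Fin S.L × S.V × K → Bool) := by
    rw [Finset.sum_mul]
    refine (Finset.sum_le_sum fun z _ => one hS A hι a hl (s + Fintype.card K + r) z.1 z.2).trans ?_
    rw [Finset.sum_const, smul_eq_mul, Finset.card_univ, Fintype.card_prod, Fintype.card_fin,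
      Fintype.card_finset]
  have h4 := (Nat.mul_le_mul_right (2 ^ (s + Fintype.card K + r)) h2).trans h3
  rw [pow_add, pow_add, mul_left_comm] at h4
  exact Nat.le_of_mul_le_mul_left h4 (by positivity)

end Pool.Agent.Work.MP_eef58c_lc.TG
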