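import Pool.Agent.Work.MP_eef58c_lc.TG.Defs
import Pool.Agent.Work.MP_eef58c_lc.Model

set_option autoImplicit false

/-!
# MP_eef58c_lc, TG: streams (definitions)

* `Str K`: `p` copies of a hard scheme one after the other; `q l` is the copy of the phase `l < L`; the group vertices of all copies are
  the elements of `V`. `Hard.rep H p`: the stream of `p` copies of `H`.
* `ι q g i`: the vertex of the graph on `Fin n` for the copy `q`, the vertex `g` and the half `i` (random 2-lift).
* slot `(l, g, c)` (phase, group vertex, colour) and half `i`: the edge `s(ι q g i, ι q h (i xor β l g c))`, `h` the partner.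
-/

namespace Pool.Agent.Work.MP_eef58c_lc.TG

open Finset

variable {K : Type}

/-- a stream -/
structure Str (K : Type) where
  V : Type
  fV : Fintype V
  dV : DecidableEq V
  sd : V → Bool
  p : ℕ
  L : ℕ
  q : ℕ → ℕ
  par : (ℕ → K) → ℕ → V → K → Option V
  C : (ℕ → K) → ℕ → Finset V
  m : ℕ → ℕ
  M : ℕ
  c : ℕ

attribute [instance] Str.fV Str.dV

structure Str.OK (S : Str K) : Prop where
  q_lt : ∀ l < S.L, S.q l < S.p
  q_mono : Monotone S.q
  ge : ∀ a l g c, S.L ≤ l → S.par a l g c = none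
  loc : ∀ a a' l, (∀ i < l, a i = a' i) → S.par a l = S.par a' l
  side : ∀ a l g c h, S.par a l g c = some h → S.sd h = !S.sd g
  edge : ∀ a l l' g g' c c' h h', S.q l = S.q l' → S.par a l g c = some h → S.par a l' g' c' = some h' →
    s(g, h) = s(g', h') → l = l' ∧ g = g' ∧ c = c'
  sp : ∀ a l l' g g' h h', S.q l = S.q l' → S.par a l g (a l) = some h → S.par a l' g' (a l') = some h' →
    (g = g' ∨ g = h' ∨ h = g' ∨ h = h') → l = l' ∧ g = g'
  card_sp : ∀ a l, (univ.filter fun g => (S.par a l g (a l)).isSome).card = S.m l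
  cov : ∀ a l g c h, S.par a l g c = some h → c ≠ a l → g ∈ S.C a (S.q l) ∨ h ∈ S.C a (S.q l)
  card_C : ∀ a q, (S.C a q).card ≤ S.c
  sum_m : ∀ q < S.p, ∑ l ∈ (range S.L).filter (fun l => S.q l = q), S.m l = S.M

/-- `p` copies of a hard scheme -/
def Hard.rep (H : Hard K) (p : ℕ) : Str K where
  V := H.V
  fV := H.fV
  dV := H.dV
  sd := H.sd
  p := p
  L := p * H.J
  q := fun l => l / H.J
  par := fun a l g c => if l < p * H.J then H.par (sh a (l / H.J * H.J)) (l % H.J) g c else none
  C := fun a q => H.C (sh a (q * H.J))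
  m := fun l => if l < p * H.J then H.m (l % H.J) else 0
  M := H.D
  c := H.c

/-- `ι` is injective on the copies `q < p` -/
def Str.Emb (S : Str K) {n : ℕ} (ι : ℕ → S.V → Bool → Fin n) : Prop :=
  ∀ q q' g g' i i', q < S.p → q' < S.p → ι q g i = ι q' g' i' → q = q' ∧ g = g' ∧ i = i'

/-- the edge of the slot `(l, g, c)` and the half `i` -/
def Str.edg (S : Str K) {n : ℕ} (ι : ℕ → S.V → Bool → Fin n) (a : ℕ → K) (β : ℕ → S.V → K → Bool)
    (l : ℕ) (g : S.V) (i : Bool) (c : K) : Option (Sym2 (Fin n)) :=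
  (S.par a l g c).map fun h => s(ι (S.q l) g i, ι (S.q l) h (xor i (β l g c)))

/-- the edges of the phase `l` -/
noncomputable def Str.ph [Fintype K] (S : Str K) {n : ℕ} (ι : ℕ → S.V → Bool → Fin n) (a : ℕ → K)
    (β : ℕ → S.V → K → Bool) (l : ℕ) : List (Sym2 (Fin n)) :=
  (univ : Finset (S.V × Bool × K)).toList.filterMap fun t => S.edg ι a β l t.1 t.2.1 t.2.2

/-- the stream up to the phase `j - 1` -/
noncomputable def Str.strm [Fintype K] (S : Str K) {n : ℕ} (ι : ℕ → S.V → Bool → Fin n) (a : ℕ → K)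
    (β : ℕ → S.V → K → Bool) (j : ℕ) : List (Sym2 (Fin n)) := (List.range j).flatMap (S.ph ι a β)

open Classical in
/-- the slots (with halves) of a set of edges -/
noncomputable def Str.slots [Fintype K] (S : Str K) {n : ℕ} (ι : ℕ → S.V → Bool → Fin n) (a : ℕ → K)
    (β : ℕ → S.V → K → Bool) (X : Finset (Sym2 (Fin n))) : Finset (ℕ × (S.V × Bool) × K) :=
  (range S.L ×ˢ univ).filter fun t => ∃ e ∈ X, S.edg ι a β t.1 t.2.1.1 t.2.1.2 t.2.2 = some e

open Classical in
/-- the slots (without halves) of a set of edges -/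
noncomputable def Str.bs [Fintype K] (S : Str K) {n : ℕ} (ι : ℕ → S.V → Bool → Fin n) (a : ℕ → K)
    (β : ℕ → S.V → K → Bool) (X : Finset (Sym2 (Fin n))) : Finset (Fin S.L × S.V × K) :=
  univ.filter fun t => ∃ i, ∃ e ∈ X, S.edg ι a β t.1 t.2.1 i t.2.2 = some e

/-- extension of a finite hidden vector -/
noncomputable def ha [Nonempty K] {L : ℕ} (a : Fin L → K) : ℕ → K :=
  fun l => if h : l < L then a ⟨l, h⟩ else Classical.arbitrary K

/-- extension of finitely many bits -/
def hb {V : Type} {L : ℕ} (β : Fin L × V × K → Bool) : ℕ → V → K → Bool :=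
  fun l g c => if h : l < L then β (⟨l, h⟩, g, c) else false

end Pool.Agent.Work.MP_eef58c_lc.TG
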