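import Pool.Agent.Work.MP_eef58c_lc.TG.SDefs

set_option autoImplicit false

/-!
# MP_eef58c_lc, TG: streaming algorithms for maximum matching with an arbitrary output (definitions)
-/

namespace Pool.Agent.Work.MP_eef58c_lc.TG

open Finset

/-- A deterministic one-pass streaming algorithm with `s` bits of memory for graphs on `Fin n`. `state l` is the content of
the memory when the edges of the list `l` have arrived (in this order): it depends only on the time, the content of the memory
before the last edge and the last edge. `out l` is the output if the stream ends after `l`: it depends only on the time and on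
the content of the memory. -/
structure SAlg (n s : ℕ) where
  state : List (Sym2 (Fin n)) → Fin (2 ^ s)
  out : List (Sym2 (Fin n)) → Finset (Sym2 (Fin n))
  step : ∀ l l' e, l.length = l'.length → state l = state l' → state (l ++ [e]) = state (l' ++ [e])
  out_eq : ∀ l l', l.length = l'.length → state l = state l' → out l = out l'

/-- The output is a matching of the graph, and every matching of the graph has at most `α` times as many edges. -/
def SAlg.Succeeds {n s : ℕ} (A : SAlg n s) (α : ℝ) (l : List (Sym2 (Fin n))) : Prop :=
  A.out l ⊆ l.toFinset ∧ IsMatching (A.out l) ∧
    ∀ M' ⊆ l.toFinset, IsMatching M' → (M'.card : ℝ) ≤ α * (A.out l).card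

open Classical in
/-- the group vertices of the slots of colour `c` in the phase `l` with an edge in `X` -/
noncomputable def Str.bp {K : Type} (S : Str K) {n : ℕ} (ι : ℕ → S.V → Bool → Fin n) (a : ℕ → K)
    (β : ℕ → S.V → K → Bool) (X : Finset (Sym2 (Fin n))) (l : ℕ) (c : K) : Finset S.V :=
  univ.filter fun g => ∃ i, ∃ e ∈ X, S.edg ι a β l g i c = some e

end Pool.Agent.Work.MP_eef58c_lc.TG
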