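import Pool.Agent.Work.MP_eef58c_lc.TG.SDefs2
import Pool.Agent.Work.MP_eef58c_lc.TG.StrmA

set_option autoImplicit false

/-!
# MP_eef58c_lc, TG, module SRun (M): the output for streams which differ in one phase only

`salg_append`: induction on `r` from the right (`List.reverseRecOn`), `A.step` (the lengths of `l ++ r` and `l' ++ r` agree), then `A.out_eq`.
`length_strm`: the length of `S.ph ι a β l` does not depend on `β`: `List.length_filterMap_eq_countP` or `List.filterMap` of `Option.map`: `(edg ..).isSome = (S.par a l g c).isSome`; sum over the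
phases (`List.length_flatMap`).
`out_tail`: `S.strm ι a' β S.L = S.strm ι a' β (l+1) ++ (rest)` with `rest = (List.range' (l+1) (S.L - (l+1))).flatMap (S.ph ι a' β)`, `a' = Function.update a l c`; `rest` is the same for `β` and `β'`
(`S.ph` for a phase `l' ≠ l` uses only `β l'`), the first part is `S.strm ι a β (l+1)` by `strm_loc` (`a'` and `a` agree below `l`), `length_strm`, `salg_append`.
-/

namespace Pool.Agent.Work.MP_eef58c_lc.TG

open Finset

theorem salg_append {n s : ℕ} (A : SAlg n s) {l l' : List (Sym2 (Fin n))} (h1 : l.length = l'.length)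
    (h2 : A.state l = A.state l') (r : List (Sym2 (Fin n))) :
    A.state (l ++ r) = A.state (l' ++ r) ∧ A.out (l ++ r) = A.out (l' ++ r) := by
  have key : ∀ r : List (Sym2 (Fin n)), A.state (l ++ r) = A.state (l' ++ r) := by
    intro r
    induction r using List.reverseRecOn with
    | nil => simpa using h2
    | append_singleton r e ih =>
      rw [← List.append_assoc, ← List.append_assoc]
      exact A.step _ _ e (by rw [List.length_append, List.length_append, h1]) ih
  exact ⟨key r, A.out_eq _ _ (by rw [List.length_append, List.length_append, h1]) (key r)⟩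

variable {K : Type} [Fintype K]

private theorem length_ph (S : Str K) {n : ℕ} (ι : ℕ → S.V → Bool → Fin n) (a : ℕ → K)
    (β β' : ℕ → S.V → K → Bool) (l : ℕ) : (S.ph ι a β l).length = (S.ph ι a β' l).length := by
  unfold Str.ph
  rw [List.length_filterMap_eq_countP, List.length_filterMap_eq_countP]
  congr 1
  funext t
  unfold Str.edg
  rw [Option.isSome_map, Option.isSome_map]

theorem length_strm (S : Str K) {n : ℕ} (ι : ℕ → S.V → Bool → Fin n) (a : ℕ → K) (β β' : ℕ → S.V → K → Bool)
    (j : ℕ) : (S.strm ι a β j).length = (S.strm ι a β' j).length := by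
  unfold Str.strm
  rw [List.length_flatMap, List.length_flatMap]
  congr 1
  apply List.map_congr_left
  intro l _
  exact length_ph S ι a β β' l

private theorem strm_range (S : Str K) {n : ℕ} (ι : ℕ → S.V → Bool → Fin n) (a : ℕ → K)
    (β : ℕ → S.V → K → Bool) (j m : ℕ) : S.strm ι a β (j + m) =
      S.strm ι a β j ++ (List.range m).flatMap fun k => S.ph ι a β (j + k) := by
  unfold Str.strm
  rw [List.range_add, List.flatMap_append, List.flatMap_map]

theorem out_tail {S : Str K} (hS : S.OK) {n s : ℕ} (A : SAlg n s) (ι : ℕ → S.V → Bool → Fin n) (a : ℕ → K)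
    {β β' : ℕ → S.V → K → Bool} {l : ℕ} (hl : l < S.L) (hβ : ∀ l', l' ≠ l → β l' = β' l')
    (h : A.state (S.strm ι a β (l + 1)) = A.state (S.strm ι a β' (l + 1))) (c : K) :
    A.out (S.strm ι (Function.update a l c) β S.L) = A.out (S.strm ι (Function.update a l c) β' S.L) := by
  obtain ⟨m, hm⟩ := Nat.exists_eq_add_of_le (Nat.succ_le_of_lt hl)
  have hm' : S.L = (l + 1) + m := hm
  have hu : ∀ i < l, Function.update a l c i = a i := fun i hi =>
    Function.update_of_ne hi.ne c a
  have e1 : ∀ γ : ℕ → S.V → K → Bool, S.strm ι (Function.update a l c) γ (l + 1) =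
      S.strm ι a γ (l + 1) := fun γ => strm_loc hS ι γ hu
  have e2 : ((List.range m).flatMap fun k => S.ph ι (Function.update a l c) β (l + 1 + k)) =
      (List.range m).flatMap fun k => S.ph ι (Function.update a l c) β' (l + 1 + k) := by
    congr 1
    funext k
    have hb : β (l + 1 + k) = β' (l + 1 + k) := hβ _ (by omega)
    unfold Str.ph Str.edg
    rw [hb]
  rw [hm', strm_range _ _ _ β (l + 1) m, strm_range _ _ _ β' (l + 1) m, e1, e1, e2]
  exact (salg_append A (length_strm S ι a β β' (l + 1)) h _).2

end Pool.Agent.Work.MP_eef58c_lc.TG
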