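import Pool.Agent.Work.MP_eef58c_lc.TG.Defs

set_option autoImplicit false

/-!
# MP_eef58c_lc, TG, module SchA (M): schemes without edges, copies with labels, sums

`sum_ok`: an edge of `S.sum T` in a phase `j < S.J` is `(inl u, inl h)` with `S.par a j u c = some h`; in a phase `j ≥ S.J` it is
`(inr u, inr h)` with `T.par (sh a S.J) (j - S.J) u c = some h`; edges of the two kinds have no common vertex. The special colour:
`a j = sh a S.J (j - S.J)` because `sh a i j = a (i + j)`. `card_sp`: the filter is the image of the filter of `S` (or `T`) under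
`Sum.inl` (`Sum.inr`). For `j ≥ S.J + T.J` use `T`'s `ge` and `card_sp` (`T.m (j - S.J) = 0`). `prod_ok`: labels are fixed,
the filter for `card_sp` is `filter × univ`. `D_sum`: `Finset.sum_range_add` or `Finset.range_add`, `sum_range_succ`.
-/

namespace Pool.Agent.Work.MP_eef58c_lc.TG

open Finset

variable {K : Type}

theorem emp_ok (V : Type) [Fintype V] [DecidableEq V] (sd : V → Bool) : (Sch.emp K V sd).OK where
  ge := fun _ _ _ _ _ => rfl
  loc := fun _ _ _ _ => rfl
  side := fun _ _ _ _ _ h => absurd h (by simp [Sch.emp])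
  edge := fun _ _ _ _ _ _ _ _ _ h => absurd h (by simp [Sch.emp])
  sp := fun _ _ _ _ _ _ _ h => absurd h (by simp [Sch.emp])
  card_sp := fun _ _ => by
    show (univ.filter fun _ : V => (none : Option V).isSome = true).card = 0
    simp

private theorem prod_some {S : Sch K} {X : Type} [Fintype X] [DecidableEq X] {a : ℕ → K} {j : ℕ}
    {g h : S.V × X} {c : K} (H : (S.prod X).par a j g c = some h) :
    S.par a j g.1 c = some h.1 ∧ h.2 = g.2 := by
  have H' : (S.par a j g.1 c).map (fun h => (h, g.2)) = some h := H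
  rw [Option.map_eq_some_iff] at H'
  obtain ⟨u, hu, rfl⟩ := H'
  exact ⟨hu, rfl⟩

theorem prod_ok {S : Sch K} (hS : S.OK) (X : Type) [Fintype X] [DecidableEq X] : (S.prod X).OK where
  ge := fun a j g c hj => by
    show (S.par a j g.1 c).map (fun h => (h, g.2)) = none
    rw [hS.ge a j g.1 c hj]
    rfl
  loc := fun a a' j hj => by
    funext g c
    show (S.par a j g.1 c).map (fun h => (h, g.2)) = (S.par a' j g.1 c).map (fun h => (h, g.2))
    rw [hS.loc a a' j hj]
  side := fun a j g c h H => hS.side a j g.1 c h.1 (prod_some H).1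
  edge := fun a j j' g g' c c' h h' H H' e => by
    obtain ⟨h1, h2⟩ := prod_some H
    obtain ⟨h1', h2'⟩ := prod_some H'
    have e1 : s(g.1, h.1) = s(g'.1, h'.1) := congrArg (Sym2.map (Prod.fst : S.V × X → S.V)) e
    obtain ⟨r1, r2, r3⟩ := hS.edge a j j' g.1 g'.1 c c' h.1 h'.1 h1 h1' e1
    refine ⟨r1, Prod.ext r2 ?_, r3⟩
    rw [Sym2.eq_iff] at e
    rcases e with ⟨e, -⟩ | ⟨e, -⟩
    · exact congrArg Prod.snd e
    · exact (congrArg Prod.snd e).trans h2'
  sp := fun a j j' g g' h h' H H' e => by
    obtain ⟨h1, h2⟩ := prod_some H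
    obtain ⟨h1', h2'⟩ := prod_some H'
    have e1 : g.1 = g'.1 ∨ g.1 = h'.1 ∨ h.1 = g'.1 ∨ h.1 = h'.1 := by
      rcases e with e | e | e | e
      · exact Or.inl (congrArg Prod.fst e)
      · exact Or.inr (Or.inl (congrArg Prod.fst e))
      · exact Or.inr (Or.inr (Or.inl (congrArg Prod.fst e)))
      · exact Or.inr (Or.inr (Or.inr (congrArg Prod.fst e)))
    obtain ⟨r1, r2⟩ := hS.sp a j j' g.1 g'.1 h.1 h'.1 h1 h1' e1
    refine ⟨r1, Prod.ext r2 ?_⟩
    rcases e with e | e | e | e
    · exact congrArg Prod.snd e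
    · exact (congrArg Prod.snd e).trans h2'
    · exact h2.symm.trans (congrArg Prod.snd e)
    · exact h2.symm.trans ((congrArg Prod.snd e).trans h2')
  card_sp := fun a j => by
    have e : (univ.filter fun g : S.V × X => ((S.prod X).par a j g (a j)).isSome) =
        (univ.filter fun g : S.V => (S.par a j g (a j)).isSome) ×ˢ (univ : Finset X) := by
      ext g
      simp only [Finset.mem_filter, Finset.mem_univ, true_and, Finset.mem_product, and_true]
      show ((S.par a j g.1 (a j)).map (fun h => (h, g.2))).isSome = true ↔ _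
      rw [Option.isSome_map]
    have e2 := congrArg Finset.card e
    rw [Finset.card_product, hS.card_sp a j, Finset.card_univ] at e2
    exact e2

private theorem sum_some {S T : Sch K} {a : ℕ → K} {j : ℕ} {g h : S.V ⊕ T.V} {c : K}
    (H : (S.sum T).par a j g c = some h) :
    (j < S.J ∧ ∃ u v, g = Sum.inl u ∧ h = Sum.inl v ∧ S.par a j u c = some v) ∨
      (S.J ≤ j ∧ ∃ u v, g = Sum.inr u ∧ h = Sum.inr v ∧
        T.par (sh a S.J) (j - S.J) u c = some v) := by
  have H' : (if j < S.J then Sum.elim (fun u => (S.par a j u c).map Sum.inl) (fun _ => none) g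
    else Sum.elim (fun _ => none) (fun u => (T.par (sh a S.J) (j - S.J) u c).map Sum.inr) g) =
      some h := H
  by_cases hj : j < S.J
  · rw [if_pos hj] at H'
    rcases g with u | u
    · simp only [Sum.elim_inl, Option.map_eq_some_iff] at H'
      obtain ⟨v, hv, rfl⟩ := H'
      exact Or.inl ⟨hj, u, v, rfl, rfl, hv⟩
    · simp at H'
  · rw [if_neg hj] at H'
    rcases g with u | u
    · simp at H'
    · simp only [Sum.elim_inr, Option.map_eq_some_iff] at H'
      obtain ⟨v, hv, rfl⟩ := H'
      exact Or.inr ⟨not_lt.1 hj, u, v, rfl, rfl, hv⟩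

private theorem sh_sub {a : ℕ → K} {i j : ℕ} (h : i ≤ j) : sh a i (j - i) = a j := by
  show a (i + (j - i)) = a j
  rw [Nat.add_sub_cancel' h]

theorem sum_ok {S T : Sch K} (hS : S.OK) (hT : T.OK) : (S.sum T).OK where
  ge := fun a j g c hj => by
    have hj' : S.J + T.J ≤ j := hj
    show (if j < S.J then Sum.elim (fun u => (S.par a j u c).map Sum.inl) (fun _ => none) g
      else Sum.elim (fun _ => none) (fun u => (T.par (sh a S.J) (j - S.J) u c).map Sum.inr) g) = none
    rw [if_neg (by omega)]
    rcases g with u | u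
    · rfl
    · simp only [Sum.elim_inr]
      rw [hT.ge (sh a S.J) (j - S.J) u c (by omega)]
      rfl
  loc := fun a a' j hj => by
    funext g c
    show (if j < S.J then Sum.elim (fun u => (S.par a j u c).map Sum.inl) (fun _ => none) g
      else Sum.elim (fun _ => none) (fun u => (T.par (sh a S.J) (j - S.J) u c).map Sum.inr) g) =
      (if j < S.J then Sum.elim (fun u => (S.par a' j u c).map Sum.inl) (fun _ => none) g
      else Sum.elim (fun _ => none) (fun u => (T.par (sh a' S.J) (j - S.J) u c).map Sum.inr) g)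
    by_cases h : j < S.J
    · rw [if_pos h, if_pos h, hS.loc a a' j hj]
    · rw [if_neg h, if_neg h, hT.loc (sh a S.J) (sh a' S.J) (j - S.J) (fun i hi => hj _ (by omega))]
  side := fun a j g c h H => by
    rcases sum_some H with ⟨-, u, v, rfl, rfl, hv⟩ | ⟨-, u, v, rfl, rfl, hv⟩
    · exact hS.side a j u c v hv
    · exact hT.side _ _ u c v hv
  edge := fun a j j' g g' c c' h h' H H' e => by
    rcases sum_some H with ⟨hj, u, v, rfl, rfl, hv⟩ | ⟨hj, u, v, rfl, rfl, hv⟩ <;>
      rcases sum_some H' with ⟨hj', u', v', rfl, rfl, hv'⟩ | ⟨hj', u', v', rfl, rfl, hv'⟩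
    · have e1 : s(u, v) = s(u', v') := by
        rw [Sym2.eq_iff] at e ⊢
        rcases e with ⟨e1, e2⟩ | ⟨e1, e2⟩
        · exact Or.inl ⟨Sum.inl_injective e1, Sum.inl_injective e2⟩
        · exact Or.inr ⟨Sum.inl_injective e1, Sum.inl_injective e2⟩
      obtain ⟨r1, r2, r3⟩ := hS.edge a j j' u u' c c' v v' hv hv' e1
      exact ⟨r1, congrArg _ r2, r3⟩
    · rw [Sym2.eq_iff] at e
      rcases e with ⟨e, -⟩ | ⟨e, -⟩ <;> exact absurd e Sum.inl_ne_inr
    · rw [Sym2.eq_iff] at e
      rcases e with ⟨e, -⟩ | ⟨e, -⟩ <;> exact absurd e Sum.inr_ne_inl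
    · have e1 : s(u, v) = s(u', v') := by
        rw [Sym2.eq_iff] at e ⊢
        rcases e with ⟨e1, e2⟩ | ⟨e1, e2⟩
        · exact Or.inl ⟨Sum.inr_injective e1, Sum.inr_injective e2⟩
        · exact Or.inr ⟨Sum.inr_injective e1, Sum.inr_injective e2⟩
      obtain ⟨r1, r2, r3⟩ := hT.edge _ _ _ u u' c c' v v' hv hv' e1
      exact ⟨by omega, congrArg _ r2, r3⟩
  sp := fun a j j' g g' h h' H H' e => by
    rcases sum_some H with ⟨hj, u, v, rfl, rfl, hv⟩ | ⟨hj, u, v, rfl, rfl, hv⟩ <;>
      rcases sum_some H' with ⟨hj', u', v', rfl, rfl, hv'⟩ | ⟨hj', u', v', rfl, rfl, hv'⟩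
    · obtain ⟨r1, r2⟩ := hS.sp a j j' u u' v v' hv hv' (by
        rcases e with e | e | e | e
        · exact Or.inl (Sum.inl_injective e)
        · exact Or.inr (Or.inl (Sum.inl_injective e))
        · exact Or.inr (Or.inr (Or.inl (Sum.inl_injective e)))
        · exact Or.inr (Or.inr (Or.inr (Sum.inl_injective e))))
      exact ⟨r1, congrArg _ r2⟩
    · rcases e with e | e | e | e <;> exact absurd e Sum.inl_ne_inr
    · rcases e with e | e | e | e <;> exact absurd e Sum.inr_ne_inl
    · rw [← sh_sub (a := a) hj] at hv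
      rw [← sh_sub (a := a) hj'] at hv'
      obtain ⟨r1, r2⟩ := hT.sp _ _ _ u u' v v' hv hv' (by
        rcases e with e | e | e | e
        · exact Or.inl (Sum.inr_injective e)
        · exact Or.inr (Or.inl (Sum.inr_injective e))
        · exact Or.inr (Or.inr (Or.inl (Sum.inr_injective e)))
        · exact Or.inr (Or.inr (Or.inr (Sum.inr_injective e))))
      exact ⟨by omega, congrArg _ r2⟩
  card_sp := fun a j => by
    by_cases hj : j < S.J
    · have e : (univ.filter fun g : S.V ⊕ T.V => ((S.sum T).par a j g (a j)).isSome) =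
          (univ.filter fun g : S.V => (S.par a j g (a j)).isSome).map ⟨Sum.inl, Sum.inl_injective⟩ := by
        ext g
        simp only [Finset.mem_filter, Finset.mem_univ, true_and, Finset.mem_map,
          Function.Embedding.coeFn_mk]
        constructor
        · intro H
          obtain ⟨h, hh⟩ := Option.isSome_iff_exists.1 H
          rcases sum_some hh with ⟨-, u, v, rfl, rfl, hv⟩ | ⟨hj', -⟩
          · exact ⟨u, by rw [hv]; rfl, rfl⟩
          · omega
        · rintro ⟨u, hu, rfl⟩
          show (if j < S.J then Sum.elim (fun u => (S.par a j u (a j)).map Sum.inl) (fun _ => none)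
            (Sum.inl u : S.V ⊕ T.V) else Sum.elim (fun _ => none)
            (fun u => (T.par (sh a S.J) (j - S.J) u (a j)).map Sum.inr) (Sum.inl u : S.V ⊕ T.V)).isSome = true
          rw [if_pos hj, Sum.elim_inl, Option.isSome_map]
          exact hu
      have e2 := congrArg Finset.card e
      rw [Finset.card_map, hS.card_sp a j] at e2
      refine e2.trans ?_
      show S.m j = if j < S.J then S.m j else T.m (j - S.J)
      rw [if_pos hj]
    · have e : (univ.filter fun g : S.V ⊕ T.V => ((S.sum T).par a j g (a j)).isSome) =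
          (univ.filter fun g : T.V => (T.par (sh a S.J) (j - S.J) g
            (sh a S.J (j - S.J))).isSome).map ⟨Sum.inr, Sum.inr_injective⟩ := by
        rw [sh_sub (not_lt.1 hj)]
        ext g
        simp only [Finset.mem_filter, Finset.mem_univ, true_and, Finset.mem_map,
          Function.Embedding.coeFn_mk]
        constructor
        · intro H
          obtain ⟨h, hh⟩ := Option.isSome_iff_exists.1 H
          rcases sum_some hh with ⟨hj', -⟩ | ⟨-, u, v, rfl, rfl, hv⟩
          · omega
          · exact ⟨u, by rw [hv]; rfl, rfl⟩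
        · rintro ⟨u, hu, rfl⟩
          show (if j < S.J then Sum.elim (fun u => (S.par a j u (a j)).map Sum.inl) (fun _ => none)
            (Sum.inr u : S.V ⊕ T.V) else Sum.elim (fun _ => none)
            (fun u => (T.par (sh a S.J) (j - S.J) u (a j)).map Sum.inr) (Sum.inr u : S.V ⊕ T.V)).isSome = true
          rw [if_neg hj, Sum.elim_inr, Option.isSome_map]
          exact hu
      have e2 := congrArg Finset.card e
      rw [Finset.card_map, hT.card_sp (sh a S.J) (j - S.J)] at e2
      refine e2.trans ?_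
      show T.m (j - S.J) = if j < S.J then S.m j else T.m (j - S.J)
      rw [if_neg hj]

theorem D_emp (V : Type) [Fintype V] [DecidableEq V] (sd : V → Bool) : (Sch.emp K V sd).D = 0 := rfl

theorem D_prod (S : Sch K) (X : Type) [Fintype X] [DecidableEq X] : (S.prod X).D = S.D * Fintype.card X := by
  show ∑ j ∈ range S.J, S.m j * Fintype.card X = (∑ j ∈ range S.J, S.m j) * Fintype.card X
  rw [Finset.sum_mul]

theorem D_sum (S T : Sch K) : (S.sum T).D = S.D + T.D := by
  show ∑ j ∈ range (S.J + T.J), (if j < S.J then S.m j else T.m (j - S.J)) =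
    ∑ j ∈ range S.J, S.m j + ∑ j ∈ range T.J, T.m j
  rw [Finset.sum_range_add]
  congr 1
  · refine Finset.sum_congr rfl fun j hj => ?_
    rw [if_pos (Finset.mem_range.1 hj)]
  · refine Finset.sum_congr rfl fun j _ => ?_
    rw [if_neg (by omega), Nat.add_sub_cancel_left]

end Pool.Agent.Work.MP_eef58c_lc.TG
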