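import Pool.Agent.Work.MP_eef58c_lc.TG.StrmA
import Pool.Agent.Work.MP_eef58c_lc.TG.Slot

set_option autoImplicit false

/-!
# MP_eef58c_lc, TG, module SpecM (M): the special edges form a large matching

`M'` = the set of the edges of the slots `(l, g, a l)`, both halves (filter of `(strm L).toFinset` or an image). `IsMatching`: let `e, e'` be the edges of `(l, g, a l), i` and
`(l', g', a l'), i'` and `v` a common vertex; by `hι` the copies are equal, `S.q l = S.q l'`, and one of `g, h` is equal to one of `g', h'` with the same half; `S.OK.sp`: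
`l = l'`, `g = g'`, hence `h = h'`, and the common vertex is either the `g`-end of both (so `i = i'`), or the `h`-end of both (`i xor b = i' xor b`), or the `g`-end of one
and the `h`-end of the other (impossible: `g = h` contradicts `side`). So `e = e'`.
Slots of `M'`: `edg_inj`. Card: `slots_card_eq`, the number of the `(l, (g, i), a l)` is `∑ l < L, 2 * m l` (`card_sp`), and `∑ l < L, m l = p * M` (`sum_m`, `q_lt`,
`Finset.sum_fiberwise_of_maps_to`).
-/

namespace Pool.Agent.Work.MP_eef58c_lc.TG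

open Finset

variable {K : Type} [Fintype K] [DecidableEq K]

theorem sum_all_m {S : Str K} (hS : S.OK) : ∑ l ∈ range S.L, S.m l = S.p * S.M := by
  have h1 : ∀ l ∈ range S.L, S.q l ∈ range S.p := fun l hl =>
    mem_range.2 (hS.q_lt l (mem_range.1 hl))
  rw [← Finset.sum_fiberwise_of_maps_to h1]
  rw [Finset.sum_congr rfl fun q hq => hS.sum_m q (mem_range.1 hq)]
  rw [Finset.sum_const, card_range, smul_eq_mul]

omit [Fintype K] [DecidableEq K] in
private theorem sm_ne {S : Str K} (hS : S.OK) {a : ℕ → K} {l : ℕ} {g h : S.V} {c : K}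
    (hu : S.par a l g c = some h) : h ≠ g := by
  intro e
  have h3 := hS.side a l g c h hu
  rw [e] at h3
  cases hh : S.sd g <;> simp [hh] at h3

omit [Fintype K] [DecidableEq K] in
private theorem sm_match {S : Str K} (hS : S.OK) {n : ℕ} {ι : ℕ → S.V → Bool → Fin n}
    (hι : S.Emb ι) (a : ℕ → K) (β : ℕ → S.V → K → Bool) {l l' : ℕ} {g g' : S.V} {i i' : Bool}
    {e e' : Sym2 (Fin n)} (he : S.edg ι a β l g i (a l) = some e)
    (he' : S.edg ι a β l' g' i' (a l') = some e') {v : Fin n} (hv : v ∈ e) (hv' : v ∈ e') :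
    e = e' := by
  have hq := hS.q_lt l (edg_lt hS he)
  have hq' := hS.q_lt l' (edg_lt hS he')
  obtain ⟨h, hu, rfl⟩ := (edg_some S ι a β l g i (a l) e).1 he
  obtain ⟨h', hu', rfl⟩ := (edg_some S ι a β l' g' i' (a l') e').1 he'
  rw [Sym2.mem_iff] at hv hv'
  rcases hv with hv | hv <;> rcases hv' with hv' | hv' <;> rw [hv] at hv' <;>
    obtain ⟨e1, e2, e3⟩ := hι _ _ _ _ _ _ hq hq' hv'
  · obtain ⟨f1, f2⟩ := hS.sp a l l' g g' h h' e1 hu hu' (Or.inl e2)
    subst f1 f2 e3
    rw [hu] at hu'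
    cases hu'
    rfl
  · obtain ⟨f1, f2⟩ := hS.sp a l l' g g' h h' e1 hu hu' (Or.inr (Or.inl e2))
    exact absurd (e2.symm.trans f2) (sm_ne hS hu')
  · obtain ⟨f1, f2⟩ := hS.sp a l l' g g' h h' e1 hu hu' (Or.inr (Or.inr (Or.inl e2)))
    exact absurd (e2.trans f2.symm) (sm_ne hS hu)
  · obtain ⟨f1, f2⟩ := hS.sp a l l' g g' h h' e1 hu hu' (Or.inr (Or.inr (Or.inr e2)))
    subst f1 f2
    rw [hu] at hu'
    cases hu'
    have : i = i' := by simpa using e3
    subst this
    rfl

theorem special_matching {S : Str K} (hS : S.OK) {n : ℕ} {ι : ℕ → S.V → Bool → Fin n} (hι : S.Emb ι) (a : ℕ → K)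
    (β : ℕ → S.V → K → Bool) : ∃ M' : Finset (Sym2 (Fin n)), M' ⊆ (S.strm ι a β S.L).toFinset ∧ IsMatching M' ∧
      (∀ t, t ∈ S.slots ι a β M' ↔ t.1 < S.L ∧ t.2.2 = a t.1 ∧ (S.par a t.1 t.2.1.1 (a t.1)).isSome) ∧
      M'.card = 2 * (S.p * S.M) := by
  classical
  set M' : Finset (Sym2 (Fin n)) := (S.strm ι a β S.L).toFinset.filter
    fun e => ∃ l g i, S.edg ι a β l g i (a l) = some e with hM'
  have hmem : ∀ e ∈ M', ∃ l g i, S.edg ι a β l g i (a l) = some e := fun e he =>
    (mem_filter.1 he).2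
  have hslots : ∀ t, t ∈ S.slots ι a β M' ↔
      t.1 < S.L ∧ t.2.2 = a t.1 ∧ (S.par a t.1 t.2.1.1 (a t.1)).isSome := by
    rintro ⟨l, ⟨g, i⟩, c⟩
    rw [mem_slots hS]
    constructor
    · rintro ⟨e, he, hee⟩
      change S.edg ι a β l g i c = some e at hee
      obtain ⟨l', g', i', he'⟩ := hmem e he
      obtain ⟨rfl, rfl, rfl, rfl, -⟩ := edg_inj hS hι hee he'
      obtain ⟨h, hu, -⟩ := (edg_some S ι a β l g i (a l) e).1 he'
      refine ⟨edg_lt hS hee, rfl, ?_⟩
      change (S.par a l g (a l)).isSome = true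
      rw [hu]
      rfl
    · rintro ⟨hl, hc, hs⟩
      change l < S.L at hl
      change c = a l at hc
      change (S.par a l g (a l)).isSome = true at hs
      subst hc
      obtain ⟨h, hu⟩ := Option.isSome_iff_exists.1 hs
      have he : S.edg ι a β l g i (a l) = some s(ι (S.q l) g i, ι (S.q l) h (xor i (β l g (a l)))) :=
        (edg_some S ι a β l g i (a l) _).2 ⟨h, hu, rfl⟩
      refine ⟨_, mem_filter.2 ⟨?_, l, g, i, he⟩, he⟩
      rw [List.mem_toFinset, mem_strm]
      exact ⟨l, g, i, a l, hl, he⟩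
  refine ⟨M', filter_subset _ _, ?_, hslots, ?_⟩
  · intro e he e' he' v hv hv'
    obtain ⟨l, g, i, h1⟩ := hmem e he
    obtain ⟨l', g', i', h2⟩ := hmem e' he'
    exact sm_match hS hι a β h1 h2 hv hv'
  · rw [← slots_card_eq hS hι a β M' (fun e he => by
      obtain ⟨l, g, i, h1⟩ := hmem e he
      exact ⟨l, g, i, a l, h1⟩)]
    have hc : (S.slots ι a β M').card = ((range S.L).sigma fun l =>
        (univ.filter fun g => (S.par a l g (a l)).isSome) ×ˢ (univ : Finset Bool)).card := by
      refine Finset.card_nbij' (fun t => ⟨t.1, t.2.1⟩) (fun t => (t.1, t.2, a t.1)) ?_ ?_ ?_ ?_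
      · intro t ht
        have h1 := (hslots t).1 ht
        simp only [coe_sigma, Set.mem_sigma_iff, coe_range, Set.mem_Iio, mem_coe, mem_product,
          mem_filter, mem_univ, true_and, and_true]
        exact ⟨h1.1, h1.2.2⟩
      · intro t ht
        simp only [coe_sigma, Set.mem_sigma_iff, coe_range, Set.mem_Iio, mem_coe, mem_product,
          mem_filter, mem_univ, true_and, and_true] at ht
        exact (hslots _).2 ⟨ht.1, rfl, ht.2⟩
      · intro t ht
        have h1 := (hslots t).1 ht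
        obtain ⟨l, gi, c⟩ := t
        simp only at h1 ⊢
        rw [h1.2.1]
      · intro t ht
        rfl
    rw [hc, card_sigma]
    have h2 : ∀ l ∈ range S.L, ((univ.filter fun g => (S.par a l g (a l)).isSome) ×ˢ
        (univ : Finset Bool)).card = 2 * S.m l := by
      intro l _
      rw [card_product, hS.card_sp a l, card_univ, Fintype.card_bool, mul_comm]
    rw [Finset.sum_congr rfl h2, ← Finset.mul_sum, sum_all_m hS]

end Pool.Agent.Work.MP_eef58c_lc.TG
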